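import Mathlib

/-!
Rotations in coordinate planes.
-/

open MeasureTheory Set

namespace Pool.Agent.NVec

noncomputable section

variable {N : ℕ}


/-- coordinates of the rotation by the angle `φ` in the `(p,q)`-plane -/
def rotFun (p q : Fin N) (φ : ℝ) (u : EuclideanSpace ℝ (Fin N)) : EuclideanSpace ℝ (Fin N) :=
  WithLp.toLp 2 fun r => if r = p then Real.cos φ * u p - Real.sin φ * u q
    else if r = q then Real.sin φ * u p + Real.cos φ * u q else u r

lemma rotFun_p (p q : Fin N) (φ : ℝ) (u : EuclideanSpace ℝ (Fin N)) :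
    rotFun p q φ u p = Real.cos φ * u p - Real.sin φ * u q := by simp [rotFun]

lemma rotFun_q {p q : Fin N} (h : p ≠ q) (φ : ℝ) (u : EuclideanSpace ℝ (Fin N)) :
    rotFun p q φ u q = Real.sin φ * u p + Real.cos φ * u q := by simp [rotFun, h.symm]

lemma rotFun_r {p q r : Fin N} (h1 : r ≠ p) (h2 : r ≠ q) (φ : ℝ) (u : EuclideanSpace ℝ (Fin N)) :
    rotFun p q φ u r = u r := by simp [rotFun, h1, h2]

lemma inner_eq (u v : EuclideanSpace ℝ (Fin N)) : inner ℝ u v = ∑ r, u r * v r := by
  simp [PiLp.inner_apply, mul_comm]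

lemma inner_rotFun {p q : Fin N} (h : p ≠ q) (a b : ℝ) (u v : EuclideanSpace ℝ (Fin N)) :
    inner ℝ (rotFun p q a u) (rotFun p q b v) = inner ℝ u v
      + (Real.cos (a - b) - 1) * (u p * v p + u q * v q)
      + Real.sin (a - b) * (u p * v q - u q * v p) := by
  rw [inner_eq, inner_eq]
  have key : ∀ r, rotFun p q a u r * rotFun p q b v r = u r * v r
      + (if r = p then rotFun p q a u p * rotFun p q b v p - u p * v p else 0)
      + (if r = q then rotFun p q a u q * rotFun p q b v q - u q * v q else 0) := by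
    intro r
    by_cases h1 : r = p
    · have h2 : r ≠ q := by rw [h1]; exact h
      rw [if_pos h1, if_neg h2, h1]; ring
    · by_cases h2 : r = q
      · rw [if_neg h1, if_pos h2, h2]; ring
      · rw [if_neg h1, if_neg h2, rotFun_r h1 h2, rotFun_r h1 h2]; ring
  rw [Finset.sum_congr rfl (fun r _ => key r), Finset.sum_add_distrib, Finset.sum_add_distrib, Finset.sum_ite_eq' Finset.univ p,
    Finset.sum_ite_eq' Finset.univ q, if_pos (Finset.mem_univ p), if_pos (Finset.mem_univ q),
    rotFun_p, rotFun_p, rotFun_q h, rotFun_q h, Real.cos_sub, Real.sin_sub]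
  ring

lemma norm_rotFun {p q : Fin N} (h : p ≠ q) (a : ℝ) (u : EuclideanSpace ℝ (Fin N)) : ‖rotFun p q a u‖ = ‖u‖ := by
  have := inner_rotFun h a a u u
  rw [real_inner_self_eq_norm_sq, real_inner_self_eq_norm_sq] at this
  simpa using this

/-- the rotation by the angle `φ` in the `(p,q)`-plane as a linear isometry -/
def rotLI {p q : Fin N} (h : p ≠ q) (φ : ℝ) : (EuclideanSpace ℝ (Fin N)) →ₗᵢ[ℝ] (EuclideanSpace ℝ (Fin N)) where
  toFun := rotFun p q φ
  map_add' u v := by
    ext r
    simp only [rotFun, PiLp.add_apply]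
    split_ifs <;> ring
  map_smul' c u := by
    ext r
    simp only [rotFun, PiLp.smul_apply, smul_eq_mul, RingHom.id_apply]
    split_ifs <;> ring
  norm_map' u := norm_rotFun h φ u

/-- the rotation by the angle `φ` in the `(p,q)`-plane -/
def rot {p q : Fin N} (h : p ≠ q) (φ : ℝ) : (EuclideanSpace ℝ (Fin N)) ≃ₗᵢ[ℝ] (EuclideanSpace ℝ (Fin N)) :=
  (rotLI h φ).toLinearIsometryEquiv rfl

@[simp] lemma rot_apply {p q : Fin N} (h : p ≠ q) (φ : ℝ) (u : EuclideanSpace ℝ (Fin N)) :
    rot h φ u = rotFun p q φ u := rfl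

end

end Pool.Agent.NVec
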