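import Pool.Agent.H.MP_8be4c0_mp.Defs
import Pool.Agent.H.MP_8be4c0_mp.Rot

/-!
The complex rotation bound (McBryan-Spencer).
-/

open MeasureTheory Set Filter Topology

namespace Pool.Agent.NVec

set_option linter.unusedSectionVars false

noncomputable section

variable {n : ℕ} {V : Type} [Fintype V]


lemma h01 : (0 : Fin (n + 2)) ≠ 1 := by
  intro h
  have := congrArg Fin.val h
  simp at this

/-- product in the first plane -/
def PP (u v : EuclideanSpace ℝ (Fin (n + 2))) : ℝ := u 0 * v 0 + u 1 * v 1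

/-- wedge in the first plane -/
def QQ (u v : EuclideanSpace ℝ (Fin (n + 2))) : ℝ := u 0 * v 1 - u 1 * v 0

/-- minus the energy with isotropic couplings `c` and additional couplings `d` in the first
plane -/
def W (c d : V → V → ℝ) (S : V → Spin (n + 2)) : ℝ :=
  ∑ i, ∑ k, (c i k * inner ℝ (S i : EuclideanSpace ℝ (Fin (n + 2))) (S k)
    + d i k * PP (S i : EuclideanSpace ℝ (Fin (n + 2))) (S k))

lemma continuous_coord (i : V) (r : Fin (n + 2)) :
    Continuous fun S : V → Spin (n + 2) => (S i : EuclideanSpace ℝ (Fin (n + 2))) r := by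
  have h1 : Continuous fun S : V → Spin (n + 2) => (S i : EuclideanSpace ℝ (Fin (n + 2))) :=
    continuous_subtype_val.comp (continuous_apply i)
  exact (EuclideanSpace.proj r : (EuclideanSpace ℝ (Fin (n + 2))) →L[ℝ] ℝ).continuous.comp h1

lemma continuous_spin (i : V) :
    Continuous fun S : V → Spin (n + 2) => (S i : EuclideanSpace ℝ (Fin (n + 2))) :=
  continuous_subtype_val.comp (continuous_apply i)

lemma continuous_inner_spin (i k : V) :
    Continuous fun S : V → Spin (n + 2) =>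
      inner ℝ (S i : EuclideanSpace ℝ (Fin (n + 2))) (S k) :=
  (continuous_spin i).inner (continuous_spin k)

lemma continuous_PP (i k : V) :
    Continuous fun S : V → Spin (n + 2) => PP (S i : EuclideanSpace ℝ (Fin (n + 2))) (S k) :=
  ((continuous_coord i 0).mul (continuous_coord k 0)).add
    ((continuous_coord i 1).mul (continuous_coord k 1))

lemma continuous_QQ (i k : V) :
    Continuous fun S : V → Spin (n + 2) => QQ (S i : EuclideanSpace ℝ (Fin (n + 2))) (S k) := by
  have h1 : Continuous fun S : V → Spin (n + 2) =>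
      (S i : EuclideanSpace ℝ (Fin (n + 2))) 0 * (S k : EuclideanSpace ℝ (Fin (n + 2))) 1 :=
    (continuous_coord i 0).mul (continuous_coord k 1)
  have h2 : Continuous fun S : V → Spin (n + 2) =>
      (S i : EuclideanSpace ℝ (Fin (n + 2))) 1 * (S k : EuclideanSpace ℝ (Fin (n + 2))) 0 :=
    (continuous_coord i 1).mul (continuous_coord k 0)
  exact h1.sub h2

lemma continuous_W (c d : V → V → ℝ) : Continuous (W c d : (V → Spin (n + 2)) → ℝ) := by
  unfold W
  refine continuous_finsetSum _ fun i _ => continuous_finsetSum _ fun k _ => ?_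
  exact ((continuous_inner_spin i k).const_mul _).add ((continuous_PP i k).const_mul _)

lemma PP_rot (a b : ℝ) (u v : EuclideanSpace ℝ (Fin (n + 2))) : PP (rotFun 0 1 a u) (rotFun 0 1 b v)
    = Real.cos (a - b) * PP u v + Real.sin (a - b) * QQ u v := by
  unfold PP QQ
  rw [rotFun_p, rotFun_p, rotFun_q h01, rotFun_q h01, Real.cos_sub, Real.sin_sub]
  ring

lemma QQ_rot (a b : ℝ) (u v : EuclideanSpace ℝ (Fin (n + 2))) : QQ (rotFun 0 1 a u) (rotFun 0 1 b v)
    = Real.cos (a - b) * QQ u v - Real.sin (a - b) * PP u v := by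
  unfold PP QQ
  rw [rotFun_p, rotFun_p, rotFun_q h01, rotFun_q h01, Real.cos_sub, Real.sin_sub]
  ring

lemma inner_rot01 (a b : ℝ) (u v : EuclideanSpace ℝ (Fin (n + 2))) :
    inner ℝ (rotFun 0 1 a u) (rotFun 0 1 b v) = inner ℝ u v
      + (Real.cos (a - b) - 1) * PP u v + Real.sin (a - b) * QQ u v :=
  inner_rotFun h01 a b u v

/-- sum of squares of two coordinates of a unit vector is at most one -/
lemma sq_add_sq_le {p q : Fin (n + 2)} (h : p ≠ q) (u : Spin (n + 2)) :
    (u : EuclideanSpace ℝ (Fin (n + 2))) p ^ 2 + (u : EuclideanSpace ℝ (Fin (n + 2))) q ^ 2 ≤ 1 := by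
  have h1 : ‖(u : EuclideanSpace ℝ (Fin (n + 2)))‖ ^ 2 = 1 := by
    rw [norm_eq_of_mem_sphere]; norm_num
  rw [EuclideanSpace.norm_sq_eq] at h1
  simp only [Real.norm_eq_abs, sq_abs] at h1
  rw [← h1, ← Finset.sum_pair (f := fun r => (u : EuclideanSpace ℝ (Fin (n + 2))) r ^ 2) h]
  exact Finset.sum_le_sum_of_subset_of_nonneg (Finset.subset_univ _) (fun _ _ _ => sq_nonneg _)

lemma PP_sq_add_QQ_sq_le (u v : Spin (n + 2)) :
    PP (u : EuclideanSpace ℝ (Fin (n + 2))) v ^ 2 + QQ (u : EuclideanSpace ℝ (Fin (n + 2))) v ^ 2 ≤ 1 := by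
  have h1 := sq_add_sq_le h01 u
  have h2 := sq_add_sq_le h01 v
  have h3 : PP (u : EuclideanSpace ℝ (Fin (n + 2))) v ^ 2 + QQ (u : EuclideanSpace ℝ (Fin (n + 2))) v ^ 2
      = ((u : EuclideanSpace ℝ (Fin (n + 2))) 0 ^ 2 + (u : EuclideanSpace ℝ (Fin (n + 2))) 1 ^ 2) * ((v : EuclideanSpace ℝ (Fin (n + 2))) 0 ^ 2 + (v : EuclideanSpace ℝ (Fin (n + 2))) 1 ^ 2) := by
    unfold PP QQ; ring
  rw [h3]
  calc _ ≤ (1 : ℝ) * 1 := by
        apply mul_le_mul h1 h2 (by positivity) (by norm_num)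
    _ = 1 := by ring

lemma abs_PP_le (u v : Spin (n + 2)) : |PP (u : EuclideanSpace ℝ (Fin (n + 2))) v| ≤ 1 := by
  have := PP_sq_add_QQ_sq_le u v
  apply abs_le_one_iff_mul_self_le_one.2
  nlinarith [sq_nonneg (QQ (u : EuclideanSpace ℝ (Fin (n + 2))) v)]

/-- the additional couplings produced by the complex rotation -/
def dtw (c : V → V → ℝ) (a : V → ℝ) (i k : V) : ℝ := c i k * (Real.cosh (a i - a k) - 1)

/-- the complex observable -/
def Zc (x y : V) (S : V → Spin (n + 2)) : ℂ :=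
  ((PP (S x : EuclideanSpace ℝ (Fin (n + 2))) (S y) : ℝ) : ℂ)
    - Complex.I * ((QQ (S x : EuclideanSpace ℝ (Fin (n + 2))) (S y) : ℝ) : ℂ)

/-- the exponent of the rotated weight -/
def hh (c : V → V → ℝ) (a : V → ℝ) (x y : V) (ζ : ℂ) (S : V → Spin (n + 2)) : ℂ :=
  Complex.I * ζ * ((a x - a y : ℝ) : ℂ) + ((W c 0 S : ℝ) : ℂ)
    + ∑ i, ∑ k, ((c i k : ℝ) : ℂ) *
      ((Complex.cos (ζ * ((a i - a k : ℝ) : ℂ)) - 1)
          * ((PP (S i : EuclideanSpace ℝ (Fin (n + 2))) (S k) : ℝ) : ℂ)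
        + Complex.sin (ζ * ((a i - a k : ℝ) : ℂ))
          * ((QQ (S i : EuclideanSpace ℝ (Fin (n + 2))) (S k) : ℝ) : ℂ))

/-- the derivative of the exponent -/
def hh' (c : V → V → ℝ) (a : V → ℝ) (x y : V) (ζ : ℂ) (S : V → Spin (n + 2)) : ℂ :=
  Complex.I * ((a x - a y : ℝ) : ℂ)
    + ∑ i, ∑ k, ((c i k : ℝ) : ℂ) *
      ((- Complex.sin (ζ * ((a i - a k : ℝ) : ℂ)) * ((a i - a k : ℝ) : ℂ))
          * ((PP (S i : EuclideanSpace ℝ (Fin (n + 2))) (S k) : ℝ) : ℂ)
        + (Complex.cos (ζ * ((a i - a k : ℝ) : ℂ)) * ((a i - a k : ℝ) : ℂ))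
          * ((QQ (S i : EuclideanSpace ℝ (Fin (n + 2))) (S k) : ℝ) : ℂ))

lemma hasDerivAt_hh (c : V → V → ℝ) (a : V → ℝ) (x y : V) (ζ : ℂ) (S : V → Spin (n + 2)) :
    HasDerivAt (fun ζ => hh c a x y ζ S) (hh' c a x y ζ S) ζ := by
  unfold hh hh'
  have h1 : HasDerivAt (fun ζ : ℂ => Complex.I * ζ * ((a x - a y : ℝ) : ℂ)
      + ((W c 0 S : ℝ) : ℂ)) (Complex.I * ((a x - a y : ℝ) : ℂ)) ζ := by
    have := (((hasDerivAt_id ζ).const_mul Complex.I).mul_const ((a x - a y : ℝ) : ℂ)).add_const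
      (((W c 0 S : ℝ) : ℂ))
    simpa using this
  refine h1.add ?_
  refine HasDerivAt.fun_sum fun i _ => HasDerivAt.fun_sum fun k _ => ?_
  refine HasDerivAt.const_mul _ ?_
  have h2 : HasDerivAt (fun ζ : ℂ => ζ * ((a i - a k : ℝ) : ℂ)) ((a i - a k : ℝ) : ℂ) ζ := by
    simpa using (hasDerivAt_id ζ).mul_const ((a i - a k : ℝ) : ℂ)
  exact ((h2.ccos.sub_const 1).mul_const _).add (h2.csin.mul_const _)

lemma continuous_hh (c : V → V → ℝ) (a : V → ℝ) (x y : V) :
    Continuous fun p : ℂ × (V → Spin (n + 2)) => hh c a x y p.1 p.2 := by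
  unfold hh
  have hW : Continuous fun p : ℂ × (V → Spin (n + 2)) => ((W c 0 p.2 : ℝ) : ℂ) :=
    Complex.continuous_ofReal.comp ((continuous_W c 0).comp continuous_snd)
  have hP : ∀ i k, Continuous fun p : ℂ × (V → Spin (n + 2)) =>
      ((PP (p.2 i : EuclideanSpace ℝ (Fin (n + 2))) (p.2 k) : ℝ) : ℂ) := fun i k =>
    Complex.continuous_ofReal.comp ((continuous_PP i k).comp continuous_snd)
  have hQ : ∀ i k, Continuous fun p : ℂ × (V → Spin (n + 2)) =>
      ((QQ (p.2 i : EuclideanSpace ℝ (Fin (n + 2))) (p.2 k) : ℝ) : ℂ) := fun i k =>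
    Complex.continuous_ofReal.comp ((continuous_QQ i k).comp continuous_snd)
  refine ((((continuous_const.mul continuous_fst).mul continuous_const)).add hW).add ?_
  refine continuous_finsetSum _ fun i _ => continuous_finsetSum _ fun k _ => ?_
  have h2 : Continuous fun p : ℂ × (V → Spin (n + 2)) => p.1 * ((a i - a k : ℝ) : ℂ) :=
    continuous_fst.mul continuous_const
  exact continuous_const.mul ((((Complex.continuous_cos.comp h2).sub continuous_const).mul
    (hP i k)).add ((Complex.continuous_sin.comp h2).mul (hQ i k)))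

lemma continuous_hh' (c : V → V → ℝ) (a : V → ℝ) (x y : V) :
    Continuous fun p : ℂ × (V → Spin (n + 2)) => hh' c a x y p.1 p.2 := by
  unfold hh'
  have hP : ∀ i k, Continuous fun p : ℂ × (V → Spin (n + 2)) =>
      ((PP (p.2 i : EuclideanSpace ℝ (Fin (n + 2))) (p.2 k) : ℝ) : ℂ) := fun i k =>
    Complex.continuous_ofReal.comp ((continuous_PP i k).comp continuous_snd)
  have hQ : ∀ i k, Continuous fun p : ℂ × (V → Spin (n + 2)) =>
      ((QQ (p.2 i : EuclideanSpace ℝ (Fin (n + 2))) (p.2 k) : ℝ) : ℂ) := fun i k =>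
    Complex.continuous_ofReal.comp ((continuous_QQ i k).comp continuous_snd)
  refine continuous_const.add ?_
  refine continuous_finsetSum _ fun i _ => continuous_finsetSum _ fun k _ => ?_
  have h2 : Continuous fun p : ℂ × (V → Spin (n + 2)) => p.1 * ((a i - a k : ℝ) : ℂ) :=
    continuous_fst.mul continuous_const
  exact continuous_const.mul (((((Complex.continuous_sin.comp h2).neg).mul continuous_const).mul
    (hP i k)).add ((((Complex.continuous_cos.comp h2)).mul continuous_const).mul (hQ i k)))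

lemma continuous_Zc (x y : V) : Continuous (Zc x y : (V → Spin (n + 2)) → ℂ) := by
  have h1 : Continuous fun S : V → Spin (n + 2) =>
      ((PP (S x : EuclideanSpace ℝ (Fin (n + 2))) (S y) : ℝ) : ℂ) :=
    Complex.continuous_ofReal.comp (continuous_PP x y)
  have h2 : Continuous fun S : V → Spin (n + 2) =>
      Complex.I * ((QQ (S x : EuclideanSpace ℝ (Fin (n + 2))) (S y) : ℝ) : ℂ) :=
    continuous_const.mul (Complex.continuous_ofReal.comp (continuous_QQ x y))
  exact h1.sub h2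

end

end Pool.Agent.NVec
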