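import Pool.Agent.H.MP_8be4c0_mp.Basic
import Pool.Agent.H.MP_8be4c0_mp.Twist

/-!
The complex rotation bound (McBryan-Spencer), second part.
-/

open MeasureTheory Set Filter Topology

namespace Pool.Agent.NVec

set_option linter.unusedSectionVars false

noncomputable section

variable {n : ℕ} {V : Type} [Fintype V]

lemma differentiable_integral_G (c : V → V → ℝ) (a : V → ℝ) (x y : V) :
    Differentiable ℂ fun ζ : ℂ => ∫ S : V → Spin (n + 2),
      Zc x y S * Complex.exp (hh c a x y ζ S) ∂(apriori V (n + 2)) := by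
  intro ζ
  have hcont : ∀ ζ' : ℂ, Continuous fun S : V → Spin (n + 2) =>
      Zc x y S * Complex.exp (hh c a x y ζ' S) := fun ζ' =>
    (continuous_Zc x y).mul (Complex.continuous_exp.comp
      ((continuous_hh c a x y).comp (Continuous.prodMk_right ζ')))
  have hcont' : Continuous fun p : ℂ × (V → Spin (n + 2)) =>
      Zc x y p.2 * (Complex.exp (hh c a x y p.1 p.2) * hh' c a x y p.1 p.2) :=
    ((continuous_Zc x y).comp continuous_snd).mul
      ((Complex.continuous_exp.comp (continuous_hh c a x y)).mul (continuous_hh' c a x y))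
  obtain ⟨C, hC⟩ := ((isCompact_closedBall ζ 1).prod
    (isCompact_univ (X := V → Spin (n + 2)))).exists_bound_of_continuousOn hcont'.continuousOn
  have h := hasDerivAt_integral_of_dominated_loc_of_deriv_le (μ := apriori V (n + 2))
    (F := fun ζ S => Zc x y S * Complex.exp (hh c a x y ζ S))
    (F' := fun ζ S => Zc x y S * (Complex.exp (hh c a x y ζ S) * hh' c a x y ζ S))
    (x₀ := ζ) (s := Metric.closedBall ζ 1) (bound := fun _ => C)
    (Metric.closedBall_mem_nhds ζ one_pos)
    (Eventually.of_forall fun ζ' => (hcont ζ').aestronglyMeasurable)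
    (integrable_cont _ (hcont ζ))
    ((hcont'.comp (Continuous.prodMk_right ζ)).aestronglyMeasurable)
    (Eventually.of_forall fun S ζ' hζ' => hC (ζ', S) ⟨hζ', mem_univ _⟩)
    (integrable_const C)
    (Eventually.of_forall fun S ζ' _ => ((hasDerivAt_hh c a x y ζ' S).cexp).const_mul _)
  exact h.2.differentiableAt

/-- the simultaneous rotation with angles `t * a i` -/
def rotAll (t : ℝ) (a : V → ℝ) (S : V → Spin (n + 2)) : V → Spin (n + 2) :=
  fun i => act (rot h01 (t * a i)) (S i)

lemma coe_rotAll (t : ℝ) (a : V → ℝ) (S : V → Spin (n + 2)) (i : V) :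
    (rotAll t a S i : EuclideanSpace ℝ (Fin (n + 2))) = rotFun 0 1 (t * a i) (S i) := rfl

lemma W_rotAll (c : V → V → ℝ) (a : V → ℝ) (t : ℝ) (S : V → Spin (n + 2)) :
    W c 0 (rotAll t a S) = W c 0 S + ∑ i, ∑ k, c i k *
      ((Real.cos (t * (a i - a k)) - 1) * PP (S i : EuclideanSpace ℝ (Fin (n + 2))) (S k)
        + Real.sin (t * (a i - a k)) * QQ (S i : EuclideanSpace ℝ (Fin (n + 2))) (S k)) := by
  unfold W
  rw [← Finset.sum_add_distrib]
  refine Finset.sum_congr rfl fun i _ => ?_
  rw [← Finset.sum_add_distrib]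
  refine Finset.sum_congr rfl fun k _ => ?_
  rw [coe_rotAll, coe_rotAll, inner_rot01, mul_sub]
  simp only [Pi.zero_apply, zero_mul, add_zero]
  ring

lemma G_real (c : V → V → ℝ) (a : V → ℝ) (x y : V) (t : ℝ) (S : V → Spin (n + 2)) :
    Zc x y S * Complex.exp (hh c a x y (t : ℂ) S)
      = Zc x y (rotAll t a S) * Complex.exp ((W c 0 (rotAll t a S) : ℝ) : ℂ) := by
  have h1 : Zc x y (rotAll t a S) = Complex.exp (Complex.I * t * ((a x - a y : ℝ) : ℂ))
      * Zc x y S := by
    unfold Zc
    rw [coe_rotAll, coe_rotAll, PP_rot, QQ_rot, ← mul_sub]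
    have : Complex.I * (t : ℂ) * ((a x - a y : ℝ) : ℂ)
        = ((t * (a x - a y) : ℝ) : ℂ) * Complex.I := by push_cast; ring
    rw [this, Complex.exp_mul_I]
    push_cast
    have hI : Complex.I * Complex.I = -1 := Complex.I_mul_I
    linear_combination ((Complex.sin (↑t * (↑(a x) - ↑(a y)))
      * ((QQ (S x : EuclideanSpace ℝ (Fin (n + 2))) (S y) : ℝ) : ℂ))) * hI
  rw [h1]
  have h2 : hh c a x y (t : ℂ) S = Complex.I * t * ((a x - a y : ℝ) : ℂ)
      + ((W c 0 (rotAll t a S) : ℝ) : ℂ) := by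
    rw [W_rotAll]
    unfold hh
    push_cast
    ring
  rw [h2, Complex.exp_add]
  ring

lemma integral_G_real (c : V → V → ℝ) (a : V → ℝ) (x y : V) (t : ℝ) :
    ∫ S : V → Spin (n + 2), Zc x y S * Complex.exp (hh c a x y (t : ℂ) S) ∂(apriori V (n + 2))
      = ∫ S : V → Spin (n + 2), Zc x y S * Complex.exp ((W c 0 S : ℝ) : ℂ)
          ∂(apriori V (n + 2)) := by
  simp_rw [G_real]
  exact integral_actAll (fun i => rot h01 (t * a i))
    (fun S => Zc x y S * Complex.exp ((W c 0 S : ℝ) : ℂ))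
    ((continuous_Zc x y).mul (Complex.continuous_exp.comp
      (Complex.continuous_ofReal.comp (continuous_W c 0))))

lemma integral_G_I (c : V → V → ℝ) (a : V → ℝ) (x y : V) :
    ∫ S : V → Spin (n + 2), Zc x y S * Complex.exp (hh c a x y Complex.I S) ∂(apriori V (n + 2))
      = ∫ S : V → Spin (n + 2), Zc x y S * Complex.exp ((W c 0 S : ℝ) : ℂ)
          ∂(apriori V (n + 2)) := by
  set g : ℂ → ℂ := fun ζ : ℂ => ∫ S : V → Spin (n + 2),
      Zc x y S * Complex.exp (hh c a x y ζ S) ∂(apriori V (n + 2)) with hg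
  set I0 : ℂ := ∫ S : V → Spin (n + 2), Zc x y S * Complex.exp ((W c 0 S : ℝ) : ℂ)
          ∂(apriori V (n + 2)) with hI0
  have hd : Differentiable ℂ g := differentiable_integral_G c a x y
  have han : AnalyticOnNhd ℂ g univ := fun z _ => hd.analyticAt z
  have hc : AnalyticOnNhd ℂ (fun _ : ℂ => I0) univ := analyticOnNhd_const
  have hu : Tendsto (fun k : ℕ => ((1 / ((k : ℝ) + 1) : ℝ) : ℂ)) atTop (𝓝[≠] 0) := by
    rw [tendsto_nhdsWithin_iff]
    constructor
    · have := (Complex.continuous_ofReal.tendsto 0).comp tendsto_one_div_add_atTop_nhds_zero_nat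
      simpa [Function.comp_def] using this
    · refine Eventually.of_forall fun k => ?_
      simp only [mem_compl_iff, mem_singleton_iff, Complex.ofReal_eq_zero]
      positivity
  have hfr : ∃ᶠ z in 𝓝[≠] (0 : ℂ), g z = (fun _ : ℂ => I0) z :=
    hu.frequently (Frequently.of_forall fun k => integral_G_real c a x y _)
  have := han.eq_of_frequently_eq hc hfr
  exact congrFun this Complex.I

lemma norm_Zc_le (x y : V) (S : V → Spin (n + 2)) : ‖Zc x y S‖ ≤ 1 := by
  have h := PP_sq_add_QQ_sq_le (S x) (S y)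
  have h2 : ‖Zc x y S‖ ^ 2 = PP (S x : EuclideanSpace ℝ (Fin (n + 2))) (S y) ^ 2
      + QQ (S x : EuclideanSpace ℝ (Fin (n + 2))) (S y) ^ 2 := by
    rw [← Complex.normSq_eq_norm_sq, Complex.normSq_apply]
    simp [Zc]
    ring
  rw [← h2] at h
  exact (sq_le_one_iff₀ (norm_nonneg _)).1 h

lemma W_eq_add (c d : V → V → ℝ) (S : V → Spin (n + 2)) :
    W c d S = W c 0 S
      + ∑ i, ∑ k, d i k * PP (S i : EuclideanSpace ℝ (Fin (n + 2))) (S k) := by
  unfold W
  rw [← Finset.sum_add_distrib]
  refine Finset.sum_congr rfl fun i _ => ?_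
  rw [← Finset.sum_add_distrib]
  refine Finset.sum_congr rfl fun k _ => ?_
  simp

lemma hh_I (c : V → V → ℝ) (a : V → ℝ) (x y : V) (S : V → Spin (n + 2)) :
    hh c a x y Complex.I S = ((-(a x - a y) + W c (dtw c a) S : ℝ) : ℂ)
      + ((∑ i, ∑ k, c i k * Real.sinh (a i - a k)
        * QQ (S i : EuclideanSpace ℝ (Fin (n + 2))) (S k) : ℝ) : ℂ) * Complex.I := by
  have hcos : ∀ r : ℝ, Complex.cos (Complex.I * r) = ((Real.cosh r : ℝ) : ℂ) := by
    intro r; rw [mul_comm, Complex.cos_mul_I, Complex.ofReal_cosh]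
  have hsin : ∀ r : ℝ, Complex.sin (Complex.I * r) = ((Real.sinh r : ℝ) : ℂ) * Complex.I := by
    intro r; rw [mul_comm, Complex.sin_mul_I, Complex.ofReal_sinh]
  unfold hh
  simp_rw [hcos, hsin]
  rw [W_eq_add c (dtw c a) S]
  unfold dtw
  have e1 : ∑ i, ∑ k, ((c i k : ℝ) : ℂ) * ((((Real.cosh (a i - a k) : ℝ) : ℂ) - 1)
        * ((PP (S i : EuclideanSpace ℝ (Fin (n + 2))) (S k) : ℝ) : ℂ)
      + ((Real.sinh (a i - a k) : ℝ) : ℂ) * Complex.I
        * ((QQ (S i : EuclideanSpace ℝ (Fin (n + 2))) (S k) : ℝ) : ℂ))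
      = ((∑ i, ∑ k, c i k * (Real.cosh (a i - a k) - 1)
          * PP (S i : EuclideanSpace ℝ (Fin (n + 2))) (S k) : ℝ) : ℂ)
        + ((∑ i, ∑ k, c i k * Real.sinh (a i - a k)
        * QQ (S i : EuclideanSpace ℝ (Fin (n + 2))) (S k) : ℝ) : ℂ) * Complex.I := by
    rw [Complex.ofReal_sum, Complex.ofReal_sum, Finset.sum_mul, ← Finset.sum_add_distrib]
    refine Finset.sum_congr rfl fun i _ => ?_
    rw [Complex.ofReal_sum, Complex.ofReal_sum, Finset.sum_mul, ← Finset.sum_add_distrib]
    refine Finset.sum_congr rfl fun k _ => ?_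
    push_cast
    ring
  rw [e1]
  have hI : Complex.I * Complex.I = -1 := Complex.I_mul_I
  rw [hI]
  push_cast
  ring

lemma norm_G_I_le (c : V → V → ℝ) (a : V → ℝ) (x y : V) (S : V → Spin (n + 2)) :
    ‖Zc x y S * Complex.exp (hh c a x y Complex.I S)‖
      ≤ Real.exp (-(a x - a y)) * Real.exp (W c (dtw c a) S) := by
  rw [norm_mul, Complex.norm_exp, ← Real.exp_add]
  have h1 : (hh c a x y Complex.I S).re = -(a x - a y) + W c (dtw c a) S := by
    rw [hh_I, Complex.add_re, Complex.ofReal_re, Complex.re_ofReal_mul, Complex.I_re, mul_zero,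
      add_zero]
  rw [h1]
  calc _ ≤ 1 * Real.exp (-(a x - a y) + W c (dtw c a) S) :=
        mul_le_mul_of_nonneg_right (norm_Zc_le x y S) (Real.exp_pos _).le
    _ = _ := one_mul _

/-- **The complex rotation bound.** -/
theorem twist (c : V → V → ℝ) (a : V → ℝ) (x y : V) :
    |∫ S : V → Spin (n + 2), PP (S x : EuclideanSpace ℝ (Fin (n + 2))) (S y)
        * Real.exp (W c 0 S) ∂(apriori V (n + 2))|
      ≤ Real.exp (-(a x - a y)) * ∫ S : V → Spin (n + 2), Real.exp (W c (dtw c a) S)
          ∂(apriori V (n + 2)) := by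
  have hint : Integrable (fun S : V → Spin (n + 2) => Zc x y S * Complex.exp ((W c 0 S : ℝ) : ℂ))
      (apriori V (n + 2)) :=
    integrable_cont _ ((continuous_Zc x y).mul (Complex.continuous_exp.comp
      (Complex.continuous_ofReal.comp (continuous_W c 0))))
  have h1 : ∫ S : V → Spin (n + 2), PP (S x : EuclideanSpace ℝ (Fin (n + 2))) (S y)
        * Real.exp (W c 0 S) ∂(apriori V (n + 2))
      = (∫ S : V → Spin (n + 2), Zc x y S * Complex.exp ((W c 0 S : ℝ) : ℂ)
          ∂(apriori V (n + 2))).re := by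
    have h2 := integral_re hint
    simp only [RCLike.re_to_complex] at h2
    rw [← h2]
    refine integral_congr_ae (Eventually.of_forall fun S => ?_)
    simp only
    rw [← Complex.ofReal_exp, mul_comm (Zc x y S), Complex.re_ofReal_mul]
    simp [Zc, mul_comm]
  rw [h1, ← integral_G_I c a x y]
  calc _ ≤ ‖∫ S : V → Spin (n + 2), Zc x y S * Complex.exp (hh c a x y Complex.I S)
            ∂(apriori V (n + 2))‖ := Complex.abs_re_le_norm _
    _ ≤ ∫ S : V → Spin (n + 2), ‖Zc x y S * Complex.exp (hh c a x y Complex.I S)‖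
            ∂(apriori V (n + 2)) := norm_integral_le_integral_norm _
    _ ≤ ∫ S : V → Spin (n + 2), Real.exp (-(a x - a y)) * Real.exp (W c (dtw c a) S)
            ∂(apriori V (n + 2)) := by
        apply integral_mono
        · exact (integrable_cont _ ((continuous_Zc x y).mul (Complex.continuous_exp.comp
            ((continuous_hh c a x y).comp (Continuous.prodMk_right Complex.I))))).norm
        · exact integrable_cont _ (continuous_const.mul (Real.continuous_exp.comp
            (continuous_W c _)))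
        · exact fun S => norm_G_I_le c a x y S
    _ = _ := integral_const_mul _ _

end

end Pool.Agent.NVec
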