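import Pool.Agent.H.MP_8be4c0_mp.MW2
import Pool.Agent.H.MP_8be4c0_mp.Twist2

/-!
The abstract correlation bound on a finite graph.
-/

open MeasureTheory Set Filter Topology

namespace Pool.Agent.NVec

set_option linter.unusedSectionVars false

noncomputable section

variable {n : ℕ} {V : Type} [Fintype V]


/-- unnormalised correlation of two coordinates -/
def CC (n : ℕ) (c d : V → V → ℝ) (i k : V) (r : Fin (n + 2)) : ℝ :=
  ∫ S : V → Spin (n + 2), ((S i : EuclideanSpace ℝ (Fin (n + 2))) r
    * (S k : EuclideanSpace ℝ (Fin (n + 2))) r) * Real.exp (W c d S) ∂(apriori V (n + 2))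

lemma continuous_CC (c d : V → V → ℝ) (i k : V) (r : Fin (n + 2)) :
    Continuous fun S : V → Spin (n + 2) => ((S i : EuclideanSpace ℝ (Fin (n + 2))) r * (S k : EuclideanSpace ℝ (Fin (n + 2))) r) * Real.exp (W c d S) :=
  ((continuous_coord i r).mul (continuous_coord k r)).mul (continuous_expW c d)

/-- components `0` and `1` have the same correlation -/
lemma CC_one (c d : V → V → ℝ) (i k : V) : CC n c d i k 1 = CC n c d i k 0 := by
  have h := integral_actAll (V := V) (fun _ => rot (h01 (n := n)) (Real.pi / 2))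
    (fun S => ((S i : EuclideanSpace ℝ (Fin (n + 2))) 1 * (S k : EuclideanSpace ℝ (Fin (n + 2))) 1) * Real.exp (W c d S)) (continuous_CC c d i k 1)
  unfold CC
  rw [← h]
  refine integral_congr_ae (Eventually.of_forall fun S => ?_)
  simp only [coe_act, rot_apply]
  have hW : W c d (fun i => act (rot (h01 (n := n)) (Real.pi / 2)) (S i)) = W c d S := by
    unfold W
    refine Finset.sum_congr rfl fun i _ => Finset.sum_congr rfl fun k _ => ?_
    simp only [coe_act, rot_apply]
    rw [inner_rot01, PP_rot, sub_self, Real.cos_zero, Real.sin_zero]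
    ring
  rw [hW, rotFun_q h01, rotFun_q h01, Real.cos_pi_div_two, Real.sin_pi_div_two]
  ring

/-- for isotropic couplings all components have the same correlation -/
lemma CC_isotropic (c : V → V → ℝ) (i k : V) (r : Fin (n + 2)) :
    CC n c 0 i k r = CC n c 0 i k 0 := by
  by_cases hr : (0 : Fin (n + 2)) = r
  · rw [← hr]
  have h := integral_actAll (V := V) (fun _ => rot hr (Real.pi / 2))
    (fun S => ((S i : EuclideanSpace ℝ (Fin (n + 2))) r * (S k : EuclideanSpace ℝ (Fin (n + 2))) r) * Real.exp (W c 0 S)) (continuous_CC c 0 i k r)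
  unfold CC
  rw [← h]
  refine integral_congr_ae (Eventually.of_forall fun S => ?_)
  simp only [coe_act, rot_apply]
  have hW : W c 0 (fun i => act (rot hr (Real.pi / 2)) (S i)) = W c 0 S := by
    unfold W
    refine Finset.sum_congr rfl fun i _ => Finset.sum_congr rfl fun k _ => ?_
    simp only [coe_act, rot_apply]
    rw [inner_rotFun hr, sub_self, Real.cos_zero, Real.sin_zero]
    simp
  rw [hW, rotFun_q hr, rotFun_q hr, Real.cos_pi_div_two, Real.sin_pi_div_two]
  ring

lemma integral_inner_eq (c d : V → V → ℝ) (i k : V) :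
    ∫ S : V → Spin (n + 2), inner ℝ (S i : EuclideanSpace ℝ (Fin (n + 2))) (S k) * Real.exp (W c d S) ∂(apriori V (n + 2))
      = ∑ r, CC n c d i k r := by
  unfold CC
  rw [← integral_finsetSum]
  · refine integral_congr_ae (Eventually.of_forall fun S => ?_)
    simp only
    rw [inner_eq, Finset.sum_mul]
  · intro r _
    exact integrable_cont _ (continuous_CC c d i k r)

lemma integral_PP_eq (c d : V → V → ℝ) (i k : V) :
    ∫ S : V → Spin (n + 2), PP (S i : EuclideanSpace ℝ (Fin (n + 2))) (S k) * Real.exp (W c d S) ∂(apriori V (n + 2))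
      = 2 * CC n c d i k 0 := by
  have : ∫ S : V → Spin (n + 2), PP (S i : EuclideanSpace ℝ (Fin (n + 2))) (S k) * Real.exp (W c d S) ∂(apriori V (n + 2))
      = CC n c d i k 0 + CC n c d i k 1 := by
    unfold CC
    rw [← integral_add]
    · refine integral_congr_ae (Eventually.of_forall fun S => ?_)
      simp only
      unfold PP
      ring
    · exact integrable_cont _ (continuous_CC c d i k 0)
    · exact integrable_cont _ (continuous_CC c d i k 1)
  rw [this, CC_one]
  ring

lemma abs_inner_le (u v : Spin (n + 2)) : |inner ℝ (u : EuclideanSpace ℝ (Fin (n + 2))) v| ≤ 1 := by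
  have := abs_real_inner_le_norm (u : EuclideanSpace ℝ (Fin (n + 2))) v
  simpa using this

lemma abs_integral_mul_le (c d : V → V → ℝ) (f : (V → Spin (n + 2)) → ℝ) (_hf : Continuous f)
    (hf1 : ∀ S, |f S| ≤ 1) :
    |∫ S, f S * Real.exp (W c d S) ∂(apriori V (n + 2))| ≤ ZZ n c d := by
  calc |∫ S, f S * Real.exp (W c d S) ∂(apriori V (n + 2))|
      ≤ ∫ S, |f S * Real.exp (W c d S)| ∂(apriori V (n + 2)) := abs_integral_le_integral_abs
    _ ≤ ∫ S, Real.exp (W c d S) ∂(apriori V (n + 2)) := by
        refine integral_mono_of_nonneg (Eventually.of_forall fun S => abs_nonneg _)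
          (integrable_cont _ (continuous_expW c d)) (Eventually.of_forall fun S => ?_)
        simp only
        rw [abs_mul, Real.abs_exp]
        have := mul_le_mul_of_nonneg_right (hf1 S) (Real.exp_pos (W c d S)).le
        linarith
    _ = ZZ n c d := rfl

/-- The correlation of the first two components is at most `2/N` up to the spin wave cost. -/
lemma PP_bound (c d : V → V → ℝ) (φ : V → ℝ) {ε : ℝ} (hε : cost c d φ ≤ ε) {s : ℝ} (hs : 0 < s)
    {i k : V} (hi : φ i = Real.pi / 4) (hk : φ k = Real.pi / 4) :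
    |∫ S : V → Spin (n + 2), PP (S i : EuclideanSpace ℝ (Fin (n + 2))) (S k) * Real.exp (W c d S) ∂(apriori V (n + 2))|
      ≤ (2 / ((n : ℝ) + 2) + 2 * (ε / (2 * s) + 2 * s)) * ZZ n c d := by
  have hε0 : 0 ≤ ε := (cost_nonneg c d φ).trans hε
  have hZ := ZZ_pos (n := n) c d
  set δ := ε / (2 * s) + 2 * s with hδ
  have hδ0 : 0 ≤ δ := by positivity
  have hr : ∀ r, |CC n c d i k r - CC n c d i k 0| ≤ δ * ZZ n c d := by
    intro r
    by_cases h0 : (0 : Fin (n + 2)) = r
    · rw [← h0, sub_self, abs_zero]; positivity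
    by_cases h1 : (1 : Fin (n + 2)) = r
    · rw [← h1, CC_one, sub_self, abs_zero]; positivity
    exact mw_pair h0 h1 c d φ hε hs hi hk
  have h1 : |∑ r, CC n c d i k r| ≤ ZZ n c d := by
    rw [← integral_inner_eq]
    have hb : ∀ S : V → Spin (n + 2), |inner ℝ (S i : EuclideanSpace ℝ (Fin (n + 2))) (S k : EuclideanSpace ℝ (Fin (n + 2)))| ≤ 1 := fun S =>
      abs_inner_le (S i) (S k)
    exact abs_integral_mul_le c d _ (continuous_inner_spin i k) hb
  have h2 : |∑ r, CC n c d i k r - ((n : ℝ) + 2) * CC n c d i k 0|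
      ≤ ((n : ℝ) + 2) * (δ * ZZ n c d) := by
    have e : ∑ r, CC n c d i k r - ((n : ℝ) + 2) * CC n c d i k 0
        = ∑ r : Fin (n + 2), (CC n c d i k r - CC n c d i k 0) := by
      rw [Finset.sum_sub_distrib]
      simp
    rw [e]
    calc _ ≤ ∑ r : Fin (n + 2), |CC n c d i k r - CC n c d i k 0| :=
          Finset.abs_sum_le_sum_abs _ _
      _ ≤ ∑ _r : Fin (n + 2), δ * ZZ n c d := Finset.sum_le_sum fun r _ => hr r
      _ = _ := by simp
  rw [integral_PP_eq, abs_mul]
  have h3 : ((n : ℝ) + 2) * |CC n c d i k 0| ≤ (1 + ((n : ℝ) + 2) * δ) * ZZ n c d := by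
    have h4 : |((n : ℝ) + 2) * CC n c d i k 0| ≤ |∑ r, CC n c d i k r|
        + |∑ r, CC n c d i k r - ((n : ℝ) + 2) * CC n c d i k 0| := by
      have := abs_sub (∑ r, CC n c d i k r)
        (∑ r, CC n c d i k r - ((n : ℝ) + 2) * CC n c d i k 0)
      rwa [sub_sub_cancel] at this
    rw [abs_mul, abs_of_pos (by positivity : (0 : ℝ) < (n : ℝ) + 2)] at h4
    linarith
  have h5 : |CC n c d i k 0| ≤ (1 / ((n : ℝ) + 2) + δ) * ZZ n c d := by
    have h6 : (0 : ℝ) < (n : ℝ) + 2 := by positivity
    have h7 : (1 / ((n : ℝ) + 2) + δ) * ZZ n c d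
        = (1 + ((n : ℝ) + 2) * δ) * ZZ n c d / ((n : ℝ) + 2) := by field_simp
    rw [h7, le_div_iff₀ h6]
    linarith
  have h8 : |(2 : ℝ)| = 2 := by norm_num
  rw [h8]
  have h9 : (2 / ((n : ℝ) + 2) + 2 * δ) * ZZ n c d = 2 * ((1 / ((n : ℝ) + 2) + δ) * ZZ n c d) := by
    ring
  rw [h9]
  linarith

/-- the Jensen step -/
lemma jensen (c d : V → V → ℝ) {m : ℝ}
    (hm : ∫ S : V → Spin (n + 2), (∑ i, ∑ k, d i k * PP (S i : EuclideanSpace ℝ (Fin (n + 2))) (S k)) * Real.exp (W c d S)
      ∂(apriori V (n + 2)) ≤ m * ZZ n c d) :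
    ZZ n c d ≤ Real.exp m * ZZ n c 0 := by
  set X : (V → Spin (n + 2)) → ℝ := fun S => ∑ i, ∑ k, d i k * PP (S i : EuclideanSpace ℝ (Fin (n + 2))) (S k) with hX
  have cX : Continuous X :=
    continuous_finsetSum _ fun i _ => continuous_finsetSum _ fun k _ =>
      (continuous_PP i k).const_mul _
  have hpt : ∀ S, Real.exp (-m) * ((1 + m) * Real.exp (W c d S) - X S * Real.exp (W c d S))
      ≤ Real.exp (W c 0 S) := by
    intro S
    have h1 : W c 0 S = W c d S - X S := by rw [W_eq_add c d S]; ring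
    rw [h1, Real.exp_sub, div_eq_mul_inv, ← Real.exp_neg]
    have h2 : 1 + m - X S ≤ Real.exp (m - X S) := by
      have := Real.add_one_le_exp (m - X S); linarith
    have h3 : Real.exp (-X S) = Real.exp (-m) * Real.exp (m - X S) := by
      rw [← Real.exp_add]; congr 1; ring
    rw [h3]
    have h4 : 0 < Real.exp (-m) := Real.exp_pos _
    have h5 : 0 < Real.exp (W c d S) := Real.exp_pos _
    have h6 := mul_le_mul_of_nonneg_left h2 (mul_pos h4 h5).le
    nlinarith [h6]
  have i1 : Integrable (fun S => Real.exp (W c d S)) (apriori V (n + 2)) :=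
    integrable_cont _ (continuous_expW c d)
  have i2 : Integrable (fun S => X S * Real.exp (W c d S)) (apriori V (n + 2)) :=
    integrable_cont _ (cX.mul (continuous_expW c d))
  have i3 : Integrable (fun S => Real.exp (-m) * ((1 + m) * Real.exp (W c d S)
      - X S * Real.exp (W c d S))) (apriori V (n + 2)) :=
    integrable_cont _ (continuous_const.mul ((continuous_const.mul (continuous_expW c d)).sub
      (cX.mul (continuous_expW c d))))
  have h := integral_mono i3 (integrable_cont _ (continuous_expW c (0 : V → V → ℝ))) hpt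
  rw [integral_const_mul, integral_sub (i1.const_mul _) i2, integral_const_mul] at h
  have h' : Real.exp (-m) * ((1 + m) * ZZ n c d - ∫ S, X S * Real.exp (W c d S)
      ∂(apriori V (n + 2))) ≤ ZZ n c 0 := h
  have h1 : Real.exp (-m) * ZZ n c d ≤ ZZ n c 0 := by
    have h4 : 0 < Real.exp (-m) := Real.exp_pos _
    have : Real.exp (-m) * ZZ n c d ≤ Real.exp (-m) * ((1 + m) * ZZ n c d
        - ∫ S, X S * Real.exp (W c d S) ∂(apriori V (n + 2))) := by
      apply mul_le_mul_of_nonneg_left _ h4.le
      linarith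
    linarith
  calc ZZ n c d = Real.exp m * (Real.exp (-m) * ZZ n c d) := by
        rw [← mul_assoc, ← Real.exp_add]; simp
    _ ≤ Real.exp m * ZZ n c 0 := mul_le_mul_of_nonneg_left h1 (Real.exp_pos _).le

/-- **The abstract correlation bound.** -/
theorem abstract_bound (c : V → V → ℝ) (a : V → ℝ) (x y : V) (κ : V → V → ℝ)
    (hκ : ∀ i k, |∫ S : V → Spin (n + 2), PP (S i : EuclideanSpace ℝ (Fin (n + 2))) (S k)
      * Real.exp (W c (dtw c a) S) ∂(apriori V (n + 2))| ≤ κ i k * ZZ n c (dtw c a)) :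
    |∫ S : V → Spin (n + 2), inner ℝ (S x : EuclideanSpace ℝ (Fin (n + 2))) (S y) * Real.exp (W c 0 S)
        ∂(apriori V (n + 2))|
      ≤ (((n : ℝ) + 2) / 2) * Real.exp (-(a x - a y) + ∑ i, ∑ k, |dtw c a i k| * κ i k)
        * ZZ n c 0 := by
  set d := dtw c a with hd
  have h1 : ∫ S : V → Spin (n + 2), inner ℝ (S x : EuclideanSpace ℝ (Fin (n + 2))) (S y) * Real.exp (W c 0 S)
        ∂(apriori V (n + 2)) = (((n : ℝ) + 2) / 2) *
        ∫ S : V → Spin (n + 2), PP (S x : EuclideanSpace ℝ (Fin (n + 2))) (S y) * Real.exp (W c 0 S) ∂(apriori V (n + 2)) := by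
    rw [integral_inner_eq, integral_PP_eq]
    simp_rw [CC_isotropic c x y]
    simp
    ring
  have h2 := twist (n := n) c a x y
  have h3 : ∫ S : V → Spin (n + 2), (∑ i, ∑ k, d i k * PP (S i : EuclideanSpace ℝ (Fin (n + 2))) (S k)) * Real.exp (W c d S)
      ∂(apriori V (n + 2)) ≤ (∑ i, ∑ k, |d i k| * κ i k) * ZZ n c d := by
    have e : ∫ S : V → Spin (n + 2), (∑ i, ∑ k, d i k * PP (S i : EuclideanSpace ℝ (Fin (n + 2))) (S k)) * Real.exp (W c d S)
        ∂(apriori V (n + 2)) = ∑ i, ∑ k, d i k * ∫ S : V → Spin (n + 2),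
          PP (S i : EuclideanSpace ℝ (Fin (n + 2))) (S k) * Real.exp (W c d S) ∂(apriori V (n + 2)) := by
      simp_rw [Finset.sum_mul]
      rw [integral_finsetSum]
      · refine Finset.sum_congr rfl fun i _ => ?_
        rw [integral_finsetSum]
        · refine Finset.sum_congr rfl fun k _ => ?_
          rw [← integral_const_mul]
          refine integral_congr_ae (Eventually.of_forall fun S => ?_)
          simp only
          ring
        · intro k _
          exact integrable_cont _ (((continuous_PP i k).const_mul _).mul (continuous_expW c d))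
      · intro i _
        exact integrable_cont _ (continuous_finsetSum _ fun k _ =>
          ((continuous_PP i k).const_mul _).mul (continuous_expW c d))
    rw [e, Finset.sum_mul]
    refine Finset.sum_le_sum fun i _ => ?_
    rw [Finset.sum_mul]
    refine Finset.sum_le_sum fun k _ => ?_
    calc _ ≤ |d i k * ∫ S : V → Spin (n + 2),
          PP (S i : EuclideanSpace ℝ (Fin (n + 2))) (S k) * Real.exp (W c d S) ∂(apriori V (n + 2))| := le_abs_self _
      _ = |d i k| * |∫ S : V → Spin (n + 2),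
          PP (S i : EuclideanSpace ℝ (Fin (n + 2))) (S k) * Real.exp (W c d S) ∂(apriori V (n + 2))| := abs_mul _ _
      _ ≤ |d i k| * (κ i k * ZZ n c d) := mul_le_mul_of_nonneg_left (hκ i k) (abs_nonneg _)
      _ = _ := by ring
  have h4 := jensen (n := n) c d h3
  have hpos : (0 : ℝ) ≤ ((n : ℝ) + 2) / 2 := by positivity
  rw [h1, abs_mul, abs_of_nonneg hpos, Real.exp_add, mul_assoc]
  refine mul_le_mul_of_nonneg_left ?_ hpos
  calc _ ≤ Real.exp (-(a x - a y)) * ZZ n c d := h2
    _ ≤ Real.exp (-(a x - a y)) * (Real.exp (∑ i, ∑ k, |d i k| * κ i k) * ZZ n c 0) :=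
        mul_le_mul_of_nonneg_left h4 (Real.exp_pos _).le
    _ = _ := by ring

end

end Pool.Agent.NVec
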