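import Pool.Agent.H.MP_8be4c0_mp.Gain

/-!
Isotropy inside a region, uniformly in the boundary condition, and the one-site bound with
boundary conditions.
-/

open MeasureTheory Set Filter Topology

namespace Pool.Agent.NVec

set_option linter.unusedSectionVars false

noncomputable section

variable {n : ℕ} {V : Type} [Fintype V] [DecidableEq V]

lemma abs_P2_le {q : Fin (n + 2)} (hq : (0 : Fin (n + 2)) ≠ q) (u v : Spin (n + 2)) :
    |P2 q (u : EuclideanSpace ℝ (Fin (n + 2))) v| ≤ 1 := by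
  have h1 := sq_add_sq_le hq u
  have h2 := sq_add_sq_le hq v
  unfold P2
  set a := (u : EuclideanSpace ℝ (Fin (n + 2))) 0
  set b := (u : EuclideanSpace ℝ (Fin (n + 2))) q
  set c := (v : EuclideanSpace ℝ (Fin (n + 2))) 0
  set d := (v : EuclideanSpace ℝ (Fin (n + 2))) q
  rw [abs_le]
  constructor
  · nlinarith only [h1, h2, sq_nonneg (a + c), sq_nonneg (b + d)]
  · nlinarith only [h1, h2, sq_nonneg (a - c), sq_nonneg (b - d)]

/-- the isotropic cost of a spin wave -/
def cost0 (c : V → V → ℝ) (φ : V → ℝ) : ℝ := ∑ i, ∑ k, |c i k| * (φ i - φ k) ^ 2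

lemma cost0_nonneg (c : V → V → ℝ) (φ : V → ℝ) : 0 ≤ cost0 c φ := by
  unfold cost0; positivity

lemma second_diff0 {p : Fin (n + 2)} (hp : (0 : Fin (n + 2)) ≠ p)
    (c : V → V → ℝ) (φ : V → ℝ) (S : V → Spin (n + 2)) :
    2 * W c 0 S - cost0 c φ ≤ W c 0 (rotP hp φ S) + W c 0 (rotP hp (fun i => -φ i) S) := by
  have h1 := W_flow c φ hp 1 S
  have h2 := W_flow c φ hp (-1) S
  simp only [one_mul, neg_mul] at h1 h2
  rw [h1, h2]
  unfold Wf
  have h3 : (∑ i, ∑ k, c i k * ((Real.cos (1 * (φ i - φ k)) - 1) * P2 p (S i) (S k)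
      + Real.sin (1 * (φ i - φ k)) * Q2 p (S i) (S k)))
      + (∑ i, ∑ k, c i k * ((Real.cos (-1 * (φ i - φ k)) - 1) * P2 p (S i) (S k)
      + Real.sin (-1 * (φ i - φ k)) * Q2 p (S i) (S k))) ≥ -cost0 c φ := by
    unfold cost0
    rw [ge_iff_le, ← Finset.sum_neg_distrib, ← Finset.sum_add_distrib]
    refine Finset.sum_le_sum fun i _ => ?_
    rw [← Finset.sum_neg_distrib, ← Finset.sum_add_distrib]
    refine Finset.sum_le_sum fun k _ => ?_
    rw [one_mul, neg_one_mul, Real.cos_neg, Real.sin_neg]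
    have h4 := abs_P2_le hp (S i) (S k)
    have h5 := one_sub_cos_le (φ i - φ k)
    have h6 : |c i k * (2 * ((Real.cos (φ i - φ k) - 1)
        * P2 p (S i : EuclideanSpace ℝ (Fin (n + 2))) (S k)))| ≤ |c i k| * (φ i - φ k) ^ 2 := by
      rw [abs_mul, abs_mul, abs_mul]
      have h7 : |Real.cos (φ i - φ k) - 1|
          * |P2 p (S i : EuclideanSpace ℝ (Fin (n + 2))) (S k)| ≤ (φ i - φ k) ^ 2 / 2 * 1 :=
        mul_le_mul h5 h4 (abs_nonneg _) (by positivity)
      have h8 : |(2 : ℝ)| = 2 := by norm_num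
      rw [h8]
      have h9 := mul_le_mul_of_nonneg_left h7 (abs_nonneg (c i k))
      linarith only [h9]
    have h7 := (abs_le.1 h6).1
    linarith
  linarith

/-- the Hellinger step, general weights -/
lemma hellinger_gen {p : Fin (n + 2)} (hp : (0 : Fin (n + 2)) ≠ p)
    (F : (V → Spin (n + 2)) → ℝ) (hF : Continuous F) (φ : V → ℝ) {ε : ℝ}
    (hsd : ∀ S, 2 * F S - ε ≤ F (rotP hp φ S) + F (rotP hp (fun i => -φ i) S))
    {s : ℝ} (hs : 0 < s)
    (f : (V → Spin (n + 2)) → ℝ) (hf : Continuous f) (hf1 : ∀ S, |f S| ≤ 1) :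
    |∫ S, f (rotP hp (fun i => -φ i) S) * Real.exp (F S) ∂(apriori V (n + 2))
      - ∫ S, f (rotP hp φ S) * Real.exp (F S) ∂(apriori V (n + 2))|
      ≤ (ε / (2 * s) + 2 * s) * ∫ S, Real.exp (F S) ∂(apriori V (n + 2)) := by
  set μ := apriori V (n + 2)
  set Wp : (V → Spin (n + 2)) → ℝ := fun S => F (rotP hp φ S) with hWp
  set Wm : (V → Spin (n + 2)) → ℝ := fun S => F (rotP hp (fun i => -φ i) S) with hWm
  have cexpF : Continuous fun S => Real.exp (F S) := Real.continuous_exp.comp hF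
  have cWp : Continuous Wp := hF.comp (continuous_rotP hp φ)
  have cWm : Continuous Wm := hF.comp (continuous_rotP hp _)
  set ZF := ∫ S, Real.exp (F S) ∂μ with hZF
  have e1 : ∫ S, f (rotP hp (fun i => -φ i) S) * Real.exp (F S) ∂μ
      = ∫ S, f S * Real.exp (Wp S) ∂μ := by
    rw [← integral_rotP hp φ (fun S => f (rotP hp (fun i => -φ i) S) * Real.exp (F S))
      ((hf.comp (continuous_rotP hp _)).mul cexpF)]
    simp_rw [rotP_neg, hWp]
    rfl
  have e2 : ∫ S, f (rotP hp φ S) * Real.exp (F S) ∂μ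
      = ∫ S, f S * Real.exp (Wm S) ∂μ := by
    rw [← integral_rotP hp (fun i => -φ i)
      (fun S => f (rotP hp φ S) * Real.exp (F S))
      ((hf.comp (continuous_rotP hp _)).mul cexpF)]
    simp_rw [rotP_neg', hWm]
    rfl
  rw [e1, e2, ← integral_sub]
  rotate_left
  · exact integrable_cont _ (hf.mul (Real.continuous_exp.comp cWp))
  · exact integrable_cont _ (hf.mul (Real.continuous_exp.comp cWm))
  have Zp : ∫ S, Real.exp (Wp S) ∂μ = ZF :=
    integral_rotP hp φ (fun S => Real.exp (F S)) cexpF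
  have Zm : ∫ S, Real.exp (Wm S) ∂μ = ZF :=
    integral_rotP hp _ (fun S => Real.exp (F S)) cexpF
  have hZ : 0 < ZF := integral_pos_of_cont (n := n + 1) _ cexpF fun _ => Real.exp_pos _
  have hpt : ∀ S, |f S * Real.exp (Wp S) - f S * Real.exp (Wm S)|
      ≤ (1 / (2 * s)) * (Real.exp (Wp S) + Real.exp (Wm S)
          - 2 * Real.exp (-(ε / 2)) * Real.exp (F S))
        + s * (Real.exp (Wp S) + Real.exp (Wm S)) := by
    intro S
    have hsd := hsd S
    have hmid : Real.exp (-(ε / 2)) * Real.exp (F S)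
        ≤ Real.exp (Wp S / 2) * Real.exp (Wm S / 2) := by
      rw [← Real.exp_add, ← Real.exp_add]
      apply Real.exp_le_exp.2
      simp only [hWp, hWm]
      linarith
    set A := Real.exp (Wp S / 2) with hA
    set B := Real.exp (Wm S / 2) with hB
    have hA2 : Real.exp (Wp S) = A ^ 2 := by rw [hA, ← Real.exp_nat_mul]; congr 1; ring
    have hB2 : Real.exp (Wm S) = B ^ 2 := by rw [hB, ← Real.exp_nat_mul]; congr 1; ring
    have hA0 : 0 < A := Real.exp_pos _
    have hB0 : 0 < B := Real.exp_pos _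
    rw [← mul_sub, abs_mul, hA2, hB2]
    have h1 : |f S| * |A ^ 2 - B ^ 2| ≤ |A ^ 2 - B ^ 2| := by
      have := mul_le_mul_of_nonneg_right (hf1 S) (abs_nonneg (A ^ 2 - B ^ 2))
      linarith
    have h2 : |A ^ 2 - B ^ 2| = |A - B| * (A + B) := by
      rw [show A ^ 2 - B ^ 2 = (A - B) * (A + B) by ring, abs_mul, abs_of_pos (by positivity : 0 < A + B)]
    have h3 : |A - B| * (A + B) ≤ (1 / (2 * s)) * (A - B) ^ 2 + (s / 2) * (A + B) ^ 2 := by
      have h4 : (1 / (2 * s)) * (A - B) ^ 2 + (s / 2) * (A + B) ^ 2 - |A - B| * (A + B)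
          = (1 / (2 * s)) * (|A - B| - s * (A + B)) ^ 2 := by
        have h5 : |A - B| ^ 2 = (A - B) ^ 2 := sq_abs _
        field_simp
        rw [← h5]
        ring
      have h6 : 0 ≤ (1 / (2 * s)) * (|A - B| - s * (A + B)) ^ 2 := by positivity
      linarith only [h4, h6]
    have h7 : (s / 2) * (A + B) ^ 2 ≤ s * (A ^ 2 + B ^ 2) := by
      nlinarith only [hs, sq_nonneg (A - B)]
    have h8 : (A - B) ^ 2 ≤ A ^ 2 + B ^ 2 - 2 * (Real.exp (-(ε / 2)) * Real.exp (F S)) := by
      nlinarith only [hmid]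
    have h9 : (1 / (2 * s)) * (A - B) ^ 2 ≤ (1 / (2 * s)) *
        (A ^ 2 + B ^ 2 - 2 * (Real.exp (-(ε / 2)) * Real.exp (F S))) :=
      mul_le_mul_of_nonneg_left h8 (by positivity)
    calc _ ≤ |A ^ 2 - B ^ 2| := h1
      _ = |A - B| * (A + B) := h2
      _ ≤ (1 / (2 * s)) * (A - B) ^ 2 + (s / 2) * (A + B) ^ 2 := h3
      _ ≤ _ := by
        rw [mul_assoc 2]
        linarith only [h7, h9]
  have ip : Integrable (fun S => Real.exp (Wp S)) μ :=
    integrable_cont _ (Real.continuous_exp.comp cWp)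
  have im : Integrable (fun S => Real.exp (Wm S)) μ :=
    integrable_cont _ (Real.continuous_exp.comp cWm)
  have i0 : Integrable (fun S => Real.exp (F S)) μ := integrable_cont _ cexpF
  calc |∫ S, (f S * Real.exp (Wp S) - f S * Real.exp (Wm S)) ∂μ|
      ≤ ∫ S, |f S * Real.exp (Wp S) - f S * Real.exp (Wm S)| ∂μ := abs_integral_le_integral_abs
    _ ≤ ∫ S, ((1 / (2 * s)) * (Real.exp (Wp S) + Real.exp (Wm S)
          - 2 * Real.exp (-(ε / 2)) * Real.exp (F S))
        + s * (Real.exp (Wp S) + Real.exp (Wm S))) ∂μ := by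
        refine integral_mono_of_nonneg (Eventually.of_forall fun S => abs_nonneg _) ?_
          (Eventually.of_forall hpt)
        exact (((ip.add im).sub (i0.const_mul _)).const_mul _).add ((ip.add im).const_mul _)
    _ = (1 / (2 * s)) * (2 * ZF - 2 * Real.exp (-(ε / 2)) * ZF)
        + s * (2 * ZF) := by
        rw [integral_add, integral_const_mul, integral_const_mul, integral_sub, integral_add ip im,
          integral_const_mul, Zp, Zm]
        · ring
        · exact ip.add im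
        · exact i0.const_mul _
        · exact ((ip.add im).sub (i0.const_mul _)).const_mul _
        · exact (ip.add im).const_mul _
    _ ≤ (ε / (2 * s) + 2 * s) * ZF := by
        have h1 : 1 - Real.exp (-(ε / 2)) ≤ ε / 2 := by
          have := Real.add_one_le_exp (-(ε / 2)); linarith
        have h2 : (1 / (2 * s)) * (2 * ZF - 2 * Real.exp (-(ε / 2)) * ZF)
            = (1 / s) * (1 - Real.exp (-(ε / 2))) * ZF := by
          field_simp
        have h3 : (1 / s) * (1 - Real.exp (-(ε / 2))) * ZF ≤ (1 / s) * (ε / 2) * ZF := by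
          have : 0 < 1 / s := by positivity
          gcongr
        rw [h2]
        have h4 : (1 / s) * (ε / 2) * ZF = ε / (2 * s) * ZF := by
          field_simp
        linarith only [h3, h4]

/-- component correlation with boundary condition -/
def Cb (c : V → V → ℝ) (A : Finset V) (τ : V → Spin (n + 2)) (i k : V) (r : Fin (n + 2)) : ℝ :=
  bInt (W c 0) A τ (fun S => (S i : EuclideanSpace ℝ (Fin (n + 2))) r
    * (S k : EuclideanSpace ℝ (Fin (n + 2))) r)

/-- **Isotropy inside a region, uniformly in the boundary condition.** -/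
lemma mw_bc {p : Fin (n + 2)} (hp : (0 : Fin (n + 2)) ≠ p)
    (c : V → V → ℝ) (A : Finset V) (τ : V → Spin (n + 2)) (φ : V → ℝ)
    (hφ : ∀ i, i ∉ A → φ i = 0) {ε : ℝ} (hε : cost0 c φ ≤ ε) {s : ℝ} (hs : 0 < s)
    {i k : V} (hi : φ i = Real.pi / 4) (hk : φ k = Real.pi / 4) :
    |Cb c A τ i k p - Cb c A τ i k 0| ≤ (ε / (2 * s) + 2 * s) * bZ (W c 0) A τ := by
  set f : (V → Spin (n + 2)) → ℝ := fun S =>
    (1 / 2) * ((S i : EuclideanSpace ℝ (Fin (n + 2))) 0 + (S i : EuclideanSpace ℝ (Fin (n + 2))) p)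
      * ((S k : EuclideanSpace ℝ (Fin (n + 2))) 0 + (S k : EuclideanSpace ℝ (Fin (n + 2))) p)
    with hfdef
  have hf : Continuous f :=
    (continuous_const.mul ((continuous_coord i 0).add (continuous_coord i p))).mul
      ((continuous_coord k 0).add (continuous_coord k p))
  have hf1 : ∀ S, |f S| ≤ 1 := by
    intro S
    have h1 := sq_add_sq_le hp (S i)
    have h2 := sq_add_sq_le hp (S k)
    simp only [hfdef]
    rw [abs_le]
    set a := (S i : EuclideanSpace ℝ (Fin (n + 2))) 0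
    set b := (S i : EuclideanSpace ℝ (Fin (n + 2))) p
    set a' := (S k : EuclideanSpace ℝ (Fin (n + 2))) 0
    set b' := (S k : EuclideanSpace ℝ (Fin (n + 2))) p
    constructor
    · nlinarith only [h1, h2, sq_nonneg (a + b + (a' + b')), sq_nonneg (a - b), sq_nonneg (a' - b')]
    · nlinarith only [h1, h2, sq_nonneg (a + b - (a' + b')), sq_nonneg (a - b), sq_nonneg (a' - b')]
  have hφ' : ∀ i, i ∉ A → (fun i => -φ i) i = 0 := fun i hi => by simp [hφ i hi]
  have h := hellinger_gen hp (fun u => W c 0 (merge A u τ))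
    ((continuous_W c 0).comp (continuous_merge A τ)) φ (ε := ε) (fun u => by
      rw [rotP_merge hp A φ hφ, rotP_merge hp A (fun i => -φ i) hφ']
      have := second_diff0 hp c φ (merge A u τ)
      linarith) hs (fun u => f (merge A u τ)) (hf.comp (continuous_merge A τ)) (fun u => hf1 _)
  have hsq : Real.sqrt 2 * Real.sqrt 2 = 2 := Real.mul_self_sqrt (by norm_num)
  have hr : ∀ S : V → Spin (n + 2), f (rotP hp φ S)
      = (S i : EuclideanSpace ℝ (Fin (n + 2))) 0 * (S k : EuclideanSpace ℝ (Fin (n + 2))) 0 := by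
    intro S
    simp only [hfdef, coe_rotP]
    rw [rotFun_p, rotFun_p, rotFun_q hp, rotFun_q hp, hi, hk, Real.cos_pi_div_four,
      Real.sin_pi_div_four]
    linear_combination ((1 / 2) * ((S i : EuclideanSpace ℝ (Fin (n + 2))) 0
      * (S k : EuclideanSpace ℝ (Fin (n + 2))) 0)) * hsq
  have hr' : ∀ S : V → Spin (n + 2), f (rotP hp (fun i => -φ i) S)
      = (S i : EuclideanSpace ℝ (Fin (n + 2))) p * (S k : EuclideanSpace ℝ (Fin (n + 2))) p := by
    intro S
    simp only [hfdef, coe_rotP]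
    rw [rotFun_p, rotFun_p, rotFun_q hp, rotFun_q hp, hi, hk, Real.cos_neg, Real.sin_neg,
      Real.cos_pi_div_four, Real.sin_pi_div_four]
    linear_combination ((1 / 2) * ((S i : EuclideanSpace ℝ (Fin (n + 2))) p
      * (S k : EuclideanSpace ℝ (Fin (n + 2))) p)) * hsq
  have e1 : ∀ u, f (merge A (rotP hp φ u) τ)
      = (merge A u τ i : EuclideanSpace ℝ (Fin (n + 2))) 0
        * (merge A u τ k : EuclideanSpace ℝ (Fin (n + 2))) 0 := fun u => by
    rw [rotP_merge hp A φ hφ, hr]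
  have e2 : ∀ u, f (merge A (rotP hp (fun i => -φ i) u) τ)
      = (merge A u τ i : EuclideanSpace ℝ (Fin (n + 2))) p
        * (merge A u τ k : EuclideanSpace ℝ (Fin (n + 2))) p := fun u => by
    rw [rotP_merge hp A (fun i => -φ i) hφ', hr']
  simp_rw [e1, e2] at h
  exact h

/-- conditional one-site bound -/
lemma one_site_cond (c d : V → V → ℝ) (i k : V) (hik : i ≠ k) (hd : d i i = 0) {t : ℝ}
    (ht : ∑ p, ∑ q, fs c d i p q ≤ t) (S : V → Spin (n + 2)) :
    |∫ u : Spin (n + 2), inner ℝ ((Function.update S i u i : Spin (n + 2)) :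
        EuclideanSpace ℝ (Fin (n + 2)))
          (Function.update S i u k) * Real.exp (W c d (Function.update S i u)) ∂(sph (n + 2))|
        ≤ mag (n + 2) t * ∫ u : Spin (n + 2), Real.exp (W c d (Function.update S i u))
          ∂(sph (n + 2)) := by
  have hki : k ≠ i := fun h => hik h.symm
  obtain ⟨K, h, hh, he⟩ : Aff n (fun u => W c d (Function.update S i u))
      (∑ p, ∑ q, fs c d i p q) := by
    unfold W
    exact Aff.sum _ _ _ fun p _ => Aff.sum _ _ _ fun q _ => aff_pair c d i hd S p q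
  simp only at he
  have e1 : ∫ u : Spin (n + 2), inner ℝ ((Function.update S i u i : Spin (n + 2)) :
        EuclideanSpace ℝ (Fin (n + 2)))
        (Function.update S i u k) * Real.exp (W c d (Function.update S i u)) ∂(sph (n + 2))
      = Real.exp K * M1 h (S k : EuclideanSpace ℝ (Fin (n + 2))) := by
    unfold M1
    rw [← integral_const_mul]
    refine integral_congr_ae (Eventually.of_forall fun u => ?_)
    simp only
    rw [he u, Function.update_self, Function.update_of_ne hki, Real.exp_add,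
      real_inner_comm]
    ring
  have e2 : ∫ u : Spin (n + 2), Real.exp (W c d (Function.update S i u)) ∂(sph (n + 2))
      = Real.exp K * M0 h := by
    unfold M0
    rw [← integral_const_mul]
    refine integral_congr_ae (Eventually.of_forall fun u => ?_)
    simp only
    rw [he u, Real.exp_add]
  rw [e1, e2, abs_mul, abs_of_pos (Real.exp_pos K)]
  have h1 := one_site h (S k : EuclideanSpace ℝ (Fin (n + 2))) (norm_eq_of_mem_sphere (S k)).le
    (hh.trans ht)
  calc Real.exp K * |M1 h (S k : EuclideanSpace ℝ (Fin (n + 2)))|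
      ≤ Real.exp K * (mag (n + 2) t * M0 h) := by gcongr
    _ = _ := by ring

/-- **One-site bound with boundary condition.** -/
theorem pair_le_mag_bc (c : V → V → ℝ) (A : Finset V) (τ : V → Spin (n + 2)) (i k : V)
    (hi : i ∈ A) (hik : i ≠ k) {t : ℝ} (ht : ∑ p, ∑ q, fs c 0 i p q ≤ t) :
    |bInt (W c 0) A τ (fun S => inner ℝ (S i : EuclideanSpace ℝ (Fin (n + 2))) (S k))|
      ≤ mag (n + 2) t * bZ (W c 0) A τ := by
  have hWc : Continuous (W c 0 : (V → Spin (n + 2)) → ℝ) := continuous_W c 0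
  have hc1 : Continuous fun u : V → Spin (n + 2) =>
      inner ℝ (merge A u τ i : EuclideanSpace ℝ (Fin (n + 2))) (merge A u τ k)
        * Real.exp (W c 0 (merge A u τ)) :=
    ((continuous_inner_spin i k).comp (continuous_merge A τ)).mul
      ((continuous_expW c 0).comp (continuous_merge A τ))
  have hc0 : Continuous fun u : V → Spin (n + 2) => Real.exp (W c 0 (merge A u τ)) :=
    (continuous_expW c 0).comp (continuous_merge A τ)
  have hσ : 0 < (sph (n + 2)).real univ := by
    rw [Measure.real]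
    exact ENNReal.toReal_pos sph_univ_ne_zero (measure_ne_top _ _)
  have hr1 := resample (N := n + 2) i _ hc1
  have hr0 := resample (N := n + 2) i _ hc0
  have hint : Integrable (fun S : V → Spin (n + 2) => ∫ u : Spin (n + 2),
      Real.exp (W c 0 (merge A (Function.update S i u) τ)) ∂(sph (n + 2)))
      (apriori V (n + 2)) := by
    have h1 : Continuous fun p : (V → Spin (n + 2)) × Spin (n + 2) =>
        Real.exp (W c 0 (merge A (Function.update p.1 i p.2) τ)) :=
      hc0.comp (continuous_update_pair i)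
    have hint : Integrable (fun p : (V → Spin (n + 2)) × Spin (n + 2) =>
        Real.exp (W c 0 (merge A (Function.update p.1 i p.2) τ)))
        ((apriori V (n + 2)).prod (sph (n + 2))) := by
      obtain ⟨C, hC⟩ := (isCompact_univ
        (X := (V → Spin (n + 2)) × Spin (n + 2))).exists_bound_of_continuousOn h1.continuousOn
      exact (integrable_const C).mono' h1.aestronglyMeasurable
        (Filter.Eventually.of_forall fun x => hC x (mem_univ _))
    exact hint.integral_prod_left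
  have h2 : |(sph (n + 2)).real univ * bInt (W c 0) A τ
      (fun S => inner ℝ (S i : EuclideanSpace ℝ (Fin (n + 2))) (S k))|
      ≤ mag (n + 2) t * ((sph (n + 2)).real univ * bZ (W c 0) A τ) := by
    unfold bInt bZ
    rw [← hr1, ← hr0, ← integral_const_mul]
    refine (abs_integral_le_integral_abs).trans ?_
    refine integral_mono_of_nonneg (Eventually.of_forall fun S => abs_nonneg _)
      (hint.const_mul _) (Eventually.of_forall fun S => ?_)
    simp only
    simp_rw [merge_update hi]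
    exact one_site_cond c 0 i k hik (by simp) ht (merge A S τ)
  rw [abs_mul, abs_of_pos hσ] at h2
  have h3 : (sph (n + 2)).real univ * |bInt (W c 0) A τ
      (fun S => inner ℝ (S i : EuclideanSpace ℝ (Fin (n + 2))) (S k))|
      ≤ (sph (n + 2)).real univ * (mag (n + 2) t * bZ (W c 0) A τ) := by linarith
  exact le_of_mul_le_mul_left h3 hσ

lemma sum_Cb (c : V → V → ℝ) (A : Finset V) (τ : V → Spin (n + 2)) (i k : V) :
    bInt (W c 0) A τ (fun S => inner ℝ (S i : EuclideanSpace ℝ (Fin (n + 2))) (S k))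
      = ∑ r, Cb c A τ i k r := by
  unfold Cb
  have cC : ∀ r, Continuous fun S : V → Spin (n + 2) =>
      (S i : EuclideanSpace ℝ (Fin (n + 2))) r * (S k : EuclideanSpace ℝ (Fin (n + 2))) r :=
    fun r => (continuous_coord i r).mul (continuous_coord k r)
  rw [← bInt_finsum (continuous_W c 0) A τ _ (fun r _ => cC r)]
  congr 1
  funext S
  rw [inner_eq]

lemma sum_P2 (c : V → V → ℝ) (A : Finset V) (τ : V → Spin (n + 2)) (i k : V) :
    ∑ q ∈ Finset.univ.erase (0 : Fin (n + 2)), bInt (W c 0) A τ (fun S => P2 q (S i) (S k))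
      = (n : ℝ) * Cb c A τ i k 0 + ∑ r, Cb c A τ i k r := by
  have h1 : ∀ q, bInt (W c 0) A τ (fun S => P2 q (S i) (S k))
      = Cb c A τ i k 0 + Cb c A τ i k q := by
    intro q
    unfold Cb
    have cC : ∀ r, Continuous fun S : V → Spin (n + 2) =>
        (S i : EuclideanSpace ℝ (Fin (n + 2))) r * (S k : EuclideanSpace ℝ (Fin (n + 2))) r :=
      fun r => (continuous_coord i r).mul (continuous_coord k r)
    rw [← bInt_add (continuous_W c 0) A τ (cC 0) (cC q)]
    rfl
  simp_rw [h1]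
  rw [Finset.sum_add_distrib, Finset.sum_const, nsmul_eq_mul, card_erase, sum_split
    (fun r => Cb c A τ i k r)]
  ring

/-- the trivial bound -/
lemma sum_P2_le (c : V → V → ℝ) (A : Finset V) (τ : V → Spin (n + 2)) (i k : V) :
    |∑ q ∈ Finset.univ.erase (0 : Fin (n + 2)), bInt (W c 0) A τ (fun S => P2 q (S i) (S k))|
      ≤ ((n : ℝ) + 1) * bZ (W c 0) A τ := by
  refine (Finset.abs_sum_le_sum_abs _ _).trans ?_
  have h1 : ∀ q ∈ Finset.univ.erase (0 : Fin (n + 2)),
      |bInt (W c 0) A τ (fun S => P2 q (S i) (S k))| ≤ 1 * bZ (W c 0) A τ := by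
    intro q hq
    exact bInt_abs_le (continuous_W c 0) A τ (continuous_P2 q i k)
      (fun S => abs_P2_le (Finset.ne_of_mem_erase hq).symm (S i) (S k))
  refine (Finset.sum_le_sum h1).trans (le_of_eq ?_)
  rw [Finset.sum_const, nsmul_eq_mul, card_erase, one_mul]

/-- **the good bound** -/
lemma sum_P2_good (c : V → V → ℝ) (A : Finset V) (τ : V → Spin (n + 2)) (φ : V → ℝ)
    (hφ : ∀ i, i ∉ A → φ i = 0) {ε : ℝ} (hε : cost0 c φ ≤ ε) {s : ℝ} (hs : 0 < s)
    {i k : V} (hi : φ i = Real.pi / 4) (hk : φ k = Real.pi / 4) {a : ℝ}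
    (ha : |bInt (W c 0) A τ (fun S => inner ℝ (S i : EuclideanSpace ℝ (Fin (n + 2))) (S k))|
      ≤ a * bZ (W c 0) A τ) :
    |∑ q ∈ Finset.univ.erase (0 : Fin (n + 2)), bInt (W c 0) A τ (fun S => P2 q (S i) (S k))|
      ≤ (2 * ((n : ℝ) + 1) / ((n : ℝ) + 2) * a + n * (ε / (2 * s) + 2 * s))
        * bZ (W c 0) A τ := by
  have hε0 : 0 ≤ ε := (cost0_nonneg c φ).trans hε
  have hZ := bZ_pos (continuous_W (n := n) c 0) A τ
  set δ := ε / (2 * s) + 2 * s with hδ
  have hδ0 : 0 ≤ δ := by positivity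
  have hn2 : (0 : ℝ) < (n : ℝ) + 2 := by positivity
  rw [sum_P2]
  rw [sum_Cb] at ha
  have hr : ∀ r, |Cb c A τ i k r - Cb c A τ i k 0| ≤ δ * bZ (W c 0) A τ := by
    intro r
    by_cases h0 : (0 : Fin (n + 2)) = r
    · rw [← h0, sub_self, abs_zero]; positivity
    exact mw_bc h0 c A τ φ hφ hε hs hi hk
  have h1 : |((n : ℝ) + 2) * Cb c A τ i k 0 - ∑ r, Cb c A τ i k r|
      ≤ ((n : ℝ) + 2) * (δ * bZ (W c 0) A τ) := by
    have e : ((n : ℝ) + 2) * Cb c A τ i k 0 - ∑ r, Cb c A τ i k r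
        = ∑ r : Fin (n + 2), (Cb c A τ i k 0 - Cb c A τ i k r) := by
      rw [Finset.sum_sub_distrib]
      simp
    rw [e]
    refine (Finset.abs_sum_le_sum_abs _ _).trans ?_
    calc ∑ r : Fin (n + 2), |Cb c A τ i k 0 - Cb c A τ i k r|
        ≤ ∑ r : Fin (n + 2), δ * bZ (W c 0) A τ := Finset.sum_le_sum fun r _ => by
          rw [abs_sub_comm]; exact hr r
      _ = _ := by simp
  set X := Cb c A τ i k 0
  set Y := ∑ r, Cb c A τ i k r
  set Z := bZ (W c 0) A τ
  have e : (n : ℝ) * X + Y = (n / ((n : ℝ) + 2)) * (((n : ℝ) + 2) * X - Y)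
      + (2 * ((n : ℝ) + 1) / ((n : ℝ) + 2)) * Y := by
    field_simp
    ring
  rw [e]
  have hc1 : 0 ≤ (n : ℝ) / ((n : ℝ) + 2) := by positivity
  have hc2 : 0 ≤ 2 * ((n : ℝ) + 1) / ((n : ℝ) + 2) := by positivity
  calc |(n / ((n : ℝ) + 2)) * (((n : ℝ) + 2) * X - Y)
      + (2 * ((n : ℝ) + 1) / ((n : ℝ) + 2)) * Y|
      ≤ |(n / ((n : ℝ) + 2)) * (((n : ℝ) + 2) * X - Y)|
        + |(2 * ((n : ℝ) + 1) / ((n : ℝ) + 2)) * Y| := abs_add_le _ _
    _ = (n / ((n : ℝ) + 2)) * |((n : ℝ) + 2) * X - Y|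
        + (2 * ((n : ℝ) + 1) / ((n : ℝ) + 2)) * |Y| := by
        rw [abs_mul, abs_mul, abs_of_nonneg hc1, abs_of_nonneg hc2]
    _ ≤ (n / ((n : ℝ) + 2)) * (((n : ℝ) + 2) * (δ * Z))
        + (2 * ((n : ℝ) + 1) / ((n : ℝ) + 2)) * (a * Z) := by gcongr
    _ = _ := by field_simp; ring

/-- the quadratic form of the currents -/
lemma current_sum_le (c : V → V → ℝ) (A : Finset V) (ψ : V → ℝ)
    (hψ : ∀ i, i ∉ A → ψ i = 0) (τ : V → Spin (n + 2)) (κ : V → V → ℝ)
    (hκ : ∀ i k, ψ i ≠ ψ k →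
      |∑ q ∈ Finset.univ.erase (0 : Fin (n + 2)), bInt (W c 0) A τ (fun S => P2 q (S i) (S k))|
        ≤ κ i k * bZ (W c 0) A τ) :
    ∑ q ∈ Finset.univ.erase (0 : Fin (n + 2)), bInt (W c 0) A τ (fun S => Yq c ψ q S ^ 2)
      ≤ (∑ i, ∑ k, |c i k| * ((ψ i - ψ k) ^ 2 * κ i k)) * bZ (W c 0) A τ := by
  have h1 : ∀ q ∈ Finset.univ.erase (0 : Fin (n + 2)),
      bInt (W c 0) A τ (fun S => Yq c ψ q S ^ 2)
        = ∑ i, ∑ k, c i k * ((ψ i - ψ k) ^ 2 * bInt (W c 0) A τ (fun S => P2 q (S i) (S k))) := by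
    intro q hq
    rw [ward_current c A ψ (Finset.ne_of_mem_erase hq).symm hψ τ]
    have cP : ∀ i k, Continuous fun S : V → Spin (n + 2) =>
        c i k * ((ψ i - ψ k) ^ 2 * P2 q (S i : EuclideanSpace ℝ (Fin (n + 2))) (S k)) :=
      fun i k => continuous_const.mul (continuous_const.mul (continuous_P2 q i k))
    rw [bInt_finsum (continuous_W c 0) A τ _ (fun i _ => continuous_finsetSum _ fun k _ => cP i k)]
    refine Finset.sum_congr rfl fun i _ => ?_
    rw [bInt_finsum (continuous_W c 0) A τ _ (fun k _ => cP i k)]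
    refine Finset.sum_congr rfl fun k _ => ?_
    rw [bInt_smul, bInt_smul]
  rw [Finset.sum_congr rfl h1, Finset.sum_comm, Finset.sum_mul]
  refine Finset.sum_le_sum fun i _ => ?_
  rw [Finset.sum_comm, Finset.sum_mul]
  refine Finset.sum_le_sum fun k _ => ?_
  rw [← Finset.mul_sum, ← Finset.mul_sum]
  by_cases hik : ψ i = ψ k
  · rw [hik]; simp
  · have h2 := hκ i k hik
    calc c i k * ((ψ i - ψ k) ^ 2 * ∑ q ∈ Finset.univ.erase (0 : Fin (n + 2)),
          bInt (W c 0) A τ (fun S => P2 q (S i) (S k)))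
        ≤ |c i k * ((ψ i - ψ k) ^ 2 * ∑ q ∈ Finset.univ.erase (0 : Fin (n + 2)),
          bInt (W c 0) A τ (fun S => P2 q (S i) (S k)))| := le_abs_self _
      _ = |c i k| * ((ψ i - ψ k) ^ 2 * |∑ q ∈ Finset.univ.erase (0 : Fin (n + 2)),
          bInt (W c 0) A τ (fun S => P2 q (S i) (S k))|) := by
          rw [abs_mul, abs_mul, abs_of_nonneg (sq_nonneg (ψ i - ψ k))]
      _ ≤ |c i k| * ((ψ i - ψ k) ^ 2 * (κ i k * bZ (W c 0) A τ)) := by gcongr
      _ = _ := by ring

end

end Pool.Agent.NVec
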