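import Mathlib

/-!
Real analysis lemmas for the multiscale recursion.
-/

open Set Filter Topology

namespace Pool.Agent.NVec

noncomputable section

/-- tangent line inequality for the convex function `K ↦ log (1 + a/K)` -/
lemma log_tangent {a K K' : ℝ} (ha : 0 < a) (hK : 0 < K) (hK' : 0 < K') :
    Real.log (1 + a / K') - a / (K' * (K' + a)) * (K - K') ≤ Real.log (1 + a / K) := by
  have h1 : 0 < 1 + a / K := by positivity
  have h1' : 0 < 1 + a / K' := by positivity
  have h2 : Real.log (1 + a / K') - Real.log (1 + a / K)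
      ≤ (1 + a / K') / (1 + a / K) - 1 := by
    rw [← Real.log_div h1'.ne' h1.ne']
    exact Real.log_le_sub_one_of_pos (by positivity)
  have h3 : (1 + a / K') / (1 + a / K) - 1 = a * (K - K') / (K' * (K + a)) := by
    field_simp
    ring
  have h4 : a * (K - K') / (K' * (K + a)) ≤ a / (K' * (K' + a)) * (K - K') := by
    rw [div_mul_eq_mul_div, div_le_div_iff₀ (by positivity) (by positivity)]
    have h5 : a * (K - K') * (K' * (K + a)) - a * (K - K') * (K' * (K' + a))
        = a * K' * (K - K') ^ 2 := by ring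
    have h6 : 0 ≤ a * K' * (K - K') ^ 2 := by positivity
    linarith
  linarith

/-- the multiscale recursion -/
lemma recursion_bound {a ε₀ Kb C₁ C₂ q : ℝ} (ha : 0 < a) (hε : 0 < ε₀) (hKb : 0 < Kb)
    (hC₂ : 0 ≤ C₂) (hq : 0 ≤ q) (hqG : q * Real.sqrt (1 + a / ε₀) ≤ 1 / 2)
    (k₁ : ℕ) (N : ℕ) (K ρ m : ℕ → ℝ) (hK : ∀ k, ε₀ ≤ K k)
    (hρ : ∀ k, k₁ ≤ k → k < N → ρ k ≤ C₂ * q ^ k) (hm1 : m k₁ ≤ 1)
    (hrec : ∀ k, k₁ ≤ k → k < N → m (k + 1) ≤ m k / Real.sqrt (1 + a / K k) + ρ k)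
    (hsum : ∑ k ∈ Finset.Ico k₁ N, K k ≤ Kb * ((N : ℝ) - k₁) + C₁) (hN : k₁ ≤ N) :
    m N ≤ (1 + 2 * C₂ * Real.sqrt (1 + a / ε₀)) * Real.exp (a / (Kb * (Kb + a)) * C₁ / 2)
      * Real.exp (-(((N : ℝ) - k₁) * Real.log (1 + a / Kb)) / 2) := by
  set G := Real.sqrt (1 + a / ε₀) with hG
  have hG1 : 1 ≤ G := by
    rw [hG]; apply Real.le_sqrt_of_sq_le
    have : 0 < a / ε₀ := by positivity
    linarith
  have hKpos : ∀ k, 0 < K k := fun k => lt_of_lt_of_le hε (hK k)
  set g : ℕ → ℝ := fun k => Real.sqrt (1 + a / K k) with hg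
  have hg0 : ∀ k, 0 < g k := fun k => Real.sqrt_pos.2 (by have := hKpos k; positivity)
  have hgG : ∀ k, g k ≤ G := fun k => by
    apply Real.sqrt_le_sqrt
    have := hK k
    gcongr
  set P : ℕ → ℝ := fun M => ∏ k ∈ Finset.Ico k₁ M, (g k)⁻¹ with hP
  have hP0 : ∀ M, 0 < P M := fun M => Finset.prod_pos fun k _ => inv_pos.2 (hg0 k)
  have hPsucc : ∀ M, k₁ ≤ M → P (M + 1) = P M * (g M)⁻¹ := fun M hM => by
    rw [hP]; exact Finset.prod_Ico_succ_top hM _
  have hPG : ∀ M, k₁ ≤ M → 1 ≤ P M * G ^ M := by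
    intro M hM
    induction M, hM using Nat.le_induction with
    | base =>
      have : P k₁ = 1 := by rw [hP]; simp
      rw [this, one_mul]
      exact one_le_pow₀ hG1
    | succ M hM ih =>
      rw [hPsucc M hM, pow_succ]
      have h1 : 1 ≤ (g M)⁻¹ * G := by
        rw [inv_mul_eq_div, le_div_iff₀ (hg0 M), one_mul]; exact hgG M
      calc (1 : ℝ) ≤ (P M * G ^ M) * ((g M)⁻¹ * G) := one_le_mul_of_one_le_of_one_le ih h1
        _ = _ := by ring
  have hkey : ∀ M, k₁ ≤ M → M ≤ N →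
      m M ≤ P M * (1 + ∑ k ∈ Finset.Ico k₁ M, C₂ * G * (q * G) ^ k) := by
    intro M hM
    induction M, hM using Nat.le_induction with
    | base =>
      intro _
      have : P k₁ = 1 := by rw [hP]; simp
      rw [this]
      simpa using hm1
    | succ M hM ih =>
      intro hMN
      have hMN' : M < N := by omega
      have h1 := ih hMN'.le
      have h2 := hrec M hM hMN'
      have h3 := hρ M hM hMN'
      rw [hPsucc M hM, Finset.sum_Ico_succ_top hM]
      have h4 : m M / g M ≤ P M * (g M)⁻¹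
          * (1 + ∑ k ∈ Finset.Ico k₁ M, C₂ * G * (q * G) ^ k) := by
        rw [div_eq_mul_inv]
        have := mul_le_mul_of_nonneg_right h1 (inv_pos.2 (hg0 M)).le
        linarith
      have h5 : C₂ * q ^ M ≤ P M * (g M)⁻¹ * (C₂ * G * (q * G) ^ M) := by
        have h6 := hPG (M + 1) (by omega)
        rw [hPsucc M hM] at h6
        have h7 : 0 ≤ C₂ * q ^ M := by positivity
        calc C₂ * q ^ M = C₂ * q ^ M * 1 := by ring
          _ ≤ C₂ * q ^ M * (P M * (g M)⁻¹ * G ^ (M + 1)) := by gcongr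
          _ = _ := by rw [mul_pow, pow_succ]; ring
      have h2' : m (M + 1) ≤ m M / g M + ρ M := h2
      linarith
  have h1 := hkey N hN le_rfl
  have h2 : ∑ k ∈ Finset.Ico k₁ N, C₂ * G * (q * G) ^ k ≤ 2 * C₂ * G := by
    have hqG0 : 0 ≤ q * G := by positivity
    have hlt : q * G < 1 := by linarith
    calc ∑ k ∈ Finset.Ico k₁ N, C₂ * G * (q * G) ^ k
        ≤ ∑ k ∈ Finset.range N, C₂ * G * (q * G) ^ k := by
          apply Finset.sum_le_sum_of_subset_of_nonneg
          · intro k hk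
            rw [Finset.mem_range]
            exact (Finset.mem_Ico.1 hk).2
          · intro k _ _
            positivity
      _ = C₂ * G * ∑ k ∈ Finset.range N, (q * G) ^ k := by rw [Finset.mul_sum]
      _ ≤ C₂ * G * (1 - q * G)⁻¹ := by
          gcongr
          rw [← tsum_geometric_of_lt_one hqG0 hlt]
          exact (summable_geometric_of_lt_one hqG0 hlt).sum_le_tsum _ (fun k _ => by positivity)
      _ ≤ C₂ * G * 2 := by
          gcongr
          rw [inv_le_comm₀ (by linarith) (by norm_num)]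
          linarith
      _ = _ := by ring
  have h3 : P N ≤ Real.exp (a / (Kb * (Kb + a)) * C₁ / 2)
      * Real.exp (-(((N : ℝ) - k₁) * Real.log (1 + a / Kb)) / 2) := by
    have hPlog : P N = Real.exp (-(∑ k ∈ Finset.Ico k₁ N, Real.log (1 + a / K k)) / 2) := by
      rw [hP]
      have e : ∀ k, (g k)⁻¹ = Real.exp (-(Real.log (1 + a / K k)) / 2) := by
        intro k
        have h4 : 0 < 1 + a / K k := by have := hKpos k; positivity
        rw [hg]
        simp only
        rw [neg_div, Real.exp_neg, Real.sqrt_eq_rpow, Real.rpow_def_of_pos h4]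
        congr 2
        ring
      simp_rw [e]
      rw [← Real.exp_sum]
      congr 1
      rw [← Finset.sum_div, Finset.sum_neg_distrib]
    rw [hPlog, ← Real.exp_add]
    apply Real.exp_le_exp.2
    set D := a / (Kb * (Kb + a)) with hD
    have hD0 : 0 < D := by positivity
    have h4 : ∑ k ∈ Finset.Ico k₁ N, (Real.log (1 + a / Kb) - D * (K k - Kb))
        ≤ ∑ k ∈ Finset.Ico k₁ N, Real.log (1 + a / K k) :=
      Finset.sum_le_sum fun k _ => log_tangent ha (hKpos k) hKb
    rw [Finset.sum_sub_distrib, Finset.sum_const, Nat.card_Ico, nsmul_eq_mul, ← Finset.mul_sum,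
      Finset.sum_sub_distrib, Finset.sum_const, Nat.card_Ico, nsmul_eq_mul, Nat.cast_sub hN] at h4
    have h5 : D * (∑ k ∈ Finset.Ico k₁ N, K k - ((N : ℝ) - k₁) * Kb) ≤ D * C₁ := by
      apply mul_le_mul_of_nonneg_left _ hD0.le
      linarith
    linarith
  have h6 : 0 ≤ 1 + ∑ k ∈ Finset.Ico k₁ N, C₂ * G * (q * G) ^ k := by
    have : 0 ≤ ∑ k ∈ Finset.Ico k₁ N, C₂ * G * (q * G) ^ k :=
      Finset.sum_nonneg fun k _ => by positivity
    linarith
  calc m N ≤ P N * (1 + ∑ k ∈ Finset.Ico k₁ N, C₂ * G * (q * G) ^ k) := h1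
    _ ≤ (Real.exp (a / (Kb * (Kb + a)) * C₁ / 2)
      * Real.exp (-(((N : ℝ) - k₁) * Real.log (1 + a / Kb)) / 2)) * (1 + 2 * C₂ * G) := by
        apply mul_le_mul h3 (by linarith) h6 (by positivity)
    _ = _ := by ring

/-- the piece of a ramp -/
def cl (w t s : ℝ) : ℝ := max 0 (min w (t - s))

lemma cl_anti {w t s s' : ℝ} (h : s ≤ s') : cl w t s' ≤ cl w t s := by
  unfold cl
  apply max_le_max_left
  apply min_le_min_left
  linarith

lemma cl_sum {w s : ℝ} (hw : 0 ≤ w) (hs : 0 ≤ s) (N : ℕ) :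
    ∑ k ∈ Finset.range N, cl w (((k : ℝ) + 1) * w) s = max 0 ((N : ℝ) * w - s) := by
  induction N with
  | zero => simp [hs]
  | succ N ih =>
    rw [Finset.sum_range_succ, ih]
    unfold cl
    push_cast
    rcases le_total s ((N : ℝ) * w) with h | h
    · rw [max_eq_right (by linarith), min_eq_left (by linarith), max_eq_right hw,
        max_eq_right (by linarith)]
      ring
    · rw [max_eq_left (by linarith : (N : ℝ) * w - s ≤ 0), min_eq_right (by linarith), zero_add]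

/-- the ramp with margins -/
def rampf (w t δ s : ℝ) : ℝ := max 0 (min 1 ((t - δ - s) / (w - 2 * δ)))

lemma rampf_eq {w t δ s : ℝ} (hw : 0 < w - 2 * δ) :
    rampf w t δ s = max 0 (min (w - 2 * δ) (t - δ - s)) / (w - 2 * δ) := by
  unfold rampf
  rw [← max_div_div_right hw.le, ← min_div_div_right hw.le, zero_div, div_self hw.ne']

lemma rampf_diff {w t δ s s' : ℝ} (hδ : 0 ≤ δ) (hw : 0 < w - 2 * δ) (h : s ≤ s') :
    0 ≤ rampf w t δ s - rampf w t δ s' ∧
    (w - 2 * δ) * (rampf w t δ s - rampf w t δ s') ≤ cl w t s - cl w t s' := by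
  rw [rampf_eq hw, rampf_eq hw, ← sub_div, mul_div_cancel₀ _ hw.ne']
  constructor
  · apply div_nonneg _ hw.le
    rw [sub_nonneg]
    apply max_le_max_left
    apply min_le_min_left
    linarith
  · unfold cl
    simp only [max_def, min_def]
    split_ifs <;> linarith

lemma rampf_zero {w t δ s : ℝ} (hw : 0 < w - 2 * δ) (h : t - δ ≤ s) : rampf w t δ s = 0 := by
  unfold rampf
  apply max_eq_left
  apply (min_le_right _ _).trans
  apply div_nonpos_of_nonpos_of_nonneg _ hw.le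
  linarith

lemma rampf_one {w t δ s : ℝ} (hw : 0 < w - 2 * δ) (h : s ≤ t - w + δ) : rampf w t δ s = 1 := by
  unfold rampf
  have : 1 ≤ (t - δ - s) / (w - 2 * δ) := by
    rw [le_div_iff₀ hw]; linarith
  rw [min_eq_left this]
  exact max_eq_right zero_le_one

lemma rampf_mem {w t δ s : ℝ} : 0 ≤ rampf w t δ s ∧ rampf w t δ s ≤ 1 := by
  unfold rampf
  exact ⟨le_max_left _ _, max_le zero_le_one (min_le_left _ _)⟩

/-- the sum of the squares of the ramp increments -/
lemma rampf_sum_sq {w δ : ℝ} (hδ : 0 ≤ δ) (hw : 0 < w - 2 * δ) {s s' : ℝ} (hs : 0 ≤ s)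
    (hs' : 0 ≤ s') (N : ℕ) :
    (w - 2 * δ) ^ 2 * ∑ k ∈ Finset.range N,
      (rampf w (((k : ℝ) + 1) * w) δ s - rampf w (((k : ℝ) + 1) * w) δ s') ^ 2
      ≤ (max 0 ((N : ℝ) * w - s) - max 0 ((N : ℝ) * w - s')) ^ 2 := by
  have hw0 : 0 ≤ w := by linarith
  wlog h : s ≤ s' generalizing s s'
  · have h1 := this hs' hs (le_of_not_ge h)
    have e : ∀ k : ℕ, (rampf w (((k : ℝ) + 1) * w) δ s - rampf w (((k : ℝ) + 1) * w) δ s') ^ 2
        = (rampf w (((k : ℝ) + 1) * w) δ s' - rampf w (((k : ℝ) + 1) * w) δ s) ^ 2 :=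
      fun k => by ring
    have e2 : (max 0 ((N : ℝ) * w - s) - max 0 ((N : ℝ) * w - s')) ^ 2
        = (max 0 ((N : ℝ) * w - s') - max 0 ((N : ℝ) * w - s)) ^ 2 := by ring
    simp_rw [e]
    rw [e2]
    exact h1
  rw [← cl_sum hw0 hs, ← cl_sum hw0 hs', ← Finset.sum_sub_distrib, Finset.mul_sum]
  have h1 : ∀ k ∈ Finset.range N, (w - 2 * δ) ^ 2 *
      (rampf w (((k : ℝ) + 1) * w) δ s - rampf w (((k : ℝ) + 1) * w) δ s') ^ 2
      ≤ (cl w (((k : ℝ) + 1) * w) s - cl w (((k : ℝ) + 1) * w) s') ^ 2 := by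
    intro k _
    obtain ⟨h2, h3⟩ := rampf_diff (t := ((k : ℝ) + 1) * w) hδ hw h
    rw [← mul_pow]
    have h4 : 0 ≤ (w - 2 * δ) * (rampf w (((k : ℝ) + 1) * w) δ s
      - rampf w (((k : ℝ) + 1) * w) δ s') := mul_nonneg hw.le h2
    gcongr
  refine (Finset.sum_le_sum h1).trans ?_
  apply Finset.sum_sq_le_sq_sum_of_nonneg
  intro k _
  have := cl_anti (w := w) (t := ((k : ℝ) + 1) * w) h
  linarith

end

end Pool.Agent.NVec
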