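import Pool.Agent.H.MP_8be4c0_mp.Far
import Pool.Agent.H.MP_8be4c0_mp.BcMW
import Pool.Agent.H.MP_8be4c0_mp.Seq

/-!
Balls and annuli on the torus.
-/

open MeasureTheory Set Filter Topology

namespace Pool.Agent.NVec

set_option linter.unusedSectionVars false

noncomputable section

section

variable {L : ℕ} [NeZero L]

/-- `√(1+|z|²)` -/
def el (z : Torus L) : ℝ := Real.exp (ll z)

lemma el_eq (z : Torus L) : el z = Real.sqrt (1 + tnorm z ^ 2) := by
  unfold el ll
  rw [Real.sqrt_eq_rpow, Real.rpow_def_of_pos (by positivity)]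
  congr 1
  ring

lemma el_pos (z : Torus L) : 0 < el z := Real.exp_pos _

lemma tnorm_le_el (z : Torus L) : tnorm z ≤ el z := by
  rw [el_eq]
  apply Real.le_sqrt_of_sq_le
  linarith

lemma el_lip (z w : Torus L) : el (z + w) ≤ el z + tnorm w := by
  rw [el_eq, el_eq]
  have h1 := tnorm_add_le z w
  have h2 := tnorm_nonneg z
  have h3 := tnorm_nonneg w
  have h4 := tnorm_nonneg (z + w)
  rw [Real.sqrt_le_left (by positivity)]
  have h5 : Real.sqrt (1 + tnorm z ^ 2) ^ 2 = 1 + tnorm z ^ 2 := Real.sq_sqrt (by positivity)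
  have h6 : tnorm z ≤ Real.sqrt (1 + tnorm z ^ 2) := by
    apply Real.le_sqrt_of_sq_le; linarith
  have h7 : tnorm (z + w) ^ 2 ≤ (tnorm z + tnorm w) ^ 2 := by gcongr
  nlinarith

/-- the ball of logarithmic radius `t` around `x` -/
def bal (x : Torus L) (t : ℝ) : Finset (Torus L) := Finset.univ.filter fun z => ll (z - x) ≤ t

lemma mem_bal {x : Torus L} {t : ℝ} {z : Torus L} : z ∈ bal x t ↔ ll (z - x) ≤ t := by
  unfold bal; simp

lemma bal_mono (x : Torus L) {t t' : ℝ} (h : t ≤ t') : bal x t ⊆ bal x t' := by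
  intro z hz
  rw [mem_bal] at *
  linarith

/-- the ramp of the annulus `[t-w, t]` around `x` -/
def psi (w δ t : ℝ) (x z : Torus L) : ℝ := rampf w t δ (ll (z - x))

lemma psi_zero {w δ t : ℝ} (hw : 0 < w - 2 * δ) (hδ : 0 ≤ δ) (x z : Torus L)
    (hz : z ∉ bal x t) : psi w δ t x z = 0 := by
  rw [mem_bal] at hz
  push Not at hz
  exact rampf_zero hw (by linarith)

lemma psi_one {w δ t : ℝ} (hw : 0 < w - 2 * δ) (hδ : 0 ≤ δ) (x z : Torus L)
    (hz : z ∈ bal x (t - w)) : psi w δ t x z = 1 := by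
  rw [mem_bal] at hz
  exact rampf_one hw (by linarith)

/-- the long range error of an annulus -/
lemma rho_annulus {J : ℤ × ℤ → ℝ} (hJ : ∀ p : ℕ, Summable fun m => |J m| * (1 + nrm m) ^ p)
    {β : ℝ} (hβ : 0 ≤ β) {w δ t : ℝ} (hw : 0 < w - 2 * δ) (hδ : 0 < δ) (htw : 0 ≤ t - w)
    (p : ℕ) (x : Torus L) :
    rho (cc L J β) (psi w δ t x) (bal x (t - w))
      ≤ 18 * β * Sm J (p + 2) / (Real.exp δ - 1) ^ (p + 2) * Real.exp (-(t - w)) ^ p := by
  classical
  have hsum := summable_abs hJ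
  set B := bal x (t - w) with hB
  set ψ := psi w δ t x with hψ
  set d : ℝ := Real.exp (t - w) * (Real.exp δ - 1) with hd
  have hed : 0 < Real.exp δ - 1 := by
    have := Real.add_one_lt_exp hδ.ne'; linarith
  have hd0 : 0 < d := by positivity
  have hψ1 : ∀ z, |1 - ψ z| ≤ 1 := fun z => by
    obtain ⟨h1, h2⟩ := rampf_mem (w := w) (t := t) (δ := δ) (s := ll (z - x))
    have h3 : ψ z = rampf w t δ (ll (z - x)) := rfl
    rw [h3, abs_of_nonneg (by linarith)]; linarith
  -- distance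
  have hdist : ∀ i ∈ B, ∀ k, ψ k ≠ 1 → d ≤ tnorm (k - i) := by
    intro i hi k hk
    have h1 : ll (i - x) ≤ t - w := mem_bal.1 hi
    have h2 : t - w + δ < ll (k - x) := by
      by_contra hc
      push Not at hc
      exact hk (rampf_one hw hc)
    have h3 : el (k - x) ≤ el (i - x) + tnorm (k - i) := by
      have := el_lip (i - x) (k - i)
      have e : i - x + (k - i) = k - x := by abel
      rwa [e] at this
    have h4 : el (i - x) ≤ Real.exp (t - w) := Real.exp_le_exp.2 h1
    have h5 : Real.exp (t - w) * Real.exp δ ≤ el (k - x) := by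
      rw [← Real.exp_add]; exact Real.exp_le_exp.2 h2.le
    rw [hd]
    linarith
  set F : Torus L → Torus L → ℝ := fun i k => if d ≤ tnorm (k - i) then β else 0 with hF
  have hF0 : ∀ i k, 0 ≤ F i k := fun i k => by
    rw [hF]; simp only; split_ifs <;> linarith
  set g : ℤ × ℤ → ℝ := fun m => β / d ^ (p + 2) * (1 + nrm m) ^ (p + 2) with hg
  have hgs : Summable fun m => |J m| * g m := by
    have : (fun m => |J m| * g m) = fun m => β / d ^ (p + 2) * (|J m| * (1 + nrm m) ^ (p + 2)) := by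
      funext m; rw [hg]; ring
    rw [this]
    exact (hJ (p + 2)).mul_left _
  have hgsum : ∑' m, |J m| * g m = β / d ^ (p + 2) * Sm J (p + 2) := by
    have : (fun m => |J m| * g m) = fun m => β / d ^ (p + 2) * (|J m| * (1 + nrm m) ^ (p + 2)) := by
      funext m; rw [hg]; ring
    rw [this, tsum_mul_left]
    rfl
  have hFg : ∀ (m : ℤ × ℤ) (z : Torus L), tnorm z ≤ nrm m →
      (if d ≤ tnorm z then β else 0) ≤ g m := by
    intro m z hz
    have hn := nrm_nonneg m
    rw [hg]
    simp only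
    split_ifs with h
    · have h1 : 1 ≤ (1 + nrm m) / d := by
        rw [le_div_iff₀ hd0]; linarith
      have h2 : 1 ≤ ((1 + nrm m) / d) ^ (p + 2) := one_le_pow₀ h1
      calc β = β * 1 := by ring
        _ ≤ β * ((1 + nrm m) / d) ^ (p + 2) := by gcongr
        _ = _ := by rw [div_pow]; ring
    · positivity
  have hrow : ∀ i, ∑ k, |cc L J β i k| * (if d ≤ tnorm (k - i) then 1 else 0)
      ≤ β / d ^ (p + 2) * Sm J (p + 2) := by
    intro i
    rw [← hgsum]
    have h1 := row_sum_le hsum i (F i) (hF0 i) g hgs (fun m => by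
      rw [hF]; simp only
      apply hFg
      rw [add_sub_cancel_left]
      exact tnorm_proj_le m)
    refine le_trans (le_of_eq ?_) h1
    refine Finset.sum_congr rfl fun k _ => ?_
    rw [hF]
    unfold cc
    rw [abs_mul, abs_of_nonneg hβ]
    simp only
    split_ifs <;> ring
  have hcol : ∀ k, ∑ i, |cc L J β i k| * (if d ≤ tnorm (k - i) then 1 else 0)
      ≤ β / d ^ (p + 2) * Sm J (p + 2) := by
    intro k
    rw [← hgsum]
    have h1 := col_sum_le hsum k (fun i => F i k) (fun i => hF0 i k) g hgs (fun m => by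
      rw [hF]; simp only
      apply hFg
      rw [sub_sub_cancel]
      exact tnorm_proj_le m)
    refine le_trans (le_of_eq ?_) h1
    refine Finset.sum_congr rfl fun i _ => ?_
    rw [hF]
    unfold cc
    rw [abs_mul, abs_of_nonneg hβ]
    simp only
    split_ifs <;> ring
  -- the double sum
  have hpt : ∀ i k, (if i ∈ B ∨ k ∈ B then |cc L J β i k| * |ψ i - ψ k| else 0)
      ≤ (if i ∈ B then |cc L J β i k| * (if d ≤ tnorm (k - i) then 1 else 0) else 0)
        + (if k ∈ B then |cc L J β i k| * (if d ≤ tnorm (k - i) then 1 else 0) else 0) := by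
    intro i k
    have hc := abs_nonneg (cc L J β i k)
    have h01 : (0 : ℝ) ≤ (if d ≤ tnorm (k - i) then 1 else 0) := by split_ifs <;> norm_num
    by_cases hi : i ∈ B
    · have h1 : ψ i = 1 := psi_one hw hδ.le x i hi
      have h2 : |ψ i - ψ k| ≤ (if d ≤ tnorm (k - i) then 1 else 0) := by
        rw [h1]
        by_cases hk : ψ k = 1
        · rw [hk, sub_self, abs_zero]; exact h01
        · rw [if_pos (hdist i hi k hk)]; exact hψ1 k
      have h3 : 0 ≤ (if k ∈ B then |cc L J β i k| * (if d ≤ tnorm (k - i) then (1 : ℝ) else 0)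
          else 0) := by
        split_ifs <;> positivity
      rw [if_pos (Or.inl hi), if_pos hi]
      have h4 := mul_le_mul_of_nonneg_left h2 hc
      linarith
    · by_cases hk : k ∈ B
      · have h1 : ψ k = 1 := psi_one hw hδ.le x k hk
        have h2 : |ψ i - ψ k| ≤ (if d ≤ tnorm (k - i) then 1 else 0) := by
          rw [h1]
          by_cases hi' : ψ i = 1
          · rw [hi', sub_self, abs_zero]; exact h01
          · have h5 := hdist k hk i hi'
            rw [tnorm_sub_comm] at h5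
            rw [if_pos h5, abs_sub_comm]; exact hψ1 i
        rw [if_pos (Or.inr hk), if_neg hi, if_pos hk, zero_add]
        exact mul_le_mul_of_nonneg_left h2 hc
      · simp [hi, hk]
  have hcard : ((B.card : ℕ) : ℝ) ≤ 9 * Real.exp (t - w) ^ 2 := by
    have h1 : 1 ≤ Real.exp (t - w) := Real.one_le_exp htw
    have h2 := card_ball_le x (Real.exp_pos (t - w)).le B (fun i hi => by
      have h3 : ll (i - x) ≤ t - w := mem_bal.1 hi
      exact (tnorm_le_el _).trans (Real.exp_le_exp.2 h3))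
    refine h2.trans ?_
    nlinarith
  have hmain : rho (cc L J β) ψ B ≤ 2 * ((B.card : ℝ) * (β / d ^ (p + 2) * Sm J (p + 2))) := by
    unfold rho
    refine (Finset.sum_le_sum fun i _ => Finset.sum_le_sum fun k _ => hpt i k).trans ?_
    simp_rw [Finset.sum_add_distrib]
    have h1 : ∑ i, ∑ k, (if i ∈ B then |cc L J β i k| * (if d ≤ tnorm (k - i) then (1 : ℝ) else 0)
        else 0) ≤ (B.card : ℝ) * (β / d ^ (p + 2) * Sm J (p + 2)) := by
      have e : ∀ i, ∑ k, (if i ∈ B then |cc L J β i k| * (if d ≤ tnorm (k - i) then (1 : ℝ) else 0)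
          else 0) = if i ∈ B then ∑ k, |cc L J β i k| * (if d ≤ tnorm (k - i) then (1 : ℝ) else 0)
          else 0 := by
        intro i; split_ifs with h
        · rfl
        · simp
      simp_rw [e]
      rw [← Finset.sum_filter, Finset.filter_mem_eq_inter, Finset.univ_inter]
      refine (Finset.sum_le_sum fun i _ => hrow i).trans (le_of_eq ?_)
      rw [Finset.sum_const, nsmul_eq_mul]
    have h2 : ∑ i, ∑ k, (if k ∈ B then |cc L J β i k| * (if d ≤ tnorm (k - i) then (1 : ℝ) else 0)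
        else 0) ≤ (B.card : ℝ) * (β / d ^ (p + 2) * Sm J (p + 2)) := by
      rw [Finset.sum_comm]
      have e : ∀ k, ∑ i, (if k ∈ B then |cc L J β i k| * (if d ≤ tnorm (k - i) then (1 : ℝ) else 0)
          else 0) = if k ∈ B then ∑ i, |cc L J β i k| * (if d ≤ tnorm (k - i) then (1 : ℝ) else 0)
          else 0 := by
        intro k; split_ifs with h
        · rfl
        · simp
      simp_rw [e]
      rw [← Finset.sum_filter, Finset.filter_mem_eq_inter, Finset.univ_inter]
      refine (Finset.sum_le_sum fun i _ => hcol i).trans (le_of_eq ?_)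
      rw [Finset.sum_const, nsmul_eq_mul]
    linarith
  have hS := Sm_nonneg J (p + 2)
  have hE := Real.exp_pos (t - w)
  calc rho (cc L J β) ψ B ≤ 2 * ((B.card : ℝ) * (β / d ^ (p + 2) * Sm J (p + 2))) := hmain
    _ ≤ 2 * ((9 * Real.exp (t - w) ^ 2) * (β / d ^ (p + 2) * Sm J (p + 2))) := by gcongr
    _ = _ := by
      rw [hd, mul_pow, Real.exp_neg, inv_pow]
      field_simp
      ring

end

/-- the cost of the isotropic spin wave -/
lemma cost0_prof_le {L : ℕ} [NeZero L] {J : ℤ × ℤ → ℝ}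
    (hJ : ∀ p : ℕ, Summable fun m => |J m| * (1 + nrm m) ^ p)
    {β : ℝ} (hβ : 0 ≤ β) {R h : ℝ} (hR : 1 ≤ R) (hh : 0 < h) (i : Torus L) :
    cost0 (cc L J β) (prof R h i)
      ≤ β * ((Real.pi / 4) ^ 2 / h ^ 2 * 23 * (1 + Real.log R)) * Sm J 7 := by
  have hsum := summable_abs hJ
  have hR0 : 0 < R := by linarith
  have hlogR : 0 ≤ Real.log R := Real.log_nonneg hR
  set φ : Torus L → ℝ := prof R h i with hφ
  set F : Torus L → Torus L → ℝ := fun j l => β * (φ j - φ l) ^ 2 with hF
  have hF0 : ∀ j l, 0 ≤ F j l := fun j l => by rw [hF]; positivity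
  have hstep : cost0 (cc L J β) φ = ∑ j, ∑ l, |perJ L J (l - j)| * F j l := by
    unfold cost0 cc
    refine Finset.sum_congr rfl fun j _ => Finset.sum_congr rfl fun l _ => ?_
    rw [abs_mul, abs_of_nonneg hβ, hF]
    ring
  rw [hstep]
  set g : ℤ × ℤ → ℝ := fun m => β * ((Real.pi / 4) ^ 2 / h ^ 2 * 23 * (1 + Real.log R))
      * (1 + nrm m) ^ 7 with hg
  have heq : (fun m => |J m| * g m) = fun m =>
      β * ((Real.pi / 4) ^ 2 / h ^ 2 * 23 * (1 + Real.log R)) * (|J m| * (1 + nrm m) ^ 7) := by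
    funext m
    rw [hg]
    ring
  have hgs : Summable fun m => |J m| * g m := by
    rw [heq]; exact (hJ 7).mul_left _
  refine (double_sum_le hsum F hF0 g hgs (fun m => ?_)).trans (le_of_eq ?_)
  · set w : Torus L := proj L m with hw
    have hwm : tnorm w ≤ nrm m := tnorm_proj_le m
    have h2 : ∀ j : Torus L, F j (j + w)
        ≤ β * ((Real.pi / 4) ^ 2 / h ^ 2 * (bump R ((j - i) + w) - bump R (j - i)) ^ 2) := by
      intro j
      have := prof_diff_sq (R := R) hh i j (j + w)
      rw [sub_eq1] at this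
      exact mul_le_mul_of_nonneg_left this hβ
    refine (Finset.sum_le_sum fun j _ => h2 j).trans ?_
    rw [← Finset.mul_sum, ← Finset.mul_sum,
      sum_shift (fun j => (bump R (j + w) - bump R j) ^ 2) i, hg]
    have h3 := bump_energy_le hR w hwm
    calc β * ((Real.pi / 4) ^ 2 / h ^ 2 * ∑ j : Torus L, (bump R (j + w) - bump R j) ^ 2)
        ≤ β * ((Real.pi / 4) ^ 2 / h ^ 2 * (23 * (1 + nrm m) ^ 7 * (1 + Real.log R))) := by
          gcongr
      _ = _ := by ring
  · rw [heq, tsum_mul_left]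
    rfl

/-- **Good pairs.** -/
theorem good_kappa (n : ℕ) {J : ℤ × ℤ → ℝ}
    (hJ : ∀ p : ℕ, Summable fun m => |J m| * (1 + nrm m) ^ p)
    {β : ℝ} (hβ : 0 ≤ β) {M : ℝ} (hM : 0 ≤ M) {κ₀ : ℝ}
    (hκ : 2 * ((n : ℝ) + 1) / ((n : ℝ) + 2) * mag (n + 2) (2 * β * Jbar J) < κ₀) :
    ∃ R : ℝ, 0 ≤ R ∧ ∀ (L : ℕ) [NeZero L] (A : Finset (Torus L)) (τ : Torus L → Spin (n + 2))
      (i k : Torus L), i ≠ k → tnorm (k - i) ≤ M → (∀ j, tnorm (j - i) ≤ R → j ∈ A) →
      |∑ q ∈ Finset.univ.erase (0 : Fin (n + 2)),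
        bInt (W (cc L J β) 0) A τ (fun S => P2 q (S i) (S k))|
        ≤ κ₀ * bZ (W (cc L J β) 0) A τ := by
  classical
  have hn0 : (0 : ℝ) ≤ n := Nat.cast_nonneg n
  set κ₁ := 2 * ((n : ℝ) + 1) / ((n : ℝ) + 2) * mag (n + 2) (2 * β * Jbar J) with hκ₁
  set gp := (κ₀ - κ₁) / ((n : ℝ) + 1) with hgp
  have hgp0 : 0 < gp := by
    apply div_pos (by linarith) (by positivity)
  set s := gp / 4 with hs
  have hs0 : 0 < s := by positivity
  set ε := gp ^ 2 / 4 with hε
  have hε0 : 0 < ε := by positivity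
  have hfin : ε / (2 * s) + 2 * s = gp := by
    rw [hε, hs]; field_simp; ring
  set b := (1 / 2) * Real.log (1 + M ^ 2) with hb
  have hb0 : 0 ≤ b := by
    have : 0 ≤ Real.log (1 + M ^ 2) := Real.log_nonneg (by nlinarith [sq_nonneg M])
    positivity
  have hS7 := Sm_nonneg J 7
  obtain ⟨T, hT2, hT3⟩ : ∃ T : ℝ, 2 * b + 2 ≤ T ∧ 92 * β * Sm J 7 / ε ≤ T :=
    ⟨max (2 * b + 2) (92 * β * Sm J 7 / ε), le_max_left _ _, le_max_right _ _⟩
  have hT0 : 0 < T := by linarith
  obtain ⟨R, hlogR, hR1⟩ : ∃ R : ℝ, Real.log R = T ∧ 1 ≤ R :=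
    ⟨Real.exp T, Real.log_exp T, Real.one_le_exp hT0.le⟩
  have hR0 : 0 < R := by linarith
  set h := T - b with hh
  have hh0 : 0 < h := by linarith
  have hcost1 : β * ((Real.pi / 4) ^ 2 / h ^ 2 * 23 * (1 + Real.log R)) * Sm J 7 ≤ ε := by
    rw [hlogR]
    have h1 : (Real.pi / 4) ^ 2 ≤ 1 := by
      have h2 := Real.pi_le_four
      have h3 := Real.pi_pos
      have h4 : Real.pi / 4 ≤ 1 := by linarith
      have h5 : 0 ≤ Real.pi / 4 := by positivity
      exact pow_le_one₀ h5 h4
    have h2 : (1 + T) / h ^ 2 ≤ 4 / T := by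
      rw [div_le_div_iff₀ (by positivity) hT0]
      have h3 : (T + 2) / 2 ≤ h := by rw [hh]; linarith
      have h4 : ((T + 2) / 2) ^ 2 ≤ h ^ 2 := by
        have : 0 ≤ (T + 2) / 2 := by linarith
        gcongr
      have e1 : ((T + 2) / 2) ^ 2 = (T * T + 4 * T + 4) / 4 := by ring
      have e2 : (1 + T) * T = T + T * T := by ring
      rw [e1] at h4
      rw [e2]
      linarith
    have h4 : 92 * β * Sm J 7 ≤ T * ε := by
      rwa [div_le_iff₀ hε0] at hT3
    calc β * ((Real.pi / 4) ^ 2 / h ^ 2 * 23 * (1 + T)) * Sm J 7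
        = (Real.pi / 4) ^ 2 * (23 * β * Sm J 7 * ((1 + T) / h ^ 2)) := by ring
      _ ≤ 1 * (23 * β * Sm J 7 * (4 / T)) := by
          apply mul_le_mul h1 _ (by positivity) (by norm_num)
          gcongr
      _ = (92 * β * Sm J 7) / T := by ring
      _ ≤ ε := by
          rw [div_le_iff₀ hT0]
          linarith
  refine ⟨R, hR0.le, ?_⟩
  intro L _ A τ i k hik hki hA
  have hiA : i ∈ A := hA i (by rw [sub_self, tnorm_zero]; exact hR0.le)
  have hcost := (cost0_prof_le (L := L) hJ hβ hR1 hh0 i).trans hcost1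
  have hφA : ∀ j, j ∉ A → prof R h i j = 0 := by
    intro j hj
    by_contra hc
    exact hj (hA j (prof_ne_zero hR0 i j hc))
  have hfs : ∑ p, ∑ q, fs (cc L J β) 0 i p q ≤ 2 * β * Jbar J := by
    have h1 := field_bound (L := L) (r := 1) hJ hβ (le_refl (0 : ℝ)) (K := 0) (by simp)
      (le_refl (0 : ℝ)) i i i (tnorm_nonneg _) (tnorm_nonneg _)
    have e : dtw (cc L J β) (fld 0 1 i i) = 0 := by
      funext p q
      unfold dtw fld
      simp
    rw [e] at h1
    simpa using h1
  have hmag := pair_le_mag_bc (n := n) (cc L J β) A τ i k hiA hik hfs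
  have hφ : ∀ j : Torus L, tnorm (j - i) ≤ M → prof R h i j = Real.pi / 4 := by
    intro j hj
    unfold prof
    have h1 : ll (j - i) ≤ b := by
      rw [hb]; unfold ll
      have h2 : tnorm (j - i) ^ 2 ≤ M ^ 2 := by
        have := tnorm_nonneg (j - i)
        gcongr
      have h3 := Real.log_le_log (by positivity : 0 < 1 + tnorm (j - i) ^ 2)
        (by linarith : 1 + tnorm (j - i) ^ 2 ≤ 1 + M ^ 2)
      linarith
    have h2 : h ≤ bump R (j - i) := by
      unfold bump
      rw [hlogR, hh]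
      exact le_max_of_le_right (by linarith)
    have h3 : 1 ≤ bump R (j - i) / h := by rwa [le_div_iff₀ hh0, one_mul]
    rw [min_eq_left h3, mul_one]
  have hφi : prof R h i i = Real.pi / 4 := hφ i (by rw [sub_self, tnorm_zero]; exact hM)
  have hφk : prof R h i k = Real.pi / 4 := hφ k hki
  have hmain := sum_P2_good (n := n) (cc L J β) A τ (prof R h i) hφA hcost hs0 hφi hφk hmag
  rw [hfin] at hmain
  have hZ := bZ_pos (continuous_W (n := n) (cc L J β) 0) A τ
  refine hmain.trans (mul_le_mul_of_nonneg_right ?_ hZ.le)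
  rw [← hκ₁, hgp]
  have h1 : (n : ℝ) * ((κ₀ - κ₁) / ((n : ℝ) + 1)) ≤ κ₀ - κ₁ := by
    rw [mul_div_assoc', div_le_iff₀ (by positivity)]
    nlinarith
  linarith

end

end Pool.Agent.NVec
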