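import Pool.Agent.H.MP_8be4c0_mp.Defs

/-!
Rotation invariance of the a priori measure, integrability, symmetries.
-/

open MeasureTheory Set
open scoped Pointwise

namespace Pool.Agent.NVec

noncomputable section

/-- the action of a linear isometry on spins -/
def act {N : ℕ} (R : EuclideanSpace ℝ (Fin N) ≃ₗᵢ[ℝ] EuclideanSpace ℝ (Fin N)) (u : Spin N) :
    Spin N :=
  ⟨R u, by simp⟩

@[simp] lemma coe_act {N : ℕ} (R : EuclideanSpace ℝ (Fin N) ≃ₗᵢ[ℝ] EuclideanSpace ℝ (Fin N))
    (u : Spin N) : (act R u : EuclideanSpace ℝ (Fin N)) = R u := rfl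

lemma continuous_act {N : ℕ} (R : EuclideanSpace ℝ (Fin N) ≃ₗᵢ[ℝ] EuclideanSpace ℝ (Fin N)) :
    Continuous (act R) :=
  Continuous.subtype_mk (R.continuous.comp continuous_subtype_val) _

lemma measurePreserving_act {N : ℕ}
    (R : EuclideanSpace ℝ (Fin N) ≃ₗᵢ[ℝ] EuclideanSpace ℝ (Fin N)) :
    MeasurePreserving (act R) (sph N) (sph N) := by
  refine ⟨(continuous_act R).measurable, ?_⟩
  ext s hs
  rw [Measure.map_apply (continuous_act R).measurable hs]
  unfold sph
  rw [Measure.toSphere_apply' _ ((continuous_act R).measurable hs),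
    Measure.toSphere_apply' _ hs]
  congr 1
  have key : Ioo (0 : ℝ) 1 • ((↑) '' (act R ⁻¹' s) : Set (EuclideanSpace ℝ (Fin N)))
      = R ⁻¹' (Ioo (0 : ℝ) 1 • ((↑) '' s : Set (EuclideanSpace ℝ (Fin N)))) := by
    ext v
    simp only [Set.mem_smul, Set.mem_image, Set.mem_preimage]
    constructor
    · rintro ⟨r, hr, w, ⟨u, hu, rfl⟩, rfl⟩
      exact ⟨r, hr, R u, ⟨act R u, hu, rfl⟩, by simp⟩
    · rintro ⟨r, hr, w, ⟨u, hu, rfl⟩, h⟩
      refine ⟨r, hr, R.symm u, ⟨act R.symm u, ?_, rfl⟩, ?_⟩
      · have : act R (act R.symm u) = u := by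
          apply Subtype.ext; simp
        rwa [this]
      · apply R.injective
        simp [← h]
  rw [key]
  exact (LinearIsometryEquiv.measurePreserving R).measure_preimage_equiv
    (f := R.toMeasurableEquiv) _

instance (N : ℕ) : IsFiniteMeasure (sph N) := by unfold sph; infer_instance

instance (V : Type) [Fintype V] (N : ℕ) : IsFiniteMeasure (apriori V N) := by
  unfold apriori; infer_instance

lemma measurePreserving_actAll {V : Type} [Fintype V] {N : ℕ}
    (R : V → (EuclideanSpace ℝ (Fin N) ≃ₗᵢ[ℝ] EuclideanSpace ℝ (Fin N))) :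
    MeasurePreserving (fun (S : V → Spin N) i => act (R i) (S i)) (apriori V N) (apriori V N) := by
  unfold apriori
  exact measurePreserving_pi _ _ (fun i => measurePreserving_act (R i))

lemma integral_actAll {V : Type} [Fintype V] {N : ℕ} {F : Type*} [NormedAddCommGroup F]
    [NormedSpace ℝ F]
    (R : V → (EuclideanSpace ℝ (Fin N) ≃ₗᵢ[ℝ] EuclideanSpace ℝ (Fin N)))
    (f : (V → Spin N) → F) (hf : Continuous f) :
    ∫ S, f (fun i => act (R i) (S i)) ∂(apriori V N) = ∫ S, f S ∂(apriori V N) := by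
  have h := measurePreserving_actAll R
  conv_rhs => rw [← h.map_eq]
  rw [integral_map h.measurable.aemeasurable]
  have := h.map_eq
  rw [this]
  exact hf.aestronglyMeasurable

lemma integrable_cont {V : Type} [Fintype V] {N : ℕ} {F : Type*} [NormedAddCommGroup F]
    (f : (V → Spin N) → F) (hf : Continuous f) : Integrable f (apriori V N) := by
  obtain ⟨C, hC⟩ := (isCompact_univ (X := V → Spin N)).exists_bound_of_continuousOn hf.continuousOn
  exact (integrable_const C).mono' hf.aestronglyMeasurable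
    (Filter.Eventually.of_forall fun x => hC x (mem_univ _))

lemma apriori_ne_zero (V : Type) [Fintype V] (n : ℕ) : apriori V (n + 1) ≠ 0 := by
  have h1 : sph (n + 1) ≠ 0 := by
    unfold sph
    exact Measure.toSphere_ne_zero _
  intro h
  have h2 : apriori V (n + 1) univ = 0 := by rw [h]; simp
  unfold apriori at h2
  rw [Measure.pi_univ, Finset.prod_eq_zero_iff] at h2
  obtain ⟨i, -, hi⟩ := h2
  exact h1 (Measure.measure_univ_eq_zero.1 hi)

lemma integral_pos_of_cont {V : Type} [Fintype V] {n : ℕ} (f : (V → Spin (n + 1)) → ℝ)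
    (hf : Continuous f) (hpos : ∀ S, 0 < f S) : 0 < ∫ S, f S ∂(apriori V (n + 1)) := by
  rw [integral_pos_iff_support_of_nonneg (fun S => (hpos S).le) (integrable_cont f hf)]
  have : Function.support f = univ := by
    ext S; simp [(hpos S).ne']
  rw [this]
  exact (Measure.measure_univ_ne_zero.2 (apriori_ne_zero V n)).bot_lt

end

end Pool.Agent.NVec
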