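import Pool.Agent.H.MP_8be4c0_mp.Resample

/-!
Boundary conditions: configurations merged from an inside part and an outside part.
-/

open MeasureTheory Set Filter Topology

namespace Pool.Agent.NVec

set_option linter.unusedSectionVars false

noncomputable section

variable {V : Type} [Fintype V] [DecidableEq V] {N : ℕ} [NeZero N]

/-- `u` inside `A`, `τ` outside -/
def merge (A : Finset V) (u τ : V → Spin N) : V → Spin N := fun i => if i ∈ A then u i else τ i

lemma merge_in {A : Finset V} {i : V} (h : i ∈ A) (u τ : V → Spin N) : merge A u τ i = u i := by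
  unfold merge; rw [if_pos h]

lemma merge_out {A : Finset V} {i : V} (h : i ∉ A) (u τ : V → Spin N) : merge A u τ i = τ i := by
  unfold merge; rw [if_neg h]

lemma merge_self (A : Finset V) (τ : V → Spin N) : merge A τ τ = τ := by
  funext i; unfold merge; split_ifs <;> rfl

lemma merge_univ (u τ : V → Spin N) : merge Finset.univ u τ = u := by
  funext i; unfold merge; rw [if_pos (Finset.mem_univ i)]

lemma merge_update {A : Finset V} {i : V} (h : i ∈ A) (u τ : V → Spin N) (s : Spin N) :
    merge A (Function.update u i s) τ = Function.update (merge A u τ) i s := by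
  funext j
  unfold merge
  by_cases hj : j = i
  · subst hj; simp [h]
  · rw [Function.update_of_ne hj, Function.update_of_ne hj]

lemma merge_merge {A B : Finset V} (hBA : B ⊆ A) (u' u τ : V → Spin N) :
    merge B u' (merge A u τ) = merge A (merge B u' u) τ := by
  funext j
  unfold merge
  by_cases hB : j ∈ B
  · rw [if_pos hB, if_pos (hBA hB), if_pos hB]
  · rw [if_neg hB]
    by_cases hA : j ∈ A
    · rw [if_pos hA, if_pos hA, if_neg hB]
    · rw [if_neg hA, if_neg hA]

lemma continuous_merge_pair (A : Finset V) :
    Continuous fun p : (V → Spin N) × (V → Spin N) => merge A p.1 p.2 := by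
  apply continuous_pi
  intro i
  unfold merge
  by_cases h : i ∈ A
  · simp only [h, if_true]
    exact (continuous_apply i).comp continuous_fst
  · simp only [h, if_false]
    exact (continuous_apply i).comp continuous_snd

lemma continuous_merge (A : Finset V) (τ : V → Spin N) :
    Continuous fun u : V → Spin N => merge A u τ :=
  (continuous_merge_pair A).comp (continuous_id.prodMk continuous_const)

lemma map_merge (A : Finset V) :
    Measure.map (fun p : (V → Spin N) × (V → Spin N) => merge A p.1 p.2)
      ((apriori V N).prod (apriori V N)) = (apriori V N univ) • apriori V N := by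
  have hm : Measurable fun p : (V → Spin N) × (V → Spin N) => merge A p.1 p.2 :=
    (continuous_merge_pair A).measurable
  have hσ0 : sph N univ ≠ 0 := sph_univ_ne_zero
  have hσt : sph N univ ≠ ⊤ := measure_ne_top _ _
  have hu : apriori V N univ = ∏ _i : V, sph N univ := by
    unfold apriori; rw [Measure.pi_univ]
  have hc0 : apriori V N univ ≠ 0 := by
    rw [hu]; exact Finset.prod_ne_zero_iff.2 fun _ _ => hσ0
  have hct : apriori V N univ ≠ ⊤ := measure_ne_top _ _
  have h : apriori V N = (apriori V N univ)⁻¹ •
      Measure.map (fun p : (V → Spin N) × (V → Spin N) => merge A p.1 p.2)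
      ((apriori V N).prod (apriori V N)) := by
    conv_lhs => unfold apriori
    apply Measure.pi_eq
    intro s hs
    rw [Measure.smul_apply, Measure.map_apply hm (MeasurableSet.univ_pi hs)]
    have hpre : (fun p : (V → Spin N) × (V → Spin N) => merge A p.1 p.2) ⁻¹' (univ.pi s)
        = (univ.pi fun i => if i ∈ A then s i else univ) ×ˢ
          (univ.pi fun i => if i ∈ A then univ else s i) := by
      ext p
      simp only [mem_preimage, mem_univ_pi, mem_prod]
      constructor
      · intro h
        refine ⟨fun j => ?_, fun j => ?_⟩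
        · have := h j
          unfold merge at this
          split_ifs with hj
          · rwa [if_pos hj] at this
          · exact mem_univ _
        · have := h j
          unfold merge at this
          split_ifs with hj
          · exact mem_univ _
          · rwa [if_neg hj] at this
      · rintro ⟨h1, h2⟩ j
        have h1' := h1 j
        have h2' := h2 j
        unfold merge
        split_ifs with hj
        · rwa [if_pos hj] at h1'
        · rwa [if_neg hj] at h2'
    rw [hpre, Measure.prod_prod]
    have e : apriori V N (univ.pi fun i => if i ∈ A then s i else univ)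
        * apriori V N (univ.pi fun i => if i ∈ A then univ else s i)
        = apriori V N univ * ∏ i, sph N (s i) := by
      rw [hu]
      unfold apriori
      rw [Measure.pi_pi, Measure.pi_pi, ← Finset.prod_mul_distrib, ← Finset.prod_mul_distrib]
      refine Finset.prod_congr rfl fun i _ => ?_
      split_ifs
      · rw [mul_comm]
      · rfl
    rw [e, smul_eq_mul, ← mul_assoc, ENNReal.inv_mul_cancel hc0 hct, one_mul]
  calc Measure.map (fun p : (V → Spin N) × (V → Spin N) => merge A p.1 p.2)
        ((apriori V N).prod (apriori V N))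
      = (apriori V N univ * (apriori V N univ)⁻¹) •
        Measure.map (fun p : (V → Spin N) × (V → Spin N) => merge A p.1 p.2)
        ((apriori V N).prod (apriori V N)) := by
        rw [ENNReal.mul_inv_cancel hc0 hct, one_smul]
    _ = (apriori V N univ) • ((apriori V N univ)⁻¹ •
        Measure.map (fun p : (V → Spin N) × (V → Spin N) => merge A p.1 p.2)
        ((apriori V N).prod (apriori V N))) := by rw [smul_smul]
    _ = (apriori V N univ) • apriori V N := by rw [← h]

/-- the total mass -/
def mass (V : Type) [Fintype V] (N : ℕ) : ℝ := (apriori V N).real univ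

lemma mass_pos : 0 < mass V N := by
  unfold mass
  rw [Measure.real]
  have hσ0 : sph N univ ≠ 0 := sph_univ_ne_zero
  have hc0 : apriori V N univ ≠ 0 := by
    unfold apriori; rw [Measure.pi_univ]; exact Finset.prod_ne_zero_iff.2 fun _ _ => hσ0
  exact ENNReal.toReal_pos hc0 (measure_ne_top _ _)

lemma integrable_pair (f : (V → Spin N) × (V → Spin N) → ℝ) (hf : Continuous f) :
    Integrable f ((apriori V N).prod (apriori V N)) := by
  obtain ⟨C, hC⟩ := (isCompact_univ
    (X := (V → Spin N) × (V → Spin N))).exists_bound_of_continuousOn hf.continuousOn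
  exact (integrable_const C).mono' hf.aestronglyMeasurable
    (Filter.Eventually.of_forall fun x => hC x (mem_univ _))

/-- resampling the spins in `A` -/
lemma resample_merge (A : Finset V) (f : (V → Spin N) → ℝ) (hf : Continuous f) :
    ∫ u, ∫ u', f (merge A u' u) ∂(apriori V N) ∂(apriori V N)
      = mass V N * ∫ S, f S ∂(apriori V N) := by
  have h1 : Continuous fun p : (V → Spin N) × (V → Spin N) => f (merge A p.1 p.2) :=
    hf.comp (continuous_merge_pair A)
  have hint := integrable_pair _ h1
  have h2 : ∫ S, f S ∂(Measure.map (fun p : (V → Spin N) × (V → Spin N) => merge A p.1 p.2)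
      ((apriori V N).prod (apriori V N)))
      = ∫ p, f (merge A p.1 p.2) ∂((apriori V N).prod (apriori V N)) := by
    apply integral_map (continuous_merge_pair A).measurable.aemeasurable
    exact hf.aestronglyMeasurable
  have h3 := integral_prod_symm _ hint
  rw [← h3, ← h2, map_merge, integral_smul_measure]
  rfl

/-- the integral of `f e^F` over the spins in `A` with boundary condition `τ` -/
def bInt (F : (V → Spin N) → ℝ) (A : Finset V) (τ : V → Spin N) (f : (V → Spin N) → ℝ) : ℝ :=
  ∫ u, f (merge A u τ) * Real.exp (F (merge A u τ)) ∂(apriori V N)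

/-- the partition function in `A` with boundary condition `τ` -/
def bZ (F : (V → Spin N) → ℝ) (A : Finset V) (τ : V → Spin N) : ℝ :=
  ∫ u, Real.exp (F (merge A u τ)) ∂(apriori V N)

lemma bInt_integrable {F : (V → Spin N) → ℝ} (hF : Continuous F) (A : Finset V)
    (τ : V → Spin N) {f : (V → Spin N) → ℝ} (hf : Continuous f) :
    Integrable (fun u => f (merge A u τ) * Real.exp (F (merge A u τ))) (apriori V N) :=
  integrable_cont _ ((hf.comp (continuous_merge A τ)).mul
    (Real.continuous_exp.comp (hF.comp (continuous_merge A τ))))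

lemma bZ_integrable {F : (V → Spin N) → ℝ} (hF : Continuous F) (A : Finset V)
    (τ : V → Spin N) :
    Integrable (fun u => Real.exp (F (merge A u τ))) (apriori V N) :=
  integrable_cont _ (Real.continuous_exp.comp (hF.comp (continuous_merge A τ)))

lemma bInt_one (F : (V → Spin N) → ℝ) (A : Finset V) (τ : V → Spin N) :
    bInt F A τ (fun _ => 1) = bZ F A τ := by
  unfold bInt bZ; simp

lemma bInt_const (F : (V → Spin N) → ℝ) (A : Finset V) (τ : V → Spin N) (a : ℝ) :
    bInt F A τ (fun _ => a) = a * bZ F A τ := by
  unfold bInt bZ; rw [integral_const_mul]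

lemma bZ_pos {F : (V → Spin N) → ℝ} (hF : Continuous F) (A : Finset V) (τ : V → Spin N) :
    0 < bZ F A τ := by
  obtain ⟨n, rfl⟩ : ∃ n, N = n + 1 := ⟨N - 1, by have := NeZero.pos N; omega⟩
  exact integral_pos_of_cont (n := n) _ (Real.continuous_exp.comp (hF.comp (continuous_merge A τ)))
    fun _ => Real.exp_pos _

lemma bInt_add {F : (V → Spin N) → ℝ} (hF : Continuous F) (A : Finset V)
    (τ : V → Spin N) {f g : (V → Spin N) → ℝ} (hf : Continuous f) (hg : Continuous g) :
    bInt F A τ (fun S => f S + g S) = bInt F A τ f + bInt F A τ g := by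
  unfold bInt
  rw [← integral_add (bInt_integrable hF A τ hf) (bInt_integrable hF A τ hg)]
  refine integral_congr_ae (Eventually.of_forall fun u => ?_)
  simp only
  ring

lemma bInt_sub {F : (V → Spin N) → ℝ} (hF : Continuous F) (A : Finset V)
    (τ : V → Spin N) {f g : (V → Spin N) → ℝ} (hf : Continuous f) (hg : Continuous g) :
    bInt F A τ (fun S => f S - g S) = bInt F A τ f - bInt F A τ g := by
  unfold bInt
  rw [← integral_sub (bInt_integrable hF A τ hf) (bInt_integrable hF A τ hg)]
  refine integral_congr_ae (Eventually.of_forall fun u => ?_)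
  simp only
  ring

lemma bInt_smul (F : (V → Spin N) → ℝ) (A : Finset V)
    (τ : V → Spin N) (a : ℝ) (f : (V → Spin N) → ℝ) :
    bInt F A τ (fun S => a * f S) = a * bInt F A τ f := by
  unfold bInt
  rw [← integral_const_mul]
  refine integral_congr_ae (Eventually.of_forall fun u => ?_)
  simp only
  ring

lemma bInt_finsum {F : (V → Spin N) → ℝ} (hF : Continuous F) (A : Finset V)
    (τ : V → Spin N) {ι : Type} (s : Finset ι) {f : ι → (V → Spin N) → ℝ}
    (hf : ∀ j ∈ s, Continuous (f j)) :
    bInt F A τ (fun S => ∑ j ∈ s, f j S) = ∑ j ∈ s, bInt F A τ (f j) := by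
  unfold bInt
  rw [← integral_finsetSum _ fun j hj => bInt_integrable hF A τ (hf j hj)]
  refine integral_congr_ae (Eventually.of_forall fun u => ?_)
  simp only
  rw [Finset.sum_mul]

lemma bInt_mono {F : (V → Spin N) → ℝ} (hF : Continuous F) (A : Finset V)
    (τ : V → Spin N) {f g : (V → Spin N) → ℝ} (hf : Continuous f) (hg : Continuous g)
    (h : ∀ S, f S ≤ g S) : bInt F A τ f ≤ bInt F A τ g := by
  unfold bInt
  apply integral_mono (bInt_integrable hF A τ hf) (bInt_integrable hF A τ hg)
  intro u
  exact mul_le_mul_of_nonneg_right (h _) (Real.exp_pos _).le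

lemma bInt_abs_le {F : (V → Spin N) → ℝ} (hF : Continuous F) (A : Finset V)
    (τ : V → Spin N) {f : (V → Spin N) → ℝ} (hf : Continuous f) {a : ℝ}
    (h : ∀ S, |f S| ≤ a) : |bInt F A τ f| ≤ a * bZ F A τ := by
  rw [abs_le]
  constructor
  · rw [← neg_mul, ← bInt_const]
    exact bInt_mono hF A τ continuous_const hf fun S => (abs_le.1 (h S)).1
  · rw [← bInt_const]
    exact bInt_mono hF A τ hf continuous_const fun S => (abs_le.1 (h S)).2

lemma bInt_outer_integrable {F : (V → Spin N) → ℝ} (hF : Continuous F) (A B : Finset V)
    (τ : V → Spin N) {f : (V → Spin N) → ℝ} (hf : Continuous f) :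
    Integrable (fun u => bInt F B (merge A u τ) f) (apriori V N) := by
  have h1 : Continuous fun p : (V → Spin N) × (V → Spin N) =>
      f (merge B p.2 (merge A p.1 τ)) * Real.exp (F (merge B p.2 (merge A p.1 τ))) := by
    have h2 : Continuous fun p : (V → Spin N) × (V → Spin N) => merge B p.2 (merge A p.1 τ) :=
      (continuous_merge_pair B).comp
        (continuous_snd.prodMk ((continuous_merge A τ).comp continuous_fst))
    exact (hf.comp h2).mul (Real.continuous_exp.comp (hF.comp h2))
  exact (integrable_pair _ h1).integral_prod_left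

/-- the tower property -/
lemma tower {F : (V → Spin N) → ℝ} (hF : Continuous F) {A B : Finset V} (hBA : B ⊆ A)
    (τ : V → Spin N) {f : (V → Spin N) → ℝ} (hf : Continuous f) :
    ∫ u, bInt F B (merge A u τ) f ∂(apriori V N) = mass V N * bInt F A τ f := by
  have h1 := resample_merge B (fun w => f (merge A w τ) * Real.exp (F (merge A w τ)))
    ((hf.comp (continuous_merge A τ)).mul
      (Real.continuous_exp.comp (hF.comp (continuous_merge A τ))))
  unfold bInt
  rw [← h1]
  simp_rw [merge_merge hBA]

/-- **Duality**: a bound on the conditional expectation of the spin at `x` in `B`, uniform in the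
boundary condition, controls the pairing with every vector field depending on the outside of `B`. -/
lemma duality {F : (V → Spin N) → ℝ} (hF : Continuous F) {A B : Finset V} (hBA : B ⊆ A)
    {x : V} {m : ℝ}
    (hm : ∀ (τ : V → Spin N) (e : EuclideanSpace ℝ (Fin N)),
      bInt F B τ (fun S => inner ℝ e (S x : EuclideanSpace ℝ (Fin N))) ≤ m * ‖e‖ * bZ F B τ)
    (Z : (V → Spin N) → EuclideanSpace ℝ (Fin N)) (hZ : Continuous Z)
    (hZB : ∀ u τ, Z (merge B u τ) = Z τ) (τ : V → Spin N) :
    bInt F A τ (fun S => inner ℝ (Z S) (S x : EuclideanSpace ℝ (Fin N)))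
      ≤ m * bInt F A τ (fun S => ‖Z S‖) := by
  have hc1 : Continuous fun S : V → Spin N => inner ℝ (Z S) (S x : EuclideanSpace ℝ (Fin N)) :=
    hZ.inner (continuous_subtype_val.comp (continuous_apply x))
  have hc2 : Continuous fun S : V → Spin N => ‖Z S‖ := hZ.norm
  have h1 := tower hF hBA τ hc1
  have h2 := tower hF hBA τ hc2
  have h3 : ∫ u, bInt F B (merge A u τ) (fun S => inner ℝ (Z S)
      (S x : EuclideanSpace ℝ (Fin N))) ∂(apriori V N)
      ≤ ∫ u, m * bInt F B (merge A u τ) (fun S => ‖Z S‖) ∂(apriori V N) := by
    apply integral_mono (bInt_outer_integrable hF A B τ hc1)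
      ((bInt_outer_integrable hF A B τ hc2).const_mul m)
    intro u
    set τ' := merge A u τ
    have e1 : bInt F B τ' (fun S => inner ℝ (Z S) (S x : EuclideanSpace ℝ (Fin N)))
        = bInt F B τ' (fun S => inner ℝ (Z τ') (S x : EuclideanSpace ℝ (Fin N))) := by
      unfold bInt
      refine integral_congr_ae (Eventually.of_forall fun u => ?_)
      simp only
      rw [hZB]
    have e2 : bInt F B τ' (fun S => ‖Z S‖) = ‖Z τ'‖ * bZ F B τ' := by
      rw [← bInt_const]
      unfold bInt
      refine integral_congr_ae (Eventually.of_forall fun u => ?_)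
      simp only
      rw [hZB]
    simp only
    rw [e1, e2]
    have := hm τ' (Z τ')
    linarith
  rw [integral_const_mul, h1, h2] at h3
  have h4 := mass_pos (V := V) (N := N)
  have h5 : mass V N * bInt F A τ (fun S => inner ℝ (Z S) (S x : EuclideanSpace ℝ (Fin N)))
      ≤ mass V N * (m * bInt F A τ (fun S => ‖Z S‖)) := by linarith
  exact le_of_mul_le_mul_left h5 h4

end

end Pool.Agent.NVec
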