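import Pool.Agent.H.MP_8be4c0_mp.Geom

/-!
Logarithmic bumps on the discrete torus and their energies.
-/

open Set Filter Topology

namespace Pool.Agent.NVec

set_option linter.unusedSectionVars false

noncomputable section

/-- `cosh t - 1 ≤ t²/2 · e^{|t|}` -/
lemma cosh_sub_one_le (t : ℝ) : Real.cosh t - 1 ≤ t ^ 2 / 2 * Real.exp |t| := by
  have key : ∀ x : ℝ, 0 ≤ x → Real.cosh x - 1 ≤ x ^ 2 / 2 * Real.exp x := by
    intro x hx
    set y := x / 2 with hy
    have hy0 : 0 ≤ y := by positivity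
    have hxy : x = 2 * y := by rw [hy]; ring
    have h1 : Real.sinh y ≤ y * Real.exp y := by
      rw [Real.sinh_eq]
      have h2 : 1 - 2 * y ≤ Real.exp (-(2 * y)) := by
        have := Real.add_one_le_exp (-(2 * y)); linarith
      have h3 : Real.exp (-y) = Real.exp y * Real.exp (-(2 * y)) := by
        rw [← Real.exp_add]; congr 1; ring
      rw [h3]
      nlinarith [Real.exp_pos y]
    have h2 : 0 ≤ Real.sinh y := Real.sinh_nonneg_iff.2 hy0
    have h4 : Real.cosh x - 1 = 2 * Real.sinh y ^ 2 := by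
      rw [hxy, Real.cosh_two_mul]
      have := Real.cosh_sq y
      linarith
    have h5 : Real.exp x = Real.exp y * Real.exp y := by rw [← Real.exp_add]; congr 1; linarith
    have h6 : Real.sinh y ^ 2 ≤ (y * Real.exp y) ^ 2 := by gcongr
    rw [h4, h5, hxy]
    nlinarith
  have h := key |t| (abs_nonneg t)
  rwa [Real.cosh_abs, sq_abs] at h

/-- `cosh t - 1 ≤ t²/2 + |t|³/2 · e^{|t|}` -/
lemma cosh_sub_one_le' (t : ℝ) :
    Real.cosh t - 1 ≤ t ^ 2 / 2 + |t| ^ 3 / 2 * Real.exp |t| := by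
  have h := cosh_sub_one_le t
  have h2 : Real.exp |t| ≤ 1 + |t| * Real.exp |t| := by
    have h3 : 1 - |t| ≤ Real.exp (-|t|) := by
      have := Real.add_one_le_exp (-|t|); linarith
    have h4 : Real.exp (-|t|) * Real.exp |t| = 1 := by rw [← Real.exp_add]; simp
    nlinarith [Real.exp_pos |t|]
  have h5 : t ^ 2 / 2 * Real.exp |t| ≤ t ^ 2 / 2 * (1 + |t| * Real.exp |t|) :=
    mul_le_mul_of_nonneg_left h2 (by positivity)
  have h6 : |t| ^ 3 = t ^ 2 * |t| := by rw [pow_succ, sq_abs]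
  rw [h6]
  linarith

lemma cosh_sub_one_nonneg (t : ℝ) : 0 ≤ Real.cosh t - 1 := by
  have := Real.one_le_cosh t; linarith

/-- real version of the difference estimate -/
lemma half_log_sub {s s' t : ℝ} (hs : 0 ≤ s) (hs' : 0 ≤ s') (ht : 0 ≤ t) (h : |s' - s| ≤ t) :
    |(1 / 2) * Real.log (1 + s' ^ 2) - (1 / 2) * Real.log (1 + s ^ 2)|
      ≤ (1 + t) ^ 3 / Real.sqrt (1 + s ^ 2) := by
  have hA : 0 < 1 + s ^ 2 := by positivity
  have hB : 0 < 1 + s' ^ 2 := by positivity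
  obtain ⟨h1, h2⟩ := abs_le.1 h
  set A := Real.sqrt (1 + s ^ 2) with hAd
  set B := Real.sqrt (1 + s' ^ 2) with hBd
  have hAA : A * A = 1 + s ^ 2 := Real.mul_self_sqrt hA.le
  have hBB : B * B = 1 + s' ^ 2 := Real.mul_self_sqrt hB.le
  have hA0 : 0 < A := Real.sqrt_pos.2 hA
  have hB0 : 0 < B := Real.sqrt_pos.2 hB
  have hA1 : 1 ≤ A := Real.le_sqrt_of_sq_le (by nlinarith)
  have hB1 : 1 ≤ B := Real.le_sqrt_of_sq_le (by nlinarith)
  have hsA : s ≤ A := Real.le_sqrt_of_sq_le (by nlinarith)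
  have hsB : s' ≤ B := Real.le_sqrt_of_sq_le (by nlinarith)
  have hAB : A ≤ B * (1 + t) := by
    apply le_of_sq_le_sq _ (by positivity)
    have : s ≤ s' + t := by linarith
    have h3 : A ^ 2 = 1 + s ^ 2 := by rw [sq, hAA]
    have h4 : (B * (1 + t)) ^ 2 = (1 + s' ^ 2) * (1 + t) ^ 2 := by rw [mul_pow, sq B, hBB]
    rw [h3, h4]
    have h5 : s ^ 2 ≤ (s' + t) ^ 2 := by gcongr
    nlinarith [mul_nonneg ht (sq_nonneg (s' - 1)), mul_nonneg ht hs', sq_nonneg (s' * t)]
  rw [abs_le]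
  constructor
  · have h3 : Real.log (1 + s ^ 2) - Real.log (1 + s' ^ 2) ≤ (1 + s ^ 2) / (1 + s' ^ 2) - 1 := by
      rw [← Real.log_div hA.ne' hB.ne']
      exact Real.log_le_sub_one_of_pos (by positivity)
    have h4 : (1 / 2) * ((1 + s ^ 2) / (1 + s' ^ 2) - 1) ≤ (1 + t) ^ 3 / A := by
      have e : (1 / 2) * ((1 + s ^ 2) / (1 + s' ^ 2) - 1) = (s ^ 2 - s' ^ 2) / (2 * (B * B)) := by
        rw [hBB]; field_simp; ring
      rw [e, div_le_div_iff₀ (by positivity) hA0]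
      have h5 : s ^ 2 - s' ^ 2 ≤ 2 * B * (1 + t) ^ 2 := by
        have : s ≤ s' + t := by linarith
        have h6 : s ^ 2 ≤ (s' + t) ^ 2 := by gcongr
        nlinarith [mul_nonneg ht hB0.le, mul_nonneg ht ht, mul_nonneg (mul_nonneg ht ht) (by linarith : 0 ≤ B - 1), mul_nonneg ht (by linarith : 0 ≤ B - s')]
      calc (s ^ 2 - s' ^ 2) * A ≤ (2 * B * (1 + t) ^ 2) * A := by gcongr
        _ ≤ (2 * B * (1 + t) ^ 2) * (B * (1 + t)) := by gcongr
        _ = (1 + t) ^ 3 * (2 * (B * B)) := by ring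
    linarith
  · have h3 : Real.log (1 + s' ^ 2) - Real.log (1 + s ^ 2) ≤ (1 + s' ^ 2) / (1 + s ^ 2) - 1 := by
      rw [← Real.log_div hB.ne' hA.ne']
      exact Real.log_le_sub_one_of_pos (by positivity)
    have h4 : (1 / 2) * ((1 + s' ^ 2) / (1 + s ^ 2) - 1) ≤ (1 + t) ^ 3 / A := by
      have e : (1 / 2) * ((1 + s' ^ 2) / (1 + s ^ 2) - 1) = (s' ^ 2 - s ^ 2) / (2 * (A * A)) := by
        rw [hAA]; field_simp; ring
      rw [e, div_le_div_iff₀ (by positivity) hA0]
      have h5 : s' ^ 2 - s ^ 2 ≤ 2 * A * (1 + t) ^ 3 := by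
        have : s' ≤ s + t := by linarith
        have h6 : s' ^ 2 ≤ (s + t) ^ 2 := by gcongr
        have h7 : s' ^ 2 - s ^ 2 ≤ 2 * A * (1 + t) ^ 2 := by
          nlinarith [mul_nonneg ht hA0.le, mul_nonneg ht ht, mul_nonneg (mul_nonneg ht ht) (by linarith : 0 ≤ A - 1), mul_nonneg ht (by linarith : 0 ≤ A - s)]
        have h8 : (1 + t) ^ 2 ≤ (1 + t) ^ 3 := pow_le_pow_right₀ (by linarith) (by norm_num)
        calc _ ≤ _ := h7
          _ ≤ _ := by gcongr
      calc (s' ^ 2 - s ^ 2) * A ≤ (2 * A * (1 + t) ^ 3) * A := by gcongr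
        _ = (1 + t) ^ 3 * (2 * (A * A)) := by ring
    linarith

section

variable {L : ℕ} [NeZero L]

/-- `½ log (1+|z|²)` -/
def ll (z : Torus L) : ℝ := (1 / 2) * Real.log (1 + tnorm z ^ 2)

lemma ll_zero : ll (0 : Torus L) = 0 := by simp [ll, tnorm_zero]

lemma ll_nonneg (z : Torus L) : 0 ≤ ll z := by
  unfold ll
  have : 0 ≤ Real.log (1 + tnorm z ^ 2) := Real.log_nonneg (by nlinarith [sq_nonneg (tnorm z)])
  positivity

lemma ll_add_le (z w : Torus L) : ll (z + w) ≤ ll z + Real.log (1 + tnorm w) := by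
  unfold ll
  have h1 := tnorm_add_le z w
  have h2 := tnorm_nonneg z
  have h3 := tnorm_nonneg w
  have h4 := tnorm_nonneg (z + w)
  have h5 : 1 + tnorm (z + w) ^ 2 ≤ (1 + tnorm z ^ 2) * (1 + tnorm w) ^ 2 := by
    have : tnorm (z + w) ^ 2 ≤ (tnorm z + tnorm w) ^ 2 := by gcongr
    nlinarith [mul_nonneg h3 (sq_nonneg (tnorm z - 1)), mul_nonneg h3 h2,
      sq_nonneg (tnorm z * tnorm w)]
  have h6 := Real.log_le_log (by positivity) h5
  rw [Real.log_mul (by positivity) (by positivity), Real.log_pow] at h6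
  push_cast at h6
  linarith

lemma abs_ll_sub_le (z w : Torus L) : |ll (z + w) - ll z| ≤ Real.log (1 + tnorm w) := by
  rw [abs_le]
  constructor
  · have h := ll_add_le (z + w) (-w)
    rw [tnorm_neg, add_neg_cancel_right] at h
    linarith
  · have h := ll_add_le z w
    linarith

lemma abs_tnorm_sub_le (z w : Torus L) : |tnorm (z + w) - tnorm z| ≤ tnorm w := by
  rw [abs_le]
  constructor
  · have h := tnorm_add_le (z + w) (-w)
    rw [tnorm_neg, add_neg_cancel_right] at h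
    linarith
  · have h := tnorm_add_le z w
    linarith

lemma abs_ll_sub_le' (z w : Torus L) {μ : ℝ} (hw : tnorm w ≤ μ) :
    |ll (z + w) - ll z| ≤ (1 + μ) ^ 3 / Real.sqrt (1 + tnorm z ^ 2) :=
  half_log_sub (tnorm_nonneg z) (tnorm_nonneg _) ((tnorm_nonneg w).trans hw)
    ((abs_tnorm_sub_le z w).trans hw)

/-- the logarithmic bump of radius `r` -/
def bump (r : ℝ) (z : Torus L) : ℝ := max 0 (Real.log r - ll z)

lemma bump_nonneg (r : ℝ) (z : Torus L) : 0 ≤ bump r z := le_max_left _ _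

lemma bump_zero {r : ℝ} (hr : 1 ≤ r) : bump r (0 : Torus L) = Real.log r := by
  unfold bump
  rw [ll_zero, sub_zero]
  exact max_eq_right (Real.log_nonneg hr)

lemma log_le_ll {r : ℝ} (hr : 0 < r) {z : Torus L} (h : r ≤ tnorm z) : Real.log r ≤ ll z := by
  unfold ll
  have h1 : r ^ 2 ≤ 1 + tnorm z ^ 2 := by nlinarith
  have h2 := Real.log_le_log (by positivity) h1
  rw [Real.log_pow] at h2
  push_cast at h2
  linarith

lemma bump_eq_zero {r : ℝ} (hr : 0 < r) {z : Torus L} (h : r ≤ tnorm z) : bump r z = 0 :=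
  max_eq_left (by linarith [log_le_ll hr h])

lemma abs_bump_sub_le (r : ℝ) (z z' : Torus L) : |bump r z' - bump r z| ≤ |ll z' - ll z| := by
  unfold bump
  have h := abs_max_sub_max_le_abs (Real.log r - ll z') (Real.log r - ll z) 0
  rw [max_comm 0, max_comm 0]
  refine h.trans (le_of_eq ?_)
  rw [abs_sub_comm]
  congr 1
  ring

/-- crude energy bound -/
lemma bump_energy_le {r : ℝ} (hr : 1 ≤ r) (w : Torus L) {μ : ℝ} (hw : tnorm w ≤ μ) :
    ∑ z : Torus L, (bump r (z + w) - bump r z) ^ 2 ≤ 23 * (1 + μ) ^ 7 * (1 + Real.log r) := by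
  have hμ : 0 ≤ μ := (tnorm_nonneg w).trans hw
  have hlog : 0 ≤ Real.log r := Real.log_nonneg hr
  have h1 : ∑ z : Torus L, (bump r (z + w) - bump r z) ^ 2
      ≤ ∑ u ∈ box ⌊r + μ⌋₊, (1 + μ) ^ 6 * (1 / QQf u) := by
    apply sum_torus_le
    · intro u
      have := QQf_pos u
      positivity
    · intro z _
      have h2 := (abs_bump_sub_le r z (z + w)).trans (abs_ll_sub_le' z w hw)
      have h3 : QQf (rep z) = 1 + tnorm z ^ 2 := QQf_eq _
      rw [h3]
      have h4 : (bump r (z + w) - bump r z) ^ 2 ≤ ((1 + μ) ^ 3 / Real.sqrt (1 + tnorm z ^ 2)) ^ 2 := by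
        rw [← sq_abs (bump r (z + w) - bump r z)]
        gcongr
      rw [div_pow, Real.sq_sqrt (by positivity)] at h4
      calc _ ≤ _ := h4
        _ = _ := by ring
    · intro z hz
      have h2 : r + μ < tnorm z := by
        by_contra h
        exact hz (rep_mem_box (not_lt.1 h))
      have h3 : bump r z = 0 := bump_eq_zero (by linarith) (by linarith)
      have h4 : bump r (z + w) = 0 := by
        apply bump_eq_zero (by linarith)
        have := (abs_le.1 (abs_tnorm_sub_le z w)).1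
        linarith
      rw [h3, h4]
      simp
  refine h1.trans ?_
  rw [← Finset.mul_sum]
  have h2 := sum_box_le ⌊r + μ⌋₊
  have h3 : Real.log (⌊r + μ⌋₊ : ℝ) ≤ Real.log r + μ := by
    have h4 : (1 : ℝ) ≤ (⌊r + μ⌋₊ : ℝ) := by
      have : 1 ≤ ⌊r + μ⌋₊ := Nat.le_floor (by push_cast; linarith)
      exact_mod_cast this
    have h5 : (⌊r + μ⌋₊ : ℝ) ≤ r * (1 + μ) := by
      have := Nat.floor_le (by linarith : 0 ≤ r + μ)
      nlinarith
    calc Real.log (⌊r + μ⌋₊ : ℝ) ≤ Real.log (r * (1 + μ)) := Real.log_le_log (by linarith) h5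
      _ = Real.log r + Real.log (1 + μ) := Real.log_mul (by linarith) (by linarith)
      _ ≤ Real.log r + μ := by
          have := Real.log_le_sub_one_of_pos (by linarith : 0 < 1 + μ); linarith
  have h4 : ∑ u ∈ box ⌊r + μ⌋₊, 1 / QQf u ≤ 23 * (1 + μ) * (1 + Real.log r) := by
    have hpi := Real.pi_lt_d2
    have hpi0 := Real.pi_pos
    have h5 : 2 * Real.pi * Real.log (⌊r + μ⌋₊ : ℝ) ≤ 2 * Real.pi * (Real.log r + μ) := by gcongr
    have h6 : 2 * Real.pi * (Real.log r + μ) ≤ 7 * (Real.log r + μ) := by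
      apply mul_le_mul_of_nonneg_right _ (by positivity)
      linarith
    nlinarith [mul_nonneg hμ hlog]
  calc (1 + μ) ^ 6 * ∑ u ∈ box ⌊r + μ⌋₊, 1 / QQf u
      ≤ (1 + μ) ^ 6 * (23 * (1 + μ) * (1 + Real.log r)) := by gcongr
    _ = _ := by ring

end

end

end Pool.Agent.NVec
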