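import Pool.Agent.H.MP_8be4c0_mp.Basic
import Pool.Agent.H.MP_8be4c0_mp.Twist

/-!
A local quantitative Mermin-Wagner lemma.
-/

open MeasureTheory Set Filter Topology

namespace Pool.Agent.NVec

set_option linter.unusedSectionVars false

noncomputable section

variable {n : ℕ} {V : Type} [Fintype V]


lemma rotFun_neg_rotFun {p q : Fin (n + 2)} (h : p ≠ q) (φ : ℝ) (u : EuclideanSpace ℝ (Fin (n + 2))) :
    rotFun p q (-φ) (rotFun p q φ u) = u := by
  ext r
  by_cases h1 : r = p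
  · rw [h1, rotFun_p, rotFun_p, rotFun_q h, Real.cos_neg, Real.sin_neg]
    linear_combination (u p) * (Real.cos_sq_add_sin_sq φ)
  · by_cases h2 : r = q
    · rw [h2, rotFun_q h, rotFun_p, rotFun_q h, Real.cos_neg, Real.sin_neg]
      linear_combination (u q) * (Real.cos_sq_add_sin_sq φ)
    · rw [rotFun_r h1 h2, rotFun_r h1 h2]

/-- site dependent rotation in the `(0,p)`-plane -/
def rotP {p : Fin (n + 2)} (hp : (0 : Fin (n + 2)) ≠ p) (φ : V → ℝ) (S : V → Spin (n + 2)) :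
    V → Spin (n + 2) :=
  fun i => act (rot hp (φ i)) (S i)

lemma coe_rotP {p : Fin (n + 2)} (hp : (0 : Fin (n + 2)) ≠ p) (φ : V → ℝ)
    (S : V → Spin (n + 2)) (i : V) :
    (rotP hp φ S i : EuclideanSpace ℝ (Fin (n + 2))) = rotFun 0 p (φ i) (S i) := rfl

lemma rotP_neg {p : Fin (n + 2)} (hp : (0 : Fin (n + 2)) ≠ p) (φ : V → ℝ)
    (S : V → Spin (n + 2)) : rotP hp (fun i => -φ i) (rotP hp φ S) = S := by
  funext i
  apply Subtype.ext
  rw [coe_rotP, coe_rotP]
  exact rotFun_neg_rotFun hp _ _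

lemma rotP_neg' {p : Fin (n + 2)} (hp : (0 : Fin (n + 2)) ≠ p) (φ : V → ℝ)
    (S : V → Spin (n + 2)) : rotP hp φ (rotP hp (fun i => -φ i) S) = S := by
  have := rotP_neg hp (fun i => -φ i) S
  simpa using this

lemma continuous_rotP {p : Fin (n + 2)} (hp : (0 : Fin (n + 2)) ≠ p) (φ : V → ℝ) :
    Continuous (rotP hp φ : (V → Spin (n + 2)) → _) :=
  continuous_pi fun i => (continuous_act _).comp (continuous_apply i)

/-- the cost of a spin wave -/
def cost (c d : V → V → ℝ) (φ : V → ℝ) : ℝ :=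
  ∑ i, ∑ k, (|c i k| * (φ i - φ k) ^ 2 + 4 * |d i k| * (if φ i = 0 ∧ φ k = 0 then 0 else 1))

lemma cost_nonneg (c d : V → V → ℝ) (φ : V → ℝ) : 0 ≤ cost c d φ := by
  refine Finset.sum_nonneg fun i _ => Finset.sum_nonneg fun k _ => ?_
  have h1 : 0 ≤ |c i k| * (φ i - φ k) ^ 2 := by positivity
  have h2 : 0 ≤ 4 * |d i k| * (if φ i = 0 ∧ φ k = 0 then (0 : ℝ) else 1) := by
    split_ifs <;> positivity
  linarith

lemma pair_bound {p q : Fin (n + 2)} (h : p ≠ q) (u v : Spin (n + 2)) :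
    |(u : EuclideanSpace ℝ (Fin (n + 2))) p| * |(v : EuclideanSpace ℝ (Fin (n + 2))) p| + |(u : EuclideanSpace ℝ (Fin (n + 2))) q| * |(v : EuclideanSpace ℝ (Fin (n + 2))) q| ≤ 1 := by
  have h1 := sq_add_sq_le h u
  have h2 := sq_add_sq_le h v
  rw [← sq_abs ((u : EuclideanSpace ℝ (Fin (n + 2))) p), ← sq_abs ((u : EuclideanSpace ℝ (Fin (n + 2))) q)] at h1
  rw [← sq_abs ((v : EuclideanSpace ℝ (Fin (n + 2))) p), ← sq_abs ((v : EuclideanSpace ℝ (Fin (n + 2))) q)] at h2
  nlinarith [sq_nonneg (|(u : EuclideanSpace ℝ (Fin (n + 2))) p| - |(v : EuclideanSpace ℝ (Fin (n + 2))) p|), sq_nonneg (|(u : EuclideanSpace ℝ (Fin (n + 2))) q| - |(v : EuclideanSpace ℝ (Fin (n + 2))) q|)]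

lemma one_sub_cos_le (x : ℝ) : |Real.cos x - 1| ≤ x ^ 2 / 2 := by
  have h1 := Real.cos_le_one x
  have h2 := Real.one_sub_sq_div_two_le_cos (x := x)
  rw [abs_le]
  constructor <;> linarith

lemma second_diff {p : Fin (n + 2)} (hp : (0 : Fin (n + 2)) ≠ p) (hp1 : (1 : Fin (n + 2)) ≠ p)
    (c d : V → V → ℝ) (φ : V → ℝ) (S : V → Spin (n + 2)) :
    2 * W c d S - cost c d φ ≤ W c d (rotP hp φ S) + W c d (rotP hp (fun i => -φ i) S) := by
  unfold W cost
  rw [Finset.mul_sum, ← Finset.sum_sub_distrib, ← Finset.sum_add_distrib]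
  refine Finset.sum_le_sum fun i _ => ?_
  rw [Finset.mul_sum, ← Finset.sum_sub_distrib, ← Finset.sum_add_distrib]
  refine Finset.sum_le_sum fun k _ => ?_
  simp only [coe_rotP]
  rw [inner_rotFun hp, inner_rotFun hp]
  have e1 : ∀ (u v : EuclideanSpace ℝ (Fin (n + 2))) (a b : ℝ), PP (rotFun 0 p a u) (rotFun 0 p b v)
      = (Real.cos a * u 0 - Real.sin a * u p) * (Real.cos b * v 0 - Real.sin b * v p)
        + u 1 * v 1 := by
    intro u v a b
    unfold PP
    rw [rotFun_p, rotFun_p, rotFun_r h01.symm hp1, rotFun_r h01.symm hp1]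
  rw [e1, e1]
  have e2 : -φ i - -φ k = -(φ i - φ k) := by ring
  rw [e2, Real.cos_neg, Real.sin_neg, Real.cos_neg, Real.sin_neg, Real.cos_neg, Real.sin_neg]
  unfold PP
  set u : EuclideanSpace ℝ (Fin (n + 2)) := (S i : EuclideanSpace ℝ (Fin (n + 2)))
  set v : EuclideanSpace ℝ (Fin (n + 2)) := (S k : EuclideanSpace ℝ (Fin (n + 2)))
  have hb := pair_bound hp (S i) (S k)
  have h1 : |c i k * (2 * ((Real.cos (φ i - φ k) - 1) * (u 0 * v 0 + u p * v p)))|
      ≤ |c i k| * (φ i - φ k) ^ 2 := by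
    rw [abs_mul, abs_mul, abs_mul]
    have h3 := one_sub_cos_le (φ i - φ k)
    have h4 : |u 0 * v 0 + u p * v p| ≤ 1 := by
      calc _ ≤ |u 0 * v 0| + |u p * v p| := abs_add_le _ _
        _ = |u 0| * |v 0| + |u p| * |v p| := by rw [abs_mul, abs_mul]
        _ ≤ 1 := hb
    have h5 : |Real.cos (φ i - φ k) - 1| * |u 0 * v 0 + u p * v p|
        ≤ (φ i - φ k) ^ 2 / 2 * 1 := mul_le_mul h3 h4 (abs_nonneg _) (by positivity)
    have h6 : |(2 : ℝ)| = 2 := by norm_num
    rw [h6]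
    nlinarith [abs_nonneg (c i k)]
  have h2 : |d i k * (2 * ((Real.cos (φ i) * Real.cos (φ k) - 1) * (u 0 * v 0)
      + Real.sin (φ i) * Real.sin (φ k) * (u p * v p)))|
      ≤ 4 * |d i k| * (if φ i = 0 ∧ φ k = 0 then 0 else 1) := by
    by_cases h0 : φ i = 0 ∧ φ k = 0
    · rw [h0.1, h0.2]; simp
    · rw [if_neg h0, mul_one, abs_mul, mul_comm (4 : ℝ)]
      refine mul_le_mul_of_nonneg_left ?_ (abs_nonneg _)
      rw [abs_mul]
      have h6 : |(2 : ℝ)| = 2 := by norm_num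
      rw [h6]
      have hc : |Real.cos (φ i) * Real.cos (φ k) - 1| ≤ 2 := by
        have := abs_sub (Real.cos (φ i) * Real.cos (φ k)) 1
        have h7 : |Real.cos (φ i) * Real.cos (φ k)| ≤ 1 := by
          rw [abs_mul]
          exact mul_le_one₀ (Real.abs_cos_le_one _) (abs_nonneg _) (Real.abs_cos_le_one _)
        rw [abs_one] at this
        linarith
      have hs : |Real.sin (φ i) * Real.sin (φ k)| ≤ 2 := by
        rw [abs_mul]
        have : |Real.sin (φ i)| * |Real.sin (φ k)| ≤ 1 :=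
          mul_le_one₀ (Real.abs_sin_le_one _) (abs_nonneg _) (Real.abs_sin_le_one _)
        linarith
      calc 2 * |(Real.cos (φ i) * Real.cos (φ k) - 1) * (u 0 * v 0)
              + Real.sin (φ i) * Real.sin (φ k) * (u p * v p)|
          ≤ 2 * (|(Real.cos (φ i) * Real.cos (φ k) - 1)| * (|u 0| * |v 0|)
              + |Real.sin (φ i) * Real.sin (φ k)| * (|u p| * |v p|)) := by
            have := abs_add_le ((Real.cos (φ i) * Real.cos (φ k) - 1) * (u 0 * v 0))
              (Real.sin (φ i) * Real.sin (φ k) * (u p * v p))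
            rw [abs_mul _ (u 0 * v 0), abs_mul _ (u p * v p), abs_mul (u 0), abs_mul (u p)] at this
            linarith
        _ ≤ 2 * (2 * (|u 0| * |v 0|) + 2 * (|u p| * |v p|)) := by
            have h8 := mul_le_mul_of_nonneg_right hc (by positivity : 0 ≤ |u 0| * |v 0|)
            have h9 := mul_le_mul_of_nonneg_right hs (by positivity : 0 ≤ |u p| * |v p|)
            linarith
        _ ≤ 4 := by linarith
  have h1' := neg_le_of_abs_le h1
  have h2' := neg_le_of_abs_le h2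
  nlinarith [h1', h2']

end

end Pool.Agent.NVec
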