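import Pool.Agent.H.MP_8be4c0_mp.Defs

/-!
Sums against the periodised coupling.
-/

open Set Filter Topology

namespace Pool.Agent.NVec

set_option linter.unusedSectionVars false

noncomputable section

variable {L : ℕ} [NeZero L]

lemma summable_ind {J : ℤ × ℤ → ℝ} (hJ : Summable fun m => |J m|) (z : Torus L) :
    Summable fun m : ℤ × ℤ => if proj L m = z then |J m| else 0 := by
  refine Summable.of_nonneg_of_le (fun m => ?_) (fun m => ?_) hJ
  · split_ifs
    · exact abs_nonneg _
    · exact le_refl _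
  · split_ifs
    · exact le_refl _
    · exact abs_nonneg _

lemma abs_perJ_le {J : ℤ × ℤ → ℝ} (hJ : Summable fun m => |J m|) (z : Torus L) :
    |perJ L J z| ≤ ∑' m : ℤ × ℤ, if proj L m = z then |J m| else 0 := by
  unfold perJ
  have h1 := summable_ind hJ z
  have e : (fun m : ℤ × ℤ => ‖(if proj L m = z then J m else 0 : ℝ)‖)
      = fun m : ℤ × ℤ => if proj L m = z then |J m| else 0 := by
    funext m
    split_ifs <;> simp
  have h2 : Summable fun m : ℤ × ℤ => ‖(if proj L m = z then J m else 0 : ℝ)‖ := by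
    rw [e]; exact h1
  have h3 := norm_tsum_le_tsum_norm h2
  rw [e] at h3
  exact h3

/-- sums against the periodised coupling -/
lemma sum_perJ_le {J : ℤ × ℤ → ℝ} (hJ : Summable fun m => |J m|) (F : Torus L → ℝ)
    (hF : ∀ k, 0 ≤ F k) :
    ∑ k, |perJ L J k| * F k ≤ ∑' m, |J m| * F (proj L m) := by
  classical
  have h1 : ∀ k : Torus L, |perJ L J k| * F k
      ≤ ∑' m : ℤ × ℤ, (if proj L m = k then |J m| else 0) * F k := by
    intro k
    rw [tsum_mul_right]
    exact mul_le_mul_of_nonneg_right (abs_perJ_le hJ k) (hF k)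
  refine (Finset.sum_le_sum fun k _ => h1 k).trans ?_
  rw [← Summable.tsum_finsetSum (fun k _ => (summable_ind hJ k).mul_right _)]
  apply le_of_eq
  congr 1
  funext m
  rw [Finset.sum_eq_single (proj L m)]
  · simp
  · intro b _ hb
    rw [if_neg (fun h => hb h.symm)]
    simp
  · intro h
    exact absurd (Finset.mem_univ _) h

lemma sum_perJ_le' {J : ℤ × ℤ → ℝ} (hJ : Summable fun m => |J m|) (i : Torus L)
    (F : Torus L → ℝ) (hF : ∀ k, 0 ≤ F k) :
    ∑ k, |perJ L J (k - i)| * F k ≤ ∑' m, |J m| * F (i + proj L m) := by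
  have h := sum_perJ_le hJ (fun k => F (i + k)) (fun k => hF _)
  refine le_trans (le_of_eq ?_) h
  rw [← Equiv.sum_comp (Equiv.subRight i) (fun k => |perJ L J k| * F (i + k))]
  refine Finset.sum_congr rfl fun k _ => ?_
  simp only [Equiv.subRight_apply]
  congr 2
  abel

lemma summable_mul_bdd {J : ℤ × ℤ → ℝ} (hJ : Summable fun m => |J m|) (F : Torus L → ℝ)
    (hF : ∀ k, 0 ≤ F k) (i : Torus L) : Summable fun m => |J m| * F (i + proj L m) := by
  refine Summable.of_nonneg_of_le (fun m => mul_nonneg (abs_nonneg _) (hF _)) (fun m => ?_)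
    (hJ.mul_right (∑ k, F k))
  exact mul_le_mul_of_nonneg_left
    (Finset.single_le_sum (fun k _ => hF k) (Finset.mem_univ _)) (abs_nonneg _)

lemma double_sum_le {J : ℤ × ℤ → ℝ} (hJ : Summable fun m => |J m|) (F : Torus L → Torus L → ℝ)
    (hF : ∀ i k, 0 ≤ F i k) (g : ℤ × ℤ → ℝ) (hg : Summable fun m => |J m| * g m)
    (h : ∀ m, ∑ i, F i (i + proj L m) ≤ g m) :
    ∑ i, ∑ k, |perJ L J (k - i)| * F i k ≤ ∑' m, |J m| * g m := by
  have h1 : ∑ i, ∑ k, |perJ L J (k - i)| * F i k
      ≤ ∑ i, ∑' m, |J m| * F i (i + proj L m) :=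
    Finset.sum_le_sum fun i _ => sum_perJ_le' hJ i (F i) (hF i)
  refine h1.trans ?_
  rw [← Summable.tsum_finsetSum (fun i _ => summable_mul_bdd hJ (F i) (hF i) i)]
  have e : (fun m : ℤ × ℤ => ∑ i, |J m| * F i (i + proj L m))
      = fun m : ℤ × ℤ => |J m| * ∑ i, F i (i + proj L m) := by
    funext m
    rw [Finset.mul_sum]
  have hs : Summable fun m : ℤ × ℤ => ∑ i, |J m| * F i (i + proj L m) := by
    rw [e]
    refine Summable.of_nonneg_of_le
      (fun m => mul_nonneg (abs_nonneg _) (Finset.sum_nonneg fun i _ => hF _ _)) (fun m => ?_) hg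
    exact mul_le_mul_of_nonneg_left (h m) (abs_nonneg _)
  refine Summable.tsum_le_tsum (fun m => ?_) hs hg
  rw [← Finset.mul_sum]
  exact mul_le_mul_of_nonneg_left (h m) (abs_nonneg _)

/-- the same with a single row -/
lemma row_sum_le {J : ℤ × ℤ → ℝ} (hJ : Summable fun m => |J m|) (i : Torus L)
    (F : Torus L → ℝ) (hF : ∀ k, 0 ≤ F k) (g : ℤ × ℤ → ℝ)
    (hg : Summable fun m => |J m| * g m) (h : ∀ m, F (i + proj L m) ≤ g m) :
    ∑ k, |perJ L J (k - i)| * F k ≤ ∑' m, |J m| * g m := by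
  refine (sum_perJ_le' hJ i F hF).trans ?_
  apply Summable.tsum_le_tsum (fun m => ?_) (summable_mul_bdd hJ F hF i) hg
  exact mul_le_mul_of_nonneg_left (h m) (abs_nonneg _)

/-- the same with a single column -/
lemma col_sum_le {J : ℤ × ℤ → ℝ} (hJ : Summable fun m => |J m|) (i : Torus L)
    (F : Torus L → ℝ) (hF : ∀ k, 0 ≤ F k) (g : ℤ × ℤ → ℝ)
    (hg : Summable fun m => |J m| * g m) (h : ∀ m, F (i - proj L m) ≤ g m) :
    ∑ k, |perJ L J (i - k)| * F k ≤ ∑' m, |J m| * g m := by
  have h1 := sum_perJ_le hJ (fun k => F (i - k)) (fun k => hF _)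
  have e : ∑ k, |perJ L J (i - k)| * F k = ∑ k, |perJ L J k| * F (i - k) := by
    rw [← Equiv.sum_comp (Equiv.subLeft i) (fun k => |perJ L J k| * F (i - k))]
    refine Finset.sum_congr rfl fun k _ => ?_
    simp only [Equiv.subLeft_apply]
    congr 2
    abel
  rw [e]
  refine h1.trans ?_
  have hs : Summable fun m => |J m| * F (i - proj L m) := by
    refine Summable.of_nonneg_of_le (fun m => mul_nonneg (abs_nonneg _) (hF _)) (fun m => ?_) hg
    exact mul_le_mul_of_nonneg_left (h m) (abs_nonneg _)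
  apply Summable.tsum_le_tsum (fun m => ?_) hs hg
  exact mul_le_mul_of_nonneg_left (h m) (abs_nonneg _)

end

end Pool.Agent.NVec
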