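import Pool.Agent.H.MP_8be4c0_mp.Field
import Pool.Agent.H.MP_8be4c0_mp.MW
import Pool.Agent.H.MP_8be4c0_mp.PerJ

/-!
The cost of a logarithmic spin wave on the torus.
-/

open Set Filter Topology

namespace Pool.Agent.NVec

set_option linter.unusedSectionVars false

noncomputable section

/-- moments of the coupling -/
def Sm (J : ℤ × ℤ → ℝ) (p : ℕ) : ℝ := ∑' m : ℤ × ℤ, |J m| * (1 + nrm m) ^ p

lemma Sm_nonneg (J : ℤ × ℤ → ℝ) (p : ℕ) : 0 ≤ Sm J p :=
  tsum_nonneg fun m => mul_nonneg (abs_nonneg _) (pow_nonneg (by have := nrm_nonneg m; linarith) _)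

lemma summable_abs {J : ℤ × ℤ → ℝ} (hJ : ∀ p : ℕ, Summable fun m => |J m| * (1 + nrm m) ^ p) :
    Summable fun m => |J m| := by
  simpa using hJ 0

variable {L : ℕ} [NeZero L]

/-- the isotropic coupling matrix -/
def cc (L : ℕ) [NeZero L] (J : ℤ × ℤ → ℝ) (β : ℝ) (i k : Torus L) : ℝ := β * perJ L J (k - i)

/-- the spin wave profile -/
def prof (R h : ℝ) (i j : Torus L) : ℝ := Real.pi / 4 * min 1 (bump R (j - i) / h)

lemma prof_diff_sq {R h : ℝ} (hh : 0 < h) (i j l : Torus L) :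
    (prof R h i j - prof R h i l) ^ 2
      ≤ (Real.pi / 4) ^ 2 / h ^ 2 * (bump R (l - i) - bump R (j - i)) ^ 2 := by
  unfold prof
  have h1 : |min 1 (bump R (j - i) / h) - min 1 (bump R (l - i) / h)|
      ≤ |bump R (j - i) / h - bump R (l - i) / h| := by
    have h := abs_min_sub_min_le_max 1 (bump R (j - i) / h) 1 (bump R (l - i) / h)
    rwa [sub_self, abs_zero, max_eq_right (abs_nonneg _)] at h
  have h2 : (min 1 (bump R (j - i) / h) - min 1 (bump R (l - i) / h)) ^ 2
      ≤ (bump R (j - i) / h - bump R (l - i) / h) ^ 2 := sq_le_sq.2 h1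
  have e : (Real.pi / 4) ^ 2 / h ^ 2 * (bump R (l - i) - bump R (j - i)) ^ 2
      = (Real.pi / 4) ^ 2 * (bump R (j - i) / h - bump R (l - i) / h) ^ 2 := by
    field_simp
    ring
  rw [e, ← mul_sub, mul_pow]
  exact mul_le_mul_of_nonneg_left h2 (by positivity)

lemma prof_ne_zero {R h : ℝ} (hR : 0 < R) (i j : Torus L) (hj : prof R h i j ≠ 0) :
    tnorm (j - i) ≤ R := by
  by_contra hc
  push Not at hc
  apply hj
  unfold prof
  rw [bump_eq_zero hR hc.le]
  simp

lemma cost_prof_le {J : ℤ × ℤ → ℝ} (hJ : ∀ p : ℕ, Summable fun m => |J m| * (1 + nrm m) ^ p)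
    {β : ℝ} (hβ : 0 ≤ β) {α r : ℝ} (hα : 0 ≤ α) {K : ℕ} (hK : 2 * α ≤ K) {R h D : ℝ}
    (hR : 1 ≤ R) (hh : 0 < h) (hD : R ≤ D) (x y i : Torus L)
    (hix : D ≤ tnorm (i - x)) (hiy : D ≤ tnorm (i - y)) :
    cost (cc L J β) (dtw (cc L J β) (fld α r x y)) (prof R h i)
      ≤ β * ((Real.pi / 4) ^ 2 / h ^ 2 * 23 * (1 + Real.log R)) * Sm J 7
        + 16 * β * α ^ 2 * (2 * R + 1) ^ 2 / (1 + (D - R) ^ 2) * Sm J (K + 6) := by
  classical
  have hsum := summable_abs hJ
  have hR0 : 0 < R := by linarith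
  set Q : ℝ := 1 + (D - R) ^ 2 with hQd
  have hQ : 0 < Q := by positivity
  set φ : Torus L → ℝ := prof R h i with hφ
  -- the far estimate on the support of the profile
  have hfar : ∀ j : Torus L, φ j ≠ 0 → ∀ w : Torus L, ∀ μ : ℝ, tnorm w ≤ μ →
      ch α r x y j (j + w) ≤ 2 * α ^ 2 * (1 + μ) ^ (K + 6) / Q := by
    intro j hj w μ hw
    have h1 : tnorm (j - i) ≤ R := prof_ne_zero hR0 i j hj
    have key : ∀ z : Torus L, D ≤ tnorm (i - z) → Q ≤ 1 + tnorm (j - z) ^ 2 := by
      intro z hz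
      have h2 : tnorm (i - z) ≤ tnorm (j - z) + tnorm (j - i) := by
        have := tnorm_sub_le (j - z) (j - i)
        have e : j - z - (j - i) = i - z := by abel
        rwa [e] at this
      have h3 : D - R ≤ tnorm (j - z) := by linarith
      have h4 : (D - R) ^ 2 ≤ tnorm (j - z) ^ 2 := by
        have : 0 ≤ D - R := by linarith
        gcongr
      rw [hQd]; linarith
    exact ch_far hα hK x y j w hw hQ (key x hix) (key y hiy)
  -- the number of sites in the support
  have hcard : (((Finset.univ.filter fun j : Torus L => φ j ≠ 0).card : ℕ) : ℝ)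
      ≤ (2 * R + 1) ^ 2 := by
    apply card_ball_le i hR0.le
    intro j hj
    exact prof_ne_zero hR0 i j (Finset.mem_filter.1 hj).2
  set F : Torus L → Torus L → ℝ := fun j l => β * (φ j - φ l) ^ 2
    + 4 * β * (ch α r x y j l * ((if φ j ≠ 0 then 1 else 0) + (if φ l ≠ 0 then 1 else 0)))
    with hF
  have hF0 : ∀ j l, 0 ≤ F j l := by
    intro j l
    have h1 := ch_nonneg α r x y j l
    have h2 : (0 : ℝ) ≤ (if φ j ≠ 0 then 1 else 0) + (if φ l ≠ 0 then 1 else 0) := by
      split_ifs <;> norm_num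
    rw [hF]
    positivity
  have hstep : cost (cc L J β) (dtw (cc L J β) (fld α r x y)) φ
      ≤ ∑ j, ∑ l, |perJ L J (l - j)| * F j l := by
    unfold cost
    refine Finset.sum_le_sum fun j _ => Finset.sum_le_sum fun l _ => ?_
    have h1 : |cc L J β j l| = β * |perJ L J (l - j)| := by
      unfold cc
      rw [abs_mul, abs_of_nonneg hβ]
    have h2 : |dtw (cc L J β) (fld α r x y) j l| = β * |perJ L J (l - j)| * ch α r x y j l := by
      unfold dtw
      rw [abs_mul, h1]
      congr 1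
      exact abs_of_nonneg (ch_nonneg α r x y j l)
    rw [h1, h2, hF]
    have h3 : (if φ j = 0 ∧ φ l = 0 then (0 : ℝ) else 1)
        ≤ (if φ j ≠ 0 then 1 else 0) + (if φ l ≠ 0 then 1 else 0) := by
      by_cases hj : φ j = 0
      · by_cases hl : φ l = 0
        · simp [hj, hl]
        · simp [hj, hl]
      · by_cases hl : φ l = 0
        · simp [hj, hl]
        · simp [hj, hl]
    have h4 : 0 ≤ 4 * (β * |perJ L J (l - j)| * ch α r x y j l) := by
      have := ch_nonneg α r x y j l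
      positivity
    have h5 := mul_le_mul_of_nonneg_left h3 h4
    simp only
    nlinarith
  refine hstep.trans ?_
  set g : ℤ × ℤ → ℝ := fun m => β * ((Real.pi / 4) ^ 2 / h ^ 2 * 23 * (1 + Real.log R))
      * (1 + nrm m) ^ 7 + 16 * β * α ^ 2 * (2 * R + 1) ^ 2 / Q * (1 + nrm m) ^ (K + 6) with hg
  have hgsum1 : Summable fun m => β * ((Real.pi / 4) ^ 2 / h ^ 2 * 23 * (1 + Real.log R))
      * (|J m| * (1 + nrm m) ^ 7) := (hJ 7).mul_left _
  have hgsum2 : Summable fun m => 16 * β * α ^ 2 * (2 * R + 1) ^ 2 / Q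
      * (|J m| * (1 + nrm m) ^ (K + 6)) := (hJ (K + 6)).mul_left _
  have heq : (fun m => |J m| * g m) = fun m =>
      β * ((Real.pi / 4) ^ 2 / h ^ 2 * 23 * (1 + Real.log R)) * (|J m| * (1 + nrm m) ^ 7)
      + 16 * β * α ^ 2 * (2 * R + 1) ^ 2 / Q * (|J m| * (1 + nrm m) ^ (K + 6)) := by
    funext m
    rw [hg]
    ring
  have hgs : Summable fun m => |J m| * g m := by
    rw [heq]; exact hgsum1.add hgsum2
  have hmain : ∀ m : ℤ × ℤ, ∑ j, F j (j + proj L m) ≤ g m := by
    intro m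
    set w : Torus L := proj L m with hw
    have hwm : tnorm w ≤ nrm m := tnorm_proj_le m
    have hwm' : tnorm (-w) ≤ nrm m := by rw [tnorm_neg]; exact hwm
    have hn0 := nrm_nonneg m
    set B : ℝ := 2 * α ^ 2 * (1 + nrm m) ^ (K + 6) / Q with hB
    have hB0 : 0 ≤ B := by positivity
    have hcount : ∑ j : Torus L, (if φ j ≠ 0 then B else 0) ≤ (2 * R + 1) ^ 2 * B := by
      rw [← Finset.sum_filter, Finset.sum_const, nsmul_eq_mul]
      exact mul_le_mul_of_nonneg_right hcard hB0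
    have h1 : ∑ j, (φ j - φ (j + w)) ^ 2
        ≤ (Real.pi / 4) ^ 2 / h ^ 2 * (23 * (1 + nrm m) ^ 7 * (1 + Real.log R)) := by
      have h2 : ∀ j : Torus L, (φ j - φ (j + w)) ^ 2
          ≤ (Real.pi / 4) ^ 2 / h ^ 2 * (bump R ((j - i) + w) - bump R (j - i)) ^ 2 := by
        intro j
        have := prof_diff_sq (R := R) hh i j (j + w)
        rwa [sub_eq1] at this
      refine (Finset.sum_le_sum fun j _ => h2 j).trans ?_
      rw [← Finset.mul_sum, sum_shift (fun j => (bump R (j + w) - bump R j) ^ 2) i]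
      exact mul_le_mul_of_nonneg_left (bump_energy_le hR w hwm) (by positivity)
    have h3 : ∑ j, ch α r x y j (j + w) * (if φ j ≠ 0 then 1 else 0) ≤ (2 * R + 1) ^ 2 * B := by
      refine (Finset.sum_le_sum fun j _ => ?_).trans hcount
      split_ifs with hj
      · rw [mul_one]; exact hfar j hj w _ hwm
      · simp
    have h4 : ∑ j, ch α r x y j (j + w) * (if φ (j + w) ≠ 0 then 1 else 0)
        ≤ (2 * R + 1) ^ 2 * B := by
      have e : ∑ j, ch α r x y j (j + w) * (if φ (j + w) ≠ 0 then (1 : ℝ) else 0)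
          = ∑ j, ch α r x y j (j + -w) * (if φ j ≠ 0 then (1 : ℝ) else 0) := by
        rw [← Equiv.sum_comp (Equiv.addRight w)
          (fun j => ch α r x y j (j + -w) * (if φ j ≠ 0 then (1 : ℝ) else 0))]
        refine Finset.sum_congr rfl fun j _ => ?_
        simp only [Equiv.coe_addRight]
        rw [add_neg_cancel_right, ch_comm]
        by_cases hj : φ (j + w) = 0 <;> simp [hj]
      rw [e]
      refine (Finset.sum_le_sum fun j _ => ?_).trans hcount
      split_ifs with hj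
      · rw [mul_one]; exact hfar j hj (-w) _ hwm'
      · simp
    have e : ∑ j, F j (j + w) = β * ∑ j, (φ j - φ (j + w)) ^ 2
        + 4 * β * (∑ j, ch α r x y j (j + w) * (if φ j ≠ 0 then 1 else 0)
          + ∑ j, ch α r x y j (j + w) * (if φ (j + w) ≠ 0 then 1 else 0)) := by
      rw [← Finset.sum_add_distrib, Finset.mul_sum, Finset.mul_sum, ← Finset.sum_add_distrib]
      refine Finset.sum_congr rfl fun j _ => ?_
      rw [hF]
      ring
    rw [e, hg]
    calc β * ∑ j, (φ j - φ (j + w)) ^ 2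
        + 4 * β * (∑ j, ch α r x y j (j + w) * (if φ j ≠ 0 then 1 else 0)
          + ∑ j, ch α r x y j (j + w) * (if φ (j + w) ≠ 0 then 1 else 0))
        ≤ β * ((Real.pi / 4) ^ 2 / h ^ 2 * (23 * (1 + nrm m) ^ 7 * (1 + Real.log R)))
          + 4 * β * ((2 * R + 1) ^ 2 * B + (2 * R + 1) ^ 2 * B) := by gcongr
      _ = _ := by
          rw [hB]
          ring
  refine (double_sum_le hsum F hF0 g hgs hmain).trans (le_of_eq ?_)
  rw [heq, Summable.tsum_add hgsum1 hgsum2, tsum_mul_left, tsum_mul_left]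
  rfl

end

end Pool.Agent.NVec
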