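import Pool.Agent.H.MP_8be4c0_mp.Energy3

/-!
Decay of the conditional magnetisation in a ball, uniformly in the boundary condition.
-/

open MeasureTheory Set Filter Topology

namespace Pool.Agent.NVec

set_option linter.unusedSectionVars false

noncomputable section

/-- the property propagated by the recursion -/
def BallBd {L : ℕ} [NeZero L] (n : ℕ) (J : ℤ × ℤ → ℝ) (β : ℝ) (x : Torus L) (t m : ℝ) : Prop :=
  ∀ (τ : Torus L → Spin (n + 2)) (e : EuclideanSpace ℝ (Fin (n + 2))),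
    bInt (W (cc L J β) 0) (bal x t) τ
      (fun S => inner ℝ e (S x : EuclideanSpace ℝ (Fin (n + 2))))
      ≤ m * ‖e‖ * bZ (W (cc L J β) 0) (bal x t) τ

lemma ballBd_one {L : ℕ} [NeZero L] (n : ℕ) (J : ℤ × ℤ → ℝ) (β : ℝ) (x : Torus L) (t : ℝ) :
    BallBd n J β x t 1 := by
  intro τ e
  rw [one_mul]
  refine (le_abs_self _).trans ?_
  apply bInt_abs_le (continuous_W (cc L J β) 0)
  · exact continuous_const.inner (continuous_subtype_val.comp (continuous_apply x))
  · intro S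
    refine (abs_real_inner_le_norm _ _).trans ?_
    have : ‖(S x : EuclideanSpace ℝ (Fin (n + 2)))‖ = 1 := by
      have := (S x).2
      rwa [mem_sphere_zero_iff_norm] at this
    rw [this, mul_one]

lemma ballBd_mono_const {L : ℕ} [NeZero L] {n : ℕ} {J : ℤ × ℤ → ℝ} {β : ℝ} {x : Torus L}
    {t m m' : ℝ} (h : BallBd n J β x t m) (hm : m ≤ m') : BallBd n J β x t m' := by
  intro τ e
  refine (h τ e).trans ?_
  have h1 := (bZ_pos (continuous_W (n := n) (cc L J β) 0) (bal x t) τ).le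
  have h2 := norm_nonneg e
  gcongr

lemma ballBd_mono {L : ℕ} [NeZero L] {n : ℕ} {J : ℤ × ℤ → ℝ} {β : ℝ} {x : Torus L}
    {t t' m : ℝ} (h : BallBd n J β x t m) (ht : t ≤ t') : BallBd n J β x t' m := by
  intro τ e
  have h1 := duality (continuous_W (n := n) (cc L J β) 0) (bal_mono x ht) h (fun _ => e)
    continuous_const (fun _ _ => rfl) τ
  rw [bInt_const] at h1
  linarith

/-- one step of the recursion -/
lemma ballBd_step {n : ℕ} {J : ℤ × ℤ → ℝ}
    (hJ : ∀ p : ℕ, Summable fun m => |J m| * (1 + nrm m) ^ p)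
    {β : ℝ} (hβ : 0 ≤ β) {M : ℝ} {κ₀ : ℝ} (hκ₀ : 0 ≤ κ₀) {R : ℝ}
    {L : ℕ} [NeZero L]
    (hgood : ∀ (A : Finset (Torus L)) (τ : Torus L → Spin (n + 2))
      (i k : Torus L), i ≠ k → tnorm (k - i) ≤ M → (∀ j, tnorm (j - i) ≤ R → j ∈ A) →
      |∑ q ∈ Finset.univ.erase (0 : Fin (n + 2)),
        bInt (W (cc L J β) 0) A τ (fun S => P2 q (S i) (S k))|
        ≤ κ₀ * bZ (W (cc L J β) 0) A τ)
    {w δ ε₀ : ℝ} (hw : 0 < w - 2 * δ) (hδ : 0 < δ) (hε₀ : 0 < ε₀)
    (hδε : ((n : ℝ) + 1) * (δ + δ ^ 2) ≤ ε₀) (p k : ℕ) (x : Torus L)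
    (hk1 : 18 * β * Sm J (p + 2) / (Real.exp δ - 1) ^ (p + 2) * Real.exp (-(p * w)) ^ k ≤ δ)
    (hk2 : M + R ≤ Real.exp (((k : ℝ) + 1) * w) * (1 - Real.exp (-δ)))
    {m : ℝ} (hm0 : 0 ≤ m) (hm : BallBd n J β x (k * w) m) :
    BallBd n J β x (((k : ℝ) + 1) * w)
      (m / Real.sqrt (1 + ((n : ℝ) + 1) ^ 2
        / ((1 + δ) * Kan n J β M κ₀ w δ (((k : ℝ) + 1) * w) x + ε₀))
        + 18 * β * Sm J (p + 2) / (Real.exp δ - 1) ^ (p + 2) * Real.exp (-(p * w)) ^ k) := by
  classical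
  have hw0 : 0 < w := by linarith
  set t := ((k : ℝ) + 1) * w with ht
  have htw : t - w = k * w := by rw [ht]; ring
  have htw0 : 0 ≤ t - w := by rw [htw]; positivity
  set ρ := 18 * β * Sm J (p + 2) / (Real.exp δ - 1) ^ (p + 2) * Real.exp (-(p * w)) ^ k with hρ
  have hρ1 : rho (cc L J β) (psi w δ t x) (bal x (t - w)) ≤ ρ := by
    refine (rho_annulus hJ hβ hw hδ htw0 p x).trans (le_of_eq ?_)
    rw [hρ, htw]
    congr 1
    rw [← Real.exp_nat_mul, ← Real.exp_nat_mul]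
    congr 1
    ring
  have hρ0 : 0 ≤ ρ := (rho_nonneg _ _ _).trans hρ1
  have hK0 := Kan_nonneg (n := n) J β (M := M) hκ₀ w δ t x
  set Kc := Kan n J β M κ₀ w δ t x with hKc
  unfold BallBd at hm ⊢
  apply vector_bound
  intro τ
  rw [← htw] at hm
  refine gain' (cc L J β) (bal_mono x (by linarith : t - w ≤ t)) (psi w δ t x)
    (fun i hi => psi_zero hw hδ.le x i hi) (psi_one hw hδ.le x x ?_) hm0 hm hρ1 τ
    (Kc := Kc) ?_ (by positivity) ?_
  · rw [mem_bal, sub_self]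
    have : ll (0 : Torus L) = 0 := by
      unfold ll; rw [tnorm_zero]; simp
    rw [this]; exact htw0
  · refine current_sum_le (cc L J β) (bal x t) (psi w δ t x)
      (fun i hi => psi_zero hw hδ.le x i hi) τ (kp n M κ₀) ?_
    intro i k' hik
    unfold kp
    split_ifs with h
    · refine hgood (bal x t) τ i k' ?_ h (fun j hj => annulus_good hw hk2 x i k' hik h j hj)
      rintro rfl
      exact hik rfl
    · exact sum_P2_le (cc L J β) (bal x t) τ i k'
  · have h1 : ρ ^ 2 ≤ δ ^ 2 := by gcongr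
    have h2 : ((n : ℝ) + 1) * (ρ + ρ ^ 2) ≤ ((n : ℝ) + 1) * (δ + δ ^ 2) := by gcongr
    have h3 : (1 + ρ) * Kc ≤ (1 + δ) * Kc := by gcongr
    linarith

/-- the choice of the parameters -/
lemma params {η P a b : ℝ} (h : η * (b * P) < a) :
    ∃ κ₀ s w : ℝ, b < κ₀ ∧ 0 < s ∧ 0 < w ∧ η * (κ₀ * P + s + a * w) < a := by
  have hc : Continuous fun u : ℝ => η * ((b + u) * P + u + a * u) := by fun_prop
  have h1 : ∀ᶠ u in 𝓝 (0 : ℝ), η * ((b + u) * P + u + a * u) < a := by
    apply hc.continuousAt.eventually_lt continuousAt_const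
    simpa using h
  have h2 : ∀ᶠ u in 𝓝[>] (0 : ℝ), η * ((b + u) * P + u + a * u) < a :=
    h1.filter_mono nhdsWithin_le_nhds
  obtain ⟨u, h3, h4⟩ := (h2.and self_mem_nhdsWithin).exists
  exact ⟨b + u, u, u, by simpa using h4, h4, h4, h3⟩

/-- the choice of `δ` -/
lemma params_delta {w X s ε₀ c : ℝ} (hw : 0 < w) (hs : 0 < s) (hε : 0 < ε₀) :
    ∃ δ : ℝ, 0 < δ ∧ 2 * δ < w ∧ (1 + δ) * (w / (w - 2 * δ)) ^ 2 * X ≤ X + s ∧
      c * (δ + δ ^ 2) ≤ ε₀ := by
  have hc1 : ContinuousAt (fun δ : ℝ => (1 + δ) * (w / (w - 2 * δ)) ^ 2 * X) 0 := by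
    have h0 : w - 2 * (0 : ℝ) ≠ 0 := by simpa using hw.ne'
    have : ContinuousAt (fun δ : ℝ => w / (w - 2 * δ)) 0 :=
      continuousAt_const.div (by fun_prop) h0
    exact ((continuousAt_const.add continuousAt_id).mul (this.pow 2)).mul continuousAt_const
  have hc2 : ContinuousAt (fun δ : ℝ => c * (δ + δ ^ 2)) 0 := by fun_prop
  have h1 : ∀ᶠ δ in 𝓝 (0 : ℝ), (1 + δ) * (w / (w - 2 * δ)) ^ 2 * X < X + s := by
    apply hc1.eventually_lt continuousAt_const
    simp only [mul_zero, sub_zero, add_zero, div_self hw.ne', one_pow, one_mul]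
    linarith
  have h2 : ∀ᶠ δ in 𝓝 (0 : ℝ), c * (δ + δ ^ 2) < ε₀ := by
    apply hc2.eventually_lt continuousAt_const
    simpa using hε
  have h3 : ∀ᶠ δ in 𝓝 (0 : ℝ), 2 * δ < w := by
    have : ContinuousAt (fun δ : ℝ => 2 * δ) 0 := by fun_prop
    apply this.eventually_lt continuousAt_const
    simpa using hw
  have h4 := ((h1.and (h2.and h3)).filter_mono
    (nhdsWithin_le_nhds (s := Ioi (0 : ℝ)))).and self_mem_nhdsWithin
  obtain ⟨δ, ⟨h5, h6, h7⟩, h8⟩ := h4.exists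
  exact ⟨δ, h8, h7, h5.le, h6.le⟩

/-- the choice of `p` -/
lemma params_p {w G : ℝ} (hw : 0 < w) (hG : 0 < G) :
    ∃ p : ℕ, Real.exp (-(p * w)) * G ≤ 1 / 2 := by
  obtain ⟨p, hp⟩ := exists_nat_ge (Real.log (2 * G) / w)
  refine ⟨p, ?_⟩
  rw [div_le_iff₀ hw] at hp
  have h1 : 2 * G ≤ Real.exp (p * w) := by
    rw [← Real.log_le_iff_le_exp (by positivity)]
    exact hp
  have h2 : Real.exp (-(p * w)) * Real.exp (p * w) = 1 := by
    rw [← Real.exp_add]; simp
  have h3 := Real.exp_pos (-(p * w))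
  nlinarith

/-- the choice of `k₁` -/
lemma params_k {w δ C₂ M' q : ℝ} (hw : 0 < w) (hδ : 0 < δ) (hq0 : 0 ≤ q) (hq1 : q < 1) :
    ∃ k₁ : ℕ, ∀ k : ℕ, k₁ ≤ k → C₂ * q ^ k ≤ δ ∧
      M' ≤ Real.exp (((k : ℝ) + 1) * w) * (1 - Real.exp (-δ)) := by
  have h1 : ∀ᶠ k : ℕ in atTop, C₂ * q ^ k < δ := by
    have : Tendsto (fun k : ℕ => C₂ * q ^ k) atTop (𝓝 (C₂ * 0)) :=
      (tendsto_pow_atTop_nhds_zero_of_lt_one hq0 hq1).const_mul C₂
    rw [mul_zero] at this
    exact this.eventually_lt_const hδ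
  have h2 : ∀ᶠ k : ℕ in atTop, M' ≤ Real.exp (((k : ℝ) + 1) * w) * (1 - Real.exp (-δ)) := by
    have h3 : 0 < 1 - Real.exp (-δ) := by
      have : Real.exp (-δ) < 1 := by rw [Real.exp_lt_one_iff]; linarith
      linarith
    have h4 : Tendsto (fun k : ℕ => Real.exp (((k : ℝ) + 1) * w) * (1 - Real.exp (-δ)))
        atTop atTop := by
      apply Tendsto.atTop_mul_const h3
      apply Real.tendsto_exp_atTop.comp
      apply Tendsto.atTop_mul_const hw
      exact tendsto_atTop_add_const_right _ _ tendsto_natCast_atTop_atTop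
    exact h4.eventually_ge_atTop M'
  obtain ⟨k₁, hk⟩ := eventually_atTop.1 (h1.and h2)
  exact ⟨k₁, fun k hk' => ⟨(hk k hk').1.le, (hk k hk').2⟩⟩

/-- **Decay in balls**, uniformly in the boundary condition and in the size of the torus. -/
theorem ball_decay (n : ℕ) {J : ℤ × ℤ → ℝ}
    (hJ : ∀ p : ℕ, Summable fun m => |J m| * (1 + nrm m) ^ p)
    {β : ℝ} (hβ : 0 ≤ β) {η : ℝ} (hη0 : 0 ≤ η)
    (hη : η * (2 * Real.pi * β * moment2 J * mag (n + 2) (2 * β * Jbar J))
      < ((n : ℝ) + 2) * ((n : ℝ) + 1)) :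
    ∃ C : ℝ, 1 ≤ C ∧ ∀ (L : ℕ) [NeZero L] (x : Torus L) (T : ℝ), 0 ≤ T →
      4 * Real.exp T < L → BallBd n J β x T (C * Real.exp (-(η / 2 * T))) := by
  have hpi := Real.pi_pos
  have hn2 : (0 : ℝ) < (n : ℝ) + 2 := by positivity
  have hn1 : (0 : ℝ) < (n : ℝ) + 1 := by positivity
  have hM2 : 0 ≤ moment2 J := by
    unfold moment2
    exact tsum_nonneg fun m => by positivity
  have hJb : 0 ≤ Jbar J := by
    unfold Jbar
    apply tsum_nonneg
    intro m
    split_ifs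
    · exact le_refl _
    · exact abs_nonneg _
  have hA0 : 0 ≤ mag (n + 2) (2 * β * Jbar J) := mag_nonneg (by positivity)
  set A := mag (n + 2) (2 * β * Jbar J) with hA
  set P := Real.pi * β * moment2 J with hP
  have hP0 : 0 ≤ P := by positivity
  set a : ℝ := ((n : ℝ) + 1) ^ 2 with ha
  have ha0 : 0 < a := by positivity
  obtain ⟨κ₀, s, w, hκ, hs, hw, hηp⟩ := params (η := η) (P := P) (a := a)
    (b := 2 * ((n : ℝ) + 1) / ((n : ℝ) + 2) * A) (by
      have e : η * (2 * ((n : ℝ) + 1) / ((n : ℝ) + 2) * A * P)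
          = ((n : ℝ) + 1) / ((n : ℝ) + 2) * (η * (2 * Real.pi * β * moment2 J * A)) := by
        rw [hP]; ring
      rw [e]
      have h1 : ((n : ℝ) + 1) / ((n : ℝ) + 2) * (η * (2 * Real.pi * β * moment2 J * A))
          < ((n : ℝ) + 1) / ((n : ℝ) + 2) * (((n : ℝ) + 2) * ((n : ℝ) + 1)) :=
        mul_lt_mul_of_pos_left hη (by positivity)
      have e2 : ((n : ℝ) + 1) / ((n : ℝ) + 2) * (((n : ℝ) + 2) * ((n : ℝ) + 1)) = a := by
        rw [ha]; field_simp
      rwa [e2] at h1)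
  have hκ0 : 0 ≤ κ₀ := le_trans (by positivity) hκ.le
  set D₀ := κ₀ * P + s with hD₀
  have hD₀0 : 0 < D₀ := by positivity
  obtain ⟨M, hM, htail⟩ := tail_small hJ 7
    (ε := s / 4 / (23 * β * (κ₀ + ((n : ℝ) + 1)) + 1)) (by positivity)
  have htail0 : 0 ≤ tailJ J 7 M := by
    unfold tailJ
    apply tsum_nonneg
    intro m
    have := nrm_nonneg m
    split_ifs
    · exact le_refl _
    · positivity
  have htail2 : 23 * β * (κ₀ + ((n : ℝ) + 1)) * tailJ J 7 M ≤ s / 4 := by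
    rw [le_div_iff₀ (by positivity)] at htail
    linarith
  set X := κ₀ * P + s / 4 with hX
  have hX0 : 0 < X := by positivity
  set ε₀ := s / (4 * w) with hε₀
  have hε₀0 : 0 < ε₀ := by positivity
  obtain ⟨δ, hδ, hδw, hδX, hδε⟩ := params_delta (w := w) (X := X) (s := s / 2) (ε₀ := ε₀)
    (c := (n : ℝ) + 1) hw (by positivity) hε₀0
  have hwδ : 0 < w - 2 * δ := by linarith
  obtain ⟨R, hR0, hgood⟩ := good_kappa n hJ hβ hM hκ
  set G := Real.sqrt (1 + a / ε₀) with hG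
  have hG1 : 1 ≤ G := by
    rw [hG]; apply Real.le_sqrt_of_sq_le
    have : 0 < a / ε₀ := by positivity
    linarith
  obtain ⟨p, hp⟩ := params_p (w := w) (G := G) hw (by linarith)
  set q := Real.exp (-(p * w)) with hq
  have hq0 : 0 < q := Real.exp_pos _
  have hq1 : q < 1 := by
    have h1 : q * 1 ≤ q * G := mul_le_mul_of_nonneg_left hG1 hq0.le
    linarith
  set C₂ := 18 * β * Sm J (p + 2) / (Real.exp δ - 1) ^ (p + 2) with hC₂
  have hC₂0 : 0 ≤ C₂ := by
    have h1 := Sm_nonneg J (p + 2)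
    have h2 : 0 < Real.exp δ - 1 := by
      have := Real.add_one_lt_exp hδ.ne'; linarith
    positivity
  obtain ⟨k₁, hk₁⟩ := params_k (w := w) (δ := δ) (C₂ := C₂) (M' := M + R) (q := q) hw hδ
    hq0.le hq1
  obtain ⟨CE, hCE0, henergy⟩ := total_energy n hJ hβ hM hκ0
  set C₁ := (X + s / 2) * k₁ / w + (1 + δ) * CE / (w - 2 * δ) ^ 2 with hC₁
  have hC₁0 : 0 ≤ C₁ := by positivity
  set Kb := D₀ / w with hKb
  have hKb0 : 0 < Kb := by positivity
  set Ca := (1 + 2 * C₂ * G) * Real.exp (a / (Kb * (Kb + a)) * C₁ / 2) with hCa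
  have hCa0 : 0 < Ca := by
    have : 0 < G := by linarith
    positivity
  set T₀ := ((k₁ : ℝ) + 1) * w + Real.log (2 * M + 1) with hT₀
  have hlogM : 0 ≤ Real.log (2 * M + 1) := Real.log_nonneg (by linarith)
  have hT₀0 : 0 ≤ T₀ := by positivity
  have hlog : η * w ≤ Real.log (1 + a / Kb) := by
    have h1 := Real.one_sub_inv_le_log_of_pos (show 0 < 1 + a / Kb by positivity)
    refine le_trans ?_ h1
    have e : 1 - (1 + a / Kb)⁻¹ = a * w / (D₀ + a * w) := by
      rw [hKb]; field_simp; ring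
    rw [e, le_div_iff₀ (by positivity)]
    calc η * w * (D₀ + a * w) = η * (D₀ + a * w) * w := by ring
      _ ≤ a * w := mul_le_mul_of_nonneg_right hηp.le hw.le
  refine ⟨Ca * Real.exp ((1 + k₁) * (η * w) / 2) + Real.exp (η / 2 * T₀), ?_, ?_⟩
  · have h1 : 1 ≤ Real.exp (η / 2 * T₀) := Real.one_le_exp (by positivity)
    have h2 : 0 < Ca * Real.exp ((1 + k₁) * (η * w) / 2) := by positivity
    linarith
  intro L _ x T hT hL
  by_cases hbig : T₀ ≤ T
  · -- large balls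
    set N := ⌊T / w⌋₊ with hN
    have hTw : 0 ≤ T / w := by positivity
    have hN1 : (N : ℝ) * w ≤ T := by
      have := Nat.floor_le hTw
      rwa [le_div_iff₀ hw] at this
    have hN2 : T < ((N : ℝ) + 1) * w := by
      have := Nat.lt_floor_add_one (T / w)
      rwa [div_lt_iff₀ hw] at this
    have hk₁N : k₁ ≤ N := by
      apply Nat.le_floor
      rw [le_div_iff₀ hw]
      have : (k₁ : ℝ) * w ≤ ((k₁ : ℝ) + 1) * w :=
        mul_le_mul_of_nonneg_right (by linarith) hw.le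
      linarith
    have hLN : 2 * (Real.exp (N * w) + 2 * M) < L := by
      have h1 : Real.exp (N * w) ≤ Real.exp T := Real.exp_le_exp.2 hN1
      have h2 : 2 * M + 1 ≤ Real.exp T := by
        rw [← Real.log_le_iff_le_exp (by positivity)]
        have : 0 ≤ ((k₁ : ℝ) + 1) * w := by positivity
        linarith
      linarith
    -- the sequences
    set K : ℕ → ℝ := fun k => (1 + δ) * Kan n J β M κ₀ w δ (((k : ℝ) + 1) * w) x + ε₀ with hK
    have hKan : ∀ k : ℕ, 0 ≤ Kan n J β M κ₀ w δ (((k : ℝ) + 1) * w) x :=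
      fun k => Kan_nonneg J β hκ0 _ _ _ _
    have hKε : ∀ k, ε₀ ≤ K k := fun k => by
      have := hKan k
      rw [hK]
      have h2 : 0 ≤ (1 + δ) * Kan n J β M κ₀ w δ (((k : ℝ) + 1) * w) x := by positivity
      simp only
      linarith
    set mm : ℕ → ℝ := fun j => Nat.rec (motive := fun _ => ℝ) 1
      (fun j r => r / Real.sqrt (1 + a / K (k₁ + j)) + C₂ * q ^ (k₁ + j)) j with hmm
    have hmm0 : mm 0 = 1 := rfl
    have hmms : ∀ j, mm (j + 1) = mm j / Real.sqrt (1 + a / K (k₁ + j)) + C₂ * q ^ (k₁ + j) :=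
      fun j => rfl
    have hmmpos : ∀ j, 0 ≤ mm j := by
      intro j
      induction j with
      | zero => rw [hmm0]; exact zero_le_one
      | succ j ih => rw [hmms]; positivity
    have hball : ∀ j : ℕ, BallBd n J β x (((k₁ + j : ℕ) : ℝ) * w) (mm j) := by
      intro j
      induction j with
      | zero => rw [hmm0]; exact ballBd_one n J β x _
      | succ j ih =>
        have hk := hk₁ (k₁ + j) (Nat.le_add_right _ _)
        have h1 := ballBd_step hJ hβ hκ0 (hgood L) hwδ hδ hε₀0 hδε p (k₁ + j) x hk.1 hk.2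
          (hmmpos j) ih
        rw [hmms]
        have e : ((k₁ + (j + 1) : ℕ) : ℝ) * w = (((k₁ + j : ℕ) : ℝ) + 1) * w := by
          push_cast; ring
        rw [e]
        exact h1
    set m : ℕ → ℝ := fun k => mm (k - k₁) with hm
    have hsum : ∑ k ∈ Finset.Ico k₁ N, K k ≤ Kb * ((N : ℝ) - k₁) + C₁ := by
      have h1 := henergy L x w δ N hδ.le hwδ hLN
      have h2 : (κ₀ * (Real.pi * β * moment2 J)
          + 23 * β * (κ₀ + ((n : ℝ) + 1)) * tailJ J 7 M) * (N * w) ≤ X * (N * w) := by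
        apply mul_le_mul_of_nonneg_right _ (by positivity)
        rw [hX, hP]
        linarith
      have h3 : ∑ k ∈ Finset.Ico k₁ N, Kan n J β M κ₀ w δ (((k : ℝ) + 1) * w) x
          ≤ ∑ k ∈ Finset.range N, Kan n J β M κ₀ w δ (((k : ℝ) + 1) * w) x := by
        apply Finset.sum_le_sum_of_subset_of_nonneg
        · intro k hk
          rw [Finset.mem_Ico] at hk
          exact Finset.mem_range.2 hk.2
        · intro k _ _
          exact hKan k
      set SK := ∑ k ∈ Finset.range N, Kan n J β M κ₀ w δ (((k : ℝ) + 1) * w) x with hSK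
      have h4 : SK ≤ (X * (N * w) + CE) / (w - 2 * δ) ^ 2 := by
        rw [le_div_iff₀ (by positivity)]
        linarith
      have h5 : ∑ k ∈ Finset.Ico k₁ N, K k
          = (1 + δ) * (∑ k ∈ Finset.Ico k₁ N, Kan n J β M κ₀ w δ (((k : ℝ) + 1) * w) x)
            + ((N : ℝ) - k₁) * ε₀ := by
        rw [hK, Finset.sum_add_distrib, ← Finset.mul_sum, Finset.sum_const, Nat.card_Ico,
          nsmul_eq_mul, Nat.cast_sub hk₁N]
      rw [h5]
      have h6 : (1 + δ) * (∑ k ∈ Finset.Ico k₁ N, Kan n J β M κ₀ w δ (((k : ℝ) + 1) * w) x)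
          ≤ (1 + δ) * ((X * (N * w) + CE) / (w - 2 * δ) ^ 2) := by
        apply mul_le_mul_of_nonneg_left (h3.trans h4) (by linarith)
      have h7 : (1 + δ) * ((X * (N * w) + CE) / (w - 2 * δ) ^ 2)
          = ((1 + δ) * (w / (w - 2 * δ)) ^ 2 * X) * (N / w)
            + (1 + δ) * CE / (w - 2 * δ) ^ 2 := by
        field_simp
      have h8 : ((1 + δ) * (w / (w - 2 * δ)) ^ 2 * X) * (N / w) ≤ (X + s / 2) * (N / w) :=
        mul_le_mul_of_nonneg_right hδX (by positivity)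
      have h9 : Kb * ((N : ℝ) - k₁) + C₁ = (X + s / 2) * (N / w)
            + (1 + δ) * CE / (w - 2 * δ) ^ 2 + ((N : ℝ) - k₁) * ε₀ := by
        rw [hKb, hC₁, hD₀, hX, hε₀]
        field_simp
        ring
      linarith
    have hrb := recursion_bound (a := a) (ε₀ := ε₀) (Kb := Kb) (C₁ := C₁) (C₂ := C₂) (q := q)
      ha0 hε₀0 hKb0 hC₂0 hq0.le hp k₁ N K (fun k => C₂ * q ^ k) m hKε (fun k _ _ => le_refl _)
      (by rw [hm]; simp only [Nat.sub_self]; exact hmm0.le)
      (fun k hk _ => by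
        rw [hm]
        simp only
        have e : k + 1 - k₁ = (k - k₁) + 1 := by omega
        have e2 : k₁ + (k - k₁) = k := by omega
        rw [e, hmms, e2]) hsum hk₁N
    have hmN : BallBd n J β x ((N : ℝ) * w) (m N) := by
      have := hball (N - k₁)
      rwa [show k₁ + (N - k₁) = N by omega] at this
    refine ballBd_mono_const (ballBd_mono hmN hN1) (hrb.trans ?_)
    rw [← hG, ← hCa]
    have h1 : Real.exp (-(((N : ℝ) - k₁) * Real.log (1 + a / Kb)) / 2)
        ≤ Real.exp ((1 + k₁) * (η * w) / 2) * Real.exp (-(η / 2 * T)) := by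
      rw [← Real.exp_add]
      apply Real.exp_le_exp.2
      have h2 : (0 : ℝ) ≤ (N : ℝ) - k₁ := by
        have : (k₁ : ℝ) ≤ N := by exact_mod_cast hk₁N
        linarith
      have h3 : ((N : ℝ) - k₁) * (η * w) ≤ ((N : ℝ) - k₁) * Real.log (1 + a / Kb) :=
        mul_le_mul_of_nonneg_left hlog h2
      have h4 : η * T ≤ η * (((N : ℝ) + 1) * w) := mul_le_mul_of_nonneg_left hN2.le hη0
      have h5 : ((N : ℝ) - k₁) * (η * w) = η * (((N : ℝ) + 1) * w) - (1 + k₁) * (η * w) := by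
        ring
      linarith
    calc Ca * Real.exp (-(((N : ℝ) - k₁) * Real.log (1 + a / Kb)) / 2)
        ≤ Ca * (Real.exp ((1 + k₁) * (η * w) / 2) * Real.exp (-(η / 2 * T))) := by gcongr
      _ ≤ _ := by
        rw [add_mul]
        have : 0 < Real.exp (η / 2 * T₀) * Real.exp (-(η / 2 * T)) := by positivity
        linarith
  · -- small balls
    push Not at hbig
    refine ballBd_mono_const (ballBd_one n J β x T) ?_
    have h1 : 1 ≤ Real.exp (η / 2 * T₀) * Real.exp (-(η / 2 * T)) := by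
      rw [← Real.exp_add]
      apply Real.one_le_exp
      have : η / 2 * T ≤ η / 2 * T₀ := mul_le_mul_of_nonneg_left hbig.le (by positivity)
      linarith
    rw [add_mul]
    have : 0 < Ca * Real.exp ((1 + k₁) * (η * w) / 2) * Real.exp (-(η / 2 * T)) := by positivity
    linarith

end

end Pool.Agent.NVec
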