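import Mathlib

/-!
Definitions for the two-dimensional `N`-vector model on the discrete torus.
-/

open MeasureTheory

namespace Pool.Agent.NVec

/-- A spin: a point of the unit sphere of `ℝ^N`. -/
abbrev Spin (N : ℕ) := Metric.sphere (0 : EuclideanSpace ℝ (Fin N)) 1

/-- The rotation invariant (surface) measure on the unit sphere `S^{N-1}`. -/
noncomputable def sph (N : ℕ) : Measure (Spin N) :=
  (volume : Measure (EuclideanSpace ℝ (Fin N))).toSphere

/-- The a priori measure on spin configurations over the site set `V`: the product of the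
surface measures. -/
noncomputable def apriori (V : Type) [Fintype V] (N : ℕ) : Measure (V → Spin N) :=
  Measure.pi fun _ => sph N

/-- The discrete torus of side `L`. -/
abbrev Torus (L : ℕ) := ZMod L × ZMod L

/-- The projection `ℤ² → (ℤ/L)²`. -/
def proj (L : ℕ) (m : ℤ × ℤ) : Torus L := ((m.1 : ZMod L), (m.2 : ZMod L))

/-- The coupling `J` on `ℤ²` made periodic: `J_L(z) = ∑_{m ≡ z mod L} J(m)`. -/
noncomputable def perJ (L : ℕ) (J : ℤ × ℤ → ℝ) (z : Torus L) : ℝ :=
  ∑' m : ℤ × ℤ, if proj L m = z then J m else 0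

/-- The energy `H(S) = - ∑_{i,j ∈ Λ} J(j-i) S_i · S_j` with periodic boundary conditions, the
sum running over ordered pairs. -/
noncomputable def energy {N L : ℕ} [NeZero L] (J : ℤ × ℤ → ℝ) (S : Torus L → Spin N) : ℝ :=
  -∑ i, ∑ j, perJ L J (j - i) * inner ℝ (S i : EuclideanSpace ℝ (Fin N)) (S j)

/-- The two-point function `⟨S_x · S_y⟩_Λ(β)` on the torus of side `L`. -/
noncomputable def corr (N L : ℕ) [NeZero L] (J : ℤ × ℤ → ℝ) (β : ℝ) (x y : Torus L) : ℝ :=
  (∫ S, inner ℝ (S x : EuclideanSpace ℝ (Fin N)) (S y) * Real.exp (-β * energy J S)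
      ∂(apriori (Torus L) N)) /
    ∫ S, Real.exp (-β * energy J S) ∂(apriori (Torus L) N)

/-- The Euclidean length of the shortest representative of a point of the torus. -/
noncomputable def tnorm {L : ℕ} (z : Torus L) : ℝ :=
  Real.sqrt ((z.1.valMinAbs : ℝ) ^ 2 + (z.2.valMinAbs : ℝ) ^ 2)

/-- The second moment `∑_m |J(m)| |m|²` of the coupling. -/
noncomputable def moment2 (J : ℤ × ℤ → ℝ) : ℝ :=
  ∑' m : ℤ × ℤ, |J m| * ((m.1 : ℝ) ^ 2 + (m.2 : ℝ) ^ 2)

/-- The sum `∑_{m ≠ 0} |J(m)|`. -/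
noncomputable def Jbar (J : ℤ × ℤ → ℝ) : ℝ := ∑' m : ℤ × ℤ, if m = 0 then 0 else |J m|

/-- The magnetisation `A_N(t)` of a single spin `u ∈ S^{N-1}` in a field of strength `t`:
`A_N(t) = ∫ u₀ e^{t u₀} dσ(u) / ∫ e^{t u₀} dσ(u) = I_{N/2}(t) / I_{N/2-1}(t)`. -/
noncomputable def mag (N : ℕ) [NeZero N] (t : ℝ) : ℝ :=
  (∫ u : Spin N, (u : EuclideanSpace ℝ (Fin N)) 0
      * Real.exp (t * (u : EuclideanSpace ℝ (Fin N)) 0) ∂(sph N)) /
    ∫ u : Spin N, Real.exp (t * (u : EuclideanSpace ℝ (Fin N)) 0) ∂(sph N)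

end Pool.Agent.NVec
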