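import Pool.Agent.H.MP_8be4c0_mp.Bump

/-!
The sharp energy of the logarithmic bump.
-/

open Set Filter Topology

namespace Pool.Agent.NVec

set_option linter.unusedSectionVars false

noncomputable section

def KK (M : ℝ) : ℝ := M ^ 2 + (1 + M) ^ 2 * (2 * M + M ^ 2) ^ 2

def CE (M : ℝ) : ℝ := M * KK M + KK M ^ 2 / 4

lemma KK_nonneg (M : ℝ) : 0 ≤ KK M := by unfold KK; positivity

lemma sharp_pointwise (u m : ℤ × ℤ) {M : ℝ} (hm : nrm m ≤ M) :
    ((1 / 2) * Real.log (QQf (u + m)) - (1 / 2) * Real.log (QQf u)) ^ 2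
      ≤ ((u.1 : ℝ) * m.1 + (u.2 : ℝ) * m.2) ^ 2 / QQf u ^ 2
        + CE M * (1 / (QQf u * Real.sqrt (QQf u))) := by
  have hM : 0 ≤ M := (nrm_nonneg m).trans hm
  have hQ := QQf_pos u
  have hQ' := QQf_pos (u + m)
  set s := Real.sqrt (QQf u) with hs
  have hss : s * s = QQf u := Real.mul_self_sqrt hQ.le
  have hs1 : 1 ≤ s := Real.le_sqrt_of_sq_le (by nlinarith [QQf_ge_one u])
  have hs0 : 0 < s := by linarith
  set d := (u.1 : ℝ) * m.1 + (u.2 : ℝ) * m.2 with hd
  have hus : nrm u ≤ s := by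
    apply Real.le_sqrt_of_sq_le
    rw [QQf_eq]; linarith
  have hdM : |d| ≤ s * M := by
    refine (dot_le u m).trans ?_
    gcongr
    exact nrm_nonneg m
  have hm2 : nrm m ^ 2 ≤ M ^ 2 := by gcongr; exact nrm_nonneg m
  have hm20 : 0 ≤ nrm m ^ 2 := sq_nonneg _
  have hdiff : QQf (u + m) = QQf u + (2 * d + nrm m ^ 2) := by
    rw [nrm_sq, hd]
    unfold QQf
    simp only [Prod.fst_add, Prod.snd_add]
    push_cast
    ring
  have hratio : QQf u ≤ QQf (u + m) * (1 + M) ^ 2 := by
    rw [QQf_eq, QQf_eq]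
    have h1 : nrm u ≤ nrm (u + m) + nrm m := by
      have := nrm_add_le (u + m) (-m)
      rwa [add_neg_cancel_right, nrm_neg] at this
    have h2 : nrm u ≤ nrm (u + m) + M := by linarith
    have h0 := nrm_nonneg u
    have h3 := nrm_nonneg (u + m)
    have h4 : nrm u ^ 2 ≤ (nrm (u + m) + M) ^ 2 := by gcongr
    nlinarith [mul_nonneg hM (sq_nonneg (nrm (u + m) - 1)), mul_nonneg hM h3,
      sq_nonneg (nrm (u + m) * M)]
  have hd0 := abs_nonneg d
  have hd1 := le_abs_self d
  have hd2 := neg_abs_le d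
  have hKK : M ^ 2 ≤ KK M := by unfold KK; have : 0 ≤ (1 + M) ^ 2 * (2 * M + M ^ 2) ^ 2 := by positivity
                                linarith
  have hlog : |(1 / 2) * Real.log (QQf (u + m)) - (1 / 2) * Real.log (QQf u)|
      ≤ (|d| + KK M / 2) / QQf u := by
    rw [abs_le]
    constructor
    · have h3 : Real.log (QQf u) - Real.log (QQf (u + m)) ≤ QQf u / QQf (u + m) - 1 := by
        rw [← Real.log_div hQ.ne' hQ'.ne']
        exact Real.log_le_sub_one_of_pos (by positivity)
      have h4 : QQf u / QQf (u + m) - 1 ≤ (2 * |d| + KK M) / QQf u := by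
        -- `-x Q/Q' = -x + x² Q/Q'`
        set x := (2 * d + nrm m ^ 2) / QQf u with hx
        have e1 : QQf u / QQf (u + m) - 1 = -x + x ^ 2 * (QQf u / QQf (u + m)) := by
          rw [hx, hdiff]
          have : QQf u + (2 * d + nrm m ^ 2) ≠ 0 := by rw [← hdiff]; exact hQ'.ne'
          field_simp
          ring
        have h5 : QQf u / QQf (u + m) ≤ (1 + M) ^ 2 := by
          rw [div_le_iff₀ hQ']; linarith
        have h6 : x ^ 2 ≤ (2 * M + M ^ 2) ^ 2 / QQf u := by
          rw [hx, div_pow, div_le_div_iff₀ (by positivity) hQ]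
          have h7 : |2 * d + nrm m ^ 2| ≤ (2 * M + M ^ 2) * s := by
            rw [abs_le]
            constructor <;> nlinarith [mul_nonneg (sq_nonneg M) (by linarith : 0 ≤ s - 1)]
          have h8 : (2 * d + nrm m ^ 2) ^ 2 ≤ ((2 * M + M ^ 2) * s) ^ 2 := by
            rw [← sq_abs (2 * d + nrm m ^ 2)]
            gcongr
          have h9 : ((2 * M + M ^ 2) * s) ^ 2 = (2 * M + M ^ 2) ^ 2 * QQf u := by
            rw [mul_pow, sq s, hss]
          rw [h9] at h8
          calc (2 * d + nrm m ^ 2) ^ 2 * QQf u ≤ ((2 * M + M ^ 2) ^ 2 * QQf u) * QQf u := by gcongr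
            _ = _ := by ring
        have h10 : x ^ 2 * (QQf u / QQf (u + m)) ≤ ((2 * M + M ^ 2) ^ 2 / QQf u) * (1 + M) ^ 2 := by
          gcongr
        have h11 : -x ≤ 2 * |d| / QQf u := by
          rw [hx, ← neg_div]
          gcongr
          linarith
        have e2 : (2 * |d| + KK M) / QQf u
            = 2 * |d| / QQf u + (((2 * M + M ^ 2) ^ 2 / QQf u) * (1 + M) ^ 2 + M ^ 2 / QQf u) := by
          unfold KK
          field_simp
          ring
        have h12 : 0 ≤ M ^ 2 / QQf u := by positivity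
        rw [e1, e2]
        linarith
      have e : (|d| + KK M / 2) / QQf u = (1 / 2) * ((2 * |d| + KK M) / QQf u) := by ring
      rw [e]
      linarith
    · have h3 : Real.log (QQf (u + m)) - Real.log (QQf u) ≤ QQf (u + m) / QQf u - 1 := by
        rw [← Real.log_div hQ'.ne' hQ.ne']
        exact Real.log_le_sub_one_of_pos (by positivity)
      have h4 : QQf (u + m) / QQf u - 1 ≤ (2 * |d| + KK M) / QQf u := by
        rw [hdiff, add_div, div_self hQ.ne']
        have : (2 * d + nrm m ^ 2) / QQf u ≤ (2 * |d| + KK M) / QQf u := by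
          gcongr
          linarith
        linarith
      have e : (|d| + KK M / 2) / QQf u = (1 / 2) * ((2 * |d| + KK M) / QQf u) := by ring
      rw [e]
      linarith
  have hK0 := KK_nonneg M
  have h1 : ((1 / 2) * Real.log (QQf (u + m)) - (1 / 2) * Real.log (QQf u)) ^ 2
      ≤ ((|d| + KK M / 2) / QQf u) ^ 2 := by
    rw [← sq_abs ((1 / 2) * Real.log (QQf (u + m)) - (1 / 2) * Real.log (QQf u))]
    gcongr
  refine h1.trans ?_
  have e : ((|d| + KK M / 2) / QQf u) ^ 2
      = d ^ 2 / QQf u ^ 2 + (|d| * KK M + KK M ^ 2 / 4) / QQf u ^ 2 := by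
    rw [div_pow, ← add_div]
    congr 1
    nlinarith [sq_abs d]
  rw [e]
  have h2 : (|d| * KK M + KK M ^ 2 / 4) / QQf u ^ 2 ≤ CE M * (1 / (QQf u * s)) := by
    rw [mul_one_div, div_le_div_iff₀ (by positivity) (by positivity)]
    have h3 : |d| * KK M + KK M ^ 2 / 4 ≤ CE M * s := by
      unfold CE
      nlinarith [mul_nonneg (sq_nonneg (KK M)) (by linarith : 0 ≤ s - 1),
        mul_le_mul_of_nonneg_right hdM hK0]
    calc (|d| * KK M + KK M ^ 2 / 4) * (QQf u * s) ≤ (CE M * s) * (QQf u * s) := by gcongr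
      _ = CE M * (QQf u * (s * s)) := by ring
      _ = CE M * QQf u ^ 2 := by rw [hss]; ring
  linarith

/-- **The sharp energy bound.** -/
lemma sharp_energy {α M : ℝ} (hα : 0 ≤ α) (hM : 0 ≤ M) : ∃ C : ℝ, 0 ≤ C ∧
    ∀ (L : ℕ) [NeZero L] (r : ℝ) (m : ℤ × ℤ), 1 ≤ r → nrm m ≤ M → 2 * (r + 2 * M) < L →
      ∑ z : Torus L, (Real.cosh (α * (bump r (z + proj L m) - bump r z)) - 1)
        ≤ (1 / 2) * Real.pi * α ^ 2 * ((m.1 : ℝ) ^ 2 + (m.2 : ℝ) ^ 2) * Real.log r + C := by
  have hCE : 0 ≤ CE M := by unfold CE; have := KK_nonneg M; positivity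
  have hpi := Real.pi_pos
  set K : ℝ := α ^ 2 / 2 * CE M + α ^ 3 / 2 * ((1 + M) ^ 9 * Real.exp (α * M)) with hK
  have hK0 : 0 ≤ K := by positivity
  refine ⟨(1 / 2) * Real.pi * α ^ 2 * M ^ 2 * M + 4 * α ^ 2 * M ^ 2 + K * (1 + Real.pi) ^ 2,
    by positivity, ?_⟩
  intro L _ r m hr hm hL
  set w : Torus L := proj L m with hw
  have hwM : tnorm w ≤ M := (tnorm_proj_le m).trans hm
  have hlogr : 0 ≤ Real.log r := Real.log_nonneg hr
  have h1 : ∑ z : Torus L, (Real.cosh (α * (bump r (z + w) - bump r z)) - 1)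
      ≤ ∑ u ∈ box ⌊r + M⌋₊, (α ^ 2 / 2 * (((u.1 : ℝ) * m.1 + (u.2 : ℝ) * m.2) ^ 2 / QQf u ^ 2)
        + K * (1 / (QQf u * Real.sqrt (QQf u)))) := by
    apply sum_torus_le
    · intro u
      have := QQf_pos u
      positivity
    · intro z _
      by_cases hz : tnorm z ≤ r + M
      · -- inside
        have h2 := abs_bump_sub_le r z (z + w)
        set δ := |ll (z + w) - ll z| with hδ
        have hδ0 : 0 ≤ δ := abs_nonneg _
        have h3 : δ ≤ M := by
          refine (abs_ll_sub_le z w).trans ?_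
          have h4 := tnorm_nonneg w
          have := Real.log_le_sub_one_of_pos (by linarith : 0 < 1 + tnorm w)
          linarith
        have h4 : δ ≤ (1 + M) ^ 3 / Real.sqrt (QQf (rep z)) := by
          have h5 : QQf (rep z) = 1 + tnorm z ^ 2 := QQf_eq _
          rw [h5]
          exact abs_ll_sub_le' z w hwM
        have hrep : rep (z + w) = rep z + m := by
          apply rep_add_proj
          linarith
        have h5 : δ ^ 2 ≤ (((rep z).1 : ℝ) * m.1 + ((rep z).2 : ℝ) * m.2) ^ 2 / QQf (rep z) ^ 2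
            + CE M * (1 / (QQf (rep z) * Real.sqrt (QQf (rep z)))) := by
          have h6 := sharp_pointwise (rep z) m hm
          have e1 : ll (z + w) = (1 / 2) * Real.log (QQf (rep z + m)) := by
            rw [← hrep]
            unfold ll
            rw [QQf_eq, tnorm_eq]
          have e2 : ll z = (1 / 2) * Real.log (QQf (rep z)) := by
            unfold ll
            rw [QQf_eq, tnorm_eq]
          rw [hδ, sq_abs, e1, e2]
          exact h6
        set t := α * (bump r (z + w) - bump r z) with ht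
        have h6 : |t| ≤ α * δ := by
          rw [ht, abs_mul, abs_of_nonneg hα]
          gcongr
        have h7 := cosh_sub_one_le' t
        have h8 : t ^ 2 ≤ (α * δ) ^ 2 := by
          rw [← sq_abs t]; gcongr
        have h9 : |t| ^ 3 * Real.exp |t| ≤ (α * δ) ^ 3 * Real.exp (α * M) := by
          have : |t| ≤ α * M := h6.trans (by gcongr)
          gcongr
        have h10 : δ ^ 3 ≤ (1 + M) ^ 9 * (1 / (QQf (rep z) * Real.sqrt (QQf (rep z)))) := by
          have h11 : δ ^ 3 ≤ ((1 + M) ^ 3 / Real.sqrt (QQf (rep z))) ^ 3 := by gcongr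
          have h12 : Real.sqrt (QQf (rep z)) ^ 3 = QQf (rep z) * Real.sqrt (QQf (rep z)) := by
            rw [pow_succ, Real.sq_sqrt (QQf_pos _).le]
          rw [div_pow, h12] at h11
          calc _ ≤ _ := h11
            _ = _ := by ring
        have h13 : 0 ≤ 1 / (QQf (rep z) * Real.sqrt (QQf (rep z))) := by
          have := QQf_pos (rep z)
          positivity
        have h14 : (α * δ) ^ 3 * Real.exp (α * M)
            ≤ α ^ 3 * ((1 + M) ^ 9 * (1 / (QQf (rep z) * Real.sqrt (QQf (rep z)))))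
              * Real.exp (α * M) := by
          rw [mul_pow]; gcongr
        have h15 : (α * δ) ^ 2 ≤ α ^ 2 * ((((rep z).1 : ℝ) * m.1 + ((rep z).2 : ℝ) * m.2) ^ 2
            / QQf (rep z) ^ 2 + CE M * (1 / (QQf (rep z) * Real.sqrt (QQf (rep z))))) := by
          rw [mul_pow]; gcongr
        rw [hK]
        nlinarith
      · -- outside
        have hz' : r + M < tnorm z := not_le.1 hz
        have h3 : bump r z = 0 := bump_eq_zero (by linarith) (by linarith)
        have h4 : bump r (z + w) = 0 := by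
          apply bump_eq_zero (by linarith)
          have := (abs_le.1 (abs_tnorm_sub_le z w)).1
          linarith
        rw [h3, h4]
        have := QQf_pos (rep z)
        simp only [mul_zero, Real.cosh_zero, sub_self]
        positivity
    · intro z hz
      have h2 : r + M < tnorm z := by
        by_contra h
        exact hz (rep_mem_box (not_lt.1 h))
      have h3 : bump r z = 0 := bump_eq_zero (by linarith) (by linarith)
      have h4 : bump r (z + w) = 0 := by
        apply bump_eq_zero (by linarith)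
        have := (abs_le.1 (abs_tnorm_sub_le z w)).1
        linarith
      rw [h3, h4]
      simp
  refine h1.trans ?_
  rw [Finset.sum_add_distrib, ← Finset.mul_sum, ← Finset.mul_sum]
  have h2 := sum_box_quad_le ⌊r + M⌋₊ m
  have h3 := sum_box_three_half_le ⌊r + M⌋₊
  have h4 := sum_box_le ⌊r + M⌋₊
  have h5 : Real.log (⌊r + M⌋₊ : ℝ) ≤ Real.log r + M := by
    have h4 : (1 : ℝ) ≤ (⌊r + M⌋₊ : ℝ) := by
      have : 1 ≤ ⌊r + M⌋₊ := Nat.le_floor (by push_cast; linarith)
      exact_mod_cast this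
    have h5 : (⌊r + M⌋₊ : ℝ) ≤ r * (1 + M) := by
      have := Nat.floor_le (by linarith : 0 ≤ r + M)
      nlinarith
    calc Real.log (⌊r + M⌋₊ : ℝ) ≤ Real.log (r * (1 + M)) := Real.log_le_log (by linarith) h5
      _ = Real.log r + Real.log (1 + M) := Real.log_mul (by linarith) (by linarith)
      _ ≤ Real.log r + M := by
          have := Real.log_le_sub_one_of_pos (by linarith : 0 < 1 + M); linarith
  have h6 : ∑ u ∈ box ⌊r + M⌋₊, 1 / QQf u ≤ 2 * Real.pi * (Real.log r + M) + 16 := by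
    have : 2 * Real.pi * Real.log (⌊r + M⌋₊ : ℝ) ≤ 2 * Real.pi * (Real.log r + M) := by gcongr
    linarith
  set mm := (m.1 : ℝ) ^ 2 + (m.2 : ℝ) ^ 2 with hmm
  have hmm0 : 0 ≤ mm := by positivity
  have hmmM : mm ≤ M ^ 2 := by
    rw [hmm, ← nrm_sq]
    have := nrm_nonneg m
    gcongr
  have h7 : α ^ 2 / 2 * ∑ u ∈ box ⌊r + M⌋₊, ((u.1 : ℝ) * m.1 + (u.2 : ℝ) * m.2) ^ 2 / QQf u ^ 2
      ≤ α ^ 2 / 2 * ((1 / 2) * mm * (2 * Real.pi * (Real.log r + M) + 16)) := by
    gcongr
    exact h2.trans (by gcongr)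
  have h8 : K * ∑ u ∈ box ⌊r + M⌋₊, 1 / (QQf u * Real.sqrt (QQf u)) ≤ K * (1 + Real.pi) ^ 2 := by
    gcongr
  have h9 : α ^ 2 / 2 * ((1 / 2) * mm * (2 * Real.pi * (Real.log r + M) + 16))
      = (1 / 2) * Real.pi * α ^ 2 * mm * Real.log r
        + ((1 / 2) * Real.pi * α ^ 2 * mm * M + 4 * α ^ 2 * mm) := by ring
  have h10 : (1 / 2) * Real.pi * α ^ 2 * mm * M + 4 * α ^ 2 * mm
      ≤ (1 / 2) * Real.pi * α ^ 2 * M ^ 2 * M + 4 * α ^ 2 * M ^ 2 := by gcongr
  linarith

end

end Pool.Agent.NVec
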