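import Pool.Agent.H.MP_8be4c0_mp.Cost
import Pool.Agent.H.MP_8be4c0_mp.Sharp

/-!
The power law bound.
-/

open MeasureTheory Set Filter Topology

namespace Pool.Agent.NVec

set_option linter.unusedSectionVars false

noncomputable section

/-- the bound on the pair correlation: `κ₀` for far pairs, `1` otherwise -/
def kap {L : ℕ} [NeZero L] (D M κ₀ : ℝ) (x y i k : Torus L) : ℝ :=
  open Classical in
  if D ≤ tnorm (i - x) ∧ D ≤ tnorm (i - y) ∧ tnorm (k - i) ≤ M ∧ i ≠ k then κ₀ else 1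

lemma kap_nonneg {L : ℕ} [NeZero L] {D M κ₀ : ℝ} (hκ : 0 ≤ κ₀) (x y i k : Torus L) :
    0 ≤ kap D M κ₀ x y i k := by
  unfold kap; split_ifs
  · exact hκ
  · norm_num

lemma kap_le {L : ℕ} [NeZero L] {D M κ₀ : ℝ} (hκ : 0 ≤ κ₀) (x y i k : Torus L) :
    kap D M κ₀ x y i k ≤ 1 + κ₀ := by
  unfold kap; split_ifs
  · linarith
  · linarith

/-- the tail of the coupling -/
def tailJ (J : ℤ × ℤ → ℝ) (p : ℕ) (M : ℝ) : ℝ :=
  ∑' m : ℤ × ℤ, if nrm m ≤ M then 0 else |J m| * (1 + nrm m) ^ p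

lemma summable_tail {J : ℤ × ℤ → ℝ} (hJ : ∀ p : ℕ, Summable fun m => |J m| * (1 + nrm m) ^ p)
    (p : ℕ) (M : ℝ) :
    Summable fun m : ℤ × ℤ => if nrm m ≤ M then 0 else |J m| * (1 + nrm m) ^ p := by
  refine Summable.of_nonneg_of_le (fun m => ?_) (fun m => ?_) (hJ p)
  · have := nrm_nonneg m
    split_ifs
    · exact le_refl _
    · positivity
  · have := nrm_nonneg m
    split_ifs
    · positivity
    · exact le_refl _

lemma tail_small {J : ℤ × ℤ → ℝ} (hJ : ∀ p : ℕ, Summable fun m => |J m| * (1 + nrm m) ^ p)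
    (p : ℕ) {ε : ℝ} (hε : 0 < ε) : ∃ M : ℝ, 0 ≤ M ∧ tailJ J p M ≤ ε := by
  classical
  have h1 := (hJ p).hasSum
  have h2 : ∀ᶠ s : Finset (ℤ × ℤ) in atTop,
      (∑' m : ℤ × ℤ, |J m| * (1 + nrm m) ^ p) - ε < ∑ m ∈ s, |J m| * (1 + nrm m) ^ p :=
    h1.eventually (lt_mem_nhds (by linarith))
  obtain ⟨s, hs⟩ := h2.exists
  refine ⟨∑ m ∈ s, nrm m, Finset.sum_nonneg fun m _ => nrm_nonneg m, ?_⟩
  set M := ∑ m ∈ s, nrm m with hM
  have hsM : ∀ m ∈ s, nrm m ≤ M := fun m hm =>
    Finset.single_le_sum (fun k _ => nrm_nonneg k) hm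
  have h3 : tailJ J p M + ∑ m ∈ s, |J m| * (1 + nrm m) ^ p
      ≤ ∑' m : ℤ × ℤ, |J m| * (1 + nrm m) ^ p := by
    have hs1 := summable_tail hJ p M
    have hs2 : HasSum (fun m : ℤ × ℤ => if m ∈ s then |J m| * (1 + nrm m) ^ p else 0)
        (∑ m ∈ s, |J m| * (1 + nrm m) ^ p) := by
      have h6 : HasSum (fun m : ℤ × ℤ => if m ∈ s then |J m| * (1 + nrm m) ^ p else 0)
        (∑ m ∈ s, (if m ∈ s then |J m| * (1 + nrm m) ^ p else 0)) :=
        hasSum_sum_of_ne_finset_zero (fun m hm => by simp [hm])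
      have e : ∑ m ∈ s, (if m ∈ s then |J m| * (1 + nrm m) ^ p else 0)
          = ∑ m ∈ s, |J m| * (1 + nrm m) ^ p :=
        Finset.sum_congr rfl fun m hm => by simp [hm]
      rwa [e] at h6
    unfold tailJ
    rw [← hs2.tsum_eq, ← Summable.tsum_add hs1 hs2.summable]
    refine Summable.tsum_le_tsum (fun m => ?_) (hs1.add hs2.summable) (hJ p)
    have := nrm_nonneg m
    have h5 : 0 ≤ |J m| * (1 + nrm m) ^ p := by positivity
    by_cases hm : m ∈ s
    · simp [hm, hsM m hm]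
    · by_cases hm2 : nrm m ≤ M
      · simp [hm, hm2, h5]
      · simp [hm, hm2]
  linarith

lemma summable_moment2 {J : ℤ × ℤ → ℝ}
    (hJ : ∀ p : ℕ, Summable fun m => |J m| * (1 + nrm m) ^ p) :
    Summable fun m : ℤ × ℤ => |J m| * ((m.1 : ℝ) ^ 2 + (m.2 : ℝ) ^ 2) := by
  refine Summable.of_nonneg_of_le (fun m => by positivity) (fun m => ?_) (hJ 2)
  rw [← nrm_sq]
  have := nrm_nonneg m
  apply mul_le_mul_of_nonneg_left _ (abs_nonneg _)
  nlinarith

/-- **The energy bound.** -/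
theorem energy_bound {J : ℤ × ℤ → ℝ}
    (hJ : ∀ p : ℕ, Summable fun m => |J m| * (1 + nrm m) ^ p)
    {β : ℝ} (hβ : 0 ≤ β) {α : ℝ} (hα : 0 ≤ α) {K : ℕ} (hK : 2 * α ≤ K) {M : ℝ} (hM : 0 ≤ M)
    {κ₀ : ℝ} (hκ : 0 ≤ κ₀) {D : ℝ} (hD : 0 ≤ D) :
    ∃ C : ℝ, 0 ≤ C ∧ ∀ (L : ℕ) [NeZero L] (r : ℝ) (x y : Torus L),
      2 * M + 1 ≤ r → tnorm (x - y) = 4 * r →
      ∑ i, ∑ k, |dtw (cc L J β) (fld α r x y) i k| * kap D M κ₀ x y i k
        ≤ (κ₀ * (Real.pi * β * moment2 J * α ^ 2)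
          + 46 * β * (1 + κ₀) * α ^ 2 * tailJ J (K + 7) M) * Real.log r + C := by
  classical
  obtain ⟨C₀, hC₀, hsharp⟩ := sharp_energy hα hM
  have hsum := summable_abs hJ
  have htail0 : 0 ≤ tailJ J (K + 7) M := by
    unfold tailJ
    apply tsum_nonneg
    intro m
    have := nrm_nonneg m
    split_ifs
    · exact le_refl _
    · positivity
  set C₁ : ℝ := κ₀ * (2 * C₀) + 2 * ((2 * D + 1) ^ 2 * (1 + M) ^ K) with hC₁
  have hC₁0 : 0 ≤ C₁ := by positivity
  refine ⟨β * (C₁ * Sm J 0) + 46 * β * (1 + κ₀) * α ^ 2 * tailJ J (K + 7) M, ?_, ?_⟩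
  · have := Sm_nonneg J 0
    positivity
  intro L _ r x y hr hxy
  have hr1 : 1 ≤ r := by linarith
  have hlog : 0 ≤ Real.log r := Real.log_nonneg hr1
  have hL : 2 * (r + 2 * M) < L := by
    have h1 := two_tnorm_sq_le (x - y)
    rw [hxy] at h1
    have hL0 : (0 : ℝ) ≤ L := Nat.cast_nonneg L
    have h2 : (5 * r) ^ 2 < (L : ℝ) ^ 2 := by nlinarith
    have h3 : 5 * r < L := lt_of_pow_lt_pow_left₀ 2 hL0 h2
    linarith
  set F : Torus L → Torus L → ℝ := fun i k => β * (ch α r x y i k * kap D M κ₀ x y i k) with hF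
  have hF0 : ∀ i k, 0 ≤ F i k := fun i k =>
    mul_nonneg hβ (mul_nonneg (ch_nonneg _ _ _ _ _ _) (kap_nonneg hκ _ _ _ _))
  have hstep : ∑ i, ∑ k, |dtw (cc L J β) (fld α r x y) i k| * kap D M κ₀ x y i k
      = ∑ i, ∑ k, |perJ L J (k - i)| * F i k := by
    refine Finset.sum_congr rfl fun i _ => Finset.sum_congr rfl fun k _ => ?_
    have h2 : |dtw (cc L J β) (fld α r x y) i k| = β * |perJ L J (k - i)| * ch α r x y i k := by
      unfold dtw cc
      rw [abs_mul, abs_mul, abs_of_nonneg hβ]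
      congr 1
      exact abs_of_nonneg (ch_nonneg α r x y i k)
    rw [h2, hF]
    ring
  rw [hstep]
  set g : ℤ × ℤ → ℝ := fun m => β * (κ₀ * (Real.pi * α ^ 2 * ((m.1 : ℝ) ^ 2 + (m.2 : ℝ) ^ 2)
      * Real.log r) + C₁ + (if nrm m ≤ M then 0 else
        (1 + κ₀) * (46 * α ^ 2 * (1 + nrm m) ^ (K + 7) * (1 + Real.log r)))) with hg
  have hmain : ∀ m : ℤ × ℤ, ∑ i, F i (i + proj L m) ≤ g m := by
    intro m
    set w : Torus L := proj L m with hw
    have hwm : tnorm w ≤ nrm m := tnorm_proj_le m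
    have hn := nrm_nonneg m
    rw [hg, hF]
    simp only
    rw [← Finset.mul_sum]
    apply mul_le_mul_of_nonneg_left _ hβ
    have hfirst : 0 ≤ κ₀ * (Real.pi * α ^ 2 * ((m.1 : ℝ) ^ 2 + (m.2 : ℝ) ^ 2) * Real.log r) := by
      have := Real.pi_pos
      positivity
    by_cases hm : nrm m ≤ M
    · rw [if_pos hm, add_zero]
      have hwM : tnorm w ≤ M := hwm.trans hm
      have hpt : ∀ i : Torus L, ch α r x y i (i + w) * kap D M κ₀ x y i (i + w)
          ≤ κ₀ * ch α r x y i (i + w)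
            + ((if tnorm (i - x) ≤ D then (1 + M) ^ K else 0)
              + (if tnorm (i - y) ≤ D then (1 + M) ^ K else 0)) := by
        intro i
        have h1 := ch_nonneg α r x y i (i + w)
        have h2 : ch α r x y i (i + w) ≤ (1 + M) ^ K := ch_le_pow hα hK x y i w hwM
        have h3 : 0 ≤ (1 + M) ^ K := by positivity
        have h4 : 0 ≤ κ₀ * ch α r x y i (i + w) := mul_nonneg hκ h1
        have h5 : (0 : ℝ) ≤ (if tnorm (i - x) ≤ D then (1 + M) ^ K else 0) := by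
          split_ifs
          · exact h3
          · exact le_refl _
        have h6 : (0 : ℝ) ≤ (if tnorm (i - y) ≤ D then (1 + M) ^ K else 0) := by
          split_ifs
          · exact h3
          · exact le_refl _
        unfold kap
        by_cases hc : D ≤ tnorm (i - x) ∧ D ≤ tnorm (i - y) ∧ tnorm (i + w - i) ≤ M ∧ i ≠ i + w
        · rw [if_pos hc]
          linarith
        · rw [if_neg hc, mul_one]
          by_cases hx : tnorm (i - x) ≤ D
          · rw [if_pos hx]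
            linarith
          · by_cases hy : tnorm (i - y) ≤ D
            · rw [if_pos hy]
              linarith
            · by_cases hiw : i = i + w
              · have h7 : ch α r x y i (i + w) = 0 := by
                  rw [← hiw]; unfold ch; simp
                linarith
              · exfalso
                apply hc
                refine ⟨(not_le.1 hx).le, (not_le.1 hy).le, ?_, hiw⟩
                rw [add_sub_cancel_left]
                exact hwM
      refine (Finset.sum_le_sum fun i _ => hpt i).trans ?_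
      rw [Finset.sum_add_distrib, Finset.sum_add_distrib, ← Finset.mul_sum]
      have h1 := ch_sum_sharp (α := α) hr1 (by linarith : M < r) x y m hm hxy.ge
        (hsharp L r m hr1 hm hL)
      have hball : ∀ z : Torus L, ∑ i : Torus L, (if tnorm (i - z) ≤ D then (1 + M) ^ K else 0)
          ≤ (2 * D + 1) ^ 2 * (1 + M) ^ K := by
        intro z
        rw [← Finset.sum_filter, Finset.sum_const, nsmul_eq_mul]
        apply mul_le_mul_of_nonneg_right _ (by positivity)
        apply card_ball_le z hD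
        intro i hi
        exact (Finset.mem_filter.1 hi).2
      have h2 := hball x
      have h3 := hball y
      have h4 := mul_le_mul_of_nonneg_left h1 hκ
      rw [hC₁]
      have e : κ₀ * (Real.pi * α ^ 2 * ((m.1 : ℝ) ^ 2 + (m.2 : ℝ) ^ 2) * Real.log r + 2 * C₀)
        = κ₀ * (Real.pi * α ^ 2 * ((m.1 : ℝ) ^ 2 + (m.2 : ℝ) ^ 2) * Real.log r)
          + κ₀ * (2 * C₀) := by ring
      rw [e] at h4
      linarith
    · rw [if_neg hm]
      have h1 := ch_sum_tail hα hr1 hK x y w hwm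
      have h2 : ∑ i : Torus L, ch α r x y i (i + w) * kap D M κ₀ x y i (i + w)
          ≤ (1 + κ₀) * ∑ i : Torus L, ch α r x y i (i + w) := by
        rw [Finset.mul_sum]
        refine Finset.sum_le_sum fun i _ => ?_
        rw [mul_comm]
        exact mul_le_mul_of_nonneg_right (kap_le hκ _ _ _ _) (ch_nonneg _ _ _ _ _ _)
      have h3 : (1 + κ₀) * ∑ i : Torus L, ch α r x y i (i + w)
          ≤ (1 + κ₀) * (46 * α ^ 2 * (1 + nrm m) ^ (K + 7) * (1 + Real.log r)) :=
        mul_le_mul_of_nonneg_left h1 (by linarith)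
      linarith
  -- summation over the coupling
  have hs1 : Summable fun m : ℤ × ℤ => β * κ₀ * Real.pi * α ^ 2 * Real.log r
      * (|J m| * ((m.1 : ℝ) ^ 2 + (m.2 : ℝ) ^ 2)) := (summable_moment2 hJ).mul_left _
  have hs2 : Summable fun m : ℤ × ℤ => β * C₁ * (|J m| * (1 + nrm m) ^ 0) := (hJ 0).mul_left _
  have hs3 : Summable fun m : ℤ × ℤ => β * ((1 + κ₀) * (46 * α ^ 2 * (1 + Real.log r)))
      * (if nrm m ≤ M then 0 else |J m| * (1 + nrm m) ^ (K + 7)) :=
    (summable_tail hJ (K + 7) M).mul_left _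
  have heq : (fun m : ℤ × ℤ => |J m| * g m) = fun m : ℤ × ℤ =>
      (β * κ₀ * Real.pi * α ^ 2 * Real.log r * (|J m| * ((m.1 : ℝ) ^ 2 + (m.2 : ℝ) ^ 2))
        + β * C₁ * (|J m| * (1 + nrm m) ^ 0))
        + β * ((1 + κ₀) * (46 * α ^ 2 * (1 + Real.log r)))
          * (if nrm m ≤ M then 0 else |J m| * (1 + nrm m) ^ (K + 7)) := by
    funext m
    rw [hg]
    by_cases hm : nrm m ≤ M
    · simp only [if_pos hm]; ring
    · simp only [if_neg hm]; ring
  have hgs : Summable fun m : ℤ × ℤ => |J m| * g m := by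
    rw [heq]; exact (hs1.add hs2).add hs3
  refine (double_sum_le hsum F hF0 g hgs hmain).trans (le_of_eq ?_)
  rw [heq, Summable.tsum_add (hs1.add hs2) hs3, Summable.tsum_add hs1 hs2, tsum_mul_left,
    tsum_mul_left, tsum_mul_left]
  unfold Sm tailJ moment2
  ring

end

end Pool.Agent.NVec
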