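import Pool.Agent.H.MP_8be4c0_mp.Annuli
import Pool.Agent.H.MP_8be4c0_mp.Main

/-!
The total energy of the annuli.
-/

open MeasureTheory Set Filter Topology

namespace Pool.Agent.NVec

set_option linter.unusedSectionVars false

noncomputable section

lemma half_sq_le_cosh (x : ℝ) : 1 + x ^ 2 / 2 ≤ Real.cosh x := by
  have h : ∀ y : ℝ, 0 ≤ y → 1 + y ^ 2 / 2 ≤ Real.cosh y := by
    intro y hy
    have h1 := Real.self_le_sinh_iff.2 (by positivity : 0 ≤ y / 2)
    have h2 := Real.cosh_two_mul (y / 2)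
    have h3 := Real.cosh_sq' (y / 2)
    have h4 : (2 : ℝ) * (y / 2) = y := by ring
    rw [h4] at h2
    rw [h2, h3]
    nlinarith
  have h1 := h |x| (abs_nonneg x)
  rwa [sq_abs, Real.cosh_abs] at h1

/-- pairs in an annulus are far from the complement of the outer ball -/
lemma annulus_good {L : ℕ} [NeZero L] {w δ t M R : ℝ} (hw : 0 < w - 2 * δ)
    (ht : M + R ≤ Real.exp t * (1 - Real.exp (-δ)))
    (x i k : Torus L) (hik : psi w δ t x i ≠ psi w δ t x k) (hM : tnorm (k - i) ≤ M) (j : Torus L)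
    (hj : tnorm (j - i) ≤ R) : j ∈ bal x t := by
  rw [mem_bal]
  have hM0 : 0 ≤ M := (tnorm_nonneg _).trans hM
  have h1 : el (i - x) ≤ Real.exp (t - δ) + M := by
    by_cases hi : ll (i - x) < t - δ
    · have : el (i - x) ≤ Real.exp (t - δ) := Real.exp_le_exp.2 hi.le
      linarith
    · have h2 : psi w δ t x i = 0 := rampf_zero hw (not_lt.1 hi)
      have hk : ll (k - x) < t - δ := by
        by_contra hc
        apply hik
        rw [h2]
        exact (rampf_zero hw (not_lt.1 hc)).symm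
      have h3 : el (k - x) ≤ Real.exp (t - δ) := Real.exp_le_exp.2 hk.le
      have h4 := el_lip (k - x) (i - k)
      have e : k - x + (i - k) = i - x := by abel
      rw [e, tnorm_sub_comm] at h4
      linarith
  have h2 := el_lip (i - x) (j - i)
  have e : i - x + (j - i) = j - x := by abel
  rw [e] at h2
  have h3 : Real.exp (t - δ) = Real.exp t * Real.exp (-δ) := by
    rw [← Real.exp_add]; congr 1
  have h4 : el (j - x) ≤ Real.exp t := by
    rw [h3] at h1
    linarith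
  exact Real.exp_le_exp.1 h4

/-- the weight of a pair -/
def kp {L : ℕ} [NeZero L] (n : ℕ) (M κ₀ : ℝ) (i k : Torus L) : ℝ :=
  open Classical in if tnorm (k - i) ≤ M then κ₀ else (n : ℝ) + 1

/-- the energy of an annulus -/
def Kan {L : ℕ} [NeZero L] (n : ℕ) (J : ℤ × ℤ → ℝ) (β M κ₀ w δ t : ℝ) (x : Torus L) : ℝ :=
  ∑ i, ∑ k, |cc L J β i k| * ((psi w δ t x i - psi w δ t x k) ^ 2 * kp n M κ₀ i k)

lemma kp_nonneg {L : ℕ} [NeZero L] {n : ℕ} {M κ₀ : ℝ} (hκ : 0 ≤ κ₀) (i k : Torus L) :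
    0 ≤ kp n M κ₀ i k := by
  unfold kp; split_ifs
  · exact hκ
  · positivity

lemma Kan_nonneg {L : ℕ} [NeZero L] {n : ℕ} (J : ℤ × ℤ → ℝ) (β : ℝ) {M κ₀ : ℝ} (hκ : 0 ≤ κ₀)
    (w δ t : ℝ) (x : Torus L) : 0 ≤ Kan n J β M κ₀ w δ t x := by
  unfold Kan
  refine Finset.sum_nonneg fun i _ => Finset.sum_nonneg fun k _ => ?_
  have := kp_nonneg (n := n) (M := M) hκ i k
  positivity

/-- the total energy -/
theorem total_energy (n : ℕ) {J : ℤ × ℤ → ℝ}
    (hJ : ∀ p : ℕ, Summable fun m => |J m| * (1 + nrm m) ^ p)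
    {β : ℝ} (hβ : 0 ≤ β) {M : ℝ} (hM : 0 ≤ M) {κ₀ : ℝ} (hκ : 0 ≤ κ₀) :
    ∃ C : ℝ, 0 ≤ C ∧ ∀ (L : ℕ) [NeZero L] (x : Torus L) (w δ : ℝ) (N : ℕ),
      0 ≤ δ → 0 < w - 2 * δ → 2 * (Real.exp (N * w) + 2 * M) < L →
      (w - 2 * δ) ^ 2 * ∑ k ∈ Finset.range N, Kan n J β M κ₀ w δ (((k : ℝ) + 1) * w) x
        ≤ (κ₀ * (Real.pi * β * moment2 J)
          + 23 * β * (κ₀ + ((n : ℝ) + 1)) * tailJ J 7 M) * (N * w) + C := by
  classical
  obtain ⟨C₀, hC₀, hsharp⟩ := sharp_energy (α := 1) zero_le_one hM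
  have hsum := summable_abs hJ
  have hn0 : (0 : ℝ) ≤ (n : ℝ) + 1 := by positivity
  have htail0 : 0 ≤ tailJ J 7 M := by
    unfold tailJ
    apply tsum_nonneg
    intro m
    have := nrm_nonneg m
    split_ifs
    · exact le_refl _
    · positivity
  refine ⟨β * (κ₀ * (2 * C₀) * Sm J 0) + 23 * β * (κ₀ + ((n : ℝ) + 1)) * tailJ J 7 M, ?_, ?_⟩
  · have := Sm_nonneg J 0
    positivity
  intro L _ x w δ N hδ hw hL
  have hw0 : 0 ≤ w := by linarith
  set r := Real.exp (N * w) with hr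
  have hlogr : Real.log r = N * w := Real.log_exp _
  have hNw : 0 ≤ (N : ℝ) * w := by positivity
  have hr1 : 1 ≤ r := Real.one_le_exp hNw
  -- collect the ramps
  have hcollect : (w - 2 * δ) ^ 2 * ∑ k ∈ Finset.range N,
      Kan n J β M κ₀ w δ (((k : ℝ) + 1) * w) x
      ≤ ∑ i, ∑ k, |cc L J β i k| * ((bump r (k - x) - bump r (i - x)) ^ 2 * kp n M κ₀ i k) := by
    unfold Kan
    rw [Finset.sum_comm, Finset.mul_sum]
    refine Finset.sum_le_sum fun i _ => ?_
    rw [Finset.sum_comm, Finset.mul_sum]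
    refine Finset.sum_le_sum fun j _ => ?_
    have h1 := rampf_sum_sq hδ hw (ll_nonneg (i - x)) (ll_nonneg (j - x)) N
    have h2 := kp_nonneg (n := n) (M := M) hκ i j
    have h3 : (max 0 ((N : ℝ) * w - ll (i - x)) - max 0 ((N : ℝ) * w - ll (j - x))) ^ 2
        = (bump r (j - x) - bump r (i - x)) ^ 2 := by
      unfold bump
      rw [hlogr]
      ring
    rw [h3] at h1
    have h4 : 0 ≤ |cc L J β i j| * kp n M κ₀ i j := mul_nonneg (abs_nonneg _) h2
    have h5 := mul_le_mul_of_nonneg_left h1 h4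
    calc (w - 2 * δ) ^ 2 * ∑ k ∈ Finset.range N, |cc L J β i j|
          * ((psi w δ (((k : ℝ) + 1) * w) x i - psi w δ (((k : ℝ) + 1) * w) x j) ^ 2
            * kp n M κ₀ i j)
        = |cc L J β i j| * kp n M κ₀ i j * ((w - 2 * δ) ^ 2 * ∑ k ∈ Finset.range N,
          (rampf w (((k : ℝ) + 1) * w) δ (ll (i - x))
            - rampf w (((k : ℝ) + 1) * w) δ (ll (j - x))) ^ 2) := by
          rw [Finset.mul_sum, Finset.mul_sum, Finset.mul_sum]
          refine Finset.sum_congr rfl fun k _ => ?_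
          unfold psi
          ring
      _ ≤ _ := h5
      _ = _ := by ring
  refine hcollect.trans ?_
  set F : Torus L → Torus L → ℝ := fun i k =>
    β * ((bump r (k - x) - bump r (i - x)) ^ 2 * kp n M κ₀ i k) with hF
  have hF0 : ∀ i k, 0 ≤ F i k := fun i k => by
    have := kp_nonneg (n := n) (M := M) hκ i k
    rw [hF]; positivity
  have hstep : ∑ i, ∑ k, |cc L J β i k| * ((bump r (k - x) - bump r (i - x)) ^ 2 * kp n M κ₀ i k)
      = ∑ i, ∑ k, |perJ L J (k - i)| * F i k := by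
    refine Finset.sum_congr rfl fun i _ => Finset.sum_congr rfl fun k _ => ?_
    unfold cc
    rw [abs_mul, abs_of_nonneg hβ, hF]
    ring
  rw [hstep]
  set g : ℤ × ℤ → ℝ := fun m => β * (κ₀ * (Real.pi * ((m.1 : ℝ) ^ 2 + (m.2 : ℝ) ^ 2)
      * Real.log r + 2 * C₀) + (if nrm m ≤ M then 0 else
        (κ₀ + ((n : ℝ) + 1)) * (23 * (1 + nrm m) ^ 7 * (1 + Real.log r)))) with hg
  have hmain : ∀ m : ℤ × ℤ, ∑ i, F i (i + proj L m) ≤ g m := by
    intro m
    set v : Torus L := proj L m with hv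
    have hvm : tnorm v ≤ nrm m := tnorm_proj_le m
    have hn := nrm_nonneg m
    have hshift : ∑ i : Torus L, (bump r (i + v - x) - bump r (i - x)) ^ 2
        = ∑ i : Torus L, (bump r (i + v) - bump r i) ^ 2 := by
      rw [← sum_shift (fun i => (bump r (i + v) - bump r i) ^ 2) x]
      refine Finset.sum_congr rfl fun i _ => ?_
      rw [sub_eq1]
    rw [hg, hF]
    simp only
    rw [← Finset.mul_sum]
    apply mul_le_mul_of_nonneg_left _ hβ
    have hlog0 : 0 ≤ Real.log r := Real.log_nonneg hr1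
    have hfirst : 0 ≤ κ₀ * (Real.pi * ((m.1 : ℝ) ^ 2 + (m.2 : ℝ) ^ 2) * Real.log r + 2 * C₀) := by
      have := Real.pi_pos
      positivity
    by_cases hm : nrm m ≤ M
    · rw [if_pos hm, add_zero]
      have hkp : ∀ i : Torus L, kp n M κ₀ i (i + v) = κ₀ := by
        intro i
        unfold kp
        rw [if_pos]
        rw [add_sub_cancel_left]
        exact hvm.trans hm
      simp_rw [hkp]
      rw [← Finset.sum_mul, hshift, mul_comm]
      apply mul_le_mul_of_nonneg_left _ hκ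
      have h1 := hsharp L r m hr1 hm hL
      have h2 : ∑ z : Torus L, (bump r (z + v) - bump r z) ^ 2 / 2
          ≤ ∑ z : Torus L, (Real.cosh (1 * (bump r (z + v) - bump r z)) - 1) := by
        refine Finset.sum_le_sum fun z _ => ?_
        rw [one_mul]
        have := half_sq_le_cosh (bump r (z + v) - bump r z)
        linarith
      rw [← Finset.sum_div] at h2
      have h3 := h2.trans h1
      linarith
    · rw [if_neg hm]
      have h1 := bump_energy_le hr1 v hvm
      have hkp : ∀ i : Torus L, kp n M κ₀ i (i + v) ≤ κ₀ + ((n : ℝ) + 1) := by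
        intro i
        unfold kp
        split_ifs <;> linarith
      have h2 : ∑ i : Torus L, (bump r (i + v - x) - bump r (i - x)) ^ 2 * kp n M κ₀ i (i + v)
          ≤ (κ₀ + ((n : ℝ) + 1)) * ∑ i : Torus L, (bump r (i + v - x) - bump r (i - x)) ^ 2 := by
        rw [Finset.mul_sum]
        refine Finset.sum_le_sum fun i _ => ?_
        rw [mul_comm (κ₀ + ((n : ℝ) + 1))]
        exact mul_le_mul_of_nonneg_left (hkp i) (sq_nonneg _)
      rw [hshift] at h2
      have h3 : (κ₀ + ((n : ℝ) + 1)) * ∑ i : Torus L, (bump r (i + v) - bump r i) ^ 2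
          ≤ (κ₀ + ((n : ℝ) + 1)) * (23 * (1 + nrm m) ^ 7 * (1 + Real.log r)) :=
        mul_le_mul_of_nonneg_left h1 (by linarith)
      linarith
  -- summation over the coupling
  have hs1 : Summable fun m : ℤ × ℤ => β * κ₀ * Real.pi * Real.log r
      * (|J m| * ((m.1 : ℝ) ^ 2 + (m.2 : ℝ) ^ 2)) := (summable_moment2 hJ).mul_left _
  have hs2 : Summable fun m : ℤ × ℤ => β * κ₀ * (2 * C₀) * (|J m| * (1 + nrm m) ^ 0) :=
    (hJ 0).mul_left _
  have hs3 : Summable fun m : ℤ × ℤ => β * ((κ₀ + ((n : ℝ) + 1)) * (23 * (1 + Real.log r)))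
      * (if nrm m ≤ M then 0 else |J m| * (1 + nrm m) ^ 7) :=
    (summable_tail hJ 7 M).mul_left _
  have heq : (fun m : ℤ × ℤ => |J m| * g m) = fun m : ℤ × ℤ =>
      (β * κ₀ * Real.pi * Real.log r * (|J m| * ((m.1 : ℝ) ^ 2 + (m.2 : ℝ) ^ 2))
        + β * κ₀ * (2 * C₀) * (|J m| * (1 + nrm m) ^ 0))
        + β * ((κ₀ + ((n : ℝ) + 1)) * (23 * (1 + Real.log r)))
          * (if nrm m ≤ M then 0 else |J m| * (1 + nrm m) ^ 7) := by
    funext m
    rw [hg]
    by_cases hm : nrm m ≤ M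
    · simp only [if_pos hm]; ring
    · simp only [if_neg hm]; ring
  have hgs : Summable fun m : ℤ × ℤ => |J m| * g m := by
    rw [heq]; exact (hs1.add hs2).add hs3
  refine (double_sum_le hsum F hF0 g hgs hmain).trans (le_of_eq ?_)
  rw [heq, Summable.tsum_add (hs1.add hs2) hs3, Summable.tsum_add hs1 hs2, tsum_mul_left,
    tsum_mul_left, tsum_mul_left, hlogr]
  unfold Sm tailJ moment2
  ring

end

end Pool.Agent.NVec
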