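import Mathlib

/-!
Product weights on subsets of a finite set, and last exits.
-/

namespace Pool.Agent.NVec

set_option linter.unusedSectionVars false

noncomputable section

open Finset

section qg

variable {α : Type} [DecidableEq α]

/-- the weight of the subset `η` of `E` -/
def qg (p : α → ℝ) (E η : Finset α) : ℝ := (∏ e ∈ η, p e) * ∏ e ∈ E \ η, (1 - p e)

lemma qg_nonneg {p : α → ℝ} (h0 : ∀ e, 0 ≤ p e) (h1 : ∀ e, p e ≤ 1) (E η : Finset α) :
    0 ≤ qg p E η :=
  mul_nonneg (prod_nonneg fun e _ => h0 e) (prod_nonneg fun e _ => by have := h1 e; linarith)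

lemma qg_split (p : α → ℝ) {s : Finset α} {a : α} (ha : a ∉ s) (F : Finset α → ℝ) :
    ∑ t ∈ (insert a s).powerset, F t * qg p (insert a s) t
      = ∑ t ∈ s.powerset, ((1 - p a) * F t + p a * F (insert a t)) * qg p s t := by
  rw [sum_powerset_insert ha, ← sum_add_distrib]
  refine sum_congr rfl fun t ht => ?_
  rw [mem_powerset] at ht
  have hat : a ∉ t := fun h => ha (ht h)
  have h1 : insert a s \ t = insert a (s \ t) := insert_sdiff_of_notMem s hat
  have h2 : insert a s \ insert a t = s \ t := by
    ext x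
    simp only [mem_sdiff, mem_insert]
    constructor
    · rintro ⟨h | h, h'⟩
      · exact absurd (Or.inl h) h'
      · exact ⟨h, fun hx => h' (Or.inr hx)⟩
    · rintro ⟨h, h'⟩
      refine ⟨Or.inr h, ?_⟩
      rintro (rfl | hx)
      · exact ha h
      · exact h' hx
  have h3 : a ∉ s \ t := fun h => ha (mem_sdiff.1 h).1
  unfold qg
  rw [h1, h2, prod_insert h3, prod_insert hat]
  ring

lemma qg_sum (p : α → ℝ) (E : Finset α) : ∑ t ∈ E.powerset, qg p E t = 1 := by
  have h := prod_add p (fun e => 1 - p e) E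
  unfold qg
  rw [← h]
  simp

lemma qg_restrict (p : α → ℝ) (A : Finset α) (F : Finset α → ℝ) (D : Finset α)
    (hD : Disjoint A D) :
    ∑ t ∈ (A ∪ D).powerset, F (t ∩ A) * qg p (A ∪ D) t = ∑ t ∈ A.powerset, F t * qg p A t := by
  induction D using Finset.induction_on with
  | empty =>
    rw [union_empty]
    refine sum_congr rfl fun t ht => ?_
    rw [mem_powerset] at ht
    rw [inter_eq_left.2 ht]
  | insert a D haD ih =>
    have hA : a ∉ A := fun h => (disjoint_left.1 hD h) (mem_insert_self a D)
    have haU : a ∉ A ∪ D := by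
      rw [mem_union]; push Not; exact ⟨hA, haD⟩
    have hD' : Disjoint A D := disjoint_of_subset_right (subset_insert a D) hD
    have e : A ∪ insert a D = insert a (A ∪ D) := union_insert a A D
    rw [e, qg_split p haU (fun t => F (t ∩ A)), ← ih hD']
    refine sum_congr rfl fun t ht => ?_
    rw [mem_powerset] at ht
    have h1 : insert a t ∩ A = t ∩ A := insert_inter_of_notMem hA
    rw [h1]
    ring

lemma qg_restrict' (p : α → ℝ) {A E : Finset α} (hAE : A ⊆ E) (F : Finset α → ℝ) :
    ∑ t ∈ E.powerset, F (t ∩ A) * qg p E t = ∑ t ∈ A.powerset, F t * qg p A t := by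
  have h := qg_restrict p A F (E \ A) disjoint_sdiff
  rwa [union_sdiff_of_subset hAE] at h

lemma qg_edge (p : α → ℝ) {E : Finset α} {a : α} (ha : a ∈ E) (F : Finset α → ℝ) :
    ∑ t ∈ E.powerset, (if a ∈ t then F (t.erase a) else 0) * qg p E t
      = p a * ∑ t ∈ E.powerset, F (t.erase a) * qg p E t := by
  have hE : insert a (E.erase a) = E := insert_erase ha
  have hna : a ∉ E.erase a := notMem_erase a E
  have h1 := qg_split p hna (fun t => if a ∈ t then F (t.erase a) else 0)
  have h2 := qg_split p hna (fun t => F (t.erase a))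
  rw [hE] at h1 h2
  rw [h1, h2, mul_sum]
  refine sum_congr rfl fun t ht => ?_
  rw [mem_powerset] at ht
  have hat : a ∉ t := fun h => hna (ht h)
  simp only [hat, if_false, mem_insert_self, if_true, erase_insert hat, erase_eq_of_notMem hat]
  ring

end qg

section reach

variable {V : Type} [DecidableEq V]

/-- adjacency in the configuration `η` of ordered pairs -/
def adj (η : Finset (V × V)) (v w : V) : Prop := (v, w) ∈ η ∨ (w, v) ∈ η

/-- connectivity -/
def reach (η : Finset (V × V)) (v w : V) : Prop := Relation.ReflTransGen (adj η) v w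

lemma adj_symm {η : Finset (V × V)} {v w : V} (h : adj η v w) : adj η w v := h.symm

lemma reach_refl (η : Finset (V × V)) (v : V) : reach η v v := Relation.ReflTransGen.refl

lemma reach_symm {η : Finset (V × V)} {v w : V} (h : reach η v w) : reach η w v := by
  unfold reach at h
  induction h with
  | refl => exact Relation.ReflTransGen.refl
  | tail _ h ih => exact Relation.ReflTransGen.head (adj_symm h) ih

lemma reach_trans {η : Finset (V × V)} {u v w : V} (h : reach η u v) (h' : reach η v w) :
    reach η u w := Relation.ReflTransGen.trans h h'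

lemma reach_mono {η η' : Finset (V × V)} (hη : η ⊆ η') {v w : V} (h : reach η v w) :
    reach η' v w := by
  unfold reach at h
  induction h with
  | refl => exact Relation.ReflTransGen.refl
  | tail _ h ih => exact Relation.ReflTransGen.tail ih (Or.imp (fun h => hη h) (fun h => hη h) h)

/-- the pairs outside `B` -/
def outE [Fintype V] (B : Finset V) : Finset (V × V) :=
  Finset.univ.filter fun e => e.1 ∉ B ∧ e.2 ∉ B

lemma mem_outE [Fintype V] {B : Finset V} {e : V × V} : e ∈ outE B ↔ e.1 ∉ B ∧ e.2 ∉ B := by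
  unfold outE; simp

/-- **Last exit.** -/
lemma last_exit [Fintype V] (η : Finset (V × V)) (B : Finset V) {x y : V} (hx : x ∈ B)
    (hy : y ∉ B) (h : reach η x y) :
    ∃ e ∈ η, ∃ c c' : V, c ∈ B ∧ c' ∉ B ∧ (e = (c, c') ∨ e = (c', c)) ∧
      reach (η.erase e) x c ∧ reach (η ∩ outE B) c' y := by
  classical
  set η' := η ∩ outE B with hη'
  set EU : Finset (V × V) := η.filter fun e =>
    (e.1 ∈ B ∧ e.2 ∉ B ∧ reach η' e.2 y) ∨ (e.2 ∈ B ∧ e.1 ∉ B ∧ reach η' e.1 y) with hEU
  by_contra hc
  push Not at hc
  have key : ∀ v, reach η x v → reach (η \ EU) x v ∧ ¬ (v ∉ B ∧ reach η' v y) := by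
    intro v hv
    induction hv with
    | refl => exact ⟨reach_refl _ _, fun h => h.1 hx⟩
    | @tail v w _ hvw ih =>
      obtain ⟨ih1, ih2⟩ := ih
      -- the pair (v,w) is not in EU
      have hnot : ∀ e ∈ η, (e = (v, w) ∨ e = (w, v)) → e ∉ EU := by
        intro e he hevw heU
        rw [hEU, mem_filter] at heU
        have hcase : (v ∈ B ∧ w ∉ B ∧ reach η' w y) ∨ (w ∈ B ∧ v ∉ B ∧ reach η' v y) := by
          rcases hevw with rfl | rfl
          · exact heU.2
          · exact heU.2.symm
        rcases hcase with ⟨h1, h2, h3⟩ | ⟨_, h2, h3⟩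
        · have hr : reach (η.erase e) x v := by
            refine reach_mono ?_ ih1
            intro e' he'
            rw [mem_sdiff] at he'
            rw [mem_erase]
            refine ⟨?_, he'.1⟩
            rintro rfl
            exact he'.2 (by rw [hEU, mem_filter]; exact heU)
          exact hc e he v w h1 h2 hevw hr h3
        · exact ih2 ⟨h2, h3⟩
      have hadj : adj (η \ EU) v w := by
        rcases hvw with h1 | h1
        · exact Or.inl (mem_sdiff.2 ⟨h1, hnot _ h1 (Or.inl rfl)⟩)
        · exact Or.inr (mem_sdiff.2 ⟨h1, hnot _ h1 (Or.inr rfl)⟩)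
      refine ⟨Relation.ReflTransGen.tail ih1 hadj, ?_⟩
      rintro ⟨hwB, hwy⟩
      by_cases hvB : v ∈ B
      · -- then (v,w) is in EU
        rcases hvw with h1 | h1
        · exact hnot _ h1 (Or.inl rfl) (by
            rw [hEU, mem_filter]; exact ⟨h1, Or.inl ⟨hvB, hwB, hwy⟩⟩)
        · exact hnot _ h1 (Or.inr rfl) (by
            rw [hEU, mem_filter]; exact ⟨h1, Or.inr ⟨hvB, hwB, hwy⟩⟩)
      · apply ih2
        refine ⟨hvB, ?_⟩
        refine reach_trans (Relation.ReflTransGen.single ?_) hwy
        rcases hvw with h1 | h1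
        · exact Or.inl (mem_inter.2 ⟨h1, mem_outE.2 ⟨hvB, hwB⟩⟩)
        · exact Or.inr (mem_inter.2 ⟨h1, mem_outE.2 ⟨hwB, hvB⟩⟩)
  exact (key y h).2 ⟨hy, reach_refl _ _⟩

end reach

end

end Pool.Agent.NVec
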