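import Pool.Agent.H.MP_8be4c0_mp.FKmain

/-!
The Simon-Lieb type inequality, assembled.
-/

open MeasureTheory Set Filter Topology

namespace Pool.Agent.NVec

set_option linter.unusedSectionVars false

noncomputable section

variable {n : ℕ} {V : Type} [Fintype V] [DecidableEq V]

/-- the last exit decomposition of the two-point function -/
lemma G1_le_sum {c : V → V → ℝ} (hc : ∀ i k, i ≠ k → 0 ≤ c i k) {B : Finset V} {x y : V}
    (hx : x ∈ B) (hy : y ∉ B) :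
    G1 n c x y ≤ ∑ c₁ ∈ B, ∑ c₂ ∈ Bᶜ, 2 * (c c₁ c₂ + c c₂ c₁) *
      ∫ S : V → Spin (n + 2), s0 S x * s0 S c₁ * Zt c B c₂ y S
        * Real.exp (W c 0 S) ∂(apriori V (n + 2)) := by
  classical
  rw [G1_eq]
  set I : Finset (V × V) → ℝ := fun η =>
    ∫ S : V → Spin (n + 2), |s0 S x| * |s0 S y| * om c η S ∂(apriori V (n + 2)) with hI
  have hI0 : ∀ η, 0 ≤ I η := fun η =>
    integral_nonneg fun S => mul_nonneg (mul_nonneg (abs_nonneg _) (abs_nonneg _))
      (om_nonneg hc η S)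
  have hIex0 : ∀ c₁ c₂ e η, 0 ≤ Iex B x y c₁ c₂ e η := by
    intro c₁ c₂ e η
    unfold Iex
    split_ifs <;> norm_num
  have hpt : ∀ η : Finset (V × V), (if reach η x y then I η else 0)
      ≤ ∑ c₁ ∈ B, ∑ c₂ ∈ Bᶜ, (Iex B x y c₁ c₂ (c₁, c₂) η + Iex B x y c₁ c₂ (c₂, c₁) η) * I η := by
    intro η
    have hterm : ∀ c₁ c₂, 0 ≤ (Iex B x y c₁ c₂ (c₁, c₂) η + Iex B x y c₁ c₂ (c₂, c₁) η) * I η :=
      fun c₁ c₂ => mul_nonneg (add_nonneg (hIex0 _ _ _ _) (hIex0 _ _ _ _)) (hI0 η)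
    split_ifs with h
    · obtain ⟨e, he, c₁, c₂, h1, h2, h3, h4, h5⟩ := last_exit η B hx hy h
      have hout : η.erase e ∩ outE B = η ∩ outE B := by
        ext e'
        simp only [Finset.mem_inter, Finset.mem_erase]
        constructor
        · rintro ⟨⟨_, h⟩, h'⟩; exact ⟨h, h'⟩
        · rintro ⟨h, h'⟩
          refine ⟨⟨?_, h⟩, h'⟩
          rintro rfl
          rw [mem_outE] at h'
          rcases h3 with rfl | rfl
          · exact h'.1 h1
          · exact h'.2 h1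
      have hone : Iex B x y c₁ c₂ e η = 1 := by
        unfold Iex
        rw [if_pos he, if_pos ⟨h4, by rw [hout]; exact h5⟩]
      have hle : (1 : ℝ) ≤ Iex B x y c₁ c₂ (c₁, c₂) η + Iex B x y c₁ c₂ (c₂, c₁) η := by
        rcases h3 with rfl | rfl
        · rw [hone]
          have := hIex0 c₁ c₂ (c₂, c₁) η
          linarith
        · rw [hone]
          have := hIex0 c₁ c₂ (c₁, c₂) η
          linarith
      calc I η = 1 * I η := (one_mul _).symm
        _ ≤ (Iex B x y c₁ c₂ (c₁, c₂) η + Iex B x y c₁ c₂ (c₂, c₁) η) * I η :=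
          mul_le_mul_of_nonneg_right hle (hI0 η)
        _ ≤ ∑ c₂ ∈ Bᶜ, (Iex B x y c₁ c₂ (c₁, c₂) η + Iex B x y c₁ c₂ (c₂, c₁) η) * I η :=
          Finset.single_le_sum
            (f := fun c₂ => (Iex B x y c₁ c₂ (c₁, c₂) η + Iex B x y c₁ c₂ (c₂, c₁) η) * I η)
            (fun c₂ _ => hterm c₁ c₂) (Finset.mem_compl.2 h2)
        _ ≤ _ := Finset.single_le_sum
            (f := fun c₁ => ∑ c₂ ∈ Bᶜ,
              (Iex B x y c₁ c₂ (c₁, c₂) η + Iex B x y c₁ c₂ (c₂, c₁) η) * I η)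
            (fun c₁ _ => Finset.sum_nonneg fun c₂ _ => hterm c₁ c₂) h1
    · exact Finset.sum_nonneg fun c₁ _ => Finset.sum_nonneg fun c₂ _ => hterm c₁ c₂
  refine (Finset.sum_le_sum fun η _ => hpt η).trans ?_
  rw [Finset.sum_comm]
  refine Finset.sum_le_sum fun c₁ h1 => ?_
  rw [Finset.sum_comm]
  refine Finset.sum_le_sum fun c₂ h2 => ?_
  have h2' : c₂ ∉ B := Finset.mem_compl.1 h2
  have ha := edge_bound (n := n) hc (x := x) (y := y) h1 h2' (Or.inl rfl : (c₁, c₂) = (c₁, c₂) ∨ _)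
  have hb := edge_bound (n := n) hc (x := x) (y := y) h1 h2' (Or.inr rfl : (c₂, c₁) = (c₁, c₂) ∨ _)
  simp only at ha hb
  have e1 : ∑ η ∈ (Finset.univ : Finset (V × V)).powerset,
      (Iex B x y c₁ c₂ (c₁, c₂) η + Iex B x y c₁ c₂ (c₂, c₁) η) * I η
      = (∑ η ∈ (Finset.univ : Finset (V × V)).powerset, Iex B x y c₁ c₂ (c₁, c₂) η * I η)
        + ∑ η ∈ (Finset.univ : Finset (V × V)).powerset, Iex B x y c₁ c₂ (c₂, c₁) η * I η := by
    rw [← Finset.sum_add_distrib]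
    refine Finset.sum_congr rfl fun η _ => ?_
    ring
  rw [e1]
  linarith

/-- the trivial bound for the inner factor -/
lemma inner_factor_one {c : V → V → ℝ} (hc : ∀ i k, i ≠ k → 0 ≤ c i k) (B : Finset V)
    (x y c₁ c₂ : V) :
    ∫ S : V → Spin (n + 2), s0 S x * s0 S c₁ * Zt c B c₂ y S
        * Real.exp (W c 0 S) ∂(apriori V (n + 2))
      ≤ 1 * ∫ S : V → Spin (n + 2), Zt c B c₂ y S * Real.exp (W c 0 S)
        ∂(apriori V (n + 2)) := by
  rw [one_mul]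
  apply integral_mono
  · exact integrable_cont _ ((((continuous_s0 x).mul (continuous_s0 c₁)).mul
      (continuous_Zt c B c₂ y)).mul (continuous_expW c 0))
  · exact integrable_cont _ ((continuous_Zt c B c₂ y).mul (continuous_expW c 0))
  intro S
  simp only
  have h1 : s0 S x * s0 S c₁ ≤ 1 := by
    have h2 := abs_s0_le S x
    have h3 := abs_s0_le S c₁
    calc s0 S x * s0 S c₁ ≤ |s0 S x * s0 S c₁| := le_abs_self _
      _ = |s0 S x| * |s0 S c₁| := abs_mul _ _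
      _ ≤ 1 * 1 := mul_le_mul h2 h3 (abs_nonneg _) zero_le_one
      _ = 1 := one_mul _
  have h2 := Zt_nonneg hc B c₂ y S
  have h3 := Real.exp_pos (W c 0 S)
  calc s0 S x * s0 S c₁ * Zt c B c₂ y S * Real.exp (W c 0 S)
      = (s0 S x * s0 S c₁) * (Zt c B c₂ y S * Real.exp (W c 0 S)) := by ring
    _ ≤ 1 * (Zt c B c₂ y S * Real.exp (W c 0 S)) :=
      mul_le_mul_of_nonneg_right h1 (by positivity)
    _ = _ := one_mul _

/-- the bound for the inner factor by the conditional magnetisation -/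
lemma inner_factor_dual {c : V → V → ℝ} (hc : ∀ i k, i ≠ k → 0 ≤ c i k) {B B₀ : Finset V}
    (hB : B₀ ⊆ B) {x y c₁ c₂ : V} (h1 : c₁ ∉ B₀) (h2 : c₂ ∉ B) (hy : y ∉ B) {m : ℝ} (hm0 : 0 ≤ m)
    (hm : ∀ (τ : V → Spin (n + 2)) (e : EuclideanSpace ℝ (Fin (n + 2))),
      bInt (W c 0) B₀ τ (fun S => inner ℝ e (S x : EuclideanSpace ℝ (Fin (n + 2))))
        ≤ m * ‖e‖ * bZ (W c 0) B₀ τ) :
    ∫ S : V → Spin (n + 2), s0 S x * s0 S c₁ * Zt c B c₂ y S
        * Real.exp (W c 0 S) ∂(apriori V (n + 2))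
      ≤ m * ∫ S : V → Spin (n + 2), Zt c B c₂ y S * Real.exp (W c 0 S)
        ∂(apriori V (n + 2)) := by
  set Z : (V → Spin (n + 2)) → EuclideanSpace ℝ (Fin (n + 2)) := fun S =>
    (s0 S c₁ * Zt c B c₂ y S) • e0 with hZ
  have hZc : Continuous Z :=
    ((continuous_s0 c₁).mul (continuous_Zt c B c₂ y)).smul continuous_const
  have hZB : ∀ u τ, Z (merge B₀ u τ) = Z τ := by
    intro u τ
    rw [hZ]
    simp only
    rw [Zt_merge c hB h2 hy]
    have : s0 (merge B₀ u τ) c₁ = s0 τ c₁ := by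
      unfold s0; rw [merge_out h1]
    rw [this]
  set τ₀ : V → Spin (n + 2) := fun _ => ⟨e0, by rw [mem_sphere_zero_iff_norm]; exact norm_e0⟩
  have hd := duality (continuous_W (n := n) c 0) (Finset.subset_univ B₀) hm Z hZc hZB τ₀
  unfold bInt at hd
  simp_rw [merge_univ] at hd
  have e1 : ∀ S : V → Spin (n + 2), inner ℝ (Z S) (S x : EuclideanSpace ℝ (Fin (n + 2)))
      * Real.exp (W c 0 S) = s0 S x * s0 S c₁ * Zt c B c₂ y S * Real.exp (W c 0 S) := by
    intro S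
    rw [hZ]
    simp only
    rw [real_inner_smul_left, inner_e0]
    unfold s0
    ring
  simp_rw [e1] at hd
  refine hd.trans (mul_le_mul_of_nonneg_left ?_ hm0)
  apply integral_mono
  · exact integrable_cont _ (hZc.norm.mul (continuous_expW c 0))
  · exact integrable_cont _ ((continuous_Zt c B c₂ y).mul (continuous_expW c 0))
  intro S
  simp only
  apply mul_le_mul_of_nonneg_right _ (Real.exp_pos _).le
  rw [hZ]
  simp only
  rw [norm_smul, norm_e0, mul_one, Real.norm_eq_abs, abs_mul,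
    abs_of_nonneg (Zt_nonneg hc B c₂ y S)]
  have h3 := abs_s0_le S c₁
  have h4 := Zt_nonneg hc B c₂ y S
  calc |s0 S c₁| * Zt c B c₂ y S ≤ 1 * Zt c B c₂ y S := mul_le_mul_of_nonneg_right h3 h4
    _ = _ := one_mul _

/-- **The Simon-Lieb type inequality.** -/
theorem simon_lieb {c : V → V → ℝ} (hc : ∀ i k, i ≠ k → 0 ≤ c i k) {B B₀ : Finset V}
    (hB : B₀ ⊆ B) {x y : V} (hx : x ∈ B) (hy : y ∉ B) {m : ℝ} (hm0 : 0 ≤ m)
    (hm : ∀ (τ : V → Spin (n + 2)) (e : EuclideanSpace ℝ (Fin (n + 2))),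
      bInt (W c 0) B₀ τ (fun S => inner ℝ e (S x : EuclideanSpace ℝ (Fin (n + 2))))
        ≤ m * ‖e‖ * bZ (W c 0) B₀ τ) :
    G1 n c x y ≤ ∑ c₁ ∈ B, ∑ c₂ ∈ Bᶜ, 2 * (c c₁ c₂ + c c₂ c₁) *
      ((if c₁ ∈ B₀ then 1 else m) * G1 n c c₂ y) := by
  refine (G1_le_sum (n := n) hc hx hy).trans ?_
  refine Finset.sum_le_sum fun c₁ h1 => Finset.sum_le_sum fun c₂ h2 => ?_
  have h2' : c₂ ∉ B := Finset.mem_compl.1 h2
  have hne : c₁ ≠ c₂ := fun h => h2' (h ▸ h1)
  have hcc : 0 ≤ 2 * (c c₁ c₂ + c c₂ c₁) := by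
    have ha := hc _ _ hne
    have hb := hc _ _ hne.symm
    linarith
  apply mul_le_mul_of_nonneg_left _ hcc
  split_ifs with h
  · refine (inner_factor_one hc B x y c₁ c₂).trans ?_
    exact mul_le_mul_of_nonneg_left (integral_Zt_le hc B c₂ y) zero_le_one
  · refine (inner_factor_dual hc hB h h2' hy hm0 hm).trans ?_
    exact mul_le_mul_of_nonneg_left (integral_Zt_le hc B c₂ y) hm0

end

end Pool.Agent.NVec
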