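import Pool.Agent.H.MP_8be4c0_mp.MW

/-!
A local quantitative Mermin-Wagner lemma, second part, and the Jensen step.
-/

open MeasureTheory Set Filter Topology

namespace Pool.Agent.NVec

set_option linter.unusedSectionVars false

noncomputable section

variable {n : ℕ} {V : Type} [Fintype V]


/-- the partition function -/
def ZZ (n : ℕ) (c d : V → V → ℝ) : ℝ :=
  ∫ S : V → Spin (n + 2), Real.exp (W c d S) ∂(apriori V (n + 2))

lemma continuous_expW (c d : V → V → ℝ) :
    Continuous fun S : V → Spin (n + 2) => Real.exp (W c d S) :=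
  Real.continuous_exp.comp (continuous_W c d)

lemma ZZ_pos (c d : V → V → ℝ) : 0 < ZZ n c d :=
  integral_pos_of_cont (n := n + 1) _ (continuous_expW c d) fun _ => Real.exp_pos _

lemma integral_rotP {p : Fin (n + 2)} (hp : (0 : Fin (n + 2)) ≠ p) (φ : V → ℝ)
    (f : (V → Spin (n + 2)) → ℝ) (hf : Continuous f) :
    ∫ S, f (rotP hp φ S) ∂(apriori V (n + 2)) = ∫ S, f S ∂(apriori V (n + 2)) :=
  integral_actAll (fun i => rot hp (φ i)) f hf

/-- the Hellinger step -/
lemma hellinger {p : Fin (n + 2)} (hp : (0 : Fin (n + 2)) ≠ p) (hp1 : (1 : Fin (n + 2)) ≠ p)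
    (c d : V → V → ℝ) (φ : V → ℝ) {ε : ℝ} (hε : cost c d φ ≤ ε) {s : ℝ} (hs : 0 < s)
    (f : (V → Spin (n + 2)) → ℝ) (hf : Continuous f) (hf1 : ∀ S, |f S| ≤ 1) :
    |∫ S, f (rotP hp (fun i => -φ i) S) * Real.exp (W c d S) ∂(apriori V (n + 2))
      - ∫ S, f (rotP hp φ S) * Real.exp (W c d S) ∂(apriori V (n + 2))|
      ≤ (ε / (2 * s) + 2 * s) * ZZ n c d := by
  set μ := apriori V (n + 2)
  set Wp : (V → Spin (n + 2)) → ℝ := fun S => W c d (rotP hp φ S) with hWp
  set Wm : (V → Spin (n + 2)) → ℝ := fun S => W c d (rotP hp (fun i => -φ i) S) with hWm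
  have cWp : Continuous Wp := (continuous_W c d).comp (continuous_rotP hp φ)
  have cWm : Continuous Wm := (continuous_W c d).comp (continuous_rotP hp _)
  have e1 : ∫ S, f (rotP hp (fun i => -φ i) S) * Real.exp (W c d S) ∂μ
      = ∫ S, f S * Real.exp (Wp S) ∂μ := by
    rw [← integral_rotP hp φ (fun S => f (rotP hp (fun i => -φ i) S) * Real.exp (W c d S))
      ((hf.comp (continuous_rotP hp _)).mul (continuous_expW c d))]
    simp_rw [rotP_neg, hWp]
    rfl
  have e2 : ∫ S, f (rotP hp φ S) * Real.exp (W c d S) ∂μ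
      = ∫ S, f S * Real.exp (Wm S) ∂μ := by
    rw [← integral_rotP hp (fun i => -φ i)
      (fun S => f (rotP hp φ S) * Real.exp (W c d S))
      ((hf.comp (continuous_rotP hp _)).mul (continuous_expW c d))]
    simp_rw [rotP_neg', hWm]
    rfl
  rw [e1, e2, ← integral_sub]
  rotate_left
  · exact integrable_cont _ (hf.mul (Real.continuous_exp.comp cWp))
  · exact integrable_cont _ (hf.mul (Real.continuous_exp.comp cWm))
  have Zp : ∫ S, Real.exp (Wp S) ∂μ = ZZ n c d :=
    integral_rotP hp φ (fun S => Real.exp (W c d S)) (continuous_expW c d)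
  have Zm : ∫ S, Real.exp (Wm S) ∂μ = ZZ n c d :=
    integral_rotP hp _ (fun S => Real.exp (W c d S)) (continuous_expW c d)
  have hpt : ∀ S, |f S * Real.exp (Wp S) - f S * Real.exp (Wm S)|
      ≤ (1 / (2 * s)) * (Real.exp (Wp S) + Real.exp (Wm S)
          - 2 * Real.exp (-(ε / 2)) * Real.exp (W c d S))
        + s * (Real.exp (Wp S) + Real.exp (Wm S)) := by
    intro S
    have hsd := second_diff hp hp1 c d φ S
    have hmid : Real.exp (-(ε / 2)) * Real.exp (W c d S)
        ≤ Real.exp (Wp S / 2) * Real.exp (Wm S / 2) := by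
      rw [← Real.exp_add, ← Real.exp_add]
      apply Real.exp_le_exp.2
      simp only [hWp, hWm]
      linarith
    set A := Real.exp (Wp S / 2) with hA
    set B := Real.exp (Wm S / 2) with hB
    have hA2 : Real.exp (Wp S) = A ^ 2 := by rw [hA, ← Real.exp_nat_mul]; congr 1; ring
    have hB2 : Real.exp (Wm S) = B ^ 2 := by rw [hB, ← Real.exp_nat_mul]; congr 1; ring
    have hA0 : 0 < A := Real.exp_pos _
    have hB0 : 0 < B := Real.exp_pos _
    rw [← mul_sub, abs_mul, hA2, hB2]
    have h1 : |f S| * |A ^ 2 - B ^ 2| ≤ |A ^ 2 - B ^ 2| := by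
      have := mul_le_mul_of_nonneg_right (hf1 S) (abs_nonneg (A ^ 2 - B ^ 2))
      linarith
    have h2 : |A ^ 2 - B ^ 2| = |A - B| * (A + B) := by
      rw [show A ^ 2 - B ^ 2 = (A - B) * (A + B) by ring, abs_mul, abs_of_pos (by positivity : 0 < A + B)]
    have h3 : |A - B| * (A + B) ≤ (1 / (2 * s)) * (A - B) ^ 2 + (s / 2) * (A + B) ^ 2 := by
      have h4 : (1 / (2 * s)) * (A - B) ^ 2 + (s / 2) * (A + B) ^ 2 - |A - B| * (A + B)
          = (1 / (2 * s)) * (|A - B| - s * (A + B)) ^ 2 := by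
        have h5 : |A - B| ^ 2 = (A - B) ^ 2 := sq_abs _
        field_simp
        rw [← h5]
        ring
      have h6 : 0 ≤ (1 / (2 * s)) * (|A - B| - s * (A + B)) ^ 2 := by positivity
      linarith
    have h7 : (s / 2) * (A + B) ^ 2 ≤ s * (A ^ 2 + B ^ 2) := by
      nlinarith [sq_nonneg (A - B)]
    have h8 : (A - B) ^ 2 ≤ A ^ 2 + B ^ 2 - 2 * (Real.exp (-(ε / 2)) * Real.exp (W c d S)) := by
      nlinarith
    have h9 : (1 / (2 * s)) * (A - B) ^ 2 ≤ (1 / (2 * s)) *
        (A ^ 2 + B ^ 2 - 2 * (Real.exp (-(ε / 2)) * Real.exp (W c d S))) :=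
      mul_le_mul_of_nonneg_left h8 (by positivity)
    calc _ ≤ |A ^ 2 - B ^ 2| := h1
      _ = |A - B| * (A + B) := h2
      _ ≤ (1 / (2 * s)) * (A - B) ^ 2 + (s / 2) * (A + B) ^ 2 := h3
      _ ≤ _ := by
        rw [mul_assoc 2]
        linarith
  have ip : Integrable (fun S => Real.exp (Wp S)) μ :=
    integrable_cont _ (Real.continuous_exp.comp cWp)
  have im : Integrable (fun S => Real.exp (Wm S)) μ :=
    integrable_cont _ (Real.continuous_exp.comp cWm)
  have i0 : Integrable (fun S => Real.exp (W c d S)) μ := integrable_cont _ (continuous_expW c d)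
  calc |∫ S, (f S * Real.exp (Wp S) - f S * Real.exp (Wm S)) ∂μ|
      ≤ ∫ S, |f S * Real.exp (Wp S) - f S * Real.exp (Wm S)| ∂μ := abs_integral_le_integral_abs
    _ ≤ ∫ S, ((1 / (2 * s)) * (Real.exp (Wp S) + Real.exp (Wm S)
          - 2 * Real.exp (-(ε / 2)) * Real.exp (W c d S))
        + s * (Real.exp (Wp S) + Real.exp (Wm S))) ∂μ := by
        refine integral_mono_of_nonneg (Eventually.of_forall fun S => abs_nonneg _) ?_
          (Eventually.of_forall hpt)
        exact (((ip.add im).sub (i0.const_mul _)).const_mul _).add ((ip.add im).const_mul _)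
    _ = (1 / (2 * s)) * (2 * ZZ n c d - 2 * Real.exp (-(ε / 2)) * ZZ n c d)
        + s * (2 * ZZ n c d) := by
        rw [integral_add, integral_const_mul, integral_const_mul, integral_sub, integral_add ip im,
          integral_const_mul, Zp, Zm]
        · unfold ZZ; ring
        · exact ip.add im
        · exact i0.const_mul _
        · exact ((ip.add im).sub (i0.const_mul _)).const_mul _
        · exact (ip.add im).const_mul _
    _ ≤ (ε / (2 * s) + 2 * s) * ZZ n c d := by
        have hZ := ZZ_pos (n := n) c d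
        have h1 : 1 - Real.exp (-(ε / 2)) ≤ ε / 2 := by
          have := Real.add_one_le_exp (-(ε / 2)); linarith
        have h2 : (1 / (2 * s)) * (2 * ZZ n c d - 2 * Real.exp (-(ε / 2)) * ZZ n c d)
            = (1 / s) * (1 - Real.exp (-(ε / 2))) * ZZ n c d := by
          field_simp
        have h3 : (1 / s) * (1 - Real.exp (-(ε / 2))) * ZZ n c d ≤ (1 / s) * (ε / 2) * ZZ n c d := by
          have : 0 < 1 / s := by positivity
          gcongr
        rw [h2]
        have h4 : (1 / s) * (ε / 2) * ZZ n c d = ε / (2 * s) * ZZ n c d := by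
          field_simp
        linarith

/-- **Mermin-Wagner, local form**: components `0` and `p` of a pair of spins have nearly the same
correlation. -/
lemma mw_pair {p : Fin (n + 2)} (hp : (0 : Fin (n + 2)) ≠ p) (hp1 : (1 : Fin (n + 2)) ≠ p)
    (c d : V → V → ℝ) (φ : V → ℝ) {ε : ℝ} (hε : cost c d φ ≤ ε) {s : ℝ} (hs : 0 < s)
    {i k : V} (hi : φ i = Real.pi / 4) (hk : φ k = Real.pi / 4) :
    |∫ S : V → Spin (n + 2), ((S i : EuclideanSpace ℝ (Fin (n + 2))) p * (S k : EuclideanSpace ℝ (Fin (n + 2))) p) * Real.exp (W c d S) ∂(apriori V (n + 2))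
      - ∫ S : V → Spin (n + 2), ((S i : EuclideanSpace ℝ (Fin (n + 2))) 0 * (S k : EuclideanSpace ℝ (Fin (n + 2))) 0) * Real.exp (W c d S)
          ∂(apriori V (n + 2))|
      ≤ (ε / (2 * s) + 2 * s) * ZZ n c d := by
  set f : (V → Spin (n + 2)) → ℝ := fun S =>
    (1 / 2) * ((S i : EuclideanSpace ℝ (Fin (n + 2))) 0 + (S i : EuclideanSpace ℝ (Fin (n + 2))) p) * ((S k : EuclideanSpace ℝ (Fin (n + 2))) 0 + (S k : EuclideanSpace ℝ (Fin (n + 2))) p) with hfdef
  have hf : Continuous f :=
    (continuous_const.mul ((continuous_coord i 0).add (continuous_coord i p))).mul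
      ((continuous_coord k 0).add (continuous_coord k p))
  have hf1 : ∀ S, |f S| ≤ 1 := by
    intro S
    have h1 := sq_add_sq_le hp (S i)
    have h2 := sq_add_sq_le hp (S k)
    simp only [hfdef]
    rw [abs_le]
    set a := (S i : EuclideanSpace ℝ (Fin (n + 2))) 0
    set b := (S i : EuclideanSpace ℝ (Fin (n + 2))) p
    set a' := (S k : EuclideanSpace ℝ (Fin (n + 2))) 0
    set b' := (S k : EuclideanSpace ℝ (Fin (n + 2))) p
    constructor
    · nlinarith [sq_nonneg (a + b + (a' + b')), sq_nonneg (a - b), sq_nonneg (a' - b')]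
    · nlinarith [sq_nonneg (a + b - (a' + b')), sq_nonneg (a - b), sq_nonneg (a' - b')]
  have h := hellinger hp hp1 c d φ hε hs f hf hf1
  have hsq : Real.sqrt 2 * Real.sqrt 2 = 2 := Real.mul_self_sqrt (by norm_num)
  have hr : ∀ S : V → Spin (n + 2), f (rotP hp φ S) = (S i : EuclideanSpace ℝ (Fin (n + 2))) 0 * (S k : EuclideanSpace ℝ (Fin (n + 2))) 0 := by
    intro S
    simp only [hfdef, coe_rotP]
    rw [rotFun_p, rotFun_p, rotFun_q hp, rotFun_q hp, hi, hk, Real.cos_pi_div_four,
      Real.sin_pi_div_four]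
    linear_combination ((1 / 2) * ((S i : EuclideanSpace ℝ (Fin (n + 2))) 0 * (S k : EuclideanSpace ℝ (Fin (n + 2))) 0)) * hsq
  have hr' : ∀ S : V → Spin (n + 2), f (rotP hp (fun i => -φ i) S)
      = (S i : EuclideanSpace ℝ (Fin (n + 2))) p * (S k : EuclideanSpace ℝ (Fin (n + 2))) p := by
    intro S
    simp only [hfdef, coe_rotP]
    rw [rotFun_p, rotFun_p, rotFun_q hp, rotFun_q hp, hi, hk, Real.cos_neg, Real.sin_neg,
      Real.cos_pi_div_four, Real.sin_pi_div_four]
    linear_combination ((1 / 2) * ((S i : EuclideanSpace ℝ (Fin (n + 2))) p * (S k : EuclideanSpace ℝ (Fin (n + 2))) p)) * hsq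
  simp_rw [hr, hr'] at h
  exact h

end

end Pool.Agent.NVec
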