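import Pool.Agent.H.MP_8be4c0_mp.Basic

/-!
The magnetisation of a single spin in a field.
-/

open MeasureTheory Set Filter Topology

namespace Pool.Agent.NVec

noncomputable section

variable {N : ℕ} [NeZero N]


/-- partition function of one spin -/
def M0 (h : EuclideanSpace ℝ (Fin N)) : ℝ := ∫ u : Spin N, Real.exp (inner ℝ h (u : EuclideanSpace ℝ (Fin N))) ∂(sph N)

/-- first moment of one spin -/
def M1 (h v : EuclideanSpace ℝ (Fin N)) : ℝ :=
  ∫ u : Spin N, inner ℝ v (u : EuclideanSpace ℝ (Fin N)) * Real.exp (inner ℝ h (u : EuclideanSpace ℝ (Fin N))) ∂(sph N)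

omit [NeZero N] in
lemma integrable_sph (f : Spin N → ℝ) (hf : Continuous f) : Integrable f (sph N) := by
  obtain ⟨C, hC⟩ := (isCompact_univ (X := Spin N)).exists_bound_of_continuousOn hf.continuousOn
  exact (integrable_const C).mono' hf.aestronglyMeasurable
    (Filter.Eventually.of_forall fun x => hC x (mem_univ _))

omit [NeZero N] in
lemma integral_act (R : EuclideanSpace ℝ (Fin N) ≃ₗᵢ[ℝ] EuclideanSpace ℝ (Fin N)) (f : Spin N → ℝ) (hf : Continuous f) :
    ∫ u, f (act R u) ∂(sph N) = ∫ u, f u ∂(sph N) := by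
  have h := measurePreserving_act R
  conv_rhs => rw [← h.map_eq]
  rw [integral_map h.measurable.aemeasurable]
  rw [h.map_eq]
  exact hf.aestronglyMeasurable

omit [NeZero N] in
lemma cont_inner (h : EuclideanSpace ℝ (Fin N)) : Continuous fun u : Spin N => inner ℝ h (u : EuclideanSpace ℝ (Fin N)) :=
  continuous_const.inner continuous_subtype_val

omit [NeZero N] in
lemma cont_M0 (h : EuclideanSpace ℝ (Fin N)) : Continuous fun u : Spin N => Real.exp (inner ℝ h (u : EuclideanSpace ℝ (Fin N))) :=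
  Real.continuous_exp.comp (cont_inner h)

omit [NeZero N] in
lemma cont_M1 (h v : EuclideanSpace ℝ (Fin N)) : Continuous fun u : Spin N =>
    inner ℝ v (u : EuclideanSpace ℝ (Fin N)) * Real.exp (inner ℝ h (u : EuclideanSpace ℝ (Fin N))) := (cont_inner v).mul (cont_M0 h)

omit [NeZero N] in
lemma M0_act (R : EuclideanSpace ℝ (Fin N) ≃ₗᵢ[ℝ] EuclideanSpace ℝ (Fin N)) (h : EuclideanSpace ℝ (Fin N)) : M0 (R h) = M0 h := by
  unfold M0
  rw [← integral_act R _ (cont_M0 (R h))]
  simp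

omit [NeZero N] in
lemma M1_act (R : EuclideanSpace ℝ (Fin N) ≃ₗᵢ[ℝ] EuclideanSpace ℝ (Fin N)) (h v : EuclideanSpace ℝ (Fin N)) : M1 (R h) (R v) = M1 h v := by
  unfold M1
  rw [← integral_act R _ (cont_M1 (R h) (R v))]
  simp

lemma M0_pos (h : EuclideanSpace ℝ (Fin N)) : 0 < M0 h := by
  unfold M0
  rw [integral_pos_iff_support_of_nonneg (fun u => (Real.exp_pos _).le)
    (integrable_sph _ (cont_M0 h))]
  have : Function.support (fun u : Spin N => Real.exp (inner ℝ h (u : EuclideanSpace ℝ (Fin N)))) = univ := by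
    ext S; simp
  rw [this]
  have h1 : sph N ≠ 0 := by
    unfold sph
    have : Nontrivial (EuclideanSpace ℝ (Fin N)) := by
      obtain ⟨n, rfl⟩ : ∃ n, N = n + 1 := ⟨N - 1, by have := NeZero.pos N; omega⟩
      infer_instance
    exact Measure.toSphere_ne_zero _
  exact (Measure.measure_univ_ne_zero.2 h1).bot_lt

omit [NeZero N] in
lemma M1_add (h v w : EuclideanSpace ℝ (Fin N)) : M1 h (v + w) = M1 h v + M1 h w := by
  unfold M1
  rw [← integral_add (integrable_sph _ (cont_M1 h v)) (integrable_sph _ (cont_M1 h w))]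
  refine integral_congr_ae (Eventually.of_forall fun u => ?_)
  simp only [inner_add_left]
  ring

omit [NeZero N] in
lemma M1_smul (h v : EuclideanSpace ℝ (Fin N)) (s : ℝ) : M1 h (s • v) = s * M1 h v := by
  unfold M1
  rw [← integral_const_mul]
  refine integral_congr_ae (Eventually.of_forall fun u => ?_)
  simp only [real_inner_smul_left]
  ring

omit [NeZero N] in
lemma M1_reflect (g v : EuclideanSpace ℝ (Fin N)) (hg : ‖g‖ = 1) (s : ℝ) :
    M1 (s • g) v = inner ℝ g v * M1 (s • g) g := by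
  set R : EuclideanSpace ℝ (Fin N) ≃ₗᵢ[ℝ] EuclideanSpace ℝ (Fin N) := Submodule.reflection (ℝ ∙ g) with hR
  have hRg : R g = g := Submodule.reflection_mem_subspace_eq_self
    (Submodule.mem_span_singleton_self g)
  have hRv : R v = (2 * inner ℝ g v) • g + (-1 : ℝ) • v := by
    rw [hR, Submodule.reflection_singleton_apply, hg]
    simp
    rw [mul_smul, two_smul, two_smul, sub_eq_add_neg]
  have h1 := M1_act R (s • g) v
  rw [map_smul, hRg, hRv, M1_add, M1_smul, M1_smul] at h1
  linarith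

/-- the first basis vector -/
def e0 : EuclideanSpace ℝ (Fin N) := EuclideanSpace.single 0 1

lemma norm_e0 : ‖(e0 : EuclideanSpace ℝ (Fin N))‖ = 1 := by unfold e0; simp

lemma inner_e0 (u : EuclideanSpace ℝ (Fin N)) : inner ℝ (e0 : EuclideanSpace ℝ (Fin N)) u = u 0 := by
  unfold e0
  simp [EuclideanSpace.inner_single_left]

lemma mag_eq (t : ℝ) : mag N t = M1 (t • (e0 : EuclideanSpace ℝ (Fin N))) e0 / M0 (t • (e0 : EuclideanSpace ℝ (Fin N))) := by
  unfold mag M1 M0
  simp only [real_inner_smul_left, inner_e0]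

lemma M1_dir (g : EuclideanSpace ℝ (Fin N)) (hg : ‖g‖ = 1) (s : ℝ) : M1 (s • g) g = M1 (s • (e0 : EuclideanSpace ℝ (Fin N))) e0 := by
  have h := M1_act (Submodule.reflection (ℝ ∙ (g - e0))ᗮ) (s • g) g
  rw [map_smul, Submodule.reflection_sub (by rw [hg, norm_e0])] at h
  exact h.symm

lemma M0_dir (g : EuclideanSpace ℝ (Fin N)) (hg : ‖g‖ = 1) (s : ℝ) : M0 (s • g) = M0 (s • (e0 : EuclideanSpace ℝ (Fin N))) := by
  have h := M0_act (Submodule.reflection (ℝ ∙ (g - e0))ᗮ) (s • g)
  rw [map_smul, Submodule.reflection_sub (by rw [hg, norm_e0])] at h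
  exact h.symm

lemma mag_mul (t : ℝ) : mag N t * M0 (t • (e0 : EuclideanSpace ℝ (Fin N))) = M1 (t • (e0 : EuclideanSpace ℝ (Fin N))) e0 := by
  rw [mag_eq, div_mul_cancel₀ _ (M0_pos _).ne']

/-- the magnetisation is monotone -/
lemma mag_mono : Monotone (mag N) := by
  intro s t hst
  set c := mag N s with hc
  rw [mag_eq t, le_div_iff₀ (M0_pos _)]
  have h1 : ∫ u : Spin N, (inner ℝ (e0 : EuclideanSpace ℝ (Fin N)) (u : EuclideanSpace ℝ (Fin N)) - c)
      * Real.exp (inner ℝ (s • (e0 : EuclideanSpace ℝ (Fin N))) (u : EuclideanSpace ℝ (Fin N))) ∂(sph N) = 0 := by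
    have e : ∀ u : Spin N, (inner ℝ (e0 : EuclideanSpace ℝ (Fin N)) (u : EuclideanSpace ℝ (Fin N)) - c)
        * Real.exp (inner ℝ (s • (e0 : EuclideanSpace ℝ (Fin N))) (u : EuclideanSpace ℝ (Fin N)))
        = inner ℝ (e0 : EuclideanSpace ℝ (Fin N)) (u : EuclideanSpace ℝ (Fin N)) * Real.exp (inner ℝ (s • (e0 : EuclideanSpace ℝ (Fin N))) (u : EuclideanSpace ℝ (Fin N)))
          - c * Real.exp (inner ℝ (s • (e0 : EuclideanSpace ℝ (Fin N))) (u : EuclideanSpace ℝ (Fin N))) := fun u => by ring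
    simp_rw [e]
    rw [integral_sub (integrable_sph _ (cont_M1 _ _))
      ((integrable_sph _ (cont_M0 _)).const_mul _), integral_const_mul]
    have := mag_mul (N := N) s
    unfold M0 M1 at this
    rw [← this]
    ring
  have h2 : ∫ u : Spin N, (inner ℝ (e0 : EuclideanSpace ℝ (Fin N)) (u : EuclideanSpace ℝ (Fin N)) - c)
      * Real.exp (inner ℝ (t • (e0 : EuclideanSpace ℝ (Fin N))) (u : EuclideanSpace ℝ (Fin N))) ∂(sph N)
      = M1 (t • (e0 : EuclideanSpace ℝ (Fin N))) e0 - c * M0 (t • (e0 : EuclideanSpace ℝ (Fin N))) := by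
    have e : ∀ u : Spin N, (inner ℝ (e0 : EuclideanSpace ℝ (Fin N)) (u : EuclideanSpace ℝ (Fin N)) - c)
        * Real.exp (inner ℝ (t • (e0 : EuclideanSpace ℝ (Fin N))) (u : EuclideanSpace ℝ (Fin N)))
        = inner ℝ (e0 : EuclideanSpace ℝ (Fin N)) (u : EuclideanSpace ℝ (Fin N)) * Real.exp (inner ℝ (t • (e0 : EuclideanSpace ℝ (Fin N))) (u : EuclideanSpace ℝ (Fin N)))
          - c * Real.exp (inner ℝ (t • (e0 : EuclideanSpace ℝ (Fin N))) (u : EuclideanSpace ℝ (Fin N))) := fun u => by ring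
    simp_rw [e]
    rw [integral_sub (integrable_sph _ (cont_M1 _ _))
      ((integrable_sph _ (cont_M0 _)).const_mul _), integral_const_mul]
    rfl
  have h3 : ∫ u : Spin N, Real.exp ((t - s) * c) * ((inner ℝ (e0 : EuclideanSpace ℝ (Fin N)) (u : EuclideanSpace ℝ (Fin N)) - c)
      * Real.exp (inner ℝ (s • (e0 : EuclideanSpace ℝ (Fin N))) (u : EuclideanSpace ℝ (Fin N)))) ∂(sph N)
      ≤ ∫ u : Spin N, (inner ℝ (e0 : EuclideanSpace ℝ (Fin N)) (u : EuclideanSpace ℝ (Fin N)) - c)
      * Real.exp (inner ℝ (t • (e0 : EuclideanSpace ℝ (Fin N))) (u : EuclideanSpace ℝ (Fin N))) ∂(sph N) := by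
    apply integral_mono
    · exact (integrable_sph _ (((cont_inner _).sub continuous_const).mul (cont_M0 _))).const_mul _
    · exact integrable_sph _ (((cont_inner _).sub continuous_const).mul (cont_M0 _))
    · intro u
      simp only [real_inner_smul_left]
      set a := inner ℝ (e0 : EuclideanSpace ℝ (Fin N)) (u : EuclideanSpace ℝ (Fin N))
      have e : Real.exp (t * a) = Real.exp ((t - s) * a) * Real.exp (s * a) := by
        rw [← Real.exp_add]; congr 1; ring
      rw [e]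
      have h4 : 0 ≤ (a - c) * (Real.exp ((t - s) * a) - Real.exp ((t - s) * c)) := by
        rcases le_total a c with h | h
        · apply mul_nonneg_of_nonpos_of_nonpos (by linarith)
          rw [sub_nonpos]
          apply Real.exp_le_exp.2
          exact mul_le_mul_of_nonneg_left h (by linarith)
        · apply mul_nonneg (by linarith)
          rw [sub_nonneg]
          apply Real.exp_le_exp.2
          exact mul_le_mul_of_nonneg_left h (by linarith)
      have h5 := mul_nonneg h4 (Real.exp_pos (s * a)).le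
      nlinarith
  rw [integral_const_mul, h1, mul_zero, h2] at h3
  linarith

lemma mag_zero : mag N 0 = 0 := by
  rw [mag_eq]
  have h : M1 ((0 : ℝ) • (e0 : EuclideanSpace ℝ (Fin N))) (e0 : EuclideanSpace ℝ (Fin N)) = 0 := by
    have h1 := M1_act (LinearIsometryEquiv.neg ℝ) ((0 : ℝ) • (e0 : EuclideanSpace ℝ (Fin N))) (e0 : EuclideanSpace ℝ (Fin N))
    simp only [LinearIsometryEquiv.coe_neg, zero_smul, neg_zero] at h1
    have h2 := M1_smul (0 : EuclideanSpace ℝ (Fin N)) (e0 : EuclideanSpace ℝ (Fin N)) (-1)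
    rw [neg_one_smul] at h2
    rw [zero_smul]
    linarith
  rw [h, zero_div]

lemma mag_nonneg {t : ℝ} (ht : 0 ≤ t) : 0 ≤ mag N t := by
  rw [← mag_zero (N := N)]; exact mag_mono ht

lemma abs_inner_e0_le (u : Spin N) : |inner ℝ (e0 : EuclideanSpace ℝ (Fin N)) (u : EuclideanSpace ℝ (Fin N))| ≤ 1 := by
  have := abs_real_inner_le_norm (e0 : EuclideanSpace ℝ (Fin N)) (u : EuclideanSpace ℝ (Fin N))
  rw [norm_e0] at this
  simpa using this

lemma M1_zero : M1 (0 : EuclideanSpace ℝ (Fin N)) (e0 : EuclideanSpace ℝ (Fin N)) = 0 := by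
  have h1 := M1_act (LinearIsometryEquiv.neg ℝ) (0 : EuclideanSpace ℝ (Fin N)) (e0 : EuclideanSpace ℝ (Fin N))
  simp only [LinearIsometryEquiv.coe_neg, neg_zero] at h1
  have h2 := M1_smul (0 : EuclideanSpace ℝ (Fin N)) (e0 : EuclideanSpace ℝ (Fin N)) (-1)
  rw [neg_one_smul] at h2
  linarith

/-- the magnetisation is strictly less than one -/
lemma mag_lt_one (t : ℝ) : mag N t < 1 := by
  rw [mag_eq, div_lt_one (M0_pos _)]
  have h3 : ∫ u : Spin N, Real.exp (-|t|) * (Real.exp (inner ℝ (0 : EuclideanSpace ℝ (Fin N)) (u : EuclideanSpace ℝ (Fin N)))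
      - inner ℝ (e0 : EuclideanSpace ℝ (Fin N)) (u : EuclideanSpace ℝ (Fin N)) * Real.exp (inner ℝ (0 : EuclideanSpace ℝ (Fin N)) (u : EuclideanSpace ℝ (Fin N)))) ∂(sph N)
      ≤ ∫ u : Spin N, (Real.exp (inner ℝ (t • (e0 : EuclideanSpace ℝ (Fin N))) (u : EuclideanSpace ℝ (Fin N)))
      - inner ℝ (e0 : EuclideanSpace ℝ (Fin N)) (u : EuclideanSpace ℝ (Fin N)) * Real.exp (inner ℝ (t • (e0 : EuclideanSpace ℝ (Fin N))) (u : EuclideanSpace ℝ (Fin N)))) ∂(sph N) := by
    apply integral_mono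
    · exact (integrable_sph _ ((cont_M0 _).sub (cont_M1 _ _))).const_mul _
    · exact integrable_sph _ ((cont_M0 _).sub (cont_M1 _ _))
    · intro u
      simp only [real_inner_smul_left, inner_zero_left, Real.exp_zero]
      have h1 := abs_inner_e0_le u
      have h4 : Real.exp (-|t|) ≤ Real.exp (t * inner ℝ (e0 : EuclideanSpace ℝ (Fin N)) (u : EuclideanSpace ℝ (Fin N))) := by
        apply Real.exp_le_exp.2
        have h5 : |t * inner ℝ (e0 : EuclideanSpace ℝ (Fin N)) (u : EuclideanSpace ℝ (Fin N))| ≤ |t| := by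
          rw [abs_mul]
          exact mul_le_of_le_one_right (abs_nonneg _) h1
        have := neg_abs_le (t * inner ℝ (e0 : EuclideanSpace ℝ (Fin N)) (u : EuclideanSpace ℝ (Fin N)))
        linarith
      have h6 := (abs_le.1 h1).2
      nlinarith [mul_le_mul_of_nonneg_left h4 (by linarith : 0 ≤ 1 - inner ℝ (e0 : EuclideanSpace ℝ (Fin N)) (u : EuclideanSpace ℝ (Fin N)))]
  rw [integral_const_mul, integral_sub (integrable_sph _ (cont_M0 _)) (integrable_sph _ (cont_M1 _ _)),
    integral_sub (integrable_sph _ (cont_M0 _)) (integrable_sph _ (cont_M1 _ _))] at h3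
  have h4 : Real.exp (-|t|) * (M0 (0 : EuclideanSpace ℝ (Fin N)) - M1 (0 : EuclideanSpace ℝ (Fin N)) e0)
      ≤ M0 (t • (e0 : EuclideanSpace ℝ (Fin N))) - M1 (t • (e0 : EuclideanSpace ℝ (Fin N))) e0 := h3
  rw [M1_zero, sub_zero] at h4
  have h5 : 0 < Real.exp (-|t|) * M0 (0 : EuclideanSpace ℝ (Fin N)) := mul_pos (Real.exp_pos _) (M0_pos _)
  linarith

lemma mag_le_one (t : ℝ) : mag N t ≤ 1 := (mag_lt_one t).le

/-- the response of one spin to a field of strength at most `t` -/
lemma one_site (h v : EuclideanSpace ℝ (Fin N)) (hv : ‖v‖ ≤ 1) {t : ℝ} (ht : ‖h‖ ≤ t) :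
    |M1 h v| ≤ mag N t * M0 h := by
  have ht0 : 0 ≤ t := (norm_nonneg h).trans ht
  -- write `h = s g` with `‖g‖ = 1`
  obtain ⟨g, hg, hgs⟩ : ∃ g : EuclideanSpace ℝ (Fin N), ‖g‖ = 1 ∧ h = ‖h‖ • g := by
    by_cases h0 : h = 0
    · exact ⟨e0, norm_e0, by rw [h0]; simp⟩
    · refine ⟨(‖h‖)⁻¹ • h, ?_, ?_⟩
      · rw [norm_smul, norm_inv, norm_norm, inv_mul_cancel₀ (norm_ne_zero_iff.2 h0)]
      · rw [smul_smul, mul_inv_cancel₀ (norm_ne_zero_iff.2 h0), one_smul]
  have e1 : M1 h v = inner ℝ g v * (mag N ‖h‖ * M0 h) := by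
    conv_lhs => rw [hgs]
    rw [M1_reflect g v hg, M1_dir g hg, ← mag_mul, ← M0_dir g hg, ← hgs]
  have h1 : |inner ℝ g v| ≤ 1 := by
    have := abs_real_inner_le_norm g v
    rw [hg, one_mul] at this
    linarith
  have h2 : 0 ≤ mag N ‖h‖ := mag_nonneg (norm_nonneg _)
  have h3 := (M0_pos h).le
  rw [e1, abs_mul, abs_of_nonneg (mul_nonneg h2 h3)]
  calc |inner ℝ g v| * (mag N ‖h‖ * M0 h) ≤ 1 * (mag N ‖h‖ * M0 h) := by gcongr
    _ ≤ mag N t * M0 h := by
        rw [one_mul]
        exact mul_le_mul_of_nonneg_right (mag_mono ht) h3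

lemma continuous_mag : Continuous (mag N) := by
  have h1 : Continuous fun t : ℝ => M1 (t • (e0 : EuclideanSpace ℝ (Fin N))) (e0 : EuclideanSpace ℝ (Fin N)) := by
    unfold M1
    have := continuous_parametric_integral_of_continuous (μ := sph N)
      (f := fun (t : ℝ) (u : Spin N) => inner ℝ (e0 : EuclideanSpace ℝ (Fin N)) (u : EuclideanSpace ℝ (Fin N))
        * Real.exp (inner ℝ (t • (e0 : EuclideanSpace ℝ (Fin N))) (u : EuclideanSpace ℝ (Fin N)))) (s := univ) ?_ isCompact_univ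
    · simpa using this
    · simp only [real_inner_smul_left]
      have h2 : Continuous fun p : ℝ × Spin N => inner ℝ (e0 : EuclideanSpace ℝ (Fin N)) (p.2 : EuclideanSpace ℝ (Fin N)) :=
        (cont_inner (e0 : EuclideanSpace ℝ (Fin N))).comp continuous_snd
      exact h2.mul (Real.continuous_exp.comp (continuous_fst.mul h2))
  have h0 : Continuous fun t : ℝ => M0 (t • (e0 : EuclideanSpace ℝ (Fin N))) := by
    unfold M0
    have := continuous_parametric_integral_of_continuous (μ := sph N)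
      (f := fun (t : ℝ) (u : Spin N) => Real.exp (inner ℝ (t • (e0 : EuclideanSpace ℝ (Fin N))) (u : EuclideanSpace ℝ (Fin N))))
      (s := univ) ?_ isCompact_univ
    · simpa using this
    · simp only [real_inner_smul_left]
      have h2 : Continuous fun p : ℝ × Spin N => inner ℝ (e0 : EuclideanSpace ℝ (Fin N)) (p.2 : EuclideanSpace ℝ (Fin N)) :=
        (cont_inner (e0 : EuclideanSpace ℝ (Fin N))).comp continuous_snd
      exact Real.continuous_exp.comp (continuous_fst.mul h2)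
  have e : mag N = fun t => M1 (t • (e0 : EuclideanSpace ℝ (Fin N))) (e0 : EuclideanSpace ℝ (Fin N)) / M0 (t • (e0 : EuclideanSpace ℝ (Fin N))) := by
    funext t; exact mag_eq t
  rw [e]
  exact h1.div h0 fun t => (M0_pos _).ne'

end

end Pool.Agent.NVec
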