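import Pool.Agent.H.MP_8be4c0_mp.FKcomb
import Pool.Agent.H.MP_8be4c0_mp.MW2
import Pool.Agent.H.MP_8be4c0_mp.OneSite

/-!
The random cluster representation of the embedded Ising spins.
-/

open MeasureTheory Set Filter Topology

namespace Pool.Agent.NVec

set_option linter.unusedSectionVars false

noncomputable section

variable {n : ℕ} {V : Type} [Fintype V] [DecidableEq V]

/-- the first component of the spin at `i` -/
def s0 (S : V → Spin (n + 2)) (i : V) : ℝ := (S i : EuclideanSpace ℝ (Fin (n + 2))) 0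

lemma continuous_s0 (i : V) : Continuous fun S : V → Spin (n + 2) => s0 S i :=
  continuous_coord i 0

lemma abs_s0_le (S : V → Spin (n + 2)) (i : V) : |s0 S i| ≤ 1 := by
  unfold s0
  have h1 : ‖(S i : EuclideanSpace ℝ (Fin (n + 2)))‖ = 1 := by
    have := (S i).2
    rwa [mem_sphere_zero_iff_norm] at this
  have h3 : ‖(S i : EuclideanSpace ℝ (Fin (n + 2))) 0‖ ≤ ‖(S i : EuclideanSpace ℝ (Fin (n + 2)))‖ :=
    PiLp.norm_apply_le _ 0
  rwa [h1, Real.norm_eq_abs] at h3

/-- the reflection of the first coordinate -/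
def r0 : EuclideanSpace ℝ (Fin (n + 2)) ≃ₗᵢ[ℝ] EuclideanSpace ℝ (Fin (n + 2)) :=
  Submodule.reflection (ℝ ∙ (e0 : EuclideanSpace ℝ (Fin (n + 2))))ᗮ

lemma r0_apply (u : EuclideanSpace ℝ (Fin (n + 2))) : r0 u = u - (2 * u 0) • e0 := by
  unfold r0
  rw [Submodule.reflection_orthogonal_apply, Submodule.reflection_singleton_apply, inner_e0,
    norm_e0]
  simp only [RCLike.ofReal_real_eq_id, id_eq, one_pow, div_one, neg_sub]
  rw [two_mul, add_smul, two_smul]

lemma r0_zero (u : EuclideanSpace ℝ (Fin (n + 2))) : (r0 u) 0 = -u 0 := by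
  rw [r0_apply, ← inner_e0, inner_sub_right, inner_smul_right, real_inner_self_eq_norm_sq,
    norm_e0, inner_e0]
  ring

/-- flipping the first component of the spins in `C` -/
def flipS (C : Finset V) (S : V → Spin (n + 2)) : V → Spin (n + 2) :=
  fun i => act (if i ∈ C then r0 else LinearIsometryEquiv.refl ℝ _) (S i)

lemma s0_flipS (C : Finset V) (S : V → Spin (n + 2)) (i : V) :
    s0 (flipS C S) i = if i ∈ C then -s0 S i else s0 S i := by
  unfold s0 flipS
  rw [coe_act]
  split_ifs
  · exact r0_zero _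
  · rfl

lemma inner_flipS (C : Finset V) (S : V → Spin (n + 2)) (i k : V) :
    inner ℝ (flipS C S i : EuclideanSpace ℝ (Fin (n + 2))) (flipS C S k)
      = if (i ∈ C ↔ k ∈ C) then inner ℝ (S i : EuclideanSpace ℝ (Fin (n + 2))) (S k)
        else inner ℝ (S i : EuclideanSpace ℝ (Fin (n + 2))) (S k) - 2 * (s0 S i * s0 S k) := by
  unfold flipS s0
  rw [coe_act, coe_act]
  by_cases hi : i ∈ C
  · by_cases hk : k ∈ C
    · simp only [hi, hk, if_true, iff_self]
      exact LinearIsometryEquiv.inner_map_map r0 _ _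
    · simp only [hi, hk, if_true, if_false, iff_false, not_true_eq_false,
        LinearIsometryEquiv.coe_refl, id_eq]
      rw [r0_apply, inner_sub_left, real_inner_smul_left, inner_e0]
      ring
  · by_cases hk : k ∈ C
    · simp only [hi, hk, if_true, if_false, iff_true,
        LinearIsometryEquiv.coe_refl, id_eq]
      rw [r0_apply, inner_sub_right, inner_smul_right, real_inner_comm e0, inner_e0]
      ring
    · simp only [hi, hk, if_false, iff_self, if_true, LinearIsometryEquiv.coe_refl, id_eq]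

/-- the opening probability of an ordered pair -/
def pe (c : V → V → ℝ) (S : V → Spin (n + 2)) (e : V × V) : ℝ :=
  if e.1 = e.2 then 0 else 1 - Real.exp (-2 * c e.1 e.2 * max 0 (s0 S e.1 * s0 S e.2))

lemma pe_nonneg {c : V → V → ℝ} (hc : ∀ i k, i ≠ k → 0 ≤ c i k) (S : V → Spin (n + 2))
    (e : V × V) : 0 ≤ pe c S e := by
  unfold pe
  split_ifs with h
  · exact le_refl _
  · have h1 := hc _ _ h
    have h2 : 0 ≤ max 0 (s0 S e.1 * s0 S e.2) := le_max_left _ _
    have h3 : Real.exp (-2 * c e.1 e.2 * max 0 (s0 S e.1 * s0 S e.2)) ≤ 1 := by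
      apply Real.exp_le_one_iff.2
      have := mul_nonneg h1 h2
      linarith
    linarith

lemma pe_le_one {c : V → V → ℝ} (S : V → Spin (n + 2)) (e : V × V) : pe c S e ≤ 1 := by
  unfold pe
  split_ifs with h
  · exact zero_le_one
  · have := Real.exp_pos (-2 * c e.1 e.2 * max 0 (s0 S e.1 * s0 S e.2))
    linarith

lemma pe_le {c : V → V → ℝ} (hc : ∀ i k, i ≠ k → 0 ≤ c i k) (S : V → Spin (n + 2))
    (e : V × V) (he : e.1 ≠ e.2) : pe c S e ≤ 2 * c e.1 e.2 * (|s0 S e.1| * |s0 S e.2|) := by
  unfold pe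
  rw [if_neg he]
  have h1 := hc _ _ he
  have h3 := Real.add_one_le_exp (-2 * c e.1 e.2 * max 0 (s0 S e.1 * s0 S e.2))
  have h4 : max 0 (s0 S e.1 * s0 S e.2) ≤ |s0 S e.1| * |s0 S e.2| := by
    rw [← abs_mul]
    exact max_le (abs_nonneg _) (le_abs_self _)
  have h5 := mul_le_mul_of_nonneg_left h4 h1
  linarith

lemma continuous_pe (c : V → V → ℝ) (e : V × V) :
    Continuous fun S : V → Spin (n + 2) => pe c S e := by
  unfold pe
  split_ifs
  · exact continuous_const
  · exact continuous_const.sub (Real.continuous_exp.comp (continuous_const.mul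
      (continuous_const.max ((continuous_s0 _).mul (continuous_s0 _)))))

lemma continuous_qg (c : V → V → ℝ) (E η : Finset (V × V)) :
    Continuous fun S : V → Spin (n + 2) => qg (pe c S) E η := by
  unfold qg
  exact (continuous_finsetProd _ fun e _ => continuous_pe c e).mul
    (continuous_finsetProd _ fun e _ => continuous_const.sub (continuous_pe c e))

/-- the joint weight -/
def om (c : V → V → ℝ) (η : Finset (V × V)) (S : V → Spin (n + 2)) : ℝ :=
  Real.exp (W c 0 S) * qg (pe c S) Finset.univ η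

lemma continuous_om (c : V → V → ℝ) (η : Finset (V × V)) :
    Continuous (om c η : (V → Spin (n + 2)) → ℝ) :=
  (continuous_expW c 0).mul (continuous_qg c _ _)

lemma om_nonneg {c : V → V → ℝ} (hc : ∀ i k, i ≠ k → 0 ≤ c i k) (η : Finset (V × V))
    (S : V → Spin (n + 2)) : 0 ≤ om c η S :=
  mul_nonneg (Real.exp_pos _).le (qg_nonneg (pe_nonneg hc S) (pe_le_one S) _ _)

/-- the weight as a product over the pairs -/
lemma om_eq (c : V → V → ℝ) (η : Finset (V × V)) (S : V → Spin (n + 2)) :
    om c η S = ∏ e : V × V,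
      (Real.exp (c e.1 e.2 * inner ℝ (S e.1 : EuclideanSpace ℝ (Fin (n + 2))) (S e.2))
        * if e ∈ η then pe c S e else 1 - pe c S e) := by
  unfold om
  rw [Finset.prod_mul_distrib]
  congr 1
  · rw [← Real.exp_sum]
    congr 1
    unfold W
    rw [Fintype.sum_prod_type]
    refine Finset.sum_congr rfl fun i _ => Finset.sum_congr rfl fun k _ => ?_
    simp
  · unfold qg
    rw [Finset.prod_ite]
    congr 1
    · apply Finset.prod_congr _ fun _ _ => rfl
      ext e; simp
    · apply Finset.prod_congr _ fun _ _ => rfl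
      ext e; simp

/-- **flip invariance** -/
lemma om_flipS (c : V → V → ℝ) (η : Finset (V × V)) (C : Finset V)
    (hC : ∀ e ∈ η, (e.1 ∈ C ↔ e.2 ∈ C)) (S : V → Spin (n + 2)) :
    om c η (flipS C S) = om c η S := by
  rw [om_eq, om_eq]
  refine Finset.prod_congr rfl fun e _ => ?_
  rw [inner_flipS]
  by_cases hiff : (e.1 ∈ C ↔ e.2 ∈ C)
  · rw [if_pos hiff]
    have hs : s0 (flipS C S) e.1 * s0 (flipS C S) e.2 = s0 S e.1 * s0 S e.2 := by
      rw [s0_flipS, s0_flipS]
      by_cases h1 : e.1 ∈ C
      · have h2 := hiff.1 h1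
        rw [if_pos h1, if_pos h2]; ring
      · have h2 : e.2 ∉ C := fun h => h1 (hiff.2 h)
        rw [if_neg h1, if_neg h2]
    have hp : pe c (flipS C S) e = pe c S e := by
      unfold pe; rw [hs]
    rw [hp]
  · rw [if_neg hiff]
    have heη : e ∉ η := fun h => hiff (hC e h)
    rw [if_neg heη, if_neg heη]
    have hne : e.1 ≠ e.2 := fun h => hiff (by rw [h])
    have hs : s0 (flipS C S) e.1 * s0 (flipS C S) e.2 = -(s0 S e.1 * s0 S e.2) := by
      rw [s0_flipS, s0_flipS]
      by_cases h1 : e.1 ∈ C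
      · have h2 : e.2 ∉ C := fun h => hiff ⟨fun _ => h, fun _ => h1⟩
        rw [if_pos h1, if_neg h2]; ring
      · have h2 : e.2 ∈ C := by
          by_contra h
          exact hiff ⟨fun h' => absurd h' h1, fun h' => absurd h' h⟩
        rw [if_neg h1, if_pos h2]; ring
    unfold pe
    rw [if_neg hne, if_neg hne, hs, sub_sub_cancel, sub_sub_cancel, ← Real.exp_add,
      ← Real.exp_add]
    congr 1
    set s := s0 S e.1 * s0 S e.2
    rcases le_total 0 s with h | h
    · rw [max_eq_right h, max_eq_left (by linarith : -s ≤ 0)]; ring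
    · rw [max_eq_left h, max_eq_right (by linarith : 0 ≤ -s)]; ring

lemma continuous_flipS (C : Finset V) : Continuous (flipS C : (V → Spin (n + 2)) → _) :=
  continuous_pi fun i => (continuous_act _).comp (continuous_apply i)

lemma integral_flipS (C : Finset V) (f : (V → Spin (n + 2)) → ℝ) (hf : Continuous f) :
    ∫ S, f (flipS C S) ∂(apriori V (n + 2)) = ∫ S, f S ∂(apriori V (n + 2)) :=
  integral_actAll _ f hf

end

end Pool.Agent.NVec
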