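import Pool.Agent.H.MP_8be4c0_mp.Bc
import Pool.Agent.H.MP_8be4c0_mp.FKspin

/-!
The Simon-Lieb type inequality.
-/

open MeasureTheory Set Filter Topology

namespace Pool.Agent.NVec

set_option linter.unusedSectionVars false

noncomputable section

variable {n : ℕ} {V : Type} [Fintype V] [DecidableEq V]

/-- the sum over the configurations of pairs -/
lemma sum_om (c : V → V → ℝ) (S : V → Spin (n + 2)) :
    ∑ η ∈ (Finset.univ : Finset (V × V)).powerset, om c η S = Real.exp (W c 0 S) := by
  unfold om
  rw [← Finset.mul_sum, qg_sum, mul_one]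

/-- spins in one cluster have the same sign -/
lemma sign_reach (c : V → V → ℝ) (η : Finset (V × V))
    (S : V → Spin (n + 2)) (hom : om c η S ≠ 0) {x v : V} (h : reach η x v) :
    0 ≤ s0 S x * s0 S v := by
  have hpos : ∀ e ∈ η, 0 < s0 S e.1 * s0 S e.2 := by
    intro e he
    by_contra hcon
    push Not at hcon
    apply hom
    rw [om_eq]
    apply Finset.prod_eq_zero (Finset.mem_univ e)
    rw [if_pos he]
    have : pe c S e = 0 := by
      unfold pe
      split_ifs
      · rfl
      · rw [max_eq_left hcon, mul_zero, Real.exp_zero, sub_self]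
    rw [this, mul_zero]
  unfold reach at h
  induction h with
  | refl => exact mul_self_nonneg _
  | @tail v w _ hvw ih =>
    have h1 : 0 < s0 S v * s0 S w := by
      rcases hvw with h | h
      · exact hpos _ h
      · rw [mul_comm]; exact hpos _ h
    have h2 : s0 S v ≠ 0 := by
      intro h0; rw [h0, zero_mul] at h1; exact lt_irrefl _ h1
    have h3 : 0 < s0 S v ^ 2 := by positivity
    have h4 : 0 ≤ (s0 S x * s0 S v) * (s0 S v * s0 S w) := mul_nonneg ih h1.le
    have h5 : (s0 S x * s0 S v) * (s0 S v * s0 S w) = s0 S v ^ 2 * (s0 S x * s0 S w) := by ring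
    rw [h5] at h4
    exact nonneg_of_mul_nonneg_right h4 h3

lemma mul_om_of_reach (c : V → V → ℝ) (η : Finset (V × V)) (S : V → Spin (n + 2)) {x v : V}
    (h : reach η x v) : s0 S x * s0 S v * om c η S = |s0 S x| * |s0 S v| * om c η S := by
  by_cases hom : om c η S = 0
  · rw [hom, mul_zero, mul_zero]
  · rw [← abs_mul, abs_of_nonneg (sign_reach c η S hom h)]

/-- the correlation of the signs of two sites in different clusters vanishes -/
lemma integral_om_of_not_reach (c : V → V → ℝ) (η : Finset (V × V)) {x v : V}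
    (h : ¬ reach η x v) (H : (V → Spin (n + 2)) → ℝ) (hHc : Continuous H)
    (hH : ∀ C S, H (flipS C S) = H S) :
    ∫ S, s0 S x * s0 S v * H S * om c η S ∂(apriori V (n + 2)) = 0 := by
  classical
  set C : Finset V := Finset.univ.filter fun w => reach η x w with hC
  have hCm : ∀ w, w ∈ C ↔ reach η x w := fun w => by rw [hC]; simp
  have hx : x ∈ C := (hCm x).2 (reach_refl _ _)
  have hv : v ∉ C := fun hv => h ((hCm v).1 hv)
  have hcl : ∀ e ∈ η, (e.1 ∈ C ↔ e.2 ∈ C) := by
    intro e he
    rw [hCm, hCm]
    constructor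
    · intro h1
      exact reach_trans h1 (Relation.ReflTransGen.single (Or.inl he))
    · intro h1
      exact reach_trans h1 (Relation.ReflTransGen.single (Or.inr he))
  have hcont : Continuous fun S : V → Spin (n + 2) => s0 S x * s0 S v * H S * om c η S :=
    (((continuous_s0 x).mul (continuous_s0 v)).mul hHc).mul (continuous_om c η)
  have h1 := integral_flipS C _ hcont
  have h2 : ∀ S : V → Spin (n + 2), s0 (flipS C S) x * s0 (flipS C S) v * H (flipS C S)
      * om c η (flipS C S) = -(s0 S x * s0 S v * H S * om c η S) := by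
    intro S
    rw [s0_flipS, s0_flipS, if_pos hx, if_neg hv, hH, om_flipS c η C hcl]
    ring
  simp_rw [h2] at h1
  rw [integral_neg] at h1
  linarith

/-- the two-point function as a connectivity -/
lemma integral_om (c : V → V → ℝ) (η : Finset (V × V)) {x v : V} [Decidable (reach η x v)]
    (H : (V → Spin (n + 2)) → ℝ) (hHc : Continuous H) (hH : ∀ C S, H (flipS C S) = H S) :
    ∫ S, s0 S x * s0 S v * H S * om c η S ∂(apriori V (n + 2))
      = if reach η x v then ∫ S, |s0 S x| * |s0 S v| * H S * om c η S ∂(apriori V (n + 2))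
        else 0 := by
  split_ifs with h
  · refine integral_congr_ae (Eventually.of_forall fun S => ?_)
    have := mul_om_of_reach c η S h
    simp only
    calc s0 S x * s0 S v * H S * om c η S = H S * (s0 S x * s0 S v * om c η S) := by ring
      _ = H S * (|s0 S x| * |s0 S v| * om c η S) := by rw [this]
      _ = _ := by ring
  · exact integral_om_of_not_reach c η h H hHc hH

/-- the unnormalised two-point function of the first components -/
def G1 (n : ℕ) (c : V → V → ℝ) (x y : V) : ℝ :=
  ∫ S : V → Spin (n + 2), s0 S x * s0 S y * Real.exp (W c 0 S) ∂(apriori V (n + 2))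

/-- splitting over the configurations of pairs -/
lemma integral_expW_eq (c : V → V → ℝ) (f : (V → Spin (n + 2)) → ℝ) (hf : Continuous f) :
    ∫ S, f S * Real.exp (W c 0 S) ∂(apriori V (n + 2))
      = ∑ η ∈ (Finset.univ : Finset (V × V)).powerset,
        ∫ S, f S * om c η S ∂(apriori V (n + 2)) := by
  have h := integral_finsetSum (μ := apriori V (n + 2))
    (Finset.univ : Finset (V × V)).powerset (f := fun η S => f S * om c η S)
    fun η _ => integrable_cont _ (hf.mul (continuous_om c η))
  rw [← h]
  refine integral_congr_ae (Eventually.of_forall fun S => ?_)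
  simp only
  rw [← sum_om c S, Finset.mul_sum]

open Classical in
lemma G1_eq (c : V → V → ℝ) (x y : V) :
    G1 n c x y = ∑ η ∈ (Finset.univ : Finset (V × V)).powerset,
      if reach η x y then ∫ S : V → Spin (n + 2), |s0 S x| * |s0 S y| * om c η S
        ∂(apriori V (n + 2)) else 0 := by
  unfold G1
  rw [integral_expW_eq c (fun S => s0 S x * s0 S y) ((continuous_s0 x).mul (continuous_s0 y))]
  refine Finset.sum_congr rfl fun η _ => ?_
  have h := integral_om (n := n) c η (x := x) (v := y) (fun _ => 1) continuous_const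
    (fun _ _ => rfl)
  simpa using h

open Classical in
/-- the outside factor -/
def Zt (c : V → V → ℝ) (B : Finset V) (c' y : V) (S : V → Spin (n + 2)) : ℝ :=
  |s0 S c'| * |s0 S y| * ∑ η ∈ (outE B).powerset,
    (if reach η c' y then 1 else 0) * qg (pe c S) (outE B) η

lemma continuous_Zt (c : V → V → ℝ) (B : Finset V) (c' y : V) :
    Continuous (Zt c B c' y : (V → Spin (n + 2)) → ℝ) := by
  unfold Zt
  exact ((continuous_s0 c').abs.mul (continuous_s0 y).abs).mul
    (continuous_finsetSum _ fun η _ => continuous_const.mul (continuous_qg c _ _))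

lemma Zt_nonneg {c : V → V → ℝ} (hc : ∀ i k, i ≠ k → 0 ≤ c i k) (B : Finset V) (c' y : V)
    (S : V → Spin (n + 2)) : 0 ≤ Zt c B c' y S := by
  unfold Zt
  refine mul_nonneg (mul_nonneg (abs_nonneg _) (abs_nonneg _))
    (Finset.sum_nonneg fun η _ => mul_nonneg ?_ (qg_nonneg (pe_nonneg hc S) (pe_le_one S) _ _))
  split_ifs <;> norm_num

/-- the outside factor only depends on the spins outside -/
lemma Zt_merge (c : V → V → ℝ) {B B₀ : Finset V} (hB : B₀ ⊆ B) {c' y : V} (hc' : c' ∉ B)
    (hy : y ∉ B) (u τ : V → Spin (n + 2)) : Zt c B c' y (merge B₀ u τ) = Zt c B c' y τ := by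
  have h0 : ∀ v, v ∉ B → s0 (merge B₀ u τ) v = s0 τ v := by
    intro v hv
    unfold s0
    rw [merge_out (fun h => hv (hB h))]
  have hp : ∀ e ∈ outE B, pe c (merge B₀ u τ) e = pe c τ e := by
    intro e he
    rw [mem_outE] at he
    unfold pe
    rw [h0 _ he.1, h0 _ he.2]
  unfold Zt
  rw [h0 _ hc', h0 _ hy]
  congr 1
  refine Finset.sum_congr rfl fun η hη => ?_
  rw [Finset.mem_powerset] at hη
  congr 1
  unfold qg
  have e1 : ∏ e ∈ η, pe c (merge B₀ u τ) e = ∏ e ∈ η, pe c τ e :=
    Finset.prod_congr rfl fun e he => hp e (hη he)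
  have e2 : ∏ e ∈ outE B \ η, (1 - pe c (merge B₀ u τ) e) = ∏ e ∈ outE B \ η, (1 - pe c τ e) :=
    Finset.prod_congr rfl fun e he => by rw [hp e (Finset.mem_sdiff.1 he).1]
  rw [e1, e2]

open Classical in
lemma Zt_expW (c : V → V → ℝ) (B : Finset V) (c' y : V) (S : V → Spin (n + 2)) :
    Zt c B c' y S * Real.exp (W c 0 S)
      = ∑ η ∈ (Finset.univ : Finset (V × V)).powerset,
        (if reach (η ∩ outE B) c' y then 1 else 0) * (|s0 S c'| * |s0 S y|) * om c η S := by
  have h := qg_restrict' (pe c S) (Finset.subset_univ (outE B))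
    (fun η => if reach η c' y then (1 : ℝ) else 0)
  unfold Zt om
  rw [← h, Finset.mul_sum, Finset.sum_mul]
  refine Finset.sum_congr rfl fun η _ => ?_
  ring

lemma integral_Zt_le {c : V → V → ℝ} (hc : ∀ i k, i ≠ k → 0 ≤ c i k) (B : Finset V) (c' y : V) :
    ∫ S : V → Spin (n + 2), Zt c B c' y S * Real.exp (W c 0 S) ∂(apriori V (n + 2))
      ≤ G1 n c c' y := by
  classical
  simp_rw [Zt_expW]
  have h := integral_finsetSum (μ := apriori V (n + 2))
    (Finset.univ : Finset (V × V)).powerset
    (f := fun η S => (if reach (η ∩ outE B) c' y then 1 else 0) * (|s0 S c'| * |s0 S y|)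
      * om c η S)
    fun η _ => integrable_cont _ ((continuous_const.mul
      ((continuous_s0 c').abs.mul (continuous_s0 y).abs)).mul (continuous_om c η))
  rw [h, G1_eq]
  refine Finset.sum_le_sum fun η _ => ?_
  have hI0 : 0 ≤ ∫ S : V → Spin (n + 2), |s0 S c'| * |s0 S y| * om c η S
      ∂(apriori V (n + 2)) :=
    integral_nonneg fun S => mul_nonneg (mul_nonneg (abs_nonneg _) (abs_nonneg _))
      (om_nonneg hc η S)
  by_cases h : reach (η ∩ outE B) c' y
  · have h' : reach η c' y := reach_mono Finset.inter_subset_left h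
    simp only [if_pos h, if_pos h', one_mul]
    exact le_refl _
  · simp only [if_neg h, zero_mul, integral_zero]
    split_ifs
    · exact hI0
    · exact le_refl _

open Classical in
/-- the indicator of a last exit through `e` -/
def Iex (B : Finset V) (x y c₁ c₂ : V) (e : V × V) (η : Finset (V × V)) : ℝ :=
  if e ∈ η then (if reach (η.erase e) x c₁ ∧ reach ((η.erase e) ∩ outE B) c₂ y then 1 else 0)
    else 0

/-- the contribution of one pair -/
lemma edge_bound {c : V → V → ℝ} (hc : ∀ i k, i ≠ k → 0 ≤ c i k) {B : Finset V} {x y c₁ c₂ : V}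
    (h1 : c₁ ∈ B) (h2 : c₂ ∉ B) {e : V × V} (he : e = (c₁, c₂) ∨ e = (c₂, c₁)) :
    ∑ η ∈ (Finset.univ : Finset (V × V)).powerset, Iex B x y c₁ c₂ e η *
      ∫ S : V → Spin (n + 2), |s0 S x| * |s0 S y| * om c η S ∂(apriori V (n + 2))
      ≤ 2 * c e.1 e.2 * ∫ S : V → Spin (n + 2), s0 S x * s0 S c₁ * Zt c B c₂ y S
        * Real.exp (W c 0 S) ∂(apriori V (n + 2)) := by
  classical
  have hne : e.1 ≠ e.2 := by
    have : c₁ ≠ c₂ := fun h => h2 (h ▸ h1)
    rcases he with rfl | rfl
    · exact this
    · exact this.symm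
  have hce := hc _ _ hne
  have hcont : ∀ η : Finset (V × V), Continuous fun S : V → Spin (n + 2) =>
      |s0 S x| * |s0 S y| * om c η S :=
    fun η => ((continuous_s0 x).abs.mul (continuous_s0 y).abs).mul (continuous_om c η)
  -- left side as one integral
  have hL : ∑ η ∈ (Finset.univ : Finset (V × V)).powerset, Iex B x y c₁ c₂ e η *
      ∫ S : V → Spin (n + 2), |s0 S x| * |s0 S y| * om c η S ∂(apriori V (n + 2))
      = ∫ S : V → Spin (n + 2), ∑ η ∈ (Finset.univ : Finset (V × V)).powerset,
        Iex B x y c₁ c₂ e η * (|s0 S x| * |s0 S y| * om c η S) ∂(apriori V (n + 2)) := by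
    have h := integral_finsetSum (μ := apriori V (n + 2))
      (Finset.univ : Finset (V × V)).powerset
      (f := fun η S => Iex B x y c₁ c₂ e η * (|s0 S x| * |s0 S y| * om c η S))
      fun η _ => integrable_cont _ (continuous_const.mul (hcont η))
    rw [h]
    refine Finset.sum_congr rfl fun η _ => ?_
    rw [integral_const_mul]
  -- right side as a sum
  set H : Finset (V × V) → (V → Spin (n + 2)) → ℝ := fun η S =>
    (if reach (η ∩ outE B) c₂ y then 1 else 0) * (|s0 S c₂| * |s0 S y|) with hH
  have hHc : ∀ η, Continuous (H η) := fun η =>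
    continuous_const.mul ((continuous_s0 c₂).abs.mul (continuous_s0 y).abs)
  have hHf : ∀ η C S, H η (flipS C S) = H η S := by
    intro η C S
    rw [hH]
    simp only
    rw [s0_flipS, s0_flipS]
    congr 1
    congr 1
    · split_ifs
      · rw [abs_neg]
      · rfl
    · split_ifs
      · rw [abs_neg]
      · rfl
  have hR : ∫ S : V → Spin (n + 2), s0 S x * s0 S c₁ * Zt c B c₂ y S
        * Real.exp (W c 0 S) ∂(apriori V (n + 2))
      = ∫ S : V → Spin (n + 2), ∑ η ∈ (Finset.univ : Finset (V × V)).powerset,
        (if reach η x c₁ then 1 else 0) * (|s0 S x| * |s0 S c₁| * H η S * om c η S)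
          ∂(apriori V (n + 2)) := by
    have e1 : ∀ S : V → Spin (n + 2), s0 S x * s0 S c₁ * Zt c B c₂ y S * Real.exp (W c 0 S)
        = ∑ η ∈ (Finset.univ : Finset (V × V)).powerset, s0 S x * s0 S c₁ * H η S * om c η S := by
      intro S
      rw [mul_assoc, Zt_expW, Finset.mul_sum]
      refine Finset.sum_congr rfl fun η _ => ?_
      rw [hH]
      ring
    simp_rw [e1]
    have h := integral_finsetSum (μ := apriori V (n + 2))
      (Finset.univ : Finset (V × V)).powerset
      (f := fun η S => s0 S x * s0 S c₁ * H η S * om c η S)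
      fun η _ => integrable_cont _ ((((continuous_s0 x).mul (continuous_s0 c₁)).mul (hHc η)).mul
        (continuous_om c η))
    have h' := integral_finsetSum (μ := apriori V (n + 2))
      (Finset.univ : Finset (V × V)).powerset
      (f := fun η S => (if reach η x c₁ then 1 else 0)
        * (|s0 S x| * |s0 S c₁| * H η S * om c η S))
      fun η _ => integrable_cont _ (continuous_const.mul
        ((((continuous_s0 x).abs.mul (continuous_s0 c₁).abs).mul (hHc η)).mul
        (continuous_om c η)))
    rw [h, h']
    refine Finset.sum_congr rfl fun η _ => ?_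
    rw [integral_om c η (H η) (hHc η) (hHf η), integral_const_mul]
    split_ifs
    · rw [one_mul]
    · rw [zero_mul]
  rw [hL, hR, ← integral_const_mul]
  apply integral_mono
  · exact integrable_cont _ (continuous_finsetSum _ fun η _ => continuous_const.mul (hcont η))
  · exact integrable_cont _ (continuous_const.mul (continuous_finsetSum _ fun η _ =>
      continuous_const.mul ((((continuous_s0 x).abs.mul (continuous_s0 c₁).abs).mul (hHc η)).mul
        (continuous_om c η))))
  intro S
  simp only
  set F : Finset (V × V) → ℝ := fun t =>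
    if reach t x c₁ ∧ reach (t ∩ outE B) c₂ y then 1 else 0 with hF
  have hq0 : ∀ η, 0 ≤ qg (pe c S) Finset.univ η :=
    fun η => qg_nonneg (pe_nonneg hc S) (pe_le_one S) _ _
  have hF0 : ∀ t, 0 ≤ F t := fun t => by rw [hF]; simp only; split_ifs <;> norm_num
  have hFm : ∀ t t' : Finset (V × V), t ⊆ t' → F t ≤ F t' := by
    intro t t' htt'
    rw [hF]
    simp only
    by_cases h : reach t x c₁ ∧ reach (t ∩ outE B) c₂ y
    · have h' : reach t' x c₁ ∧ reach (t' ∩ outE B) c₂ y :=
        ⟨reach_mono htt' h.1, reach_mono (Finset.inter_subset_inter_right htt') h.2⟩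
      rw [if_pos h, if_pos h']
    · rw [if_neg h]
      split_ifs <;> norm_num
  have hedge := qg_edge (pe c S) (Finset.mem_univ e) F
  have hX : 0 ≤ |s0 S x| * |s0 S y| * Real.exp (W c 0 S) := by positivity
  calc ∑ η ∈ (Finset.univ : Finset (V × V)).powerset,
        Iex B x y c₁ c₂ e η * (|s0 S x| * |s0 S y| * om c η S)
      = (|s0 S x| * |s0 S y| * Real.exp (W c 0 S)) *
        ∑ η ∈ (Finset.univ : Finset (V × V)).powerset,
          (if e ∈ η then F (η.erase e) else 0) * qg (pe c S) Finset.univ η := by
        rw [Finset.mul_sum]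
        refine Finset.sum_congr rfl fun η _ => ?_
        unfold Iex om
        rw [hF]
        ring
    _ = (|s0 S x| * |s0 S y| * Real.exp (W c 0 S)) * (pe c S e *
        ∑ η ∈ (Finset.univ : Finset (V × V)).powerset,
          F (η.erase e) * qg (pe c S) Finset.univ η) := by rw [hedge]
    _ ≤ (|s0 S x| * |s0 S y| * Real.exp (W c 0 S)) * ((2 * c e.1 e.2 * (|s0 S c₁| * |s0 S c₂|)) *
        ∑ η ∈ (Finset.univ : Finset (V × V)).powerset, F η * qg (pe c S) Finset.univ η) := by
        apply mul_le_mul_of_nonneg_left _ hX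
        apply mul_le_mul
        · refine (pe_le hc S e hne).trans (le_of_eq ?_)
          rcases he with rfl | rfl
          · rfl
          · simp only; ring
        · refine Finset.sum_le_sum fun η _ => ?_
          exact mul_le_mul_of_nonneg_right (hFm _ _ (Finset.erase_subset e η)) (hq0 η)
        · exact Finset.sum_nonneg fun η _ => mul_nonneg (hF0 _) (hq0 η)
        · positivity
    _ = 2 * c e.1 e.2 * ∑ η ∈ (Finset.univ : Finset (V × V)).powerset,
        (if reach η x c₁ then 1 else 0) * (|s0 S x| * |s0 S c₁| * H η S * om c η S) := by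
        rw [Finset.mul_sum, Finset.mul_sum, Finset.mul_sum]
        refine Finset.sum_congr rfl fun η _ => ?_
        rw [hF, hH]
        unfold om
        simp only
        by_cases h1 : reach η x c₁
        · by_cases h2 : reach (η ∩ outE B) c₂ y
          · rw [if_pos ⟨h1, h2⟩, if_pos h1, if_pos h2]; ring
          · rw [if_neg (fun h => h2 h.2), if_neg h2]; ring
        · rw [if_neg (fun h => h1 h.1), if_neg h1]; ring

end

end Pool.Agent.NVec
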