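import Pool.Agent.H.MP_8be4c0_mp.OneSite
import Pool.Agent.H.MP_8be4c0_mp.Abs

/-!
Resampling one spin, and the bound of a pair correlation by the one-site magnetisation.
-/

open MeasureTheory Set Filter Topology

namespace Pool.Agent.NVec

set_option linter.unusedSectionVars false
set_option linter.unusedSimpArgs false

noncomputable section

section

variable {V : Type} [Fintype V] [DecidableEq V] {N : ℕ} [NeZero N]

lemma sph_univ_ne_zero : sph N univ ≠ 0 := by
  have h1 : sph N ≠ 0 := by
    unfold sph
    have : Nontrivial (EuclideanSpace ℝ (Fin N)) := by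
      obtain ⟨n, rfl⟩ : ∃ n, N = n + 1 := ⟨N - 1, by have := NeZero.pos N; omega⟩
      infer_instance
    exact Measure.toSphere_ne_zero _
  exact Measure.measure_univ_ne_zero.2 h1

lemma measurable_update_pair (i : V) :
    Measurable fun p : (V → Spin N) × Spin N => Function.update p.1 i p.2 := by
  rw [measurable_pi_iff]
  intro j
  by_cases hj : j = i
  · subst hj
    simpa using measurable_snd
  · simp only [Function.update_of_ne hj]
    exact (measurable_pi_apply j).comp measurable_fst

lemma map_update (i : V) :
    Measure.map (fun p : (V → Spin N) × Spin N => Function.update p.1 i p.2)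
      ((apriori V N).prod (sph N)) = (sph N univ) • apriori V N := by
  have hc0 : sph N univ ≠ 0 := sph_univ_ne_zero
  have hct : sph N univ ≠ ⊤ := measure_ne_top _ _
  have h : apriori V N = (sph N univ)⁻¹ •
      Measure.map (fun p : (V → Spin N) × Spin N => Function.update p.1 i p.2)
      ((apriori V N).prod (sph N)) := by
    unfold apriori
    apply Measure.pi_eq
    intro s hs
    rw [Measure.smul_apply, Measure.map_apply (measurable_update_pair i)
      (MeasurableSet.univ_pi hs)]
    have hpre : (fun p : (V → Spin N) × Spin N => Function.update p.1 i p.2) ⁻¹' (univ.pi s)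
        = (univ.pi (Function.update s i univ)) ×ˢ (s i) := by
      ext p
      simp only [mem_preimage, mem_univ_pi, mem_prod]
      constructor
      · intro h
        refine ⟨fun j => ?_, ?_⟩
        · by_cases hj : j = i
          · subst hj; simp
          · have := h j
            rw [Function.update_of_ne hj] at this ⊢
            exact this
        · have := h i
          simpa using this
      · rintro ⟨h1, h2⟩ j
        by_cases hj : j = i
        · subst hj; simpa using h2
        · have := h1 j
          rw [Function.update_of_ne hj] at this ⊢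
          exact this
    rw [hpre, Measure.prod_prod, Measure.pi_pi]
    have e : ∏ j, sph N (Function.update s i univ j)
        = sph N univ * ∏ j ∈ Finset.univ.erase i, sph N (s j) := by
      rw [← Finset.mul_prod_erase Finset.univ (fun j => sph N (Function.update s i univ j))
        (Finset.mem_univ i)]
      congr 1
      · simp
      · refine Finset.prod_congr rfl fun j hj => ?_
        rw [Function.update_of_ne (Finset.ne_of_mem_erase hj)]
    rw [e, smul_eq_mul, ← Finset.mul_prod_erase Finset.univ (fun j => sph N (s j))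
      (Finset.mem_univ i)]
    rw [mul_assoc, ← mul_assoc, ENNReal.inv_mul_cancel hc0 hct, one_mul, mul_comm]
  conv_rhs => rw [h]
  rw [smul_smul, ENNReal.mul_inv_cancel hc0 hct, one_smul]

lemma continuous_update_pair (i : V) :
    Continuous fun p : (V → Spin N) × Spin N => Function.update p.1 i p.2 :=
  continuous_fst.update i continuous_snd

/-- resampling the spin at the site `i` -/
lemma resample (i : V) (f : (V → Spin N) → ℝ) (hf : Continuous f) :
    ∫ S, ∫ u, f (Function.update S i u) ∂(sph N) ∂(apriori V N)
      = (sph N).real univ * ∫ S, f S ∂(apriori V N) := by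
  have h1 : Continuous fun p : (V → Spin N) × Spin N => f (Function.update p.1 i p.2) :=
    hf.comp (continuous_update_pair i)
  have hint : Integrable (fun p : (V → Spin N) × Spin N => f (Function.update p.1 i p.2))
      ((apriori V N).prod (sph N)) := by
    obtain ⟨C, hC⟩ := (isCompact_univ (X := (V → Spin N) × Spin N)).exists_bound_of_continuousOn
      h1.continuousOn
    exact (integrable_const C).mono' h1.aestronglyMeasurable
      (Filter.Eventually.of_forall fun x => hC x (mem_univ _))
  rw [← integral_prod _ hint]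
  have h2 : ∫ S, f S ∂(Measure.map (fun p : (V → Spin N) × Spin N => Function.update p.1 i p.2)
      ((apriori V N).prod (sph N)))
      = ∫ p, f (Function.update p.1 i p.2) ∂((apriori V N).prod (sph N)) := by
    apply integral_map (measurable_update_pair i).aemeasurable
    exact hf.aestronglyMeasurable
  rw [← h2, map_update, integral_smul_measure]
  rfl

end

section

variable {n : ℕ} {V : Type} [Fintype V] [DecidableEq V]


/-- truncation to the first plane -/
def trunc (v : EuclideanSpace ℝ (Fin (n + 2))) : EuclideanSpace ℝ (Fin (n + 2)) :=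
  EuclideanSpace.single 0 (v 0) + EuclideanSpace.single 1 (v 1)

lemma inner_trunc (u v : EuclideanSpace ℝ (Fin (n + 2))) : inner ℝ (trunc v) u = PP u v := by
  unfold trunc PP
  rw [inner_add_left]
  simp [EuclideanSpace.inner_single_left]
  ring

lemma PP_comm (u v : EuclideanSpace ℝ (Fin (n + 2))) : PP u v = PP v u := by unfold PP; ring

lemma norm_trunc_le (v : Spin (n + 2)) : ‖trunc (v : EuclideanSpace ℝ (Fin (n + 2)))‖ ≤ 1 := by
  have h1 : ‖trunc (v : EuclideanSpace ℝ (Fin (n + 2)))‖ ^ 2 = (v : EuclideanSpace ℝ (Fin (n + 2))) 0 ^ 2 + (v : EuclideanSpace ℝ (Fin (n + 2))) 1 ^ 2 := by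
    rw [← real_inner_self_eq_norm_sq, inner_trunc]
    unfold PP trunc
    have h : (1 : Fin (n + 2)) ≠ 0 := fun h => h01 h.symm
    simp [h]
    ring
  have h2 := sq_add_sq_le (h01 (n := n)) v
  rw [← h1] at h2
  have := norm_nonneg (trunc (v : EuclideanSpace ℝ (Fin (n + 2))))
  nlinarith

/-- functions of one spin which are affine in the field -/
def Aff (n : ℕ) (F : Spin (n + 2) → ℝ) (b : ℝ) : Prop :=
  ∃ (K : ℝ) (h : EuclideanSpace ℝ (Fin (n + 2))), ‖h‖ ≤ b ∧
    ∀ u : Spin (n + 2), F u = K + inner ℝ h (u : EuclideanSpace ℝ (Fin (n + 2)))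

lemma Aff.sum {ι : Type} (s : Finset ι) (F : ι → Spin (n + 2) → ℝ) (b : ι → ℝ)
    (h : ∀ j ∈ s, Aff n (F j) (b j)) : Aff n (fun u => ∑ j ∈ s, F j u) (∑ j ∈ s, b j) := by
  classical
  induction s using Finset.induction_on with
  | empty => exact ⟨0, 0, by simp, fun u => by simp⟩
  | insert a s ha ih =>
    obtain ⟨K1, h1, hn1, he1⟩ := h a (Finset.mem_insert_self _ _)
    obtain ⟨K2, h2, hn2, he2⟩ := ih (fun j hj => h j (Finset.mem_insert_of_mem hj))
    refine ⟨K1 + K2, h1 + h2, ?_, fun u => ?_⟩
    · rw [Finset.sum_insert ha]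
      exact (norm_add_le _ _).trans (by linarith)
    · beta_reduce
      rw [Finset.sum_insert ha, he1 u]
      have := he2 u
      simp only at this
      rw [this, inner_add_left]
      ring

/-- the field strength at the site `i` -/
def fs (c d : V → V → ℝ) (i : V) (j k : V) : ℝ :=
  (if j = i ∧ k ≠ i then |c j k| + |d j k| else 0)
    + (if j ≠ i ∧ k = i then |c j k| + |d j k| else 0)

lemma aff_pair (c d : V → V → ℝ) (i : V) (hd : d i i = 0) (S : V → Spin (n + 2)) (j k : V) :
    Aff n (fun u => c j k * inner ℝ (Function.update S i u j : EuclideanSpace ℝ (Fin (n + 2))) (Function.update S i u k)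
      + d j k * PP (Function.update S i u j : EuclideanSpace ℝ (Fin (n + 2))) (Function.update S i u k)) (fs c d i j k) := by
  have key : ∀ (p q : ℝ) (v : Spin (n + 2)), ‖p • (v : EuclideanSpace ℝ (Fin (n + 2))) + q • trunc (v : EuclideanSpace ℝ (Fin (n + 2)))‖ ≤ |p| + |q| := by
    intro p q v
    refine (norm_add_le _ _).trans ?_
    rw [norm_smul, norm_smul, Real.norm_eq_abs, Real.norm_eq_abs]
    have h1 := norm_trunc_le v
    have h2 : ‖(v : EuclideanSpace ℝ (Fin (n + 2)))‖ = 1 := norm_eq_of_mem_sphere v
    rw [h2, mul_one]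
    have := mul_le_mul_of_nonneg_left h1 (abs_nonneg q)
    linarith
  by_cases hj : j = i
  · by_cases hk : k = i
    · subst hj
      subst hk
      refine ⟨c k k, 0, ?_, fun u => ?_⟩
      · unfold fs; simp
      · simp only [Function.update_self, hd, zero_mul, add_zero, inner_zero_left]
        rw [real_inner_self_eq_norm_sq, norm_eq_of_mem_sphere]
        ring
    · subst hj
      refine ⟨0, c j k • (S k : EuclideanSpace ℝ (Fin (n + 2))) + d j k • trunc (S k : EuclideanSpace ℝ (Fin (n + 2))), ?_, fun u => ?_⟩
      · unfold fs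
        simp only [hk, ne_eq, not_false_eq_true, and_self, if_true, not_true_eq_false, false_and,
          if_false, add_zero]
        exact key _ _ _
      · beta_reduce
        rw [Function.update_self, Function.update_of_ne hk, inner_add_left,
          real_inner_smul_left, real_inner_smul_left, inner_trunc, real_inner_comm]
        ring
  · by_cases hk : k = i
    · subst hk
      refine ⟨0, c j k • (S j : EuclideanSpace ℝ (Fin (n + 2))) + d j k • trunc (S j : EuclideanSpace ℝ (Fin (n + 2))), ?_, fun u => ?_⟩
      · unfold fs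
        simp only [hj, ne_eq, not_false_eq_true, and_self, if_true, not_true_eq_false, false_and,
          if_false, zero_add]
        exact key _ _ _
      · beta_reduce
        rw [Function.update_self, Function.update_of_ne hj, inner_add_left,
          real_inner_smul_left, real_inner_smul_left, inner_trunc, PP_comm]
        ring
    · refine ⟨c j k * inner ℝ (S j : EuclideanSpace ℝ (Fin (n + 2))) (S k) + d j k * PP (S j : EuclideanSpace ℝ (Fin (n + 2))) (S k), 0, ?_, fun u => ?_⟩
      · unfold fs; simp [hj, hk]
      · beta_reduce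
        rw [Function.update_of_ne hj, Function.update_of_ne hk]
        simp

/-- **A pair correlation is bounded by the one-site magnetisation.** -/
theorem pair_le_mag (c d : V → V → ℝ) (i k : V) (hik : i ≠ k) (hd : d i i = 0) {t : ℝ}
    (ht : ∑ p, ∑ q, fs c d i p q ≤ t) :
    |∫ S : V → Spin (n + 2), inner ℝ (S i : EuclideanSpace ℝ (Fin (n + 2))) (S k) * Real.exp (W c d S) ∂(apriori V (n + 2))|
      ≤ mag (n + 2) t * ZZ n c d := by
  have hki : k ≠ i := fun h => hik h.symm
  have hc1 : Continuous fun S : V → Spin (n + 2) =>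
      inner ℝ (S i : EuclideanSpace ℝ (Fin (n + 2))) (S k) * Real.exp (W c d S) :=
    (continuous_inner_spin i k).mul (continuous_expW c d)
  have hc0 := continuous_expW (n := n) c d
  have hσ : 0 < (sph (n + 2)).real univ := by
    rw [Measure.real]
    exact ENNReal.toReal_pos sph_univ_ne_zero (measure_ne_top _ _)
  -- one site
  have hone : ∀ S : V → Spin (n + 2),
      |∫ u : Spin (n + 2), inner ℝ ((Function.update S i u i : Spin (n + 2)) : EuclideanSpace ℝ (Fin (n + 2)))
          (Function.update S i u k) * Real.exp (W c d (Function.update S i u)) ∂(sph (n + 2))|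
        ≤ mag (n + 2) t * ∫ u : Spin (n + 2), Real.exp (W c d (Function.update S i u))
          ∂(sph (n + 2)) := by
    intro S
    obtain ⟨K, h, hh, he⟩ : Aff n (fun u => W c d (Function.update S i u))
        (∑ p, ∑ q, fs c d i p q) := by
      unfold W
      exact Aff.sum _ _ _ fun p _ => Aff.sum _ _ _ fun q _ => aff_pair c d i hd S p q
    simp only at he
    have e1 : ∫ u : Spin (n + 2), inner ℝ ((Function.update S i u i : Spin (n + 2)) : EuclideanSpace ℝ (Fin (n + 2)))
          (Function.update S i u k) * Real.exp (W c d (Function.update S i u)) ∂(sph (n + 2))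
        = Real.exp K * M1 h (S k : EuclideanSpace ℝ (Fin (n + 2))) := by
      unfold M1
      rw [← integral_const_mul]
      refine integral_congr_ae (Eventually.of_forall fun u => ?_)
      simp only
      rw [he u, Function.update_self, Function.update_of_ne hki, Real.exp_add,
        real_inner_comm]
      ring
    have e2 : ∫ u : Spin (n + 2), Real.exp (W c d (Function.update S i u)) ∂(sph (n + 2))
        = Real.exp K * M0 h := by
      unfold M0
      rw [← integral_const_mul]
      refine integral_congr_ae (Eventually.of_forall fun u => ?_)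
      simp only
      rw [he u, Real.exp_add]
    rw [e1, e2, abs_mul, abs_of_pos (Real.exp_pos K)]
    have h1 := one_site h (S k : EuclideanSpace ℝ (Fin (n + 2))) (norm_eq_of_mem_sphere (S k)).le (hh.trans ht)
    calc Real.exp K * |M1 h (S k : EuclideanSpace ℝ (Fin (n + 2)))| ≤ Real.exp K * (mag (n + 2) t * M0 h) := by gcongr
      _ = _ := by ring
  have hr1 := resample (N := n + 2) i _ hc1
  have hr0 := resample (N := n + 2) i _ hc0
  have hint : Integrable (fun S : V → Spin (n + 2) => ∫ u : Spin (n + 2),
      Real.exp (W c d (Function.update S i u)) ∂(sph (n + 2))) (apriori V (n + 2)) := by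
    have h1 : Continuous fun p : (V → Spin (n + 2)) × Spin (n + 2) =>
        Real.exp (W c d (Function.update p.1 i p.2)) :=
      hc0.comp (continuous_update_pair i)
    have hint : Integrable (fun p : (V → Spin (n + 2)) × Spin (n + 2) =>
        Real.exp (W c d (Function.update p.1 i p.2))) ((apriori V (n + 2)).prod (sph (n + 2))) := by
      obtain ⟨C, hC⟩ := (isCompact_univ
        (X := (V → Spin (n + 2)) × Spin (n + 2))).exists_bound_of_continuousOn h1.continuousOn
      exact (integrable_const C).mono' h1.aestronglyMeasurable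
        (Filter.Eventually.of_forall fun x => hC x (mem_univ _))
    exact hint.integral_prod_left
  have h2 : |(sph (n + 2)).real univ * ∫ S : V → Spin (n + 2),
        inner ℝ (S i : EuclideanSpace ℝ (Fin (n + 2))) (S k) * Real.exp (W c d S) ∂(apriori V (n + 2))|
      ≤ mag (n + 2) t * ((sph (n + 2)).real univ * ZZ n c d) := by
    unfold ZZ
    rw [← hr1, ← hr0, ← integral_const_mul]
    refine (abs_integral_le_integral_abs).trans ?_
    refine integral_mono_of_nonneg (Eventually.of_forall fun S => abs_nonneg _)
      (hint.const_mul _) (Eventually.of_forall fun S => ?_)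
    exact hone S
  rw [abs_mul, abs_of_pos hσ] at h2
  have h3 : (sph (n + 2)).real univ * |∫ S : V → Spin (n + 2),
        inner ℝ (S i : EuclideanSpace ℝ (Fin (n + 2))) (S k) * Real.exp (W c d S) ∂(apriori V (n + 2))|
      ≤ (sph (n + 2)).real univ * (mag (n + 2) t * ZZ n c d) := by linarith
  exact le_of_mul_le_mul_left h3 hσ

/-- The correlation of the first two components, with the one-site magnetisation. -/
lemma PP_bound' (c d : V → V → ℝ) (φ : V → ℝ) {ε : ℝ} (hε : cost c d φ ≤ ε) {s : ℝ} (hs : 0 < s)
    {i k : V} (hi : φ i = Real.pi / 4) (hk : φ k = Real.pi / 4) {A : ℝ}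
    (hA : |∫ S : V → Spin (n + 2), inner ℝ (S i : EuclideanSpace ℝ (Fin (n + 2))) (S k) * Real.exp (W c d S)
      ∂(apriori V (n + 2))| ≤ A * ZZ n c d) :
    |∫ S : V → Spin (n + 2), PP (S i : EuclideanSpace ℝ (Fin (n + 2))) (S k) * Real.exp (W c d S) ∂(apriori V (n + 2))|
      ≤ (2 / ((n : ℝ) + 2) * A + 2 * (ε / (2 * s) + 2 * s)) * ZZ n c d := by
  have hε0 : 0 ≤ ε := (cost_nonneg c d φ).trans hε
  have hZ := ZZ_pos (n := n) c d
  set δ := ε / (2 * s) + 2 * s with hδ
  have hδ0 : 0 ≤ δ := by positivity
  have hr : ∀ r, |CC n c d i k r - CC n c d i k 0| ≤ δ * ZZ n c d := by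
    intro r
    by_cases h0 : (0 : Fin (n + 2)) = r
    · rw [← h0, sub_self, abs_zero]; positivity
    by_cases h1 : (1 : Fin (n + 2)) = r
    · rw [← h1, CC_one, sub_self, abs_zero]; positivity
    exact mw_pair h0 h1 c d φ hε hs hi hk
  rw [integral_inner_eq] at hA
  rw [integral_PP_eq]
  have h1 : |((n : ℝ) + 2) * CC n c d i k 0 - ∑ r, CC n c d i k r|
      ≤ ((n : ℝ) + 2) * (δ * ZZ n c d) := by
    have e : ((n : ℝ) + 2) * CC n c d i k 0 - ∑ r, CC n c d i k r
        = ∑ r : Fin (n + 2), (CC n c d i k 0 - CC n c d i k r) := by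
      rw [Finset.sum_sub_distrib]
      simp
    rw [e]
    refine (Finset.abs_sum_le_sum_abs _ _).trans ?_
    calc ∑ r : Fin (n + 2), |CC n c d i k 0 - CC n c d i k r|
        ≤ ∑ r : Fin (n + 2), δ * ZZ n c d := Finset.sum_le_sum fun r _ => by
          rw [abs_sub_comm]; exact hr r
      _ = _ := by simp
  have hn : (0 : ℝ) < (n : ℝ) + 2 := by positivity
  have h2 : |((n : ℝ) + 2) * CC n c d i k 0| ≤ A * ZZ n c d + ((n : ℝ) + 2) * (δ * ZZ n c d) := by
    have := abs_add_le (((n : ℝ) + 2) * CC n c d i k 0 - ∑ r, CC n c d i k r)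
      (∑ r, CC n c d i k r)
    rw [sub_add_cancel] at this
    linarith
  rw [abs_mul, abs_of_pos hn] at h2
  have h3 : |CC n c d i k 0| ≤ (1 / ((n : ℝ) + 2) * A + δ) * ZZ n c d := by
    have h4 : ((n : ℝ) + 2) * ((1 / ((n : ℝ) + 2) * A + δ) * ZZ n c d)
        = A * ZZ n c d + ((n : ℝ) + 2) * (δ * ZZ n c d) := by
      field_simp
    rw [← h4] at h2
    exact le_of_mul_le_mul_left h2 hn
  rw [abs_mul, abs_of_pos (by norm_num : (0 : ℝ) < 2)]
  calc 2 * |CC n c d i k 0| ≤ 2 * ((1 / ((n : ℝ) + 2) * A + δ) * ZZ n c d) := by gcongr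
    _ = _ := by ring

end

end

end Pool.Agent.NVec
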