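import Pool.Agent.H.MP_8be4c0_mp.Cost
import Pool.Agent.H.MP_8be4c0_mp.Resample

/-!
Far pairs: the correlation of the first two components is essentially at most
`(2/N) A_N(2β ∑|J|)`.
-/

open MeasureTheory Set Filter Topology

namespace Pool.Agent.NVec

set_option linter.unusedSectionVars false

noncomputable section

lemma field_bound {L : ℕ} [NeZero L] {J : ℤ × ℤ → ℝ}
    (hJ : ∀ p : ℕ, Summable fun m => |J m| * (1 + nrm m) ^ p)
    {β : ℝ} (hβ : 0 ≤ β) {α r : ℝ} (hα : 0 ≤ α) {K : ℕ} (hK : 2 * α ≤ K) {D : ℝ} (hD : 0 ≤ D)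
    (x y i : Torus L) (hix : D ≤ tnorm (i - x)) (hiy : D ≤ tnorm (i - y)) :
    ∑ p, ∑ q, fs (cc L J β) (dtw (cc L J β) (fld α r x y)) i p q
      ≤ 2 * β * Jbar J + 4 * β * α ^ 2 / (1 + D ^ 2) * Sm J (K + 6) := by
  classical
  have hsum := summable_abs hJ
  set Q : ℝ := 1 + D ^ 2 with hQd
  have hQ : 0 < Q := by positivity
  have hQx : Q ≤ 1 + tnorm (i - x) ^ 2 := by
    have : D ^ 2 ≤ tnorm (i - x) ^ 2 := by gcongr
    linarith
  have hQy : Q ≤ 1 + tnorm (i - y) ^ 2 := by
    have : D ^ 2 ≤ tnorm (i - y) ^ 2 := by gcongr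
    linarith
  set c := cc L J β with hc
  set d := dtw c (fld α r x y) with hd
  have h1 : ∀ p q, |c p q| + |d p q| = |perJ L J (q - p)| * (β * (1 + ch α r x y p q)) := by
    intro p q
    have h2 : |c p q| = β * |perJ L J (q - p)| := by
      rw [hc]; unfold cc; rw [abs_mul, abs_of_nonneg hβ]
    have h3 : |d p q| = |c p q| * ch α r x y p q := by
      rw [hd]; unfold dtw; rw [abs_mul]
      congr 1
      exact abs_of_nonneg (ch_nonneg α r x y p q)
    rw [h3, h2]; ring
  -- the two halves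
  have hsplit : ∑ p, ∑ q, fs c d i p q
      = ∑ q, |perJ L J (q - i)| * (if q ≠ i then β * (1 + ch α r x y i q) else 0)
        + ∑ p, |perJ L J (i - p)| * (if p ≠ i then β * (1 + ch α r x y p i) else 0) := by
    unfold fs
    simp_rw [Finset.sum_add_distrib]
    congr 1
    · rw [Finset.sum_eq_single i]
      · refine Finset.sum_congr rfl fun q _ => ?_
        by_cases hq : q = i
        · simp [hq]
        · simp only [hq, ne_eq, not_false_eq_true, and_self, if_true]
          exact h1 i q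
      · intro b _ hb
        refine Finset.sum_eq_zero fun q _ => ?_
        rw [if_neg (fun h => hb h.1)]
      · intro h; exact absurd (Finset.mem_univ _) h
    · refine Finset.sum_congr rfl fun p _ => ?_
      rw [Finset.sum_eq_single i]
      · by_cases hp : p = i
        · simp [hp]
        · simp only [hp, ne_eq, not_false_eq_true, and_self, if_true]
          exact h1 p i
      · intro b _ hb
        rw [if_neg (fun h => hb h.2)]
      · intro h; exact absurd (Finset.mem_univ _) h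
  set g : ℤ × ℤ → ℝ := fun m => (if m = 0 then 0 else β)
      + β * (2 * α ^ 2 * (1 + nrm m) ^ (K + 6) / Q) with hg
  have hg1 : Summable fun m : ℤ × ℤ => β * (if m = 0 then 0 else |J m|) := by
    apply Summable.mul_left
    refine Summable.of_nonneg_of_le (fun m => ?_) (fun m => ?_) hsum
    · split_ifs
      · exact le_refl _
      · exact abs_nonneg _
    · split_ifs
      · exact abs_nonneg _
      · exact le_refl _
  have hg2 : Summable fun m : ℤ × ℤ => 2 * β * α ^ 2 / Q * (|J m| * (1 + nrm m) ^ (K + 6)) :=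
    (hJ (K + 6)).mul_left _
  have heq : (fun m : ℤ × ℤ => |J m| * g m) = fun m : ℤ × ℤ =>
      β * (if m = 0 then 0 else |J m|) + 2 * β * α ^ 2 / Q * (|J m| * (1 + nrm m) ^ (K + 6)) := by
    funext m
    rw [hg]
    by_cases hm : m = 0
    · simp only [hm, if_true]; ring
    · simp only [hm, if_false]; ring
  have hgs : Summable fun m : ℤ × ℤ => |J m| * g m := by rw [heq]; exact hg1.add hg2
  have hgsum : ∑' m : ℤ × ℤ, |J m| * g m
      = β * Jbar J + 2 * β * α ^ 2 / Q * Sm J (K + 6) := by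
    rw [heq, Summable.tsum_add hg1 hg2, tsum_mul_left, tsum_mul_left]
    rfl
  have key : ∀ (m : ℤ × ℤ) (w : Torus L), tnorm w ≤ nrm m → (m = 0 → w = 0) →
      (if i + w ≠ i then β * (1 + ch α r x y i (i + w)) else 0) ≤ g m := by
    intro m w hw hm
    have h2 := ch_far (r := r) hα hK x y i w hw hQ hQx hQy
    have h3 := ch_nonneg α r x y i (i + w)
    have hn := nrm_nonneg m
    have h4 : 0 ≤ 2 * α ^ 2 * (1 + nrm m) ^ (K + 6) / Q := by positivity
    rw [hg]
    by_cases hm0 : m = 0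
    · have : w = 0 := hm hm0
      simp only [this, add_zero, ne_eq, not_true_eq_false, if_false, hm0, if_true]
      rw [hm0] at h4
      positivity
    · simp only [hm0, if_false]
      split_ifs with h5
      · nlinarith
      · positivity
  have hA : ∑ q, |perJ L J (q - i)| * (if q ≠ i then β * (1 + ch α r x y i q) else 0)
      ≤ ∑' m : ℤ × ℤ, |J m| * g m := by
    apply row_sum_le hsum i _ _ g hgs
    · intro m
      exact key m (proj L m) (tnorm_proj_le m) (fun h => by rw [h]; ext <;> simp [proj])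
    · intro k
      have := ch_nonneg α r x y i k
      split_ifs
      · positivity
      · exact le_refl _
  have hB : ∑ p, |perJ L J (i - p)| * (if p ≠ i then β * (1 + ch α r x y p i) else 0)
      ≤ ∑' m : ℤ × ℤ, |J m| * g m := by
    apply col_sum_le hsum i _ _ g hgs
    · intro m
      have := key m (-(proj L m)) (by rw [tnorm_neg]; exact tnorm_proj_le m)
        (fun h => by rw [h]; ext <;> simp [proj])
      rw [← sub_eq_add_neg, ch_comm] at this
      exact this
    · intro k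
      have := ch_nonneg α r x y k i
      split_ifs
      · positivity
      · exact le_refl _
  rw [hsplit]
  rw [hgsum] at hA hB
  have e : 4 * β * α ^ 2 / Q * Sm J (K + 6) = 2 * (2 * β * α ^ 2 / Q * Sm J (K + 6)) := by ring
  rw [e]
  linarith

/-- **Far pairs.** -/
theorem far_kappa (n : ℕ) {J : ℤ × ℤ → ℝ}
    (hJ : ∀ p : ℕ, Summable fun m => |J m| * (1 + nrm m) ^ p)
    {β : ℝ} (hβ : 0 ≤ β) {α : ℝ} (hα : 0 ≤ α) {K : ℕ} (hK : 2 * α ≤ K) {M : ℝ} (hM : 0 ≤ M)
    {κ₀ : ℝ} (hκ : 2 / ((n : ℝ) + 2) * mag (n + 2) (2 * β * Jbar J) < κ₀) :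
    ∃ D : ℝ, 0 ≤ D ∧ ∀ (L : ℕ) [NeZero L] (r : ℝ) (x y i k : Torus L),
      D ≤ tnorm (i - x) → D ≤ tnorm (i - y) → tnorm (k - i) ≤ M → i ≠ k →
      |∫ S : Torus L → Spin (n + 2), PP (S i : EuclideanSpace ℝ (Fin (n + 2))) (S k)
        * Real.exp (W (cc L J β) (dtw (cc L J β) (fld α r x y)) S) ∂(apriori (Torus L) (n + 2))|
        ≤ κ₀ * ZZ n (cc L J β) (dtw (cc L J β) (fld α r x y)) := by
  classical
  -- continuity of the magnetisation
  obtain ⟨δ, hδ, hδκ⟩ : ∃ δ : ℝ, 0 < δ ∧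
      2 / ((n : ℝ) + 2) * mag (n + 2) (2 * β * Jbar J + δ) < κ₀ := by
    have hc : Continuous fun δ : ℝ => 2 / ((n : ℝ) + 2) * mag (n + 2) (2 * β * Jbar J + δ) :=
      continuous_const.mul (continuous_mag.comp (continuous_const.add continuous_id))
    have h1 : ∀ᶠ δ in 𝓝 (0 : ℝ), 2 / ((n : ℝ) + 2) * mag (n + 2) (2 * β * Jbar J + δ) < κ₀ := by
      apply hc.continuousAt.eventually_lt continuousAt_const
      simpa using hκ
    have h2 : ∀ᶠ δ in 𝓝[>] (0 : ℝ), 2 / ((n : ℝ) + 2) * mag (n + 2) (2 * β * Jbar J + δ) < κ₀ :=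
      h1.filter_mono nhdsWithin_le_nhds
    obtain ⟨δ, h3, h4⟩ := (h2.and self_mem_nhdsWithin).exists
    exact ⟨δ, h4, h3⟩
  set κ₁ := 2 / ((n : ℝ) + 2) * mag (n + 2) (2 * β * Jbar J + δ) with hκ₁
  set gp := κ₀ - κ₁ with hgp
  have hgp0 : 0 < gp := by linarith
  set s := gp / 8 with hs
  have hs0 : 0 < s := by positivity
  set ε := gp ^ 2 / 16 with hε
  have hε0 : 0 < ε := by positivity
  have hfin : 2 * (ε / (2 * s) + 2 * s) = gp := by
    rw [hε, hs]; field_simp; ring
  -- choice of the radius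
  set b := (1 / 2) * Real.log (1 + M ^ 2) with hb
  have hb0 : 0 ≤ b := by
    have : 0 ≤ Real.log (1 + M ^ 2) := Real.log_nonneg (by nlinarith [sq_nonneg M])
    positivity
  have hS7 := Sm_nonneg J 7
  have hSK := Sm_nonneg J (K + 6)
  obtain ⟨T, hT2, hT3⟩ : ∃ T : ℝ, 2 * b + 2 ≤ T ∧ 184 * β * Sm J 7 / ε ≤ T :=
    ⟨max (2 * b + 2) (184 * β * Sm J 7 / ε), le_max_left _ _, le_max_right _ _⟩
  have hT0 : 0 < T := by linarith
  obtain ⟨R, hlogR, hR1⟩ : ∃ R : ℝ, Real.log R = T ∧ 1 ≤ R :=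
    ⟨Real.exp T, Real.log_exp T, Real.one_le_exp hT0.le⟩
  have hR0 : 0 < R := by linarith
  set h := T - b with hh
  have hh0 : 0 < h := by linarith
  have hcost1 : β * ((Real.pi / 4) ^ 2 / h ^ 2 * 23 * (1 + Real.log R)) * Sm J 7 ≤ ε / 2 := by
    rw [hlogR]
    have h1 : (Real.pi / 4) ^ 2 ≤ 1 := by
      have h2 := Real.pi_le_four
      have h3 := Real.pi_pos
      have h4 : Real.pi / 4 ≤ 1 := by linarith
      have h5 : 0 ≤ Real.pi / 4 := by positivity
      exact pow_le_one₀ h5 h4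
    have h2 : (1 + T) / h ^ 2 ≤ 4 / T := by
      rw [div_le_div_iff₀ (by positivity) hT0]
      have h3 : (T + 2) / 2 ≤ h := by rw [hh]; linarith
      have h4 : ((T + 2) / 2) ^ 2 ≤ h ^ 2 := by
        have : 0 ≤ (T + 2) / 2 := by linarith
        gcongr
      have e1 : ((T + 2) / 2) ^ 2 = (T * T + 4 * T + 4) / 4 := by ring
      have e2 : (1 + T) * T = T + T * T := by ring
      rw [e1] at h4
      rw [e2]
      linarith
    have h4 : 184 * β * Sm J 7 ≤ T * ε := by
      rwa [div_le_iff₀ hε0] at hT3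
    calc β * ((Real.pi / 4) ^ 2 / h ^ 2 * 23 * (1 + T)) * Sm J 7
        = (Real.pi / 4) ^ 2 * (23 * β * Sm J 7 * ((1 + T) / h ^ 2)) := by ring
      _ ≤ 1 * (23 * β * Sm J 7 * (4 / T)) := by
          apply mul_le_mul h1 _ (by positivity) (by norm_num)
          gcongr
      _ = (184 * β * Sm J 7) / T / 2 := by ring
      _ ≤ ε / 2 := by
          gcongr
          rw [div_le_iff₀ hT0]
          linarith
  -- choice of the distance
  obtain ⟨X, hX1, hXa, hXb⟩ : ∃ X : ℝ, 1 ≤ X ∧
      32 * β * α ^ 2 * (2 * R + 1) ^ 2 * Sm J (K + 6) ≤ X * ε ∧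
      4 * β * α ^ 2 * Sm J (K + 6) ≤ X * δ := by
    refine ⟨max 1 (max (32 * β * α ^ 2 * (2 * R + 1) ^ 2 * Sm J (K + 6) / ε)
      (4 * β * α ^ 2 * Sm J (K + 6) / δ)), le_max_left _ _, ?_, ?_⟩
    · rw [← div_le_iff₀ hε0]
      exact (le_max_left _ _).trans (le_max_right _ _)
    · rw [← div_le_iff₀ hδ]
      exact (le_max_right _ _).trans (le_max_right _ _)
  obtain ⟨D, hD⟩ : ∃ D : ℝ, D = R + X := ⟨_, rfl⟩
  have hRD : R ≤ D := by rw [hD]; linarith
  have hD0 : 0 ≤ D := by linarith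
  refine ⟨D, hD0, ?_⟩
  intro L _ r x y i k hix hiy hki hik
  have hcost := cost_prof_le (r := r) hJ hβ hα hK hR1 hh0 hRD x y i hix hiy
  have hcost2 : 16 * β * α ^ 2 * (2 * R + 1) ^ 2 / (1 + (D - R) ^ 2) * Sm J (K + 6) ≤ ε / 2 := by
    have h1 : D - R = X := by rw [hD]; ring
    rw [h1]
    have h2 : X ≤ 1 + X ^ 2 := by
      have := le_self_pow₀ hX1 (two_ne_zero)
      linarith
    have h3 : (0 : ℝ) < 1 + X ^ 2 := by positivity
    calc 16 * β * α ^ 2 * (2 * R + 1) ^ 2 / (1 + X ^ 2) * Sm J (K + 6)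
        = (32 * β * α ^ 2 * (2 * R + 1) ^ 2 * Sm J (K + 6)) / (1 + X ^ 2) / 2 := by ring
      _ ≤ ε / 2 := by
          gcongr
          rw [div_le_iff₀ h3, mul_comm ε]
          exact hXa.trans (mul_le_mul_of_nonneg_right h2 hε0.le)
  have hfield := field_bound (r := r) hJ hβ hα hK hD0 x y i hix hiy
  have hfield2 : 4 * β * α ^ 2 / (1 + D ^ 2) * Sm J (K + 6) ≤ δ := by
    have h2 : X ≤ 1 + D ^ 2 := by
      have h1 : 1 ≤ D := by linarith
      have := le_self_pow₀ h1 (two_ne_zero)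
      linarith
    have h3 : (0 : ℝ) < 1 + D ^ 2 := by positivity
    calc 4 * β * α ^ 2 / (1 + D ^ 2) * Sm J (K + 6)
        = (4 * β * α ^ 2 * Sm J (K + 6)) / (1 + D ^ 2) := by ring
      _ ≤ δ := by
          rw [div_le_iff₀ h3, mul_comm δ]
          exact hXb.trans (mul_le_mul_of_nonneg_right h2 hδ.le)
  have hself : dtw (cc L J β) (fld α r x y) i i = 0 := by
    unfold dtw; simp
  have hmag := pair_le_mag (n := n) (cc L J β) (dtw (cc L J β) (fld α r x y)) i k hik hself
    (t := 2 * β * Jbar J + δ) (by linarith)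
  -- the profile at the two sites
  have hφ : ∀ j : Torus L, tnorm (j - i) ≤ M → prof R h i j = Real.pi / 4 := by
    intro j hj
    unfold prof
    have h1 : ll (j - i) ≤ b := by
      rw [hb]; unfold ll
      have h2 : tnorm (j - i) ^ 2 ≤ M ^ 2 := by
        have := tnorm_nonneg (j - i)
        gcongr
      have h3 := Real.log_le_log (by positivity : 0 < 1 + tnorm (j - i) ^ 2)
        (by linarith : 1 + tnorm (j - i) ^ 2 ≤ 1 + M ^ 2)
      linarith
    have h2 : h ≤ bump R (j - i) := by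
      unfold bump
      rw [hlogR, hh]
      exact le_max_of_le_right (by linarith)
    have h3 : 1 ≤ bump R (j - i) / h := by rwa [le_div_iff₀ hh0, one_mul]
    rw [min_eq_left h3, mul_one]
  have hφi : prof R h i i = Real.pi / 4 := hφ i (by rw [sub_self, tnorm_zero]; exact hM)
  have hφk : prof R h i k = Real.pi / 4 := hφ k hki
  have hmain := PP_bound' (n := n) (cc L J β) (dtw (cc L J β) (fld α r x y)) (prof R h i)
    (ε := ε) (by linarith) hs0 hφi hφk hmag
  rw [hfin] at hmain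
  have e : 2 / ((n : ℝ) + 2) * mag (n + 2) (2 * β * Jbar J + δ) + gp = κ₀ := by
    rw [← hκ₁, hgp]; ring
  rwa [e] at hmain

end

end Pool.Agent.NVec
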