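import Pool.Agent.H.MP_8be4c0_mp.Bump

/-!
The twist field `a = α (g_r(· - x) - g_r(· - y))` and its energies.
-/

open Set Filter Topology

namespace Pool.Agent.NVec

set_option linter.unusedSectionVars false

noncomputable section

variable {L : ℕ} [NeZero L]

/-- the twist field -/
def fld (α r : ℝ) (x y i : Torus L) : ℝ := α * (bump r (i - x) - bump r (i - y))

lemma fld_gap {α r : ℝ} (hr : 1 ≤ r) (x y : Torus L) (hxy : r ≤ tnorm (x - y)) :
    fld α r x y x - fld α r x y y = 2 * α * Real.log r := by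
  unfold fld
  rw [sub_self, sub_self, bump_zero hr, bump_eq_zero (by linarith) hxy,
    bump_eq_zero (by linarith) (by rw [tnorm_sub_comm]; exact hxy)]
  ring

lemma sub_eq1 (i x w : Torus L) : i + w - x = (i - x) + w := by abel

lemma fld_diff (α r : ℝ) (x y i w : Torus L) :
    fld α r x y i - fld α r x y (i + w)
      = -(α * (bump r ((i - x) + w) - bump r (i - x)))
        + α * (bump r ((i - y) + w) - bump r (i - y)) := by
  unfold fld
  rw [sub_eq1, sub_eq1]
  ring

lemma abs_bump_diff_le {r : ℝ} (z w : Torus L) {μ : ℝ} (hw : tnorm w ≤ μ) :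
    |bump r (z + w) - bump r z| ≤ Real.log (1 + μ) := by
  refine (abs_bump_sub_le r z (z + w)).trans ((abs_ll_sub_le z w).trans ?_)
  have := tnorm_nonneg w
  exact Real.log_le_log (by linarith) (by linarith)

lemma abs_bump_diff_le' {r : ℝ} (z w : Torus L) {μ : ℝ} (hw : tnorm w ≤ μ) :
    |bump r (z + w) - bump r z| ≤ (1 + μ) ^ 3 / Real.sqrt (1 + tnorm z ^ 2) :=
  (abs_bump_sub_le r z (z + w)).trans (abs_ll_sub_le' z w hw)

lemma abs_fld_diff_le {α r : ℝ} (hα : 0 ≤ α) (x y i w : Torus L) {μ : ℝ} (hw : tnorm w ≤ μ) :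
    |fld α r x y i - fld α r x y (i + w)| ≤ 2 * α * Real.log (1 + μ) := by
  rw [fld_diff]
  refine (abs_add_le _ _).trans ?_
  rw [abs_neg, abs_mul, abs_mul, abs_of_nonneg hα]
  have h1 := mul_le_mul_of_nonneg_left (abs_bump_diff_le (r := r) (i - x) w hw) hα
  have h2 := mul_le_mul_of_nonneg_left (abs_bump_diff_le (r := r) (i - y) w hw) hα
  linarith

lemma exp_fld_le {α r : ℝ} (hα : 0 ≤ α) {K : ℕ} (hK : 2 * α ≤ K) (x y i w : Torus L) {μ : ℝ}
    (hw : tnorm w ≤ μ) :
    Real.exp |fld α r x y i - fld α r x y (i + w)| ≤ (1 + μ) ^ K := by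
  have hμ : 0 ≤ μ := (tnorm_nonneg w).trans hw
  have h1 := abs_fld_diff_le (r := r) hα x y i w hw
  have hlog : 0 ≤ Real.log (1 + μ) := Real.log_nonneg (by linarith)
  calc Real.exp |fld α r x y i - fld α r x y (i + w)| ≤ Real.exp (K * Real.log (1 + μ)) := by
        apply Real.exp_le_exp.2
        refine h1.trans ?_
        gcongr
    _ = (1 + μ) ^ K := by
        rw [← Real.log_pow, Real.exp_log (by positivity)]

/-- the cost function -/
def ch (α r : ℝ) (x y i k : Torus L) : ℝ := Real.cosh (fld α r x y i - fld α r x y k) - 1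

lemma ch_nonneg (α r : ℝ) (x y i k : Torus L) : 0 ≤ ch α r x y i k := cosh_sub_one_nonneg _

lemma ch_comm (α r : ℝ) (x y i k : Torus L) : ch α r x y i k = ch α r x y k i := by
  unfold ch
  rw [← Real.cosh_neg, neg_sub]

lemma ch_le_pow {α r : ℝ} (hα : 0 ≤ α) {K : ℕ} (hK : 2 * α ≤ K) (x y i w : Torus L) {μ : ℝ}
    (hw : tnorm w ≤ μ) : ch α r x y i (i + w) ≤ (1 + μ) ^ K := by
  have h := exp_fld_le (r := r) hα hK x y i w hw
  have h2 : Real.cosh (fld α r x y i - fld α r x y (i + w))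
      ≤ Real.exp |fld α r x y i - fld α r x y (i + w)| := by
    rw [← Real.cosh_abs, Real.cosh_eq]
    have : Real.exp (-|fld α r x y i - fld α r x y (i + w)|)
        ≤ Real.exp |fld α r x y i - fld α r x y (i + w)| := by
      apply Real.exp_le_exp.2
      have := abs_nonneg (fld α r x y i - fld α r x y (i + w))
      linarith
    linarith
  unfold ch
  linarith

lemma sum_shift (f : Torus L → ℝ) (x : Torus L) : ∑ i, f (i - x) = ∑ i, f i :=
  Equiv.sum_comp (Equiv.subRight x) f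

/-- tail energy -/
lemma ch_sum_tail {α r : ℝ} (hα : 0 ≤ α) (hr : 1 ≤ r) {K : ℕ} (hK : 2 * α ≤ K) (x y w : Torus L)
    {μ : ℝ} (hw : tnorm w ≤ μ) :
    ∑ i, ch α r x y i (i + w) ≤ 46 * α ^ 2 * (1 + μ) ^ (K + 7) * (1 + Real.log r) := by
  have hμ : 0 ≤ μ := (tnorm_nonneg w).trans hw
  have h1 : ∀ i : Torus L, ch α r x y i (i + w)
      ≤ α ^ 2 * (1 + μ) ^ K * ((bump r ((i - x) + w) - bump r (i - x)) ^ 2
        + (bump r ((i - y) + w) - bump r (i - y)) ^ 2) := by
    intro i
    have h2 := cosh_sub_one_le (fld α r x y i - fld α r x y (i + w))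
    have h3 := exp_fld_le (r := r) hα hK x y i w hw
    have h4 : (fld α r x y i - fld α r x y (i + w)) ^ 2
        ≤ 2 * α ^ 2 * ((bump r ((i - x) + w) - bump r (i - x)) ^ 2
        + (bump r ((i - y) + w) - bump r (i - y)) ^ 2) := by
      rw [fld_diff]
      nlinarith [sq_nonneg (α * (bump r ((i - x) + w) - bump r (i - x))
        + α * (bump r ((i - y) + w) - bump r (i - y)))]
    calc ch α r x y i (i + w) ≤ (fld α r x y i - fld α r x y (i + w)) ^ 2 / 2
          * Real.exp |fld α r x y i - fld α r x y (i + w)| := h2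
      _ ≤ (2 * α ^ 2 * ((bump r ((i - x) + w) - bump r (i - x)) ^ 2
        + (bump r ((i - y) + w) - bump r (i - y)) ^ 2)) / 2 * (1 + μ) ^ K := by gcongr
      _ = _ := by ring
  refine (Finset.sum_le_sum fun i _ => h1 i).trans ?_
  rw [← Finset.mul_sum, Finset.sum_add_distrib,
    sum_shift (fun i => (bump r (i + w) - bump r i) ^ 2) x,
    sum_shift (fun i => (bump r (i + w) - bump r i) ^ 2) y]
  have h2 := bump_energy_le hr w hw
  calc α ^ 2 * (1 + μ) ^ K * (∑ i : Torus L, (bump r (i + w) - bump r i) ^ 2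
        + ∑ i : Torus L, (bump r (i + w) - bump r i) ^ 2)
      ≤ α ^ 2 * (1 + μ) ^ K * (23 * (1 + μ) ^ 7 * (1 + Real.log r)
        + 23 * (1 + μ) ^ 7 * (1 + Real.log r)) := by gcongr
    _ = _ := by ring

/-- sharp energy of the field: the two bumps do not overlap -/
lemma ch_sum_sharp {α r M C : ℝ} (hr : 1 ≤ r) (hMr : M < r) (x y : Torus L)
    (m : ℤ × ℤ) (hm : nrm m ≤ M) (hxy : 4 * r ≤ tnorm (x - y))
    (hC : ∑ z : Torus L, (Real.cosh (α * (bump r (z + proj L m) - bump r z)) - 1)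
        ≤ (1 / 2) * Real.pi * α ^ 2 * ((m.1 : ℝ) ^ 2 + (m.2 : ℝ) ^ 2) * Real.log r + C) :
    ∑ i, ch α r x y i (i + proj L m)
      ≤ Real.pi * α ^ 2 * ((m.1 : ℝ) ^ 2 + (m.2 : ℝ) ^ 2) * Real.log r + 2 * C := by
  set w : Torus L := proj L m with hw
  have hwM : tnorm w ≤ M := (tnorm_proj_le m).trans hm
  have hzero : ∀ z : Torus L, r + M ≤ tnorm z → bump r (z + w) - bump r z = 0 := by
    intro z hz
    have hM0 : 0 ≤ M := (nrm_nonneg m).trans hm
    have h3 : bump r z = 0 := bump_eq_zero (by linarith) (by linarith)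
    have h4 : bump r (z + w) = 0 := by
      apply bump_eq_zero (by linarith)
      have := (abs_le.1 (abs_tnorm_sub_le z w)).1
      linarith
    rw [h3, h4, sub_zero]
  have h1 : ∀ i : Torus L, ch α r x y i (i + w)
      ≤ (Real.cosh (α * (bump r ((i - x) + w) - bump r (i - x))) - 1)
        + (Real.cosh (α * (bump r ((i - y) + w) - bump r (i - y))) - 1) := by
    intro i
    unfold ch
    rw [fld_diff]
    by_cases h : r + M ≤ tnorm (i - x)
    · rw [hzero _ h]
      simp
    · have h2 : r + M ≤ tnorm (i - y) := by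
        by_contra h3
        have h4 : tnorm (x - y) ≤ tnorm (i - y) + tnorm (i - x) := by
          have := tnorm_sub_le (i - y) (i - x)
          have e : i - y - (i - x) = x - y := by abel
          rwa [e] at this
        push Not at h h3
        linarith
      rw [hzero _ h2]
      simp
  refine (Finset.sum_le_sum fun i _ => h1 i).trans ?_
  rw [Finset.sum_add_distrib,
    sum_shift (fun i => Real.cosh (α * (bump r (i + w) - bump r i)) - 1) x,
    sum_shift (fun i => Real.cosh (α * (bump r (i + w) - bump r i)) - 1) y]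
  linarith

/-- far from the two points the cost is small -/
lemma ch_far {α r : ℝ} (hα : 0 ≤ α) {K : ℕ} (hK : 2 * α ≤ K) (x y i w : Torus L) {μ Q : ℝ}
    (hw : tnorm w ≤ μ) (hQ : 0 < Q) (hx : Q ≤ 1 + tnorm (i - x) ^ 2)
    (hy : Q ≤ 1 + tnorm (i - y) ^ 2) :
    ch α r x y i (i + w) ≤ 2 * α ^ 2 * (1 + μ) ^ (K + 6) / Q := by
  have hμ : 0 ≤ μ := (tnorm_nonneg w).trans hw
  have h2 := cosh_sub_one_le (fld α r x y i - fld α r x y (i + w))
  have h3 := exp_fld_le (r := r) hα hK x y i w hw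
  have key : ∀ z : Torus L, Q ≤ 1 + tnorm z ^ 2 →
      |bump r (z + w) - bump r z| ≤ (1 + μ) ^ 3 / Real.sqrt Q := by
    intro z hz
    refine (abs_bump_diff_le' z w hw).trans ?_
    have : 0 < Real.sqrt Q := Real.sqrt_pos.2 hQ
    gcongr
  have h4 : |fld α r x y i - fld α r x y (i + w)| ≤ 2 * α * ((1 + μ) ^ 3 / Real.sqrt Q) := by
    rw [fld_diff]
    refine (abs_add_le _ _).trans ?_
    rw [abs_neg, abs_mul, abs_mul, abs_of_nonneg hα]
    have h5 := mul_le_mul_of_nonneg_left (key _ hx) hα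
    have h6 := mul_le_mul_of_nonneg_left (key _ hy) hα
    linarith
  have h5 : (fld α r x y i - fld α r x y (i + w)) ^ 2 ≤ (2 * α * ((1 + μ) ^ 3 / Real.sqrt Q)) ^ 2 := by
    rw [← sq_abs]
    gcongr
  have h6 : (2 * α * ((1 + μ) ^ 3 / Real.sqrt Q)) ^ 2 = 4 * α ^ 2 * (1 + μ) ^ 6 / Q := by
    rw [mul_pow, div_pow, Real.sq_sqrt hQ.le]
    ring
  rw [h6] at h5
  calc ch α r x y i (i + w) ≤ (fld α r x y i - fld α r x y (i + w)) ^ 2 / 2
        * Real.exp |fld α r x y i - fld α r x y (i + w)| := h2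
    _ ≤ (4 * α ^ 2 * (1 + μ) ^ 6 / Q) / 2 * (1 + μ) ^ K := by gcongr
    _ = _ := by ring

/-- the number of sites in a ball -/
lemma card_ball_le (x : Torus L) {D : ℝ} (_hD : 0 ≤ D) (s : Finset (Torus L))
    (hs : ∀ i ∈ s, tnorm (i - x) ≤ D) : (s.card : ℝ) ≤ (2 * D + 1) ^ 2 := by
  have h1 : s.card ≤ (box ⌊D⌋₊).card := by
    apply Finset.card_le_card_of_injOn (fun i => rep (i - x))
    · intro i hi
      exact rep_mem_box (hs i hi)
    · intro i _ j _ h
      have := rep_injective h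
      exact sub_left_injective this
  have h2 : (s.card : ℝ) ≤ ((box ⌊D⌋₊).card : ℝ) := by exact_mod_cast h1
  rw [card_box] at h2
  refine h2.trans ?_
  have := Nat.floor_le _hD
  gcongr

end

end Pool.Agent.NVec
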