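import Pool.Agent.H.MP_8be4c0_mp.Far
import Pool.Agent.H.MP_8be4c0_mp.Main

/-!
The power law bound, final assembly.
-/

open MeasureTheory Set Filter Topology

namespace Pool.Agent.NVec

set_option linter.unusedSectionVars false

noncomputable section

lemma neg_energy_eq {n L : ℕ} [NeZero L] (J : ℤ × ℤ → ℝ) (β : ℝ) (S : Torus L → Spin (n + 2)) :
    -β * energy J S = W (cc L J β) 0 S := by
  unfold energy W cc
  rw [neg_mul_neg, Finset.mul_sum]
  refine Finset.sum_congr rfl fun i _ => ?_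
  rw [Finset.mul_sum]
  refine Finset.sum_congr rfl fun k _ => ?_
  simp
  ring

lemma corr_eq {n L : ℕ} [NeZero L] (J : ℤ × ℤ → ℝ) (β : ℝ) (x y : Torus L) :
    corr (n + 2) L J β x y
      = (∫ S : Torus L → Spin (n + 2), inner ℝ (S x : EuclideanSpace ℝ (Fin (n + 2))) (S y)
        * Real.exp (W (cc L J β) 0 S) ∂(apriori (Torus L) (n + 2))) / ZZ n (cc L J β) 0 := by
  unfold corr ZZ
  simp_rw [neg_energy_eq]

lemma abs_corr_le_one {n L : ℕ} [NeZero L] (J : ℤ × ℤ → ℝ) (β : ℝ) (x y : Torus L) :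
    |corr (n + 2) L J β x y| ≤ 1 := by
  rw [corr_eq, abs_div, abs_of_pos (ZZ_pos _ _), div_le_one (ZZ_pos _ _)]
  exact abs_integral_mul_le (n := n) (cc L J β) 0
    (fun S => inner ℝ (S x : EuclideanSpace ℝ (Fin (n + 2))) (S y)) (continuous_inner_spin x y)
    (fun S => abs_inner_le _ _)

/-- the choice of the parameters -/
lemma choose_params {η m B : ℝ} (hm : 0 ≤ m) (hB : 0 ≤ B) (h : η * (B * m) < 1) :
    ∃ α κ₀ : ℝ, 0 < α ∧ B < κ₀ ∧ η < 2 * α - κ₀ * (m * α ^ 2) := by
  obtain ⟨κ₀, hκ, hκ2⟩ : ∃ κ₀ : ℝ, B < κ₀ ∧ η * (κ₀ * m) < 1 := by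
    have hc : Continuous fun κ : ℝ => η * (κ * m) :=
      continuous_const.mul (continuous_id.mul continuous_const)
    have h1 : ∀ᶠ κ in 𝓝 B, η * (κ * m) < 1 :=
      hc.continuousAt.eventually_lt continuousAt_const h
    have h2 : ∀ᶠ κ in 𝓝[>] B, η * (κ * m) < 1 := h1.filter_mono nhdsWithin_le_nhds
    obtain ⟨κ, h3, h4⟩ := (h2.and self_mem_nhdsWithin).exists
    exact ⟨κ, h4, h3⟩
  have hκ0 : 0 < κ₀ := by linarith
  by_cases hm0 : m = 0
  · refine ⟨|η| + 1, κ₀, by positivity, hκ, ?_⟩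
    rw [hm0]
    have := le_abs_self η
    have := abs_nonneg η
    linarith
  · have hmp : 0 < m := lt_of_le_of_ne hm (Ne.symm hm0)
    have hX : 0 < κ₀ * m := by positivity
    refine ⟨1 / (κ₀ * m), κ₀, by positivity, hκ, ?_⟩
    have e : 2 * (1 / (κ₀ * m)) - κ₀ * (m * (1 / (κ₀ * m)) ^ 2) = 1 / (κ₀ * m) := by
      field_simp
      ring
    rw [e, lt_div_iff₀ hX]
    exact hκ2

/-- **The power law bound.** -/
theorem power_law (n : ℕ) {J : ℤ × ℤ → ℝ}
    (hJ : ∀ p : ℕ, Summable fun m => |J m| * (1 + nrm m) ^ p)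
    {β : ℝ} (hβ : 0 ≤ β) {η : ℝ}
    (hη : η * (2 * Real.pi * β * moment2 J * mag (n + 2) (2 * β * Jbar J)) < (n : ℝ) + 2) :
    ∃ C : ℝ, ∀ (L : ℕ) [NeZero L] (x y : Torus L), x ≠ y →
      |corr (n + 2) L J β x y| ≤ C * tnorm (x - y) ^ (-η) := by
  have hpi := Real.pi_pos
  have hn : (0 : ℝ) < (n : ℝ) + 2 := by positivity
  have hM2 : 0 ≤ moment2 J := by
    unfold moment2
    exact tsum_nonneg fun m => by positivity
  have hJb : 0 ≤ Jbar J := by
    unfold Jbar
    apply tsum_nonneg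
    intro m
    split_ifs
    · exact le_refl _
    · exact abs_nonneg _
  have hA0 : 0 ≤ mag (n + 2) (2 * β * Jbar J) := mag_nonneg (by positivity)
  set A := mag (n + 2) (2 * β * Jbar J) with hA
  -- parameters
  obtain ⟨α, κ₀, hα, hκ, hηα⟩ := choose_params (η := η) (m := Real.pi * β * moment2 J)
    (B := 2 / ((n : ℝ) + 2) * A) (by positivity) (by positivity) (by
      have e : η * (2 / ((n : ℝ) + 2) * A * (Real.pi * β * moment2 J))
          = η * (2 * Real.pi * β * moment2 J * A) / ((n : ℝ) + 2) := by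
        field_simp
      rw [e, div_lt_one hn]
      exact hη)
  have hκ0 : 0 ≤ κ₀ := le_trans (by positivity) hκ.le
  obtain ⟨K, hK⟩ : ∃ K : ℕ, 2 * α ≤ K := ⟨⌈2 * α⌉₊, Nat.le_ceil _⟩
  set gap := 2 * α - κ₀ * (Real.pi * β * moment2 J * α ^ 2) - η with hgap
  have hgap0 : 0 < gap := by linarith
  obtain ⟨M, hM, htail⟩ := tail_small hJ (K + 7)
    (ε := gap / (46 * β * (1 + κ₀) * α ^ 2 + 1)) (by positivity)
  have htail0 : 0 ≤ tailJ J (K + 7) M := by
    unfold tailJ
    apply tsum_nonneg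
    intro m
    have := nrm_nonneg m
    split_ifs
    · exact le_refl _
    · positivity
  have htail2 : 46 * β * (1 + κ₀) * α ^ 2 * tailJ J (K + 7) M ≤ gap := by
    rw [le_div_iff₀ (by positivity)] at htail
    linarith
  obtain ⟨D, hD, hfar⟩ := far_kappa n hJ hβ hα.le hK hM hκ
  obtain ⟨C₁, hC₁, henergy⟩ := energy_bound hJ hβ hα.le hK hM hκ0 hD
  set r₀ := 2 * M + 1 with hr₀
  have hr₀1 : 1 ≤ r₀ := by linarith
  refine ⟨(((n : ℝ) + 2) / 2 * Real.exp C₁ * 4 ^ η) + (4 * r₀) ^ |η|, ?_⟩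
  intro L _ x y hxy
  have hxy' : x - y ≠ 0 := sub_ne_zero.2 hxy
  set t := tnorm (x - y) with ht
  have ht1 : 1 ≤ t := one_le_tnorm hxy'
  have ht0 : 0 < t := by linarith
  have htη : 0 < t ^ (-η) := Real.rpow_pos_of_pos ht0 _
  have hc1 : 0 < (((n : ℝ) + 2) / 2 * Real.exp C₁ * 4 ^ η) := by positivity
  have hc2 : 0 < (4 * r₀) ^ |η| := by positivity
  by_cases hfarxy : 4 * r₀ ≤ t
  · -- the main case
    set r := t / 4 with hr
    have htr : t = 4 * r := by rw [hr]; ring
    have hr₀r : r₀ ≤ r := by rw [hr]; linarith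
    have hr1 : 1 ≤ r := by linarith
    have hr0 : 0 < r := by linarith
    have hlog : 0 ≤ Real.log r := Real.log_nonneg hr1
    have hE := henergy L r x y hr₀r htr
    have hgapf := fld_gap (α := α) hr1 x y (by linarith : r ≤ tnorm (x - y))
    have habs := abstract_bound (n := n) (cc L J β) (fld α r x y) x y (kap D M κ₀ x y) (by
      intro i k
      unfold kap
      by_cases hc : D ≤ tnorm (i - x) ∧ D ≤ tnorm (i - y) ∧ tnorm (k - i) ≤ M ∧ i ≠ k
      · rw [if_pos hc]
        exact hfar L r x y i k hc.1 hc.2.1 hc.2.2.1 hc.2.2.2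
      · rw [if_neg hc, one_mul]
        exact abs_integral_mul_le (n := n) _ _ (fun S => PP (S i : EuclideanSpace ℝ (Fin (n + 2)))
          (S k)) (continuous_PP i k) (fun S => abs_PP_le _ _))
    have hcorr : |corr (n + 2) L J β x y| ≤ ((n : ℝ) + 2) / 2
        * Real.exp (-(fld α r x y x - fld α r x y y)
          + ∑ i, ∑ k, |dtw (cc L J β) (fld α r x y) i k| * kap D M κ₀ x y i k) := by
      rw [corr_eq, abs_div, abs_of_pos (ZZ_pos _ _), div_le_iff₀ (ZZ_pos _ _)]
      exact habs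
    have hexp : -(fld α r x y x - fld α r x y y)
          + ∑ i, ∑ k, |dtw (cc L J β) (fld α r x y) i k| * kap D M κ₀ x y i k
          ≤ C₁ + (-η) * Real.log r := by
      rw [hgapf]
      have h1 : (κ₀ * (Real.pi * β * moment2 J * α ^ 2)
          + 46 * β * (1 + κ₀) * α ^ 2 * tailJ J (K + 7) M) * Real.log r
          ≤ (κ₀ * (Real.pi * β * moment2 J * α ^ 2) + gap) * Real.log r := by gcongr
      have e : (κ₀ * (Real.pi * β * moment2 J * α ^ 2) + gap) * Real.log r
          = 2 * α * Real.log r - η * Real.log r := by rw [hgap]; ring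
      rw [e] at h1
      linarith
    have hrt : Real.exp ((-η) * Real.log r) = 4 ^ η * t ^ (-η) := by
      rw [htr, Real.mul_rpow (by norm_num) hr0.le, ← mul_assoc, ← Real.rpow_add (by norm_num),
        add_neg_cancel, Real.rpow_zero, one_mul, Real.rpow_def_of_pos hr0, mul_comm]
    calc |corr (n + 2) L J β x y| ≤ ((n : ℝ) + 2) / 2 * Real.exp (C₁ + (-η) * Real.log r) := by
          refine hcorr.trans ?_
          gcongr
      _ = (((n : ℝ) + 2) / 2 * Real.exp C₁ * 4 ^ η) * t ^ (-η) := by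
          rw [Real.exp_add, hrt]; ring
      _ ≤ _ := by
          rw [add_mul]
          have := mul_pos hc2 htη
          linarith
  · -- bounded distance
    push Not at hfarxy
    have h1 := abs_corr_le_one (n := n) J β x y
    have h2 : 1 ≤ (4 * r₀) ^ |η| * t ^ (-η) := by
      rcases le_total 0 η with h | h
      · rw [abs_of_nonneg h, Real.rpow_neg ht0.le, ← div_eq_mul_inv,
          ← Real.div_rpow (by linarith) ht0.le]
        apply Real.one_le_rpow _ h
        rw [le_div_iff₀ ht0]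
        linarith
      · have h3 : 1 ≤ (4 * r₀) ^ |η| := Real.one_le_rpow (by linarith) (abs_nonneg _)
        have h4 : 1 ≤ t ^ (-η) := Real.one_le_rpow ht1 (by linarith)
        nlinarith
    rw [add_mul]
    have := mul_pos hc1 htη
    linarith

/-- the infinite volume form -/
lemma tnorm_proj_eq {L : ℕ} [NeZero L] (m : ℤ × ℤ) (h : 2 * nrm m < L) :
    tnorm (proj L m) = nrm m := by
  have h1 := rep_add_proj (0 : Torus L) m (by rw [tnorm_zero, zero_add]; exact h)
  rw [zero_add] at h1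
  have h2 : rep (0 : Torus L) = 0 := by
    unfold rep
    simp
  rw [tnorm_eq, h1, h2, zero_add]

end

end Pool.Agent.NVec
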