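import Pool.Agent.H.MP_8be4c0_mp.TwoEnd
import Pool.Agent.H.MP_8be4c0_mp.Decay
import Pool.Agent.H.MP_8be4c0_mp.Final

/-!
The improved power law bound, final assembly.
-/

open MeasureTheory Set Filter Topology

namespace Pool.Agent.NVec

set_option linter.unusedSectionVars false

noncomputable section

section

variable {n : ℕ} {V : Type} [Fintype V] [DecidableEq V]

/-- the interaction between two sets -/
def omg (c : V → V → ℝ) (A B : Finset V) : ℝ :=
  ∑ i, ∑ k, if (i ∈ A ∧ k ∈ B) ∨ (i ∈ B ∧ k ∈ A) then 4 * |c i k| else 0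

lemma W_cross (c : V → V → ℝ) (A B : Finset V) (s₀ σ u : V → Spin (n + 2)) :
    |W c 0 (merge A u σ) - W c 0 (merge A u (merge B s₀ σ))
      - (W c 0 (merge A s₀ σ) - W c 0 (merge A s₀ (merge B s₀ σ)))| ≤ omg c A B := by
  unfold W omg
  rw [← Finset.sum_sub_distrib, ← Finset.sum_sub_distrib, ← Finset.sum_sub_distrib]
  refine (Finset.abs_sum_le_sum_abs _ _).trans (Finset.sum_le_sum fun i _ => ?_)
  rw [← Finset.sum_sub_distrib, ← Finset.sum_sub_distrib, ← Finset.sum_sub_distrib]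
  refine (Finset.abs_sum_le_sum_abs _ _).trans (Finset.sum_le_sum fun k _ => ?_)
  simp only [Pi.zero_apply, zero_mul, add_zero]
  rw [← mul_sub, ← mul_sub, ← mul_sub, abs_mul]
  have hbd : ∀ a b c' d : Spin (n + 2), ∀ a' b' c'' d' : Spin (n + 2),
      |(inner ℝ (a : EuclideanSpace ℝ (Fin (n + 2))) (b : EuclideanSpace ℝ (Fin (n + 2))) : ℝ)
        - inner ℝ (c' : EuclideanSpace ℝ (Fin (n + 2))) (d : EuclideanSpace ℝ (Fin (n + 2)))
        - (inner ℝ (a' : EuclideanSpace ℝ (Fin (n + 2))) (b' : EuclideanSpace ℝ (Fin (n + 2)))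
        - inner ℝ (c'' : EuclideanSpace ℝ (Fin (n + 2))) (d' : EuclideanSpace ℝ (Fin (n + 2))))|
        ≤ 4 := by
    intro a b c' d a' b' c'' d'
    have h1 := abs_le.1 (abs_inner_le a b)
    have h2 := abs_le.1 (abs_inner_le c' d)
    have h3 := abs_le.1 (abs_inner_le a' b')
    have h4 := abs_le.1 (abs_inner_le c'' d')
    rw [abs_le]
    constructor <;> linarith [h1.1, h1.2, h2.1, h2.2, h3.1, h3.2, h4.1, h4.2]
  split_ifs with h
  · rw [mul_comm 4]
    exact mul_le_mul_of_nonneg_left (hbd _ _ _ _ _ _ _ _) (abs_nonneg _)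
  · have h0 : ∀ a : ℝ, a = 0 → |c i k| * |a| ≤ 0 := by
      intro a ha; rw [ha]; simp
    apply h0
    by_cases hiA : i ∈ A
    · by_cases hkA : k ∈ A
      · rw [merge_in hiA, merge_in hiA, merge_in hiA, merge_in hiA, merge_in hkA, merge_in hkA,
          merge_in hkA, merge_in hkA]
        ring
      · have hkB : k ∉ B := fun hkB => h (Or.inl ⟨hiA, hkB⟩)
        rw [merge_in hiA, merge_in hiA, merge_in hiA, merge_in hiA, merge_out hkA, merge_out hkA,
          merge_out hkA, merge_out hkA, merge_out hkB]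
        ring
    · by_cases hkA : k ∈ A
      · have hiB : i ∉ B := fun hiB => h (Or.inr ⟨hiB, hkA⟩)
        rw [merge_out hiA, merge_out hiA, merge_out hiA, merge_out hiA, merge_in hkA,
          merge_in hkA, merge_in hkA, merge_in hkA, merge_out hiB]
        ring
      · rw [merge_out hiA, merge_out hiA, merge_out hiA, merge_out hiA, merge_out hkA,
          merge_out hkA, merge_out hkA, merge_out hkA]
        ring

end

/-- the interaction between a ball and the sites at distance at least `d` of its points -/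
lemma far_sum_le {L : ℕ} [NeZero L] {J : ℤ × ℤ → ℝ}
    (hJ : ∀ p : ℕ, Summable fun m => |J m| * (1 + nrm m) ^ p)
    {β : ℝ} (hβ : 0 ≤ β) {d : ℝ} (hd : 0 < d) (p : ℕ) (i : Torus L) (B : Finset (Torus L))
    (hB : ∀ k ∈ B, d ≤ tnorm (k - i)) :
    ∑ k ∈ B, |cc L J β i k| ≤ β * (Sm J p / d ^ p) := by
  classical
  have hsum := summable_abs hJ
  set F : Torus L → ℝ := fun k => if d ≤ tnorm (k - i) then 1 else 0 with hF
  have hF0 : ∀ k, 0 ≤ F k := fun k => by rw [hF]; simp only; split_ifs <;> norm_num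
  have h1 : ∑ k ∈ B, |cc L J β i k| ≤ β * ∑ k, |perJ L J (k - i)| * F k := by
    rw [Finset.mul_sum]
    calc ∑ k ∈ B, |cc L J β i k| = ∑ k ∈ B, β * (|perJ L J (k - i)| * F k) := by
          refine Finset.sum_congr rfl fun k hk => ?_
          unfold cc
          rw [abs_mul, abs_of_nonneg hβ, hF]
          simp only
          rw [if_pos (hB k hk), mul_one]
      _ ≤ ∑ k, β * (|perJ L J (k - i)| * F k) := by
          apply Finset.sum_le_sum_of_subset_of_nonneg (Finset.subset_univ _)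
          intro k _ _
          have := hF0 k
          positivity
  refine h1.trans (mul_le_mul_of_nonneg_left ?_ hβ)
  have hg : (fun m : ℤ × ℤ => |J m| * ((1 + nrm m) ^ p / d ^ p))
      = fun m => (|J m| * (1 + nrm m) ^ p) * (d ^ p)⁻¹ := by
    funext m; ring
  have hgs : Summable fun m : ℤ × ℤ => |J m| * ((1 + nrm m) ^ p / d ^ p) := by
    rw [hg]; exact (hJ p).mul_right _
  refine (row_sum_le hsum i F hF0 (fun m => (1 + nrm m) ^ p / d ^ p) hgs ?_).trans (le_of_eq ?_)
  · intro m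
    rw [hF]
    simp only
    have hn := nrm_nonneg m
    split_ifs with h
    · rw [add_sub_cancel_left] at h
      have h2 : d ≤ 1 + nrm m := h.trans ((tnorm_proj_le m).trans (by linarith))
      rw [one_le_div (by positivity)]
      gcongr
    · positivity
  · rw [hg, tsum_mul_right]
    unfold Sm
    ring

lemma omg_le {L : ℕ} [NeZero L] {J : ℤ × ℤ → ℝ}
    (hJ : ∀ p : ℕ, Summable fun m => |J m| * (1 + nrm m) ^ p)
    {β : ℝ} (hβ : 0 ≤ β) {d : ℝ} (hd : 0 < d) (p : ℕ) (A B : Finset (Torus L))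
    (hAB : ∀ i ∈ A, ∀ k ∈ B, d ≤ tnorm (k - i)) :
    omg (cc L J β) A B ≤ 4 * ((A.card : ℝ) + B.card) * (β * (Sm J p / d ^ p)) := by
  classical
  have h1 : omg (cc L J β) A B
      ≤ (∑ i, ∑ k, if i ∈ A ∧ k ∈ B then 4 * |cc L J β i k| else 0)
        + ∑ i, ∑ k, if i ∈ B ∧ k ∈ A then 4 * |cc L J β i k| else 0 := by
    unfold omg
    rw [← Finset.sum_add_distrib]
    refine Finset.sum_le_sum fun i _ => ?_
    rw [← Finset.sum_add_distrib]
    refine Finset.sum_le_sum fun k _ => ?_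
    have := abs_nonneg (cc L J β i k)
    by_cases ha : i ∈ A ∧ k ∈ B
    · by_cases hb : i ∈ B ∧ k ∈ A
      · simp only [ha, hb, if_true, and_self, or_self]; linarith
      · rw [if_pos (Or.inl ha), if_pos ha, if_neg hb]; linarith
    · by_cases hb : i ∈ B ∧ k ∈ A
      · rw [if_pos (Or.inr hb), if_pos hb, if_neg ha]; linarith
      · rw [if_neg (not_or.2 ⟨ha, hb⟩), if_neg ha, if_neg hb]; linarith
  have h2 : ∀ A' B' : Finset (Torus L), (∀ i ∈ A', ∀ k ∈ B', d ≤ tnorm (k - i)) →
      (∑ i, ∑ k, if i ∈ A' ∧ k ∈ B' then 4 * |cc L J β i k| else 0)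
        ≤ 4 * (A'.card : ℝ) * (β * (Sm J p / d ^ p)) := by
    intro A' B' h
    have e : (∑ i, ∑ k, if i ∈ A' ∧ k ∈ B' then 4 * |cc L J β i k| else 0)
        = ∑ i ∈ A', 4 * ∑ k ∈ B', |cc L J β i k| := by
      rw [← Finset.sum_filter_add_sum_filter_not Finset.univ (fun i => i ∈ A')]
      have e0 : ∑ i ∈ Finset.univ.filter (fun i => i ∉ A'),
          ∑ k, (if i ∈ A' ∧ k ∈ B' then 4 * |cc L J β i k| else 0) = 0 := by
        apply Finset.sum_eq_zero
        intro i hi
        apply Finset.sum_eq_zero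
        intro k _
        rw [Finset.mem_filter] at hi
        rw [if_neg fun hc => hi.2 hc.1]
      rw [e0, add_zero]
      have e1 : Finset.univ.filter (fun i => i ∈ A') = A' := by ext i; simp
      rw [e1]
      refine Finset.sum_congr rfl fun i hi => ?_
      rw [Finset.mul_sum]
      have e2 : ∀ k, (if i ∈ A' ∧ k ∈ B' then 4 * |cc L J β i k| else 0)
          = if k ∈ B' then 4 * |cc L J β i k| else 0 := by
        intro k
        by_cases hk : k ∈ B'
        · rw [if_pos ⟨hi, hk⟩, if_pos hk]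
        · rw [if_neg fun hc => hk hc.2, if_neg hk]
      simp_rw [e2]
      rw [Finset.sum_ite_mem, Finset.univ_inter]
    rw [e]
    calc ∑ i ∈ A', 4 * ∑ k ∈ B', |cc L J β i k|
        ≤ ∑ i ∈ A', 4 * (β * (Sm J p / d ^ p)) := by
          refine Finset.sum_le_sum fun i hi => ?_
          have := far_sum_le hJ hβ hd p i B' (h i hi)
          linarith
      _ = _ := by
          rw [Finset.sum_const, nsmul_eq_mul]; ring
  have h3 := h2 A B hAB
  have h4 := h2 B A (fun i hi k hk => by rw [tnorm_sub_comm]; exact hAB k hk i hi)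
  refine h1.trans ?_
  calc _ ≤ 4 * (A.card : ℝ) * (β * (Sm J p / d ^ p)) + 4 * (B.card : ℝ) * (β * (Sm J p / d ^ p)) :=
        add_le_add h3 h4
    _ = _ := by ring

/-- the two-point function at a large distance -/
lemma corr_le_of_balls {n : ℕ} {J : ℤ × ℤ → ℝ}
    (hJ : ∀ p : ℕ, Summable fun m => |J m| * (1 + nrm m) ^ p)
    {β : ℝ} (hβ : 0 ≤ β) {L : ℕ} [NeZero L] {x y : Torus L} {T m : ℝ} (hT : 0 ≤ T)
    (hm0 : 0 ≤ m) (hx : BallBd n J β x T m) (hy : BallBd n J β y T m)
    (hxy : 8 * Real.exp T = tnorm (x - y)) (q : ℕ)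
    (hω : 8 * β * Sm J (q + 3) * 2 ^ (q + 3) / tnorm (x - y) ^ (q + 1) ≤ 1) :
    |corr (n + 2) L J β x y| ≤ m * m + ((n : ℝ) + 2)
      * (12 * (8 * β * Sm J (q + 3) * 2 ^ (q + 3) / tnorm (x - y) ^ (q + 1))) := by
  classical
  set t := tnorm (x - y) with ht
  have hE : Real.exp T = t / 8 := by linarith
  have hE1 : 1 ≤ Real.exp T := Real.one_le_exp hT
  have ht8 : 8 ≤ t := by linarith
  have ht0 : 0 < t := by linarith
  set A := bal x T with hA
  set B := bal y T with hB
  set F : (Torus L → Spin (n + 2)) → ℝ := W (cc L J β) 0 with hF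
  have hFc : Continuous F := continuous_W (cc L J β) 0
  have hxA : x ∈ A := by
    rw [hA, mem_bal, sub_self, ll_zero]; exact hT
  have hyA : y ∉ A := by
    rw [hA, mem_bal]
    push Not
    have h1 : T = Real.log (t / 8) := by rw [← hE, Real.log_exp]
    have h2 : Real.log (t / 8) < Real.log t := Real.log_lt_log (by positivity) (by linarith)
    have h3 : Real.log t ≤ ll (y - x) := by
      apply log_le_ll ht0
      rw [tnorm_sub_comm, ht]
    linarith
  have hdist : ∀ i ∈ A, ∀ k ∈ B, t / 2 ≤ tnorm (k - i) := by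
    intro i hi k hk
    have h1 : tnorm (i - x) ≤ Real.exp T := by
      refine (tnorm_le_el _).trans ?_
      unfold el
      exact Real.exp_le_exp.2 (mem_bal.1 hi)
    have h2 : tnorm (k - y) ≤ Real.exp T := by
      refine (tnorm_le_el _).trans ?_
      unfold el
      exact Real.exp_le_exp.2 (mem_bal.1 hk)
    have e : x - y = -((k - i) + ((i - x) - (k - y))) := by abel
    have h3 : t ≤ tnorm (k - i) + (tnorm (i - x) + tnorm (k - y)) := by
      rw [ht, e, tnorm_neg]
      refine (tnorm_add_le _ _).trans ?_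
      have := tnorm_sub_le (i - x) (k - y)
      linarith
    linarith
  have hcard : ∀ z : Torus L, ((bal z T).card : ℝ) ≤ t ^ 2 := by
    intro z
    have h1 := card_ball_le z (D := Real.exp T) (by positivity) (bal z T) (by
      intro i hi
      refine (tnorm_le_el _).trans ?_
      unfold el
      exact Real.exp_le_exp.2 (mem_bal.1 hi))
    refine h1.trans ?_
    have h2 : 2 * Real.exp T + 1 ≤ t := by linarith
    have h3 : 0 ≤ 2 * Real.exp T + 1 := by positivity
    gcongr
  set ω₀ := 8 * β * Sm J (q + 3) * 2 ^ (q + 3) / t ^ (q + 1) with hω₀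
  have homg : omg (cc L J β) A B ≤ ω₀ := by
    refine (omg_le hJ hβ (by positivity : 0 < t / 2) (q + 3) A B hdist).trans ?_
    have h1 := hcard x
    have h2 := hcard y
    have h3 := Sm_nonneg J (q + 3)
    calc 4 * ((A.card : ℝ) + B.card) * (β * (Sm J (q + 3) / (t / 2) ^ (q + 3)))
        ≤ 4 * (t ^ 2 + t ^ 2) * (β * (Sm J (q + 3) / (t / 2) ^ (q + 3))) := by gcongr
      _ = ω₀ := by
        rw [hω₀, div_pow]
        field_simp
        ring
  set s₀ : Torus L → Spin (n + 2) := fun _ => ⟨e0, by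
    rw [mem_sphere_zero_iff_norm]; exact norm_e0⟩ with hs₀
  have hε : ∀ σ r, |cm F A x σ r - cm F A x (merge B s₀ σ) r| ≤ 12 * ω₀ := by
    intro σ r
    rw [cm_apply, cm_apply]
    have h1 : ∀ u, |F (merge A u σ) - F (merge A u (merge B s₀ σ))
        - (F (merge A s₀ σ) - F (merge A s₀ (merge B s₀ σ)))| ≤ ω₀ :=
      fun u => (W_cross (cc L J β) A B s₀ σ u).trans homg
    refine perturb hFc A σ (merge B s₀ σ) h1 hω (continuous_comp_spin x r)
      (fun S => abs_comp_le (S x) r) ?_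
    intro u
    rw [merge_in hxA, merge_in hxA]
  have hmain := two_point_abs hFc hyA hm0 hm0 hx hy s₀ hε s₀
  have e1 : bInt F Finset.univ s₀ (fun S => inner ℝ (S x : EuclideanSpace ℝ (Fin (n + 2))) (S y))
      = ∫ S : Torus L → Spin (n + 2), inner ℝ (S x : EuclideanSpace ℝ (Fin (n + 2))) (S y)
        * Real.exp (W (cc L J β) 0 S) ∂(apriori (Torus L) (n + 2)) := by
    unfold bInt
    simp_rw [merge_univ]
    rfl
  have e2 : bZ F Finset.univ s₀ = ZZ n (cc L J β) 0 := by
    unfold bZ ZZ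
    simp_rw [merge_univ]
    rfl
  rw [e1, e2] at hmain
  rw [corr_eq, abs_div, abs_of_pos (ZZ_pos _ _), div_le_iff₀ (ZZ_pos _ _)]
  refine hmain.trans (le_of_eq ?_)
  push_cast
  ring

/-- **The improved power law bound.** -/
theorem power_law3 (n : ℕ) {J : ℤ × ℤ → ℝ}
    (hJ : ∀ p : ℕ, Summable fun m => |J m| * (1 + nrm m) ^ p)
    {β : ℝ} (hβ : 0 ≤ β) {η : ℝ}
    (hη : η * (2 * Real.pi * β * moment2 J * mag (n + 2) (2 * β * Jbar J))
      < ((n : ℝ) + 2) * ((n : ℝ) + 1)) :
    ∃ C : ℝ, ∀ (L : ℕ) [NeZero L] (x y : Torus L), x ≠ y →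
      |corr (n + 2) L J β x y| ≤ C * tnorm (x - y) ^ (-η) := by
  rcases lt_or_ge η 0 with hneg | hη0
  · refine ⟨1, fun L _ x y hxy => ?_⟩
    have h1 := abs_corr_le_one (n := n) J β x y
    have h2 : 1 ≤ tnorm (x - y) := one_le_tnorm (sub_ne_zero.2 hxy)
    have h3 : 1 ≤ tnorm (x - y) ^ (-η) := Real.one_le_rpow h2 (by linarith)
    linarith
  obtain ⟨C, hC1, hball⟩ := ball_decay n hJ hβ hη0 hη
  set q := ⌈η⌉₊ with hq
  have hqη : η ≤ q := Nat.le_ceil η
  set ω₁ := 8 * β * Sm J (q + 3) * 2 ^ (q + 3) with hω₁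
  have hω₁0 : 0 ≤ ω₁ := by
    have := Sm_nonneg J (q + 3)
    positivity
  set t₁ := 8 + ω₁ with ht₁
  refine ⟨C ^ 2 * 8 ^ η + ((n : ℝ) + 2) * (12 * ω₁) + t₁ ^ η, ?_⟩
  intro L _ x y hxy
  have hxy' : x - y ≠ 0 := sub_ne_zero.2 hxy
  set t := tnorm (x - y) with ht
  have ht1 : 1 ≤ t := one_le_tnorm hxy'
  have ht0 : 0 < t := by linarith
  have htη : 0 < t ^ (-η) := Real.rpow_pos_of_pos ht0 _
  have hc1 : 0 ≤ C ^ 2 * 8 ^ η := by positivity
  have hc2 : 0 ≤ ((n : ℝ) + 2) * (12 * ω₁) := by positivity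
  have hc3 : 0 < t₁ ^ η := by
    apply Real.rpow_pos_of_pos; linarith
  by_cases hbig : t₁ ≤ t
  · set T := Real.log (t / 8) with hT
    have hT0 : 0 ≤ T := Real.log_nonneg (by rw [le_div_iff₀ (by norm_num)]; linarith)
    have hE : Real.exp T = t / 8 := Real.exp_log (by positivity)
    have hL : 4 * Real.exp T < L := by
      rw [hE]
      have h1 := two_tnorm_sq_le (x - y)
      rw [← ht] at h1
      have hL0 : (0 : ℝ) ≤ L := Nat.cast_nonneg L
      nlinarith
    have hω : ω₁ / t ^ (q + 1) ≤ 1 := by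
      rw [div_le_one (by positivity)]
      have : t ≤ t ^ (q + 1) := by
        calc t = t ^ 1 := (pow_one t).symm
          _ ≤ t ^ (q + 1) := pow_le_pow_right₀ ht1 (by omega)
      linarith
    have hω2 : ω₁ / t ^ (q + 1) ≤ ω₁ * t ^ (-η) := by
      rw [div_eq_mul_inv]
      apply mul_le_mul_of_nonneg_left _ hω₁0
      rw [Real.rpow_neg ht0.le]
      apply inv_anti₀ (Real.rpow_pos_of_pos ht0 _)
      rw [← Real.rpow_natCast]
      apply Real.rpow_le_rpow_of_exponent_le ht1
      push_cast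
      linarith
    have hmain := corr_le_of_balls hJ hβ hT0 (by positivity)
      (hball L x T hT0 hL) (hball L y T hT0 hL) (by rw [hE]; ring) q hω
    rw [← ht] at hmain
    have hmm : C * Real.exp (-(η / 2 * T)) * (C * Real.exp (-(η / 2 * T)))
        = C ^ 2 * 8 ^ η * t ^ (-η) := by
      have e1 : Real.exp (-(η / 2 * T)) * Real.exp (-(η / 2 * T)) = (t / 8) ^ (-η) := by
        rw [← Real.exp_add, Real.rpow_def_of_pos (by positivity), ← hT]
        congr 1; ring
      have e2 : (t / 8) ^ (-η) = 8 ^ η * t ^ (-η) := by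
        rw [Real.div_rpow ht0.le (by norm_num), Real.rpow_neg (by norm_num : (0:ℝ) ≤ 8),
          div_inv_eq_mul, mul_comm]
      calc C * Real.exp (-(η / 2 * T)) * (C * Real.exp (-(η / 2 * T)))
          = C ^ 2 * (Real.exp (-(η / 2 * T)) * Real.exp (-(η / 2 * T))) := by ring
        _ = _ := by rw [e1, e2]; ring
    rw [hmm] at hmain
    refine hmain.trans ?_
    have h1 : ((n : ℝ) + 2) * (12 * (ω₁ / t ^ (q + 1)))
        ≤ ((n : ℝ) + 2) * (12 * (ω₁ * t ^ (-η))) := by gcongr
    have h2 : 0 < t₁ ^ η * t ^ (-η) := mul_pos hc3 htη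
    rw [add_mul, add_mul]
    linarith
  · push Not at hbig
    have h1 := abs_corr_le_one (n := n) J β x y
    have h2 : 1 ≤ t₁ ^ η * t ^ (-η) := by
      rw [Real.rpow_neg ht0.le, ← div_eq_mul_inv, ← Real.div_rpow (by linarith) ht0.le]
      apply Real.one_le_rpow _ hη0
      rw [le_div_iff₀ ht0]
      linarith
    rw [add_mul, add_mul]
    have h3 := mul_nonneg hc1 htη.le
    have h4 := mul_nonneg hc2 htη.le
    linarith

end

end Pool.Agent.NVec
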