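import Pool.Agent.H.MP_8be4c0_mp.Gap1

/-!
The averaged kernel.
-/

open MeasureTheory Set Filter Topology

namespace Pool.Agent.NVec

set_option linter.unusedSectionVars false

noncomputable section

/-- the exponential moment of the coupling -/
def Sx (J : ℤ × ℤ → ℝ) (μ : ℝ) : ℝ :=
  ∑' m : ℤ × ℤ, |J m| * ((1 + nrm m) ^ 3 * Real.exp (μ * nrm m))

lemma Sx_nonneg (J : ℤ × ℤ → ℝ) (μ : ℝ) : 0 ≤ Sx J μ :=
  tsum_nonneg fun m => by have := nrm_nonneg m; positivity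

/-- the weight of a displacement -/
def wt (μ t : ℝ) : ℝ := (1 + t) ^ 3 * Real.exp (μ * t)

lemma wt_nonneg {μ t : ℝ} (ht : 0 ≤ t) : 0 ≤ wt μ t := by unfold wt; positivity

lemma wt_mono {μ t t' : ℝ} (hμ : 0 ≤ μ) (ht : 0 ≤ t) (h : t ≤ t') : wt μ t ≤ wt μ t' := by
  unfold wt
  have h1 : 0 ≤ t' := ht.trans h
  gcongr

lemma kernel_row {L : ℕ} [NeZero L] {J : ℤ × ℤ → ℝ} (hJ : Summable fun m => |J m|)
    {β μ : ℝ} (hβ : 0 ≤ β) (hμ : 0 ≤ μ)
    (hS : Summable fun m : ℤ × ℤ => |J m| * ((1 + nrm m) ^ 3 * Real.exp (μ * nrm m)))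
    (c₁ : Torus L) :
    ∑ c₂, (|cc L J β c₁ c₂| + |cc L J β c₂ c₁|) * wt μ (tnorm (c₂ - c₁))
      ≤ 2 * β * Sx J μ := by
  have hF0 : ∀ k : Torus L, 0 ≤ wt μ (tnorm (k - c₁)) := fun k => wt_nonneg (tnorm_nonneg _)
  have h1 := row_sum_le hJ c₁ (fun k => wt μ (tnorm (k - c₁))) hF0
    (fun m => (1 + nrm m) ^ 3 * Real.exp (μ * nrm m)) hS (by
      intro m
      rw [add_sub_cancel_left]
      exact wt_mono hμ (tnorm_nonneg _) (tnorm_proj_le m))
  have h2 := col_sum_le hJ c₁ (fun k => wt μ (tnorm (k - c₁))) hF0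
    (fun m => (1 + nrm m) ^ 3 * Real.exp (μ * nrm m)) hS (by
      intro m
      rw [sub_sub_cancel_left, tnorm_neg]
      exact wt_mono hμ (tnorm_nonneg _) (tnorm_proj_le m))
  have e : ∑ c₂, (|cc L J β c₁ c₂| + |cc L J β c₂ c₁|) * wt μ (tnorm (c₂ - c₁))
      = β * (∑ k, |perJ L J (k - c₁)| * wt μ (tnorm (k - c₁)))
        + β * ∑ k, |perJ L J (c₁ - k)| * wt μ (tnorm (k - c₁)) := by
    rw [Finset.mul_sum, Finset.mul_sum, ← Finset.sum_add_distrib]
    refine Finset.sum_congr rfl fun k _ => ?_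
    unfold cc
    rw [abs_mul, abs_mul, abs_of_nonneg hβ]
    ring
  rw [e]
  have h3 := mul_le_mul_of_nonneg_left h1 hβ
  have h4 := mul_le_mul_of_nonneg_left h2 hβ
  have e2 : 2 * β * Sx J μ = β * Sx J μ + β * Sx J μ := by ring
  rw [e2]
  unfold Sx
  linarith

open Classical in
/-- the averaged kernel -/
def Kav {L : ℕ} [NeZero L] (J : ℤ × ℤ → ℝ) (β m : ℝ) (R : ℕ) (B₀ : Torus L → Finset (Torus L))
    (x z : Torus L) : ℝ :=
  (1 / (R : ℝ)) * ∑ c₁ ∈ tball x (2 * R), 2 * (|cc L J β c₁ z| + |cc L J β z c₁|)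
    * ((m + if c₁ ∈ B₀ x then 4 / (R : ℝ) ^ 2 else 0) * (1 + tnorm (z - c₁)) ^ 3)

lemma Kav_nonneg {L : ℕ} [NeZero L] (J : ℤ × ℤ → ℝ) (β : ℝ) {m : ℝ} (hm : 0 ≤ m) (R : ℕ)
    (B₀ : Torus L → Finset (Torus L)) (x z : Torus L) : 0 ≤ Kav J β m R B₀ x z := by
  unfold Kav
  apply mul_nonneg (by positivity)
  refine Finset.sum_nonneg fun c₁ _ => ?_
  have h1 := tnorm_nonneg (z - c₁)
  have h2 : 0 ≤ (m + if c₁ ∈ B₀ x then 4 / (R : ℝ) ^ 2 else 0) := by
    split_ifs <;> positivity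
  positivity

/-- the sum of the averaged kernel -/
lemma Kav_sum {L : ℕ} [NeZero L] {J : ℤ × ℤ → ℝ} (hJ : Summable fun m => |J m|)
    {β μ : ℝ} (hβ : 0 ≤ β) (hμ : 0 ≤ μ)
    (hS : Summable fun m : ℤ × ℤ => |J m| * ((1 + nrm m) ^ 3 * Real.exp (μ * nrm m)))
    {m : ℝ} (hm : 0 ≤ m) {R : ℕ} (hR : 1 ≤ R)
    (B₀ : Torus L → Finset (Torus L)) (hB : ∀ x, B₀ x ⊆ tball x ((R : ℝ) / 2)) (x : Torus L) :
    ∑ z, Kav J β m R B₀ x z * Real.exp (μ * tnorm (x - z))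
      ≤ Real.exp (2 * R * μ) * (4 * β * Sx J μ) * (25 * R * m + 16 / R) := by
  classical
  have hR0 : (0 : ℝ) < R := by
    have : (1 : ℝ) ≤ R := by exact_mod_cast hR
    linarith
  have hR1 : (1 : ℝ) ≤ R := by exact_mod_cast hR
  have hS0 := Sx_nonneg J μ
  set γ : Torus L → ℝ := fun c₁ => m + if c₁ ∈ B₀ x then 4 / (R : ℝ) ^ 2 else 0 with hγ
  have hγ0 : ∀ c₁, 0 ≤ γ c₁ := fun c₁ => by
    rw [hγ]; simp only; split_ifs <;> positivity
  have h1 : ∀ c₁ ∈ tball x (2 * (R : ℝ)),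
      ∑ z, 2 * (|cc L J β c₁ z| + |cc L J β z c₁|) * (γ c₁ * (1 + tnorm (z - c₁)) ^ 3)
        * Real.exp (μ * tnorm (x - z))
      ≤ γ c₁ * (Real.exp (2 * R * μ) * (4 * β * Sx J μ)) := by
    intro c₁ hc₁
    rw [mem_tball] at hc₁
    have h2 : ∀ z : Torus L, 2 * (|cc L J β c₁ z| + |cc L J β z c₁|)
        * (γ c₁ * (1 + tnorm (z - c₁)) ^ 3) * Real.exp (μ * tnorm (x - z))
        ≤ (2 * γ c₁ * Real.exp (2 * R * μ)) *
          ((|cc L J β c₁ z| + |cc L J β z c₁|) * wt μ (tnorm (z - c₁))) := by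
      intro z
      have h3 : tnorm (x - z) ≤ 2 * R + tnorm (z - c₁) := by
        have e : x - z = (x - c₁) - (z - c₁) := by abel
        rw [e]
        refine (tnorm_sub_le _ _).trans ?_
        rw [tnorm_sub_comm x c₁]
        linarith
      have h4 : Real.exp (μ * tnorm (x - z))
          ≤ Real.exp (2 * R * μ) * Real.exp (μ * tnorm (z - c₁)) := by
        rw [← Real.exp_add]
        apply Real.exp_le_exp.2
        have := mul_le_mul_of_nonneg_left h3 hμ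
        linarith
      have h5 : 0 ≤ 2 * (|cc L J β c₁ z| + |cc L J β z c₁|)
          * (γ c₁ * (1 + tnorm (z - c₁)) ^ 3) := by
        have := tnorm_nonneg (z - c₁)
        have := hγ0 c₁
        positivity
      calc _ ≤ 2 * (|cc L J β c₁ z| + |cc L J β z c₁|)
          * (γ c₁ * (1 + tnorm (z - c₁)) ^ 3)
            * (Real.exp (2 * R * μ) * Real.exp (μ * tnorm (z - c₁))) :=
            mul_le_mul_of_nonneg_left h4 h5
        _ = _ := by unfold wt; ring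
    refine (Finset.sum_le_sum fun z _ => h2 z).trans ?_
    rw [← Finset.mul_sum]
    have h6 := kernel_row (L := L) hJ hβ hμ hS c₁
    have h7 : 0 ≤ 2 * γ c₁ * Real.exp (2 * R * μ) := by
      have := hγ0 c₁
      positivity
    calc _ ≤ (2 * γ c₁ * Real.exp (2 * R * μ)) * (2 * β * Sx J μ) :=
          mul_le_mul_of_nonneg_left h6 h7
      _ = _ := by ring
  have e : ∑ z, Kav J β m R B₀ x z * Real.exp (μ * tnorm (x - z))
      = (1 / (R : ℝ)) * ∑ c₁ ∈ tball x (2 * (R : ℝ)),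
        ∑ z, 2 * (|cc L J β c₁ z| + |cc L J β z c₁|) * (γ c₁ * (1 + tnorm (z - c₁)) ^ 3)
        * Real.exp (μ * tnorm (x - z)) := by
    rw [Finset.sum_comm, Finset.mul_sum]
    refine Finset.sum_congr rfl fun z _ => ?_
    unfold Kav
    rw [mul_assoc, Finset.sum_mul]
  rw [e]
  have h8 : ∑ c₁ ∈ tball x (2 * (R : ℝ)), γ c₁ ≤ R * (25 * R * m + 16 / R) := by
    rw [hγ, Finset.sum_add_distrib, Finset.sum_const, nsmul_eq_mul, ← Finset.sum_filter,
      Finset.sum_const, nsmul_eq_mul]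
    have h9 := card_tball x (r := 2 * (R : ℝ)) (by positivity)
    have h10 : (((tball x (2 * (R : ℝ))).filter fun c₁ => c₁ ∈ B₀ x).card : ℝ)
        ≤ (2 * ((R : ℝ) / 2) + 1) ^ 2 := by
      refine le_trans ?_ (card_tball x (r := (R : ℝ) / 2) (by positivity))
      have : ((tball x (2 * (R : ℝ))).filter fun c₁ => c₁ ∈ B₀ x).card
          ≤ (tball x ((R : ℝ) / 2)).card := by
        apply Finset.card_le_card
        intro z hz
        exact hB x (Finset.mem_filter.1 hz).2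
      exact_mod_cast this
    have h11 : ((tball x (2 * (R : ℝ))).card : ℝ) * m ≤ (25 * R ^ 2) * m := by
      apply mul_le_mul_of_nonneg_right (h9.trans _) hm
      nlinarith
    have h12 : (((tball x (2 * (R : ℝ))).filter fun c₁ => c₁ ∈ B₀ x).card : ℝ)
        * (4 / (R : ℝ) ^ 2) ≤ (4 * R ^ 2) * (4 / (R : ℝ) ^ 2) := by
      apply mul_le_mul_of_nonneg_right (h10.trans _) (by positivity)
      nlinarith
    have e1 : (4 * (R : ℝ) ^ 2) * (4 / (R : ℝ) ^ 2) = 16 := by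
      field_simp; norm_num
    have e2 : (R : ℝ) * (25 * R * m + 16 / R) = 25 * R ^ 2 * m + 16 := by
      field_simp
    rw [e1] at h12
    rw [e2]
    linarith
  have hK : 0 ≤ Real.exp (2 * R * μ) * (4 * β * Sx J μ) := by positivity
  calc (1 / (R : ℝ)) * ∑ c₁ ∈ tball x (2 * (R : ℝ)),
        ∑ z, 2 * (|cc L J β c₁ z| + |cc L J β z c₁|) * (γ c₁ * (1 + tnorm (z - c₁)) ^ 3)
        * Real.exp (μ * tnorm (x - z))
      ≤ (1 / (R : ℝ)) * ∑ c₁ ∈ tball x (2 * (R : ℝ)),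
        γ c₁ * (Real.exp (2 * R * μ) * (4 * β * Sx J μ)) := by
        apply mul_le_mul_of_nonneg_left (Finset.sum_le_sum h1) (by positivity)
    _ = (1 / (R : ℝ)) * ((∑ c₁ ∈ tball x (2 * (R : ℝ)), γ c₁)
        * (Real.exp (2 * R * μ) * (4 * β * Sx J μ))) := by rw [Finset.sum_mul]
    _ ≤ (1 / (R : ℝ)) * ((R * (25 * R * m + 16 / R))
        * (Real.exp (2 * R * μ) * (4 * β * Sx J μ))) := by
        apply mul_le_mul_of_nonneg_left _ (by positivity)
        exact mul_le_mul_of_nonneg_right h8 hK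
    _ = _ := by field_simp

end

end Pool.Agent.NVec
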