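import Pool.Agent.H.MP_8be4c0_mp.FKmain
import Pool.Agent.H.MP_8be4c0_mp.Final
import Pool.Agent.H.MP_8be4c0_mp.Gap2

/-!
The mass gap.
-/

open MeasureTheory Set Filter Topology

namespace Pool.Agent.NVec

set_option linter.unusedSectionVars false

noncomputable section

section

variable {n : ℕ} {V : Type} [Fintype V] [DecidableEq V]

/-- the isometry exchanging two coordinates -/
def swp (r : Fin (n + 2)) :
    EuclideanSpace ℝ (Fin (n + 2)) ≃ₗᵢ[ℝ] EuclideanSpace ℝ (Fin (n + 2)) :=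
  LinearIsometryEquiv.piLpCongrLeft 2 ℝ ℝ (Equiv.swap 0 r)

lemma swp_zero (r : Fin (n + 2)) (u : EuclideanSpace ℝ (Fin (n + 2))) : (swp r u) 0 = u r := by
  unfold swp
  rw [LinearIsometryEquiv.piLpCongrLeft_apply]
  simp

/-- all components have the same two-point function -/
lemma integral_comp_eq (c : V → V → ℝ) (x y : V) (r : Fin (n + 2)) :
    ∫ S : V → Spin (n + 2), (S x : EuclideanSpace ℝ (Fin (n + 2))) r
      * (S y : EuclideanSpace ℝ (Fin (n + 2))) r * Real.exp (W c 0 S) ∂(apriori V (n + 2))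
      = G1 n c x y := by
  have hcont : Continuous fun S : V → Spin (n + 2) => s0 S x * s0 S y * Real.exp (W c 0 S) :=
    ((continuous_s0 x).mul (continuous_s0 y)).mul (continuous_expW c 0)
  have h := integral_actAll (fun _ : V => swp r) _ hcont
  unfold G1
  rw [← h]
  refine integral_congr_ae (Eventually.of_forall fun S => ?_)
  simp only
  have e1 := W_allAct c (swp r) S
  unfold allAct at e1
  rw [e1]
  unfold s0
  rw [coe_act, coe_act, swp_zero, swp_zero]

lemma integral_inner_G1 (c : V → V → ℝ) (x y : V) :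
    ∫ S : V → Spin (n + 2), inner ℝ (S x : EuclideanSpace ℝ (Fin (n + 2))) (S y)
      * Real.exp (W c 0 S) ∂(apriori V (n + 2)) = ((n : ℝ) + 2) * G1 n c x y := by
  have e1 : ∀ S : V → Spin (n + 2), inner ℝ (S x : EuclideanSpace ℝ (Fin (n + 2))) (S y)
      * Real.exp (W c 0 S) = ∑ r, (S x : EuclideanSpace ℝ (Fin (n + 2))) r
      * (S y : EuclideanSpace ℝ (Fin (n + 2))) r * Real.exp (W c 0 S) := by
    intro S
    rw [inner_eq, Finset.sum_mul]
  simp_rw [e1]
  have h := integral_finsetSum (μ := apriori V (n + 2)) (Finset.univ : Finset (Fin (n + 2)))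
    (f := fun r S => (S x : EuclideanSpace ℝ (Fin (n + 2))) r
      * (S y : EuclideanSpace ℝ (Fin (n + 2))) r * Real.exp (W c 0 S))
    fun r _ => integrable_cont _ (((continuous_coord x r).mul (continuous_coord y r)).mul
      (continuous_expW c 0))
  rw [h]
  simp_rw [integral_comp_eq]
  rw [Finset.sum_const, Finset.card_univ, Fintype.card_fin, nsmul_eq_mul]
  push_cast
  ring

lemma G1_le_ZZ (c : V → V → ℝ) (x y : V) : G1 n c x y ≤ ZZ n c 0 := by
  unfold G1 ZZ
  apply integral_mono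
  · exact integrable_cont _ (((continuous_s0 x).mul (continuous_s0 y)).mul (continuous_expW c 0))
  · exact integrable_cont _ (continuous_expW c 0)
  intro S
  simp only
  have h1 : s0 S x * s0 S y ≤ 1 := by
    calc s0 S x * s0 S y ≤ |s0 S x * s0 S y| := le_abs_self _
      _ = |s0 S x| * |s0 S y| := abs_mul _ _
      _ ≤ 1 * 1 := mul_le_mul (abs_s0_le S x) (abs_s0_le S y) (abs_nonneg _) zero_le_one
      _ = 1 := one_mul _
  calc s0 S x * s0 S y * Real.exp (W c 0 S) ≤ 1 * Real.exp (W c 0 S) :=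
        mul_le_mul_of_nonneg_right h1 (Real.exp_pos _).le
    _ = _ := one_mul _

end

lemma corr_eq_G1 {n L : ℕ} [NeZero L] (J : ℤ × ℤ → ℝ) (β : ℝ) (x y : Torus L) :
    corr (n + 2) L J β x y
      = ((n : ℝ) + 2) * (G1 n (cc L J β) x y / ZZ n (cc L J β) 0) := by
  rw [corr_eq, integral_inner_G1]
  ring

/-- polynomial times exponential weights -/
lemma poly_exp_le (p : ℕ) {a : ℝ} (ha : 0 < a) :
    ∃ C : ℝ, 0 ≤ C ∧ ∀ t : ℝ, 0 ≤ t → (1 + t) ^ p ≤ C * Real.exp (a * t) := by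
  refine ⟨(p.factorial : ℝ) / a ^ p * Real.exp a, by positivity, fun t ht => ?_⟩
  have h := Real.pow_div_factorial_le_exp (a * (1 + t)) (by positivity) p
  have hf : (0 : ℝ) < p.factorial := by exact_mod_cast Nat.factorial_pos p
  rw [div_le_iff₀ hf, mul_pow] at h
  have h2 : Real.exp (a * (1 + t)) = Real.exp a * Real.exp (a * t) := by
    rw [← Real.exp_add]; congr 1; ring
  rw [h2] at h
  have h3 : (1 + t) ^ p ≤ (Real.exp a * Real.exp (a * t) * p.factorial) / a ^ p := by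
    rw [le_div_iff₀ (by positivity)]
    linarith
  refine h3.trans (le_of_eq ?_)
  ring

lemma summable_poly {J : ℤ × ℤ → ℝ} {μ₀ : ℝ} (hμ₀ : 0 < μ₀)
    (hJ : Summable fun m : ℤ × ℤ => |J m| * Real.exp (μ₀ * nrm m)) (p : ℕ) :
    Summable fun m : ℤ × ℤ => |J m| * (1 + nrm m) ^ p := by
  obtain ⟨C, hC, h⟩ := poly_exp_le p hμ₀
  refine Summable.of_nonneg_of_le (fun m => ?_) (fun m => ?_) (hJ.mul_left C)
  · have := nrm_nonneg m; positivity
  · calc |J m| * (1 + nrm m) ^ p ≤ |J m| * (C * Real.exp (μ₀ * nrm m)) :=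
        mul_le_mul_of_nonneg_left (h _ (nrm_nonneg m)) (abs_nonneg _)
      _ = _ := by ring

lemma summable_exp {J : ℤ × ℤ → ℝ} {μ₀ : ℝ} (hμ₀ : 0 < μ₀)
    (hJ : Summable fun m : ℤ × ℤ => |J m| * Real.exp (μ₀ * nrm m)) {μ : ℝ} (hμ : μ ≤ μ₀ / 2) :
    Summable fun m : ℤ × ℤ => |J m| * ((1 + nrm m) ^ 3 * Real.exp (μ * nrm m)) := by
  obtain ⟨C, hC, h⟩ := poly_exp_le 3 (half_pos hμ₀)
  refine Summable.of_nonneg_of_le (fun m => ?_) (fun m => ?_) (hJ.mul_left C)
  · have := nrm_nonneg m; positivity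
  · have hn := nrm_nonneg m
    have h1 : Real.exp (μ * nrm m) ≤ Real.exp (μ₀ / 2 * nrm m) :=
      Real.exp_le_exp.2 (mul_le_mul_of_nonneg_right hμ hn)
    have h2 : Real.exp (μ₀ / 2 * nrm m) * Real.exp (μ₀ / 2 * nrm m) = Real.exp (μ₀ * nrm m) := by
      rw [← Real.exp_add]; congr 1; ring
    calc |J m| * ((1 + nrm m) ^ 3 * Real.exp (μ * nrm m))
        ≤ |J m| * ((C * Real.exp (μ₀ / 2 * nrm m)) * Real.exp (μ₀ / 2 * nrm m)) := by
          apply mul_le_mul_of_nonneg_left _ (abs_nonneg _)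
          exact mul_le_mul (h _ hn) h1 (Real.exp_pos _).le (by positivity)
      _ = C * (|J m| * (Real.exp (μ₀ / 2 * nrm m) * Real.exp (μ₀ / 2 * nrm m))) := by ring
      _ = _ := by rw [h2]

lemma Sx_mono {J : ℤ × ℤ → ℝ} {μ μ' : ℝ} (h : μ ≤ μ')
    (hS : Summable fun m : ℤ × ℤ => |J m| * ((1 + nrm m) ^ 3 * Real.exp (μ * nrm m)))
    (hS' : Summable fun m : ℤ × ℤ => |J m| * ((1 + nrm m) ^ 3 * Real.exp (μ' * nrm m))) :
    Sx J μ ≤ Sx J μ' := by
  unfold Sx
  refine Summable.tsum_le_tsum (fun m => ?_) hS hS'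
  have hn := nrm_nonneg m
  have h1 : Real.exp (μ * nrm m) ≤ Real.exp (μ' * nrm m) :=
    Real.exp_le_exp.2 (mul_le_mul_of_nonneg_right h hn)
  gcongr

lemma cc_nonneg {L : ℕ} [NeZero L] {J : ℤ × ℤ → ℝ} (hpos : ∀ m, m ≠ 0 → 0 ≤ J m) {β : ℝ}
    (hβ : 0 ≤ β) (i k : Torus L) (hik : i ≠ k) : 0 ≤ cc L J β i k := by
  unfold cc perJ
  apply mul_nonneg hβ
  apply tsum_nonneg
  intro m
  split_ifs with h
  · apply hpos
    rintro rfl
    apply hik
    have : proj L 0 = 0 := by unfold proj; simp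
    rw [this] at h
    exact (sub_eq_zero.1 h.symm).symm
  · exact le_refl _

end

end Pool.Agent.NVec
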