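import Pool.Agent.H.MP_8be4c0_mp.FKineq
import Pool.Agent.H.MP_8be4c0_mp.Gap2

/-!
Exponential decay of the two-point function.
-/

open MeasureTheory Set Filter Topology

namespace Pool.Agent.NVec

set_option linter.unusedSectionVars false

noncomputable section

lemma G1_nonneg {n : ℕ} {V : Type} [Fintype V] [DecidableEq V] {c : V → V → ℝ}
    (hc : ∀ i k, i ≠ k → 0 ≤ c i k) (x y : V) : 0 ≤ G1 n c x y := by
  classical
  rw [G1_eq]
  refine Finset.sum_nonneg fun η _ => ?_
  split_ifs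
  · exact integral_nonneg fun S => mul_nonneg (mul_nonneg (abs_nonneg _) (abs_nonneg _))
      (om_nonneg hc η S)
  · exact le_refl _

/-- the averaged Simon-Lieb inequality -/
lemma avg_ineq {n : ℕ} {L : ℕ} [NeZero L] {J : ℤ × ℤ → ℝ} {β : ℝ}
    (hc : ∀ i k : Torus L, i ≠ k → 0 ≤ cc L J β i k) {m : ℝ} (hm0 : 0 ≤ m) {R : ℕ} (hR : 1 ≤ R)
    (B₀ : Torus L → Finset (Torus L)) (hB : ∀ x, B₀ x ⊆ tball x ((R : ℝ) / 2))
    (hm : ∀ (x : Torus L) (τ : Torus L → Spin (n + 2)) (e : EuclideanSpace ℝ (Fin (n + 2))),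
      bInt (W (cc L J β) 0) (B₀ x) τ
        (fun S => inner ℝ e (S x : EuclideanSpace ℝ (Fin (n + 2))))
        ≤ m * ‖e‖ * bZ (W (cc L J β) 0) (B₀ x) τ)
    (x y : Torus L) (hxy : 2 * (R : ℝ) < tnorm (x - y)) :
    G1 n (cc L J β) x y ≤ ∑ z, Kav J β m R B₀ x z * G1 n (cc L J β) z y := by
  classical
  have hR0 : (0 : ℝ) < R := by
    have : (1 : ℝ) ≤ R := by exact_mod_cast hR
    linarith
  set c := cc L J β with hcdef
  have hG0 : ∀ z, 0 ≤ G1 n c z y := fun z => G1_nonneg hc z y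
  set γ₀ : Torus L → ℝ := fun c₁ => if c₁ ∈ B₀ x then 1 else m with hγ₀
  set ind : ℕ → Torus L → Torus L → ℝ := fun j c₁ c₂ =>
    if tnorm (c₁ - x) ≤ (R : ℝ) + j ∧ ¬ tnorm (c₂ - x) ≤ (R : ℝ) + j then 1 else 0 with hind
  have hstep : ∀ j ∈ Finset.range R, G1 n c x y ≤ ∑ c₁ ∈ tball x (2 * (R : ℝ)), ∑ c₂,
      ind j c₁ c₂ * (2 * (c c₁ c₂ + c c₂ c₁) * (γ₀ c₁ * G1 n c c₂ y)) := by
    intro j hj
    rw [Finset.mem_range] at hj
    have hjR : (j : ℝ) ≤ R := by exact_mod_cast hj.le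
    have hj0 : (0 : ℝ) ≤ j := Nat.cast_nonneg j
    have hxB : x ∈ tball x ((R : ℝ) + j) := by
      rw [mem_tball, sub_self, tnorm_zero]; positivity
    have hyB : y ∉ tball x ((R : ℝ) + j) := by
      rw [mem_tball, tnorm_sub_comm]; push Not; linarith
    have hsub : B₀ x ⊆ tball x ((R : ℝ) + j) := by
      intro z hz
      have := mem_tball.1 (hB x hz)
      rw [mem_tball]; linarith
    have h := simon_lieb (n := n) hc hsub hxB hyB hm0 (hm x)
    refine h.trans (le_of_eq ?_)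
    have hsub2 : tball x ((R : ℝ) + j) ⊆ tball x (2 * (R : ℝ)) := by
      intro z hz
      rw [mem_tball] at *
      linarith
    rw [← Finset.sum_subset hsub2]
    · refine Finset.sum_congr rfl fun c₁ h1 => ?_
      have h1' := mem_tball.1 h1
      rw [← Finset.sum_filter_add_sum_filter_not Finset.univ
        (fun c₂ => c₂ ∈ tball x ((R : ℝ) + j))]
      have e0 : ∑ c₂ ∈ Finset.univ.filter (fun c₂ => c₂ ∈ tball x ((R : ℝ) + j)),
          ind j c₁ c₂ * (2 * (c c₁ c₂ + c c₂ c₁) * (γ₀ c₁ * G1 n c c₂ y)) = 0 := by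
        apply Finset.sum_eq_zero
        intro c₂ h2
        have h2' := mem_tball.1 (Finset.mem_filter.1 h2).2
        rw [hind]
        simp only
        rw [if_neg (fun h => h.2 h2'), zero_mul]
      rw [e0, zero_add]
      have e1 : (tball x ((R : ℝ) + j))ᶜ
          = Finset.univ.filter (fun c₂ => c₂ ∉ tball x ((R : ℝ) + j)) := by
        ext z; simp
      rw [e1]
      refine Finset.sum_congr rfl fun c₂ h2 => ?_
      have h2' : ¬ tnorm (c₂ - x) ≤ (R : ℝ) + j := fun h =>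
        (Finset.mem_filter.1 h2).2 (mem_tball.2 h)
      have hi : ind j c₁ c₂ = 1 := by
        rw [hind]
        exact if_pos ⟨h1', h2'⟩
      rw [hi, one_mul]
    · intro c₁ _ h1
      have h1' : ¬ tnorm (c₁ - x) ≤ (R : ℝ) + j := fun h => h1 (mem_tball.2 h)
      apply Finset.sum_eq_zero
      intro c₂ _
      rw [hind]
      simp only
      rw [if_neg (fun h => h1' h.1), zero_mul]
  have hsum := Finset.sum_le_sum hstep
  rw [Finset.sum_const, Finset.card_range, nsmul_eq_mul] at hsum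
  -- exchange the sums
  have hex : ∑ j ∈ Finset.range R, ∑ c₁ ∈ tball x (2 * (R : ℝ)), ∑ c₂,
      ind j c₁ c₂ * (2 * (c c₁ c₂ + c c₂ c₁) * (γ₀ c₁ * G1 n c c₂ y))
      = ∑ z, ∑ c₁ ∈ tball x (2 * (R : ℝ)), (∑ j ∈ Finset.range R, ind j c₁ z)
        * (2 * (c c₁ z + c z c₁) * (γ₀ c₁ * G1 n c z y)) := by
    rw [Finset.sum_comm]
    have e1 : ∀ c₁ ∈ tball x (2 * (R : ℝ)), ∑ j ∈ Finset.range R, ∑ c₂,
        ind j c₁ c₂ * (2 * (c c₁ c₂ + c c₂ c₁) * (γ₀ c₁ * G1 n c c₂ y))
        = ∑ z, (∑ j ∈ Finset.range R, ind j c₁ z)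
          * (2 * (c c₁ z + c z c₁) * (γ₀ c₁ * G1 n c z y)) := by
      intro c₁ _
      rw [Finset.sum_comm]
      refine Finset.sum_congr rfl fun z _ => ?_
      rw [Finset.sum_mul]
    rw [Finset.sum_congr rfl e1, Finset.sum_comm]
  rw [hex] at hsum
  have hfin : ∑ z, ∑ c₁ ∈ tball x (2 * (R : ℝ)), (∑ j ∈ Finset.range R, ind j c₁ z)
        * (2 * (c c₁ z + c z c₁) * (γ₀ c₁ * G1 n c z y))
      ≤ ∑ z, (R : ℝ) * (Kav J β m R B₀ x z * G1 n c z y) := by
    refine Finset.sum_le_sum fun z _ => ?_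
    have e2 : (R : ℝ) * (Kav J β m R B₀ x z * G1 n c z y)
        = ∑ c₁ ∈ tball x (2 * (R : ℝ)), 2 * (|c c₁ z| + |c z c₁|)
          * ((m + if c₁ ∈ B₀ x then 4 / (R : ℝ) ^ 2 else 0) * (1 + tnorm (z - c₁)) ^ 3)
            * G1 n c z y := by
      unfold Kav
      rw [← Finset.sum_mul, hcdef]
      field_simp
    rw [e2]
    refine Finset.sum_le_sum fun c₁ _ => ?_
    set t := tnorm (z - c₁) with ht
    have ht0 : 0 ≤ t := tnorm_nonneg _
    set ν := ∑ j ∈ Finset.range R, ind j c₁ z with hν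
    have hν0 : 0 ≤ ν := Finset.sum_nonneg fun j _ => by
      rw [hind]; simp only; split_ifs <;> norm_num
    have hν1 : ν ≤ 1 + t := by
      apply count_radii R _ ht0
      have e : z - x = (z - c₁) + (c₁ - x) := by abel
      have := tnorm_add_le (z - c₁) (c₁ - x)
      rw [← e] at this
      linarith
    have hcube : 1 + t ≤ (1 + t) ^ 3 := by
      have h1 : (1 : ℝ) ≤ 1 + t := by linarith
      calc 1 + t = (1 + t) ^ 1 := (pow_one _).symm
        _ ≤ (1 + t) ^ 3 := pow_le_pow_right₀ h1 (by norm_num)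
    have hkey : ν * γ₀ c₁ ≤ (m + if c₁ ∈ B₀ x then 4 / (R : ℝ) ^ 2 else 0) * (1 + t) ^ 3 := by
      rw [hγ₀]
      simp only
      split_ifs with h
      · rw [mul_one]
        have hc₁ := mem_tball.1 (hB x h)
        by_cases hz : tnorm (z - x) ≤ R
        · have : ν = 0 := by
            rw [hν]
            apply Finset.sum_eq_zero
            intro j _
            rw [hind]
            simp only
            rw [if_neg]
            intro hh
            apply hh.2
            have : (0 : ℝ) ≤ j := Nat.cast_nonneg j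
            linarith
          rw [this]
          positivity
        · push Not at hz
          have ht2 : (R : ℝ) / 2 ≤ 1 + t := by
            have e : z - x = (z - c₁) + (c₁ - x) := by abel
            have := tnorm_add_le (z - c₁) (c₁ - x)
            rw [← e] at this
            linarith
          have h5 : 1 ≤ 4 / (R : ℝ) ^ 2 * (1 + t) ^ 2 := by
            rw [div_mul_eq_mul_div, one_le_div (by positivity)]
            have : ((R : ℝ) / 2) ^ 2 ≤ (1 + t) ^ 2 := by gcongr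
            linarith
          have h6 : 1 + t ≤ 4 / (R : ℝ) ^ 2 * (1 + t) ^ 3 := by
            calc 1 + t = 1 * (1 + t) := (one_mul _).symm
              _ ≤ (4 / (R : ℝ) ^ 2 * (1 + t) ^ 2) * (1 + t) :=
                mul_le_mul_of_nonneg_right h5 (by linarith)
              _ = _ := by ring
          have h7 : 0 ≤ m * (1 + t) ^ 3 := by positivity
          rw [add_mul]
          linarith
      · rw [add_zero, mul_comm]
        exact mul_le_mul_of_nonneg_left (hν1.trans hcube) hm0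
    have hcabs : c c₁ z + c z c₁ ≤ |c c₁ z| + |c z c₁| := add_le_add (le_abs_self _) (le_abs_self _)
    have hγ00 : 0 ≤ γ₀ c₁ := by
      rw [hγ₀]; simp only; split_ifs
      · exact zero_le_one
      · exact hm0
    have hGz := hG0 z
    calc ν * (2 * (c c₁ z + c z c₁) * (γ₀ c₁ * G1 n c z y))
        = (ν * γ₀ c₁ * G1 n c z y) * 2 * (c c₁ z + c z c₁) := by ring
      _ ≤ (ν * γ₀ c₁ * G1 n c z y) * 2 * (|c c₁ z| + |c z c₁|) :=
        mul_le_mul_of_nonneg_left hcabs (by positivity)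
      _ = (2 * (|c c₁ z| + |c z c₁|) * G1 n c z y) * (ν * γ₀ c₁) := by ring
      _ ≤ (2 * (|c c₁ z| + |c z c₁|) * G1 n c z y)
          * ((m + if c₁ ∈ B₀ x then 4 / (R : ℝ) ^ 2 else 0) * (1 + t) ^ 3) :=
        mul_le_mul_of_nonneg_left hkey (by positivity)
      _ = _ := by ring
  have h9 := hsum.trans hfin
  rw [← Finset.mul_sum] at h9
  exact le_of_mul_le_mul_left h9 hR0

end

end Pool.Agent.NVec
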