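import Pool.Agent.H.MP_8be4c0_mp.Ward

/-!
The gain in one annulus.
-/

open MeasureTheory Set Filter Topology

namespace Pool.Agent.NVec

set_option linter.unusedSectionVars false

noncomputable section

variable {n : ℕ} {V : Type} [Fintype V] [DecidableEq V]

/-- the current through pairs outside `B` -/
def Y0 (c : V → V → ℝ) (ψ : V → ℝ) (B : Finset V) (q : Fin (n + 2)) (S : V → Spin (n + 2)) : ℝ :=
  ∑ i, ∑ k, if i ∈ B ∨ k ∈ B then 0 else c i k * ((ψ i - ψ k) * Q2 q (S i) (S k))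

/-- the long range error -/
def rho (c : V → V → ℝ) (ψ : V → ℝ) (B : Finset V) : ℝ :=
  ∑ i, ∑ k, if i ∈ B ∨ k ∈ B then |c i k| * |ψ i - ψ k| else 0

lemma rho_nonneg (c : V → V → ℝ) (ψ : V → ℝ) (B : Finset V) : 0 ≤ rho c ψ B := by
  unfold rho
  refine Finset.sum_nonneg fun i _ => Finset.sum_nonneg fun k _ => ?_
  split_ifs <;> positivity

lemma abs_Yq_sub_le {q : Fin (n + 2)} (hq : (0 : Fin (n + 2)) ≠ q) (c : V → V → ℝ) (ψ : V → ℝ)
    (B : Finset V) (S : V → Spin (n + 2)) :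
    |Yq c ψ q S - Y0 c ψ B q S| ≤ rho c ψ B := by
  unfold Yq Y0 rho
  rw [← Finset.sum_sub_distrib]
  refine (Finset.abs_sum_le_sum_abs _ _).trans (Finset.sum_le_sum fun i _ => ?_)
  rw [← Finset.sum_sub_distrib]
  refine (Finset.abs_sum_le_sum_abs _ _).trans (Finset.sum_le_sum fun k _ => ?_)
  split_ifs with h
  · rw [sub_zero, abs_mul, abs_mul]
    have h1 := abs_Q2_le hq (S i) (S k)
    have h2 : |ψ i - ψ k| * |Q2 q (S i : EuclideanSpace ℝ (Fin (n + 2))) (S k)|
        ≤ |ψ i - ψ k| * 1 := mul_le_mul_of_nonneg_left h1 (abs_nonneg _)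
    rw [mul_one] at h2
    exact mul_le_mul_of_nonneg_left h2 (abs_nonneg _)
  · rw [sub_self, abs_zero]

lemma Y0_merge (c : V → V → ℝ) (ψ : V → ℝ) (B : Finset V) (q : Fin (n + 2))
    (u τ : V → Spin (n + 2)) : Y0 c ψ B q (merge B u τ) = Y0 c ψ B q τ := by
  unfold Y0
  refine Finset.sum_congr rfl fun i _ => Finset.sum_congr rfl fun k _ => ?_
  by_cases hi : i ∈ B
  · simp [hi]
  · by_cases hk : k ∈ B
    · simp [hk]
    · rw [merge_out hi, merge_out hk]

lemma continuous_Y0 (c : V → V → ℝ) (ψ : V → ℝ) (B : Finset V) (q : Fin (n + 2)) :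
    Continuous (Y0 c ψ B q : (V → Spin (n + 2)) → ℝ) := by
  unfold Y0
  refine continuous_finsetSum _ fun i _ => continuous_finsetSum _ fun k _ => ?_
  by_cases h : i ∈ B ∨ k ∈ B
  · simp only [h, if_true]; exact continuous_const
  · simp only [h, if_false]
    exact continuous_const.mul (continuous_const.mul (continuous_Q2 q i k))

/-- the dual vector field -/
def Zf (c : V → V → ℝ) (ψ : V → ℝ) (B : Finset V) (lam : ℝ) (S : V → Spin (n + 2)) :
    EuclideanSpace ℝ (Fin (n + 2)) :=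
  WithLp.toLp 2 fun r => if r = 0 then 1 else -lam * Y0 c ψ B r S

lemma sum_split (f : Fin (n + 2) → ℝ) :
    ∑ r, f r = f 0 + ∑ r ∈ Finset.univ.erase 0, f r :=
  (Finset.add_sum_erase Finset.univ f (Finset.mem_univ 0)).symm

lemma norm_Zf_sq (c : V → V → ℝ) (ψ : V → ℝ) (B : Finset V) (lam : ℝ) (S : V → Spin (n + 2)) :
    ‖Zf c ψ B lam S‖ ^ 2 = 1 + lam ^ 2 * ∑ r ∈ Finset.univ.erase 0, Y0 c ψ B r S ^ 2 := by
  rw [EuclideanSpace.norm_sq_eq, sum_split, Finset.mul_sum]
  congr 1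
  · simp [Zf]
  · refine Finset.sum_congr rfl fun r hr => ?_
    have hr0 : r ≠ 0 := Finset.ne_of_mem_erase hr
    simp only [Zf, hr0, if_false, Real.norm_eq_abs, sq_abs]
    ring

lemma inner_Zf (c : V → V → ℝ) (ψ : V → ℝ) (B : Finset V) (lam : ℝ) (S : V → Spin (n + 2))
    (u : EuclideanSpace ℝ (Fin (n + 2))) :
    inner ℝ (Zf c ψ B lam S) u = u 0 - lam * ∑ r ∈ Finset.univ.erase 0, u r * Y0 c ψ B r S := by
  rw [inner_eq, sum_split, Finset.mul_sum, sub_eq_add_neg, ← Finset.sum_neg_distrib]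
  congr 1
  · simp [Zf]
  · refine Finset.sum_congr rfl fun r hr => ?_
    have hr0 : r ≠ 0 := Finset.ne_of_mem_erase hr
    simp only [Zf, hr0, if_false]
    ring

lemma continuous_Zf (c : V → V → ℝ) (ψ : V → ℝ) (B : Finset V) (lam : ℝ) :
    Continuous (Zf c ψ B lam : (V → Spin (n + 2)) → _) := by
  unfold Zf
  apply (PiLp.continuous_toLp 2 _).comp
  apply continuous_pi
  intro r
  by_cases hr : r = 0
  · simp only [hr, if_true]; exact continuous_const
  · simp only [hr, if_false]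
    exact continuous_const.mul (continuous_Y0 c ψ B r)

lemma card_erase : ((Finset.univ.erase (0 : Fin (n + 2))).card : ℝ) = (n : ℝ) + 1 := by
  rw [Finset.card_erase_of_mem (Finset.mem_univ _), Finset.card_univ, Fintype.card_fin]
  simp

/-- **The gain, first form.** -/
theorem gain (c : V → V → ℝ) {A B : Finset V} (hBA : B ⊆ A) (ψ : V → ℝ)
    (hψ : ∀ i, i ∉ A → ψ i = 0) {x : V} (hx : ψ x = 1) {m : ℝ} (hm0 : 0 ≤ m)
    (hm : ∀ (τ : V → Spin (n + 2)) (e : EuclideanSpace ℝ (Fin (n + 2))),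
      bInt (W c 0) B τ (fun S => inner ℝ e (S x : EuclideanSpace ℝ (Fin (n + 2))))
        ≤ m * ‖e‖ * bZ (W c 0) B τ)
    {ρ : ℝ} (hρ : rho c ψ B ≤ ρ) (τ : V → Spin (n + 2)) {Kc : ℝ}
    (hK : ∑ q ∈ Finset.univ.erase (0 : Fin (n + 2)), bInt (W c 0) A τ (fun S => Yq c ψ q S ^ 2)
      ≤ Kc * bZ (W c 0) A τ) {lam : ℝ} (hlam : 0 ≤ lam) :
    bInt (W c 0) A τ (fun S => (S x : EuclideanSpace ℝ (Fin (n + 2))) 0) * (1 + lam * ((n : ℝ) + 1))
      ≤ (m * Real.sqrt (1 + lam ^ 2 * ((1 + ρ) * Kc + ((n : ℝ) + 1) * (ρ + ρ ^ 2)))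
        + lam * ((n : ℝ) + 1) * ρ) * bZ (W c 0) A τ := by
  have hρ0 : 0 ≤ ρ := (rho_nonneg c ψ B).trans hρ
  have hWc : Continuous (W c 0 : (V → Spin (n + 2)) → ℝ) := continuous_W c 0
  have hZpos := bZ_pos hWc A τ
  set Z := bZ (W c 0) A τ with hZ
  set E0 := bInt (W c 0) A τ (fun S => (S x : EuclideanSpace ℝ (Fin (n + 2))) 0) with hE0
  have hdual := duality hWc hBA hm (Zf c ψ B lam) (continuous_Zf c ψ B lam)
    (fun u τ => by unfold Zf; simp_rw [Y0_merge]) τ
  have cY : ∀ q : Fin (n + 2), Continuous fun S : V → Spin (n + 2) => Yq c ψ q S :=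
    fun q => continuous_Yq c ψ q
  have cY0 : ∀ q : Fin (n + 2), Continuous fun S : V → Spin (n + 2) => Y0 c ψ B q S :=
    fun q => continuous_Y0 c ψ B q
  -- left hand side
  have hleft : bInt (W c 0) A τ (fun S => inner ℝ (Zf c ψ B lam S)
      (S x : EuclideanSpace ℝ (Fin (n + 2)))) = E0 - lam * ∑ r ∈ Finset.univ.erase 0,
        bInt (W c 0) A τ (fun S => (S x : EuclideanSpace ℝ (Fin (n + 2))) r * Y0 c ψ B r S) := by
    simp_rw [inner_Zf]
    have c1 : ∀ r : Fin (n + 2), Continuous fun S : V → Spin (n + 2) =>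
        (S x : EuclideanSpace ℝ (Fin (n + 2))) r * Y0 c ψ B r S :=
      fun r => (continuous_coord x r).mul (cY0 r)
    have c2 : Continuous fun S : V → Spin (n + 2) => lam * ∑ r ∈ Finset.univ.erase 0,
        (S x : EuclideanSpace ℝ (Fin (n + 2))) r * Y0 c ψ B r S :=
      continuous_const.mul (continuous_finsetSum _ fun r _ => c1 r)
    rw [bInt_sub hWc A τ (continuous_coord x 0) c2, bInt_smul,
      bInt_finsum hWc A τ _ fun r _ => c1 r]
  have hterm : ∀ r ∈ Finset.univ.erase (0 : Fin (n + 2)),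
      bInt (W c 0) A τ (fun S => (S x : EuclideanSpace ℝ (Fin (n + 2))) r * Y0 c ψ B r S)
        ≤ -E0 + ρ * Z := by
    intro r hr
    have hr0 : (0 : Fin (n + 2)) ≠ r := (Finset.ne_of_mem_erase hr).symm
    have c1 : Continuous fun S : V → Spin (n + 2) =>
        (S x : EuclideanSpace ℝ (Fin (n + 2))) r * Yq c ψ r S :=
      (continuous_coord x r).mul (cY r)
    have c2 : Continuous fun S : V → Spin (n + 2) =>
        (S x : EuclideanSpace ℝ (Fin (n + 2))) r * (Yq c ψ r S - Y0 c ψ B r S) :=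
      (continuous_coord x r).mul ((cY r).sub (cY0 r))
    have e : (fun S : V → Spin (n + 2) =>
        (S x : EuclideanSpace ℝ (Fin (n + 2))) r * Y0 c ψ B r S) = fun S =>
        (S x : EuclideanSpace ℝ (Fin (n + 2))) r * Yq c ψ r S
          - (S x : EuclideanSpace ℝ (Fin (n + 2))) r * (Yq c ψ r S - Y0 c ψ B r S) := by
      funext S; ring
    rw [e, bInt_sub hWc A τ c1 c2, ward_spin c A ψ hr0 hψ hx τ]
    have h1 := bInt_abs_le hWc A τ c2 (a := ρ) (fun S => by
      rw [abs_mul]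
      have h2 : |(S x : EuclideanSpace ℝ (Fin (n + 2))) r| ≤ 1 := by
        have := sq_add_sq_le hr0 (S x)
        apply abs_le_one_iff_mul_self_le_one.2
        nlinarith [sq_nonneg ((S x : EuclideanSpace ℝ (Fin (n + 2))) 0)]
      have h3 := (abs_Yq_sub_le hr0 c ψ B S).trans hρ
      calc |(S x : EuclideanSpace ℝ (Fin (n + 2))) r| * |Yq c ψ r S - Y0 c ψ B r S|
          ≤ 1 * ρ := mul_le_mul h2 h3 (abs_nonneg _) zero_le_one
        _ = ρ := one_mul _)
    have h4 := (abs_le.1 h1).1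
    linarith
  have hsum1 : ∑ r ∈ Finset.univ.erase (0 : Fin (n + 2)),
      bInt (W c 0) A τ (fun S => (S x : EuclideanSpace ℝ (Fin (n + 2))) r * Y0 c ψ B r S)
        ≤ ((n : ℝ) + 1) * (-E0 + ρ * Z) := by
    refine (Finset.sum_le_sum hterm).trans (le_of_eq ?_)
    rw [Finset.sum_const, nsmul_eq_mul, card_erase]
  -- right hand side
  set Kt := (1 + ρ) * Kc + ((n : ℝ) + 1) * (ρ + ρ ^ 2) with hKt
  have hnorm2 : bInt (W c 0) A τ (fun S => ‖Zf c ψ B lam S‖ ^ 2) ≤ (1 + lam ^ 2 * Kt) * Z := by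
    simp_rw [norm_Zf_sq]
    have c1 : ∀ r : Fin (n + 2), Continuous fun S : V → Spin (n + 2) => Y0 c ψ B r S ^ 2 :=
      fun r => (cY0 r).pow 2
    have c2 : Continuous fun S : V → Spin (n + 2) => lam ^ 2 * ∑ r ∈ Finset.univ.erase 0,
        Y0 c ψ B r S ^ 2 := continuous_const.mul (continuous_finsetSum _ fun r _ => c1 r)
    rw [bInt_add hWc A τ continuous_const c2, bInt_one, bInt_smul,
      bInt_finsum hWc A τ _ fun r _ => c1 r]
    have h1 : ∀ r ∈ Finset.univ.erase (0 : Fin (n + 2)),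
        bInt (W c 0) A τ (fun S => Y0 c ψ B r S ^ 2)
          ≤ (1 + ρ) * bInt (W c 0) A τ (fun S => Yq c ψ r S ^ 2) + (ρ + ρ ^ 2) * Z := by
      intro r hr
      have hr0 : (0 : Fin (n + 2)) ≠ r := (Finset.ne_of_mem_erase hr).symm
      have c3 : Continuous fun S : V → Spin (n + 2) => (1 + ρ) * Yq c ψ r S ^ 2 :=
        continuous_const.mul ((cY r).pow 2)
      rw [← bInt_smul, ← bInt_const, ← bInt_add hWc A τ c3 continuous_const]
      apply bInt_mono hWc A τ (c1 r) (c3.add continuous_const)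
      intro S
      simp only [Pi.add_apply]
      have h3 := (abs_Yq_sub_le hr0 c ψ B S).trans hρ
      obtain ⟨h4, h5⟩ := abs_le.1 h3
      set y := Yq c ψ r S
      set y0 := Y0 c ψ B r S
      set d := y - y0 with hd
      have e : y0 = y - d := by rw [hd]; ring
      rw [e]
      have h6 : -(2 * y * d) ≤ ρ * (y ^ 2 + 1) := by
        have h7 : |2 * y * d| ≤ ρ * (y ^ 2 + 1) := by
          rw [abs_mul]
          have h8 : |2 * y| ≤ y ^ 2 + 1 := by
            rw [abs_le]; constructor <;> nlinarith [sq_nonneg (y - 1), sq_nonneg (y + 1)]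
          calc |2 * y| * |d| ≤ (y ^ 2 + 1) * ρ := mul_le_mul h8 h3 (abs_nonneg _) (by positivity)
            _ = _ := by ring
        exact (neg_le_abs _).trans h7
      have h9 : d ^ 2 ≤ ρ ^ 2 := by
        rw [← sq_abs d]; gcongr
      nlinarith
    have h2 : ∑ r ∈ Finset.univ.erase (0 : Fin (n + 2)),
        bInt (W c 0) A τ (fun S => Y0 c ψ B r S ^ 2) ≤ Kt * Z := by
      refine (Finset.sum_le_sum h1).trans ?_
      rw [Finset.sum_add_distrib, ← Finset.mul_sum, Finset.sum_const, nsmul_eq_mul, card_erase]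
      have h3 := mul_le_mul_of_nonneg_left hK (by linarith : 0 ≤ 1 + ρ)
      rw [hKt]
      linarith
    have h3 := mul_le_mul_of_nonneg_left h2 (sq_nonneg lam)
    linarith
  have hKt0 : 0 ≤ Kt := by
    have h1 : 0 ≤ Kc * Z := by
      refine le_trans (Finset.sum_nonneg fun q _ => ?_) hK
      have := bInt_mono hWc A τ (f := fun _ => 0) (g := fun S => Yq c ψ q S ^ 2)
        continuous_const ((cY q).pow 2) (fun S => sq_nonneg _)
      rw [bInt_const, zero_mul] at this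
      exact this
    have h2 : 0 ≤ Kc := nonneg_of_mul_nonneg_left h1 hZpos
    positivity
  set s := Real.sqrt (1 + lam ^ 2 * Kt) with hs
  have hs2 : s ^ 2 = 1 + lam ^ 2 * Kt := Real.sq_sqrt (by positivity)
  have hs0 : 0 < s := Real.sqrt_pos.2 (by positivity)
  have hnorm1 : bInt (W c 0) A τ (fun S => ‖Zf c ψ B lam S‖) ≤ s * Z := by
    have c1 : Continuous fun S : V → Spin (n + 2) => (1 / (2 * s)) * ‖Zf c ψ B lam S‖ ^ 2 :=
      continuous_const.mul ((continuous_Zf c ψ B lam).norm.pow 2)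
    have h1 : bInt (W c 0) A τ (fun S => ‖Zf c ψ B lam S‖)
        ≤ bInt (W c 0) A τ (fun S => s / 2 + (1 / (2 * s)) * ‖Zf c ψ B lam S‖ ^ 2) := by
      apply bInt_mono hWc A τ (continuous_Zf c ψ B lam).norm (continuous_const.add c1)
      intro S
      simp only [Pi.add_apply]
      set z := ‖Zf c ψ B lam S‖
      have h2 : s / 2 + (1 / (2 * s)) * z ^ 2 - z = (1 / (2 * s)) * (z - s) ^ 2 := by
        field_simp
        ring
      have h3 : 0 ≤ (1 / (2 * s)) * (z - s) ^ 2 := by positivity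
      linarith
    rw [bInt_add hWc A τ continuous_const c1, bInt_const, bInt_smul] at h1
    refine h1.trans ?_
    have h2 := mul_le_mul_of_nonneg_left hnorm2 (by positivity : 0 ≤ 1 / (2 * s))
    have h3 : (1 / (2 * s)) * ((1 + lam ^ 2 * Kt) * Z) = s / 2 * Z := by
      rw [← hs2]; field_simp
    linarith
  rw [hleft] at hdual
  have h1 := mul_le_mul_of_nonneg_left hsum1 hlam
  have h2 := mul_le_mul_of_nonneg_left hnorm1 hm0
  have h3 : E0 + lam * (((n : ℝ) + 1) * (E0 - ρ * Z)) ≤ m * (s * Z) := by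
    have : lam * (((n : ℝ) + 1) * (-E0 + ρ * Z)) = -(lam * (((n : ℝ) + 1) * (E0 - ρ * Z))) := by
      ring
    linarith
  nlinarith

/-- **The gain, second form.** -/
theorem gain' (c : V → V → ℝ) {A B : Finset V} (hBA : B ⊆ A) (ψ : V → ℝ)
    (hψ : ∀ i, i ∉ A → ψ i = 0) {x : V} (hx : ψ x = 1) {m : ℝ} (hm0 : 0 ≤ m)
    (hm : ∀ (τ : V → Spin (n + 2)) (e : EuclideanSpace ℝ (Fin (n + 2))),
      bInt (W c 0) B τ (fun S => inner ℝ e (S x : EuclideanSpace ℝ (Fin (n + 2))))
        ≤ m * ‖e‖ * bZ (W c 0) B τ)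
    {ρ : ℝ} (hρ : rho c ψ B ≤ ρ) (τ : V → Spin (n + 2)) {Kc K : ℝ}
    (hK : ∑ q ∈ Finset.univ.erase (0 : Fin (n + 2)), bInt (W c 0) A τ (fun S => Yq c ψ q S ^ 2)
      ≤ Kc * bZ (W c 0) A τ) (hK0 : 0 < K)
    (hKK : (1 + ρ) * Kc + ((n : ℝ) + 1) * (ρ + ρ ^ 2) ≤ K) :
    bInt (W c 0) A τ (fun S => (S x : EuclideanSpace ℝ (Fin (n + 2))) 0)
      ≤ (m / Real.sqrt (1 + ((n : ℝ) + 1) ^ 2 / K) + ρ) * bZ (W c 0) A τ := by
  have hρ0 : 0 ≤ ρ := (rho_nonneg c ψ B).trans hρ
  have hWc : Continuous (W c 0 : (V → Spin (n + 2)) → ℝ) := continuous_W c 0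
  have hZpos := bZ_pos hWc A τ
  have hn : (0 : ℝ) < (n : ℝ) + 1 := by positivity
  set lam := ((n : ℝ) + 1) / K with hlam
  have hlam0 : 0 < lam := by positivity
  have h := gain c hBA ψ hψ hx hm0 hm hρ τ hK hlam0.le
  set G := 1 + ((n : ℝ) + 1) ^ 2 / K with hG
  have hG0 : 0 < G := by positivity
  have e1 : 1 + lam * ((n : ℝ) + 1) = G := by rw [hlam, hG]; ring
  have e2 : 1 + lam ^ 2 * K = G := by rw [hlam, hG]; field_simp
  have h1 : Real.sqrt (1 + lam ^ 2 * ((1 + ρ) * Kc + ((n : ℝ) + 1) * (ρ + ρ ^ 2)))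
      ≤ Real.sqrt G := by
    apply Real.sqrt_le_sqrt
    rw [← e2]
    gcongr
  have e3 : lam * ((n : ℝ) + 1) ≤ G := by linarith
  rw [e1] at h
  set Z := bZ (W c 0) A τ
  set E0 := bInt (W c 0) A τ (fun S => (S x : EuclideanSpace ℝ (Fin (n + 2))) 0)
  have h2 : E0 * G ≤ (m * Real.sqrt G + G * ρ) * Z := by
    refine h.trans ?_
    have h3 := mul_le_mul_of_nonneg_left h1 hm0
    have h4 := mul_le_mul_of_nonneg_right e3 hρ0
    exact mul_le_mul_of_nonneg_right (by linarith) hZpos.le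
  have hsG : 0 < Real.sqrt G := Real.sqrt_pos.2 hG0
  have hsGG : Real.sqrt G * Real.sqrt G = G := Real.mul_self_sqrt hG0.le
  have h5 : (m / Real.sqrt G + ρ) * Z * G = (m * Real.sqrt G + G * ρ) * Z := by
    have : m / Real.sqrt G * G = m * Real.sqrt G := by
      rw [div_mul_eq_mul_div, div_eq_iff hsG.ne', mul_assoc, hsGG]
    linear_combination Z * this
  rw [← h5] at h2
  exact le_of_mul_le_mul_right h2 hG0

/-- simultaneous action of an isometry -/
def allAct (R : EuclideanSpace ℝ (Fin (n + 2)) ≃ₗᵢ[ℝ] EuclideanSpace ℝ (Fin (n + 2)))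
    (S : V → Spin (n + 2)) : V → Spin (n + 2) := fun i => act R (S i)

lemma W_allAct (c : V → V → ℝ)
    (R : EuclideanSpace ℝ (Fin (n + 2)) ≃ₗᵢ[ℝ] EuclideanSpace ℝ (Fin (n + 2)))
    (S : V → Spin (n + 2)) : W c 0 (allAct R S) = W c 0 S := by
  unfold W allAct
  simp

lemma bInt_allAct (c : V → V → ℝ) (A : Finset V)
    (R : EuclideanSpace ℝ (Fin (n + 2)) ≃ₗᵢ[ℝ] EuclideanSpace ℝ (Fin (n + 2)))
    (τ : V → Spin (n + 2)) {f : (V → Spin (n + 2)) → ℝ} (hf : Continuous f) :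
    bInt (W c 0) A (allAct R τ) f = bInt (W c 0) A τ (fun S => f (allAct R S)) := by
  unfold bInt
  rw [← integral_actAll (fun _ : V => R)
    (fun u => f (merge A u (allAct R τ)) * Real.exp (W c 0 (merge A u (allAct R τ))))
    ((hf.comp (continuous_merge A _)).mul ((continuous_expW c 0).comp (continuous_merge A _)))]
  refine integral_congr_ae (Eventually.of_forall fun u => ?_)
  have e : merge A (fun i => act R (u i)) (allAct R τ) = allAct R (merge A u τ) := by
    funext i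
    by_cases hi : i ∈ A
    · rw [merge_in hi]
      unfold allAct
      rw [merge_in hi]
    · rw [merge_out hi]
      unfold allAct
      rw [merge_out hi]
  simp only
  rw [e, W_allAct]

/-- reduction of the vector bound to the first component -/
lemma vector_bound (c : V → V → ℝ) (A : Finset V) {x : V} {m : ℝ}
    (h : ∀ τ : V → Spin (n + 2), bInt (W c 0) A τ (fun S =>
      (S x : EuclideanSpace ℝ (Fin (n + 2))) 0) ≤ m * bZ (W c 0) A τ)
    (τ : V → Spin (n + 2)) (e : EuclideanSpace ℝ (Fin (n + 2))) :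
    bInt (W c 0) A τ (fun S => inner ℝ e (S x : EuclideanSpace ℝ (Fin (n + 2))))
        ≤ m * ‖e‖ * bZ (W c 0) A τ := by
  by_cases he : e = 0
  · subst he
    simp only [inner_zero_left, norm_zero, mul_zero, zero_mul]
    rw [bInt_const, zero_mul]
  · have hne : ‖e‖ ≠ 0 := norm_ne_zero_iff.2 he
    set g := (‖e‖)⁻¹ • e with hg
    have hg1 : ‖g‖ = 1 := by
      rw [hg, norm_smul, norm_inv, norm_norm, inv_mul_cancel₀ hne]
    have heg : e = ‖e‖ • g := by
      rw [hg, smul_smul, mul_inv_cancel₀ hne, one_smul]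
    set R : EuclideanSpace ℝ (Fin (n + 2)) ≃ₗᵢ[ℝ] EuclideanSpace ℝ (Fin (n + 2)) :=
      Submodule.reflection (ℝ ∙ (g - e0))ᗮ with hR
    have hRg : R g = e0 := Submodule.reflection_sub (by rw [hg1, norm_e0])
    have h1 : bInt (W c 0) A τ (fun S => inner ℝ g (S x : EuclideanSpace ℝ (Fin (n + 2))))
        ≤ m * bZ (W c 0) A τ := by
      have h2 := h (allAct R τ)
      rw [← bInt_one (W c 0) A (allAct R τ), bInt_allAct c A R τ (continuous_coord x 0),
        bInt_allAct c A R τ continuous_const, bInt_one] at h2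
      have e1 : (fun S : V → Spin (n + 2) => (allAct R S x : EuclideanSpace ℝ (Fin (n + 2))) 0)
          = fun S => inner ℝ g (S x : EuclideanSpace ℝ (Fin (n + 2))) := by
        funext S
        unfold allAct
        rw [← inner_e0, coe_act, ← hRg, LinearIsometryEquiv.inner_map_map]
      rw [e1] at h2
      exact h2
    have e2 : (fun S : V → Spin (n + 2) => inner ℝ e (S x : EuclideanSpace ℝ (Fin (n + 2))))
        = fun S => ‖e‖ * inner ℝ g (S x : EuclideanSpace ℝ (Fin (n + 2))) := by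
      funext S
      conv_lhs => rw [heg]
      rw [real_inner_smul_left]
    rw [e2, bInt_smul]
    have := mul_le_mul_of_nonneg_left h1 (norm_nonneg e)
    linarith

end

end Pool.Agent.NVec
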