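import Pool.Agent.H.MP_8be4c0_mp.Annuli

/-!
From the Simon-Lieb type inequality to exponential decay.
-/

open MeasureTheory Set Filter Topology

namespace Pool.Agent.NVec

set_option linter.unusedSectionVars false

noncomputable section

/-- the abstract contraction argument -/
lemma contraction {V : Type} [Fintype V] (f : V → ℝ) (D : V → V → ℝ) (y : V) (a : V → V → ℝ)
    {μ θ ρ₁ : ℝ} (hμ : 0 ≤ μ) (hθ : θ < 1)
    (htri : ∀ x z, D x y ≤ D x z + D z y) (hf0 : ∀ x, 0 ≤ f x) (hf1 : ∀ x, f x ≤ 1)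
    (ha : ∀ x z, 0 ≤ a x z)
    (hrec : ∀ x, ρ₁ < D x y → f x ≤ ∑ z, a x z * f z)
    (hsum : ∀ x, ρ₁ < D x y → ∑ z, a x z * Real.exp (μ * D x z) ≤ θ) (x : V) :
    f x ≤ Real.exp (μ * ρ₁) * Real.exp (-(μ * D x y)) := by
  classical
  obtain ⟨x₀, -, hx₀⟩ := Finset.exists_max_image Finset.univ
    (fun x => f x * Real.exp (μ * D x y)) ⟨x, Finset.mem_univ x⟩
  set M := f x₀ * Real.exp (μ * D x₀ y) with hM
  have hM0 : 0 ≤ M := mul_nonneg (hf0 _) (Real.exp_pos _).le
  have hmax : ∀ z, f z * Real.exp (μ * D z y) ≤ M := fun z => hx₀ z (Finset.mem_univ z)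
  have hMle : M ≤ Real.exp (μ * ρ₁) := by
    by_cases hcase : ρ₁ < D x₀ y
    · have h1 : M ≤ θ * M := by
        calc M = f x₀ * Real.exp (μ * D x₀ y) := hM
          _ ≤ (∑ z, a x₀ z * f z) * Real.exp (μ * D x₀ y) :=
            mul_le_mul_of_nonneg_right (hrec x₀ hcase) (Real.exp_pos _).le
          _ = ∑ z, a x₀ z * f z * Real.exp (μ * D x₀ y) := by rw [Finset.sum_mul]
          _ ≤ ∑ z, a x₀ z * Real.exp (μ * D x₀ z) * M := by
            refine Finset.sum_le_sum fun z _ => ?_
            have h2 : Real.exp (μ * D x₀ y) ≤ Real.exp (μ * D x₀ z) * Real.exp (μ * D z y) := by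
              rw [← Real.exp_add]
              apply Real.exp_le_exp.2
              have := mul_le_mul_of_nonneg_left (htri x₀ z) hμ
              linarith
            calc a x₀ z * f z * Real.exp (μ * D x₀ y)
                ≤ a x₀ z * f z * (Real.exp (μ * D x₀ z) * Real.exp (μ * D z y)) :=
                  mul_le_mul_of_nonneg_left h2 (mul_nonneg (ha _ _) (hf0 _))
              _ = a x₀ z * Real.exp (μ * D x₀ z) * (f z * Real.exp (μ * D z y)) := by ring
              _ ≤ a x₀ z * Real.exp (μ * D x₀ z) * M :=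
                  mul_le_mul_of_nonneg_left (hmax z)
                    (mul_nonneg (ha _ _) (Real.exp_pos _).le)
          _ = (∑ z, a x₀ z * Real.exp (μ * D x₀ z)) * M := by rw [Finset.sum_mul]
          _ ≤ θ * M := mul_le_mul_of_nonneg_right (hsum x₀ hcase) hM0
      have h3 : M ≤ 0 := by
        by_contra hc
        push Not at hc
        nlinarith
      exact h3.trans (Real.exp_pos _).le
    · push Not at hcase
      calc M = f x₀ * Real.exp (μ * D x₀ y) := hM
        _ ≤ 1 * Real.exp (μ * ρ₁) := by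
          apply mul_le_mul (hf1 _) _ (Real.exp_pos _).le zero_le_one
          apply Real.exp_le_exp.2
          exact mul_le_mul_of_nonneg_left hcase hμ
        _ = _ := one_mul _
  have h4 := (hmax x).trans hMle
  rw [Real.exp_neg, ← div_eq_mul_inv, le_div_iff₀ (Real.exp_pos _)]
  exact h4

/-- counting the radii between two distances -/
lemma count_radii (R : ℕ) {a b d : ℝ} (hab : b - a ≤ d) (hd : 0 ≤ d) :
    ∑ j ∈ Finset.range R, (if a ≤ (R : ℝ) + j ∧ ¬ b ≤ (R : ℝ) + j then (1 : ℝ) else 0)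
      ≤ 1 + d := by
  classical
  rw [← Finset.sum_filter, Finset.sum_const, nsmul_eq_mul, mul_one]
  set s := (Finset.range R).filter fun j : ℕ => a ≤ (R : ℝ) + j ∧ ¬ b ≤ (R : ℝ) + j with hs
  rcases s.eq_empty_or_nonempty with h | h
  · rw [h]; simp; linarith
  · set i := s.min' h
    set k := s.max' h
    have hi : i ∈ s := s.min'_mem h
    have hk : k ∈ s := s.max'_mem h
    have hsub : s ⊆ Finset.Icc i k := by
      intro j hj
      rw [Finset.mem_Icc]
      exact ⟨s.min'_le j hj, s.le_max' j hj⟩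
    have hcard := Finset.card_le_card hsub
    rw [Nat.card_Icc] at hcard
    have hik : i ≤ k := s.min'_le k hk
    rw [hs, Finset.mem_filter] at hi hk
    have h1 := hi.2.1
    have h2 := hk.2.2
    push Not at h2
    have h3 : (s.card : ℝ) ≤ (k : ℝ) + 1 - i := by
      have : s.card + i ≤ k + 1 := by omega
      have : ((s.card + i : ℕ) : ℝ) ≤ ((k + 1 : ℕ) : ℝ) := by exact_mod_cast this
      push_cast at this
      linarith
    linarith

/-- the Euclidean ball on the torus -/
def tball {L : ℕ} [NeZero L] (x : Torus L) (r : ℝ) : Finset (Torus L) :=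
  Finset.univ.filter fun z => tnorm (z - x) ≤ r

lemma mem_tball {L : ℕ} [NeZero L] {x : Torus L} {r : ℝ} {z : Torus L} :
    z ∈ tball x r ↔ tnorm (z - x) ≤ r := by
  unfold tball; simp

lemma card_tball {L : ℕ} [NeZero L] (x : Torus L) {r : ℝ} (hr : 0 ≤ r) :
    ((tball x r).card : ℝ) ≤ (2 * r + 1) ^ 2 :=
  card_ball_le x hr _ fun _ hi => mem_tball.1 hi

lemma bal_subset_tball {L : ℕ} [NeZero L] (x : Torus L) (T : ℝ) {r : ℝ} (h : Real.exp T ≤ r) :
    bal x T ⊆ tball x r := by
  intro z hz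
  rw [mem_tball]
  refine (tnorm_le_el _).trans (le_trans ?_ h)
  unfold el
  exact Real.exp_le_exp.2 (mem_bal.1 hz)

end

end Pool.Agent.NVec
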