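import Pool.Agent.H.MP_8be4c0_mp.Decay
import Pool.Agent.H.MP_8be4c0_mp.Gap3
import Pool.Agent.H.MP_8be4c0_mp.Gap4

/-!
The mass gap: final assembly.
-/

open MeasureTheory Set Filter Topology

namespace Pool.Agent.NVec

set_option linter.unusedSectionVars false

noncomputable section

/-- the choice of the radius -/
lemma choose_radius {C η S : ℝ} (hη : 2 < η) :
    ∃ R : ℕ, 2 ≤ R ∧
      (4 * S) * (25 * R * (C * Real.exp (-(η / 2 * Real.log ((R : ℝ) / 2)))) + 16 / R) ≤ 1 / 6 := by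
  have h1 : Tendsto (fun R : ℕ => (R : ℝ) / 2) atTop atTop :=
    tendsto_natCast_atTop_atTop.atTop_div_const (by norm_num)
  have h2 : Tendsto (fun R : ℕ => Real.log ((R : ℝ) / 2)) atTop atTop :=
    Real.tendsto_log_atTop.comp h1
  have h3 : Tendsto (fun R : ℕ => Real.exp (-((η / 2 - 1) * Real.log ((R : ℝ) / 2)))) atTop
      (𝓝 0) := by
    apply Real.tendsto_exp_neg_atTop_nhds_zero.comp
    exact h2.const_mul_atTop (by linarith)
  have h4 : Tendsto (fun R : ℕ => (16 : ℝ) / R) atTop (𝓝 0) :=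
    tendsto_const_nhds.div_atTop tendsto_natCast_atTop_atTop
  have h5 : Tendsto (fun R : ℕ => (4 * S) * (50 * C
      * Real.exp (-((η / 2 - 1) * Real.log ((R : ℝ) / 2))) + 16 / R)) atTop
      (𝓝 ((4 * S) * (50 * C * 0 + 0))) :=
    ((h3.const_mul (50 * C)).add h4).const_mul (4 * S)
  rw [mul_zero, add_zero, mul_zero] at h5
  have h6 := h5.eventually_le_const (by norm_num : (0 : ℝ) < 1 / 6)
  obtain ⟨R, hR6, hR2⟩ := (h6.and (eventually_ge_atTop 2)).exists
  refine ⟨R, hR2, ?_⟩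
  refine le_trans (le_of_eq ?_) hR6
  have hR0 : (0 : ℝ) < (R : ℝ) / 2 := by
    have : (2 : ℝ) ≤ R := by exact_mod_cast hR2
    linarith
  have e : Real.exp (-((η / 2 - 1) * Real.log ((R : ℝ) / 2)))
      = Real.exp (-(η / 2 * Real.log ((R : ℝ) / 2))) * ((R : ℝ) / 2) := by
    have e2 : Real.exp (-(η / 2 * Real.log ((R : ℝ) / 2))) * ((R : ℝ) / 2)
        = Real.exp (-(η / 2 * Real.log ((R : ℝ) / 2))) * Real.exp (Real.log ((R : ℝ) / 2)) := by
      rw [Real.exp_log hR0]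
    rw [e2, ← Real.exp_add]
    congr 1
    ring
  rw [e]
  ring

/-- **The mass gap.** -/
theorem mass_gap (n : ℕ) {J : ℤ × ℤ → ℝ} (hpos : ∀ m, m ≠ 0 → 0 ≤ J m) {μ₀ : ℝ} (hμ₀ : 0 < μ₀)
    (hJ : Summable fun m : ℤ × ℤ => |J m| * Real.exp (μ₀ * nrm m))
    {β : ℝ} (hβ : 0 ≤ β)
    (h : 4 * Real.pi * β * moment2 J * mag (n + 2) (2 * β * Jbar J)
      < ((n : ℝ) + 2) * ((n : ℝ) + 1)) :
    ∃ C μ : ℝ, 0 < μ ∧ ∀ (L : ℕ) [NeZero L] (x y : Torus L),
      |corr (n + 2) L J β x y| ≤ C * Real.exp (-(μ * tnorm (x - y))) := by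
  have hJp := summable_poly hμ₀ hJ
  have hJ0 : Summable fun m => |J m| := summable_abs hJp
  -- the exponent
  obtain ⟨η, hη2, hη⟩ : ∃ η : ℝ, 2 < η ∧
      η * (2 * Real.pi * β * moment2 J * mag (n + 2) (2 * β * Jbar J))
        < ((n : ℝ) + 2) * ((n : ℝ) + 1) := by
    set X := 2 * Real.pi * β * moment2 J * mag (n + 2) (2 * β * Jbar J) with hX
    have h2 : 2 * X < ((n : ℝ) + 2) * ((n : ℝ) + 1) := by
      refine lt_of_eq_of_lt ?_ h
      rw [hX]; ring
    have hc : Continuous fun t : ℝ => t * X := continuous_id.mul continuous_const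
    have h3 : ∀ᶠ t in 𝓝 (2 : ℝ), t * X < ((n : ℝ) + 2) * ((n : ℝ) + 1) :=
      hc.continuousAt.eventually_lt continuousAt_const h2
    have h4 : ∀ᶠ t in 𝓝[>] (2 : ℝ), t * X < ((n : ℝ) + 2) * ((n : ℝ) + 1) :=
      h3.filter_mono nhdsWithin_le_nhds
    obtain ⟨t, h5, h6⟩ := (h4.and self_mem_nhdsWithin).exists
    exact ⟨t, h6, h5⟩
  obtain ⟨C, hC1, hball⟩ := ball_decay n hJp hβ (by linarith : (0 : ℝ) ≤ η) hη
  set μ₁ := μ₀ / 2 with hμ₁
  have hμ₁0 : 0 < μ₁ := half_pos hμ₀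
  have hSx := Sx_nonneg J μ₁
  obtain ⟨R, hR2, hR⟩ := choose_radius (C := C) (S := β * Sx J μ₁) hη2
  have hR2' : (2 : ℝ) ≤ R := by exact_mod_cast hR2
  have hR0 : (0 : ℝ) < R := by linarith
  set T := Real.log ((R : ℝ) / 2) with hT
  have hT0 : 0 ≤ T := Real.log_nonneg (by linarith)
  have hET : Real.exp T = (R : ℝ) / 2 := Real.exp_log (by linarith)
  set m := C * Real.exp (-(η / 2 * T)) with hm
  have hm0 : 0 ≤ m := by positivity
  set μ := min μ₁ (1 / (2 * R)) with hμ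
  have hμ0 : 0 < μ := lt_min hμ₁0 (by positivity)
  have hμle : μ ≤ μ₀ / 2 := min_le_left _ _
  have hμR : 2 * R * μ ≤ 1 := by
    have : μ ≤ 1 / (2 * R) := min_le_right _ _
    rwa [le_div_iff₀ (by positivity), mul_comm] at this
  have hSμ := summable_exp hμ₀ hJ hμle
  have hSμ₁ := summable_exp hμ₀ hJ (le_refl (μ₀ / 2))
  have hSxμ : Sx J μ ≤ Sx J μ₁ := Sx_mono hμle hSμ hSμ₁
  refine ⟨((n : ℝ) + 2) * Real.exp (μ * (2 * R)), μ, hμ0, ?_⟩
  intro L _ x y
  have hn2 : (0 : ℝ) < (n : ℝ) + 2 := by positivity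
  by_cases hL : 2 * (R : ℝ) < L
  · -- large tori
    have hc : ∀ i k : Torus L, i ≠ k → 0 ≤ cc L J β i k := cc_nonneg hpos hβ
    have hZ := ZZ_pos (n := n) (cc L J β) 0
    have hB : ∀ x : Torus L, bal x T ⊆ tball x ((R : ℝ) / 2) :=
      fun x => bal_subset_tball x T hET.le
    have hbd : ∀ x : Torus L, BallBd n J β x T m := fun x =>
      hball L x T hT0 (by rw [hET]; linarith)
    have hcon := contraction (fun z : Torus L => G1 n (cc L J β) z y / ZZ n (cc L J β) 0)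
      (fun x z => tnorm (x - z)) y (Kav J β m R fun x => bal x T) (μ := μ) (θ := 1 / 2)
      (ρ₁ := 2 * R) hμ0.le (by norm_num)
      (fun x z => by
        have e : x - y = (x - z) + (z - y) := by abel
        rw [e]; exact tnorm_add_le _ _)
      (fun z => div_nonneg (G1_nonneg hc z y) hZ.le)
      (fun z => by rw [div_le_one hZ]; exact G1_le_ZZ _ _ _)
      (fun x z => Kav_nonneg J β hm0 R _ x z)
      (fun z hz => by
        have h1 := avg_ineq (n := n) hc hm0 (by omega : 1 ≤ R) (fun x => bal x T) hB hbd z y hz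
        rw [div_le_iff₀ hZ, Finset.sum_mul]
        refine h1.trans (le_of_eq ?_)
        refine Finset.sum_congr rfl fun w _ => ?_
        rw [mul_assoc, div_mul_cancel₀ _ hZ.ne'])
      (fun z _ => by
        have h1 := Kav_sum (L := L) hJ0 hβ hμ0.le hSμ hm0 (by omega : 1 ≤ R)
          (fun x => bal x T) hB z
        refine h1.trans ?_
        have h2 : Real.exp (2 * R * μ) ≤ 3 := by
          have h3 : Real.exp (2 * R * μ) ≤ Real.exp 1 := Real.exp_le_exp.2 hμR
          have h4 := Real.exp_one_lt_d9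
          linarith
        have h5 : 0 ≤ 25 * R * m + 16 / R := by positivity
        have h6 := Sx_nonneg J μ
        calc Real.exp (2 * R * μ) * (4 * β * Sx J μ) * (25 * R * m + 16 / R)
            ≤ 3 * (4 * β * Sx J μ₁) * (25 * R * m + 16 / R) := by gcongr
          _ = 3 * ((4 * (β * Sx J μ₁)) * (25 * R * m + 16 / R)) := by ring
          _ ≤ 3 * (1 / 6) := by
            apply mul_le_mul_of_nonneg_left _ (by norm_num)
            exact hR
          _ = 1 / 2 := by norm_num) x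
    rw [corr_eq_G1, abs_of_nonneg (mul_nonneg hn2.le (div_nonneg (G1_nonneg hc x y) hZ.le)),
      mul_assoc]
    exact mul_le_mul_of_nonneg_left hcon hn2.le
  · push Not at hL
    have h1 := abs_corr_le_one (n := n) J β x y
    have h2 : tnorm (x - y) ≤ 2 * R := by
      have h3 := two_tnorm_sq_le (x - y)
      have h4 := tnorm_nonneg (x - y)
      have hL0 : (0 : ℝ) ≤ L := Nat.cast_nonneg L
      nlinarith
    have h5 : 1 ≤ Real.exp (μ * (2 * R)) * Real.exp (-(μ * tnorm (x - y))) := by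
      rw [← Real.exp_add]
      apply Real.one_le_exp
      have := mul_le_mul_of_nonneg_left h2 hμ0.le
      linarith
    have h6 : (1 : ℝ) ≤ (n : ℝ) + 2 := by
      have : (0 : ℝ) ≤ n := Nat.cast_nonneg n
      linarith
    rw [mul_assoc]
    calc |corr (n + 2) L J β x y| ≤ 1 := h1
      _ ≤ Real.exp (μ * (2 * R)) * Real.exp (-(μ * tnorm (x - y))) := h5
      _ = 1 * (Real.exp (μ * (2 * R)) * Real.exp (-(μ * tnorm (x - y)))) := (one_mul _).symm
      _ ≤ _ := mul_le_mul_of_nonneg_right h6 (by positivity)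

end

end Pool.Agent.NVec
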