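import Pool.Agent.H.MP_8be4c0_mp.Final

/-!
The infinite volume limit and the mass.
-/

open MeasureTheory Set Filter Topology

namespace Pool.Agent.NVec

set_option linter.unusedSectionVars false

noncomputable section

/-- from the uniform bound on the torus to the infinite volume limit -/
lemma limit_bound {N : ℕ} {J : ℤ × ℤ → ℝ} {β C μ : ℝ}
    (h : ∀ (L : ℕ) [NeZero L] (x y : Torus L),
      |corr N L J β x y| ≤ C * Real.exp (-(μ * tnorm (x - y))))
    (G : ℤ × ℤ → ℝ)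
    (hG : ∀ j, Tendsto (fun k : ℕ => corr N (k + 1) J β 0 (proj (k + 1) j)) atTop (𝓝 (G j)))
    (j : ℤ × ℤ) : |G j| ≤ C * Real.exp (-(μ * nrm j)) := by
  have h1 : Tendsto (fun k : ℕ => |corr N (k + 1) J β 0 (proj (k + 1) j)|) atTop (𝓝 |G j|) :=
    (hG j).abs
  apply le_of_tendsto h1
  have h2 : ∀ᶠ k : ℕ in atTop, 2 * nrm j < ((k + 1 : ℕ) : ℝ) := by
    have h3 : Tendsto (fun k : ℕ => ((k + 1 : ℕ) : ℝ)) atTop atTop :=
      tendsto_natCast_atTop_atTop.comp (tendsto_add_atTop_nat 1)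
    exact h3.eventually_gt_atTop _
  filter_upwards [h2] with k hk
  have h4 := h (k + 1) 0 (proj (k + 1) j)
  rwa [zero_sub, tnorm_neg, tnorm_proj_eq j hk] at h4

/-- the mass is at least `μ` -/
lemma mass_bound {C μ : ℝ} (G : ℤ × ℤ → ℝ) (hG : ∀ j, |G j| ≤ C * Real.exp (-(μ * nrm j)))
    (hpos : ∀ k : ℕ, 0 < G ((k : ℤ) + 1, 0)) (M : ℝ)
    (hM : Tendsto (fun k : ℕ => -Real.log (G ((k : ℤ) + 1, 0)) / ((k : ℝ) + 1)) atTop (𝓝 M)) :
    μ ≤ M := by
  have hnrm : ∀ k : ℕ, nrm ((k : ℤ) + 1, 0) = (k : ℝ) + 1 := by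
    intro k
    unfold nrm
    simp only
    push_cast
    rw [zero_pow (by norm_num), add_zero, Real.sqrt_sq (by positivity)]
  have hle : ∀ k : ℕ, G ((k : ℤ) + 1, 0) ≤ C * Real.exp (-(μ * ((k : ℝ) + 1))) := by
    intro k
    have := hG ((k : ℤ) + 1, 0)
    rw [hnrm] at this
    exact (le_abs_self _).trans this
  have hC : 0 < C := by
    have h1 := lt_of_lt_of_le (hpos 0) (hle 0)
    exact pos_of_mul_pos_left h1 (Real.exp_pos _).le
  have h2 : ∀ k : ℕ, μ - Real.log C / ((k : ℝ) + 1)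
      ≤ -Real.log (G ((k : ℤ) + 1, 0)) / ((k : ℝ) + 1) := by
    intro k
    have hk : (0 : ℝ) < (k : ℝ) + 1 := by positivity
    rw [le_div_iff₀ hk, sub_mul, div_mul_cancel₀ _ hk.ne']
    have h3 := Real.log_le_log (hpos k) (hle k)
    rw [Real.log_mul hC.ne' (Real.exp_pos _).ne', Real.log_exp] at h3
    linarith
  have h4 : Tendsto (fun k : ℕ => μ - Real.log C / ((k : ℝ) + 1)) atTop (𝓝 (μ - 0)) := by
    apply tendsto_const_nhds.sub
    apply tendsto_const_nhds.div_atTop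
    exact tendsto_atTop_add_const_right _ _ tendsto_natCast_atTop_atTop
  rw [sub_zero] at h4
  exact le_of_tendsto_of_tendsto' h4 hM h2

end

end Pool.Agent.NVec
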