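import Mathlib

/-!
Lattice sums over boxes in `ℤ²`.
-/

open Set Filter Topology

namespace Pool.Agent.NVec

noncomputable section

/-- `1 + |u|²` -/
def QQf (u : ℤ × ℤ) : ℝ := 1 + (u.1 : ℝ) ^ 2 + (u.2 : ℝ) ^ 2

lemma QQf_ge_one (u : ℤ × ℤ) : 1 ≤ QQf u := by unfold QQf; nlinarith [sq_nonneg (u.1 : ℝ), sq_nonneg (u.2 : ℝ)]

lemma QQf_pos (u : ℤ × ℤ) : 0 < QQf u := lt_of_lt_of_le one_pos (QQf_ge_one u)

/-- the box `[-R,R]²` -/
def box (R : ℕ) : Finset (ℤ × ℤ) := Finset.Icc (-(R : ℤ)) R ×ˢ Finset.Icc (-(R : ℤ)) R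

lemma sum_Icc_int_even (f : ℤ → ℝ) (hf : ∀ k, f (-k) = f k) (R : ℕ) :
    ∑ k ∈ Finset.Icc (-(R : ℤ)) R, f k = f 0 + 2 * ∑ k ∈ Finset.range R, f ((k : ℤ) + 1) := by
  induction R with
  | zero => simp
  | succ R ih =>
    have h1 : Finset.Icc (-((R + 1 : ℕ) : ℤ)) ((R + 1 : ℕ) : ℤ)
        = insert (-((R : ℤ) + 1)) (insert ((R : ℤ) + 1) (Finset.Icc (-(R : ℤ)) R)) := by
      ext k
      simp only [Finset.mem_Icc, Finset.mem_insert, Nat.cast_add, Nat.cast_one]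
      omega
    rw [h1, Finset.sum_insert, Finset.sum_insert, ih, Finset.sum_range_succ, hf]
    · ring
    · simp
    · simp only [Finset.mem_insert, Finset.mem_Icc]
      omega

/-- derivative comparison for `arctan` -/
lemma arctan_step {s : ℝ} (hs : 0 < s) {x : ℝ} (hx : 0 ≤ x) :
    1 / (s ^ 2 + (x + 1) ^ 2) ≤ (Real.arctan ((x + 1) / s) - Real.arctan (x / s)) / s := by
  have hder : ∀ t ∈ Set.Ioo x (x + 1), HasDerivAt (fun t => Real.arctan (t / s) / s)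
      (1 / (s ^ 2 + t ^ 2)) t := by
    intro t _
    have h1 : HasDerivAt (fun t : ℝ => t / s) (1 / s) t := (hasDerivAt_id t).div_const s
    have h2 := (h1.arctan).div_const s
    have e : 1 / (s ^ 2 + t ^ 2) = 1 / (1 + (t / s) ^ 2) * (1 / s) / s := by
      have hs' : s ≠ 0 := hs.ne'
      have h3 : s ^ 2 + t ^ 2 ≠ 0 := by positivity
      have h4 : 1 + (t / s) ^ 2 = (s ^ 2 + t ^ 2) / s ^ 2 := by field_simp
      rw [h4]
      field_simp
    rw [e]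
    exact h2
  have hcont : ContinuousOn (fun t => Real.arctan (t / s) / s) (Set.Icc x (x + 1)) := by
    apply Continuous.continuousOn
    exact (Real.continuous_arctan.comp (continuous_id.div_const s)).div_const s
  obtain ⟨t, ht, he⟩ := exists_hasDerivAt_eq_slope (fun t => Real.arctan (t / s) / s)
    (fun t => 1 / (s ^ 2 + t ^ 2)) (by linarith : x < x + 1) hcont hder
  have h3 : 1 / (s ^ 2 + (x + 1) ^ 2) ≤ 1 / (s ^ 2 + t ^ 2) := by
    apply one_div_le_one_div_of_le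
    · nlinarith [ht.1, sq_nonneg t, sq_pos_of_pos hs]
    · nlinarith [ht.1, ht.2]
  have h4 : (x + 1) - x = 1 := by ring
  rw [h4, div_one, ← sub_div] at he
  linarith

lemma sum_row_le {s : ℝ} (hs : 0 < s) (R : ℕ) :
    ∑ k ∈ Finset.Icc (-(R : ℤ)) R, 1 / (s ^ 2 + (k : ℝ) ^ 2) ≤ 1 / s ^ 2 + Real.pi / s := by
  rw [sum_Icc_int_even (fun k : ℤ => 1 / (s ^ 2 + (k : ℝ) ^ 2)) (by intro k; simp)]
  have h1 : ∑ k ∈ Finset.range R, 1 / (s ^ 2 + (((k : ℤ) + 1 : ℤ) : ℝ) ^ 2)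
      ≤ Real.arctan ((R : ℝ) / s) / s := by
    induction R with
    | zero => simp
    | succ R ih =>
      rw [Finset.sum_range_succ]
      have h2 := arctan_step hs (Nat.cast_nonneg (α := ℝ) R)
      push_cast at ih ⊢
      rw [sub_div] at h2
      linarith
  have h2 : Real.arctan ((R : ℝ) / s) ≤ Real.pi / 2 := (Real.arctan_lt_pi_div_two _).le
  have h3 : Real.arctan ((R : ℝ) / s) / s ≤ Real.pi / 2 / s := by gcongr
  have h4 : 2 * (Real.pi / 2 / s) = Real.pi / s := by ring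
  simp only [Int.cast_zero]
  have h5 : 1 / (s ^ 2 + (0 : ℝ) ^ 2) = 1 / s ^ 2 := by simp
  rw [h5]
  linarith

lemma sum_harmonic_le (R : ℕ) :
    ∑ k ∈ Finset.range R, 1 / ((k : ℝ) + 1) ≤ 1 + Real.log R := by
  have := harmonic_le_one_add_log R
  rw [harmonic] at this
  push_cast at this
  simpa using this

lemma sum_sq_inv_le (R : ℕ) :
    ∑ k ∈ Finset.range R, 1 / (1 + ((k : ℝ) + 1) ^ 2) ≤ Real.pi / 2 := by
  have h := sum_row_le one_pos R
  rw [sum_Icc_int_even (fun k : ℤ => 1 / ((1 : ℝ) ^ 2 + (k : ℝ) ^ 2)) (by intro k; simp)] at h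
  push_cast at h
  norm_num at h ⊢
  linarith

/-- The sharp upper bound for the logarithmic lattice sum. -/
lemma sum_box_le (R : ℕ) :
    ∑ u ∈ box R, 1 / QQf u ≤ 2 * Real.pi * Real.log R + 16 := by
  unfold box QQf
  rw [Finset.sum_product]
  have h1 : ∀ k ∈ Finset.Icc (-(R : ℤ)) R, ∑ l ∈ Finset.Icc (-(R : ℤ)) R,
      1 / (1 + (((k, l) : ℤ × ℤ).1 : ℝ) ^ 2 + (((k, l) : ℤ × ℤ).2 : ℝ) ^ 2)
      ≤ 1 / (1 + (k : ℝ) ^ 2) + Real.pi / Real.sqrt (1 + (k : ℝ) ^ 2) := by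
    intro k _
    have hs : 0 < Real.sqrt (1 + (k : ℝ) ^ 2) := Real.sqrt_pos.2 (by positivity)
    have h2 := sum_row_le hs R
    rw [Real.sq_sqrt (by positivity)] at h2
    exact h2
  refine (Finset.sum_le_sum h1).trans ?_
  rw [sum_Icc_int_even (fun k : ℤ => 1 / (1 + (k : ℝ) ^ 2)
    + Real.pi / Real.sqrt (1 + (k : ℝ) ^ 2)) (by intro k; simp), Finset.sum_add_distrib]
  have h3 : ∑ k ∈ Finset.range R, 1 / (1 + ((((k : ℤ) + 1 : ℤ)) : ℝ) ^ 2) ≤ Real.pi / 2 := by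
    have := sum_sq_inv_le R
    push_cast
    exact this
  have h4 : ∑ k ∈ Finset.range R, Real.pi / Real.sqrt (1 + ((((k : ℤ) + 1 : ℤ)) : ℝ) ^ 2)
      ≤ Real.pi * (1 + Real.log R) := by
    calc _ ≤ ∑ k ∈ Finset.range R, Real.pi * (1 / ((k : ℝ) + 1)) := by
          refine Finset.sum_le_sum fun k _ => ?_
          rw [mul_one_div]
          have hk : (0 : ℝ) < (k : ℝ) + 1 := by positivity
          have : (k : ℝ) + 1 ≤ Real.sqrt (1 + ((((k : ℤ) + 1 : ℤ)) : ℝ) ^ 2) := by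
            apply Real.le_sqrt_of_sq_le
            push_cast
            linarith
          exact div_le_div_of_nonneg_left Real.pi_pos.le hk this
      _ = Real.pi * ∑ k ∈ Finset.range R, 1 / ((k : ℝ) + 1) := by rw [Finset.mul_sum]
      _ ≤ _ := mul_le_mul_of_nonneg_left (sum_harmonic_le R) Real.pi_pos.le
  have hpi := Real.pi_lt_d2
  simp only [Int.cast_zero]
  norm_num at h3 h4 ⊢
  nlinarith [h3, h4, Real.pi_pos]

/-- the lattice sum of `Q^{-3/2}` is bounded -/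
lemma sum_box_three_half_le (R : ℕ) :
    ∑ u ∈ box R, 1 / (QQf u * Real.sqrt (QQf u)) ≤ (1 + Real.pi) ^ 2 := by
  unfold box
  rw [Finset.sum_product]
  have h1 : ∀ k ∈ Finset.Icc (-(R : ℤ)) R, ∑ l ∈ Finset.Icc (-(R : ℤ)) R,
      1 / (QQf (k, l) * Real.sqrt (QQf (k, l)))
      ≤ (1 + Real.pi) * (1 / ((1 : ℝ) ^ 2 + (k : ℝ) ^ 2)) := by
    intro k _
    set s := Real.sqrt (1 + (k : ℝ) ^ 2) with hsdef
    have hs2 : s ^ 2 = 1 + (k : ℝ) ^ 2 := Real.sq_sqrt (by positivity)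
    have hs : 0 < s := Real.sqrt_pos.2 (by positivity)
    have hs1 : 1 ≤ s := by
      rw [hsdef]; apply Real.le_sqrt_of_sq_le; nlinarith [sq_nonneg (k : ℝ)]
    have h2 := sum_row_le hs R
    have h3 : ∀ l ∈ Finset.Icc (-(R : ℤ)) R, 1 / (QQf (k, l) * Real.sqrt (QQf (k, l)))
        ≤ (1 / s) * (1 / (s ^ 2 + (l : ℝ) ^ 2)) := by
      intro l _
      have e : QQf (k, l) = s ^ 2 + (l : ℝ) ^ 2 := by rw [hs2]; rfl
      have h4 : s ≤ Real.sqrt (QQf (k, l)) := by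
        apply Real.le_sqrt_of_sq_le; rw [e]; nlinarith [sq_nonneg (l : ℝ)]
      have h5 : 0 < QQf (k, l) := QQf_pos _
      rw [one_div_mul_one_div, ← e, mul_comm s]
      apply one_div_le_one_div_of_le (by positivity)
      exact mul_le_mul_of_nonneg_left h4 h5.le
    refine (Finset.sum_le_sum h3).trans ?_
    rw [← Finset.mul_sum]
    calc (1 / s) * ∑ l ∈ Finset.Icc (-(R : ℤ)) R, 1 / (s ^ 2 + (l : ℝ) ^ 2)
        ≤ (1 / s) * (1 / s ^ 2 + Real.pi / s) := mul_le_mul_of_nonneg_left h2 (by positivity)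
      _ ≤ (1 / s) * (1 / s + Real.pi / s) := by
          apply mul_le_mul_of_nonneg_left _ (by positivity)
          have : 1 / s ^ 2 ≤ 1 / s := by
            apply one_div_le_one_div_of_le hs; nlinarith
          linarith
      _ = (1 + Real.pi) * (1 / ((1 : ℝ) ^ 2 + (k : ℝ) ^ 2)) := by
          have : (1 : ℝ) ^ 2 + (k : ℝ) ^ 2 = s ^ 2 := by rw [hs2]; ring
          rw [this, ← add_div, div_mul_div_comm, one_mul, mul_one_div, sq]
  refine (Finset.sum_le_sum h1).trans ?_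
  rw [← Finset.mul_sum]
  have h2 := sum_row_le one_pos R
  have h3 : (1 : ℝ) / 1 ^ 2 + Real.pi / 1 = 1 + Real.pi := by norm_num
  rw [h3] at h2
  rw [sq (1 + Real.pi)]
  exact mul_le_mul_of_nonneg_left h2 (by have := Real.pi_pos; linarith)

/-- symmetry of the box: the quadratic form `(u·m)²/Q²` sums to at most `½|m|² ∑ 1/Q` -/
lemma sum_box_quad_le (R : ℕ) (m : ℤ × ℤ) :
    ∑ u ∈ box R, ((u.1 : ℝ) * m.1 + (u.2 : ℝ) * m.2) ^ 2 / QQf u ^ 2
      ≤ (1 / 2) * ((m.1 : ℝ) ^ 2 + (m.2 : ℝ) ^ 2) * ∑ u ∈ box R, 1 / QQf u := by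
  -- swap symmetry
  have hswap : ∑ u ∈ box R, (u.1 : ℝ) ^ 2 / QQf u ^ 2 = ∑ u ∈ box R, (u.2 : ℝ) ^ 2 / QQf u ^ 2 := by
    unfold box
    rw [Finset.sum_product, Finset.sum_product_right]
    refine Finset.sum_congr rfl fun k _ => Finset.sum_congr rfl fun l _ => ?_
    unfold QQf
    simp only
    congr 1
    ring
  -- reflection symmetry
  have hcross : ∑ u ∈ box R, (u.1 : ℝ) * (u.2 : ℝ) / QQf u ^ 2 = 0 := by
    unfold box
    rw [Finset.sum_product]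
    refine Finset.sum_eq_zero fun k _ => ?_
    have hodd : ∀ l ∈ Finset.Icc (-(R : ℤ)) R,
        (k : ℝ) * (l : ℝ) / QQf (k, l) ^ 2 + (k : ℝ) * ((-l : ℤ) : ℝ) / QQf (k, -l) ^ 2 = 0 := by
      intro l _
      unfold QQf
      push_cast
      ring
    refine Finset.sum_involution (fun l _ => -l) hodd (fun l _ h => ?_) (fun l hl => ?_)
      (fun l _ => neg_neg l)
    · intro h2
      have : l = 0 := by omega
      rw [this] at h
      simp at h
    · rw [Finset.mem_Icc] at *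
      omega
  have hsum : ∑ u ∈ box R, (u.1 : ℝ) ^ 2 / QQf u ^ 2 + ∑ u ∈ box R, (u.2 : ℝ) ^ 2 / QQf u ^ 2
      ≤ ∑ u ∈ box R, 1 / QQf u := by
    rw [← Finset.sum_add_distrib]
    refine Finset.sum_le_sum fun u _ => ?_
    have h := QQf_pos u
    rw [← add_div, div_le_div_iff₀ (by positivity) h]
    have : (u.1 : ℝ) ^ 2 + (u.2 : ℝ) ^ 2 ≤ QQf u := by unfold QQf; linarith
    nlinarith
  have hexp : ∑ u ∈ box R, ((u.1 : ℝ) * m.1 + (u.2 : ℝ) * m.2) ^ 2 / QQf u ^ 2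
      = (m.1 : ℝ) ^ 2 * ∑ u ∈ box R, (u.1 : ℝ) ^ 2 / QQf u ^ 2
        + 2 * (m.1 : ℝ) * m.2 * ∑ u ∈ box R, (u.1 : ℝ) * (u.2 : ℝ) / QQf u ^ 2
        + (m.2 : ℝ) ^ 2 * ∑ u ∈ box R, (u.2 : ℝ) ^ 2 / QQf u ^ 2 := by
    rw [Finset.mul_sum, Finset.mul_sum, Finset.mul_sum, ← Finset.sum_add_distrib,
      ← Finset.sum_add_distrib]
    refine Finset.sum_congr rfl fun u _ => ?_
    ring
  rw [hexp, hcross, hswap]
  rw [hswap] at hsum
  nlinarith [sq_nonneg (m.1 : ℝ), sq_nonneg (m.2 : ℝ)]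

end

end Pool.Agent.NVec
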