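import Pool.Agent.H.MP_8be4c0_mp.Defs
import Pool.Agent.H.MP_8be4c0_mp.Lattice

/-!
Geometry of the discrete torus.
-/

open Set Filter Topology

namespace Pool.Agent.NVec

set_option linter.unusedSectionVars false
set_option linter.unusedSimpArgs false

noncomputable section

/-- Euclidean norm on `ℤ²` -/
def nrm (u : ℤ × ℤ) : ℝ := Real.sqrt ((u.1 : ℝ) ^ 2 + (u.2 : ℝ) ^ 2)

lemma nrm_nonneg (u : ℤ × ℤ) : 0 ≤ nrm u := Real.sqrt_nonneg _

lemma nrm_sq (u : ℤ × ℤ) : nrm u ^ 2 = (u.1 : ℝ) ^ 2 + (u.2 : ℝ) ^ 2 :=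
  Real.sq_sqrt (by positivity)

lemma QQf_eq (u : ℤ × ℤ) : QQf u = 1 + nrm u ^ 2 := by rw [nrm_sq]; unfold QQf; ring

lemma nrm_mono {u v : ℤ × ℤ} (h1 : u.1.natAbs ≤ v.1.natAbs) (h2 : u.2.natAbs ≤ v.2.natAbs) :
    nrm u ≤ nrm v := by
  apply Real.sqrt_le_sqrt
  have h1' : (u.1 : ℝ) ^ 2 ≤ (v.1 : ℝ) ^ 2 := by exact_mod_cast Int.natAbs_le_iff_sq_le.1 h1
  have h2' : (u.2 : ℝ) ^ 2 ≤ (v.2 : ℝ) ^ 2 := by exact_mod_cast Int.natAbs_le_iff_sq_le.1 h2
  linarith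

lemma dot_le (u v : ℤ × ℤ) : |(u.1 : ℝ) * v.1 + (u.2 : ℝ) * v.2| ≤ nrm u * nrm v := by
  unfold nrm
  rw [← Real.sqrt_mul (by positivity)]
  apply Real.abs_le_sqrt
  nlinarith [sq_nonneg ((u.1 : ℝ) * v.2 - (u.2 : ℝ) * v.1)]

lemma nrm_add_le (u v : ℤ × ℤ) : nrm (u + v) ≤ nrm u + nrm v := by
  have h := (abs_le.1 (dot_le u v)).2
  have e : nrm (u + v) ^ 2 = nrm u ^ 2 + 2 * ((u.1 : ℝ) * v.1 + (u.2 : ℝ) * v.2) + nrm v ^ 2 := by
    rw [nrm_sq, nrm_sq, nrm_sq]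
    simp only [Prod.fst_add, Prod.snd_add]
    push_cast
    ring
  have h0 := nrm_nonneg u
  have h1 := nrm_nonneg v
  have h2 := nrm_nonneg (u + v)
  apply le_of_sq_le_sq _ (by positivity)
  nlinarith

lemma nrm_neg (u : ℤ × ℤ) : nrm (-u) = nrm u := by
  unfold nrm; simp

lemma abs_fst_le_nrm (u : ℤ × ℤ) : |(u.1 : ℝ)| ≤ nrm u := by
  apply Real.abs_le_sqrt; nlinarith [sq_nonneg (u.2 : ℝ)]

lemma abs_snd_le_nrm (u : ℤ × ℤ) : |(u.2 : ℝ)| ≤ nrm u := by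
  apply Real.abs_le_sqrt; nlinarith [sq_nonneg (u.1 : ℝ)]

/-- the shortest representative -/
def rep {L : ℕ} (z : Torus L) : ℤ × ℤ := (z.1.valMinAbs, z.2.valMinAbs)

lemma tnorm_eq {L : ℕ} (z : Torus L) : tnorm z = nrm (rep z) := rfl

lemma tnorm_nonneg {L : ℕ} (z : Torus L) : 0 ≤ tnorm z := Real.sqrt_nonneg _

lemma tnorm_zero {L : ℕ} : tnorm (0 : Torus L) = 0 := by
  unfold tnorm
  simp

lemma proj_rep {L : ℕ} (z : Torus L) : proj L (rep z) = z := by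
  ext <;> simp [proj, rep]

lemma proj_add {L : ℕ} (m m' : ℤ × ℤ) : proj L (m + m') = proj L m + proj L m' := by
  ext <;> simp [proj]

lemma proj_neg {L : ℕ} (m : ℤ × ℤ) : proj L (-m) = -proj L m := by
  ext <;> simp [proj]

lemma rep_injective {L : ℕ} : Function.Injective (rep : Torus L → ℤ × ℤ) :=
  Function.LeftInverse.injective proj_rep

lemma tnorm_neg {L : ℕ} (z : Torus L) : tnorm (-z) = tnorm z := by
  rw [tnorm_eq, tnorm_eq]
  apply le_antisymm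
  · apply nrm_mono
    · simp only [rep, Prod.fst_neg]; exact (ZMod.natAbs_valMinAbs_neg _).le
    · simp only [rep, Prod.snd_neg]; exact (ZMod.natAbs_valMinAbs_neg _).le
  · apply nrm_mono
    · simp only [rep, Prod.fst_neg]; exact (ZMod.natAbs_valMinAbs_neg _).ge
    · simp only [rep, Prod.snd_neg]; exact (ZMod.natAbs_valMinAbs_neg _).ge

section

variable {L : ℕ} [NeZero L]

lemma tnorm_add_le (z w : Torus L) : tnorm (z + w) ≤ tnorm z + tnorm w := by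
  rw [tnorm_eq, tnorm_eq, tnorm_eq]
  refine le_trans ?_ (nrm_add_le _ _)
  apply nrm_mono
  · exact ZMod.natAbs_valMinAbs_add_le _ _
  · exact ZMod.natAbs_valMinAbs_add_le _ _

lemma tnorm_sub_le (z w : Torus L) : tnorm (z - w) ≤ tnorm z + tnorm w := by
  rw [sub_eq_add_neg, ← tnorm_neg w]; exact tnorm_add_le _ _

lemma tnorm_sub_comm (z w : Torus L) : tnorm (z - w) = tnorm (w - z) := by
  rw [← tnorm_neg, neg_sub]

lemma tnorm_proj_le (m : ℤ × ℤ) : tnorm (proj L m) ≤ nrm m := by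
  rw [tnorm_eq]
  apply nrm_mono
  · apply ZMod.natAbs_min_of_le_div_two L _ _ _ (ZMod.natAbs_valMinAbs_le _)
    simp [proj, rep]
  · apply ZMod.natAbs_min_of_le_div_two L _ _ _ (ZMod.natAbs_valMinAbs_le _)
    simp [proj, rep]

lemma rep_add_proj (z : Torus L) (m : ℤ × ℤ) (h : 2 * (tnorm z + nrm m) < L) :
    rep (z + proj L m) = rep z + m := by
  have hz := tnorm_eq z
  have key : ∀ a b : ℤ, |(a : ℝ)| ≤ tnorm z → |(b : ℝ)| ≤ nrm m →
      (a + b) * 2 ∈ Set.Ioc (-(L : ℤ)) L := by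
    intro a b ha hb
    have h1 := abs_le.1 ha
    have h2 := abs_le.1 hb
    constructor
    · have : (-(L : ℝ)) < ((a + b) * 2 : ℝ) := by linarith
      exact_mod_cast this
    · have : ((a + b) * 2 : ℝ) ≤ L := by linarith
      exact_mod_cast this
  apply Prod.ext
  · apply (ZMod.valMinAbs_spec _ _).2
    refine ⟨?_, ?_⟩
    · simp [proj, rep]
    · exact key _ _ (abs_fst_le_nrm (rep z)) (abs_fst_le_nrm m)
  · apply (ZMod.valMinAbs_spec _ _).2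
    refine ⟨?_, ?_⟩
    · simp [proj, rep]
    · exact key _ _ (abs_snd_le_nrm (rep z)) (abs_snd_le_nrm m)

lemma two_tnorm_sq_le (z : Torus L) : 2 * tnorm z ^ 2 ≤ (L : ℝ) ^ 2 := by
  have key : ∀ a : ZMod L, 4 * (a.valMinAbs : ℝ) ^ 2 ≤ (L : ℝ) ^ 2 := by
    intro a
    have h := ZMod.natAbs_valMinAbs_le a
    have h1 : 2 * a.valMinAbs.natAbs ≤ L := by omega
    have h2 : (2 * (a.valMinAbs.natAbs : ℝ)) ≤ L := by exact_mod_cast h1
    have h3 : ((a.valMinAbs.natAbs : ℝ)) ^ 2 = (a.valMinAbs : ℝ) ^ 2 := by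
      rw [Nat.cast_natAbs, Int.cast_abs, sq_abs]
    rw [← h3]
    have h4 : (0 : ℝ) ≤ a.valMinAbs.natAbs := by positivity
    nlinarith
  rw [tnorm_eq, nrm_sq]
  have h1 := key z.1
  have h2 := key z.2
  simp only [rep]
  linarith

lemma one_le_tnorm {z : Torus L} (hz : z ≠ 0) : 1 ≤ tnorm z := by
  have h : rep z ≠ 0 := by
    intro h
    apply hz
    rw [← proj_rep z, h]
    ext <;> simp [proj]
  rw [tnorm_eq]
  apply Real.le_sqrt_of_sq_le
  have h3 : 1 ≤ (rep z).1 ^ 2 + (rep z).2 ^ 2 := by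
    by_cases h1 : (rep z).1 = 0
    · have h2 : (rep z).2 ≠ 0 := fun h2 => h (Prod.ext h1 h2)
      have := Int.one_le_abs h2
      nlinarith [sq_abs (rep z).2, sq_nonneg (rep z).1]
    · have := Int.one_le_abs h1
      nlinarith [sq_abs (rep z).1, sq_nonneg (rep z).2]
  have : (1 : ℝ) ≤ ((rep z).1 : ℝ) ^ 2 + ((rep z).2 : ℝ) ^ 2 := by exact_mod_cast h3
  linarith

lemma rep_mem_box {z : Torus L} {ρ : ℝ} (h : tnorm z ≤ ρ) : rep z ∈ box ⌊ρ⌋₊ := by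
  have hρ : 0 ≤ ρ := (tnorm_nonneg z).trans h
  have key : ∀ a : ℤ, |(a : ℝ)| ≤ tnorm z → a ∈ Finset.Icc (-(⌊ρ⌋₊ : ℤ)) ⌊ρ⌋₊ := by
    intro a ha
    have h1 : a.natAbs ≤ ⌊ρ⌋₊ := by
      apply Nat.le_floor
      rw [Nat.cast_natAbs, Int.cast_abs]
      exact ha.trans h
    rw [Finset.mem_Icc]
    omega
  unfold box
  rw [Finset.mem_product]
  exact ⟨key _ (abs_fst_le_nrm (rep z)), key _ (abs_snd_le_nrm (rep z))⟩

lemma sum_torus_le (R : ℕ) (f : Torus L → ℝ) (F : ℤ × ℤ → ℝ) (hF : ∀ u, 0 ≤ F u)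
    (hf : ∀ z, rep z ∈ box R → f z ≤ F (rep z)) (hf0 : ∀ z, rep z ∉ box R → f z ≤ 0) :
    ∑ z, f z ≤ ∑ u ∈ box R, F u := by
  classical
  have h1 : ∑ z, f z ≤ ∑ z ∈ Finset.univ.filter (fun z : Torus L => rep z ∈ box R),
      F (rep z) := by
    rw [Finset.sum_filter]
    refine Finset.sum_le_sum fun z _ => ?_
    split_ifs with h
    · exact hf z h
    · exact hf0 z h
  refine h1.trans ?_
  rw [← Finset.sum_image (s := Finset.univ.filter (fun z : Torus L => rep z ∈ box R))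
    (f := F) (g := rep) (fun a _ b _ h => rep_injective h)]
  apply Finset.sum_le_sum_of_subset_of_nonneg
  · intro u hu
    rw [Finset.mem_image] at hu
    obtain ⟨z, hz, rfl⟩ := hu
    exact (Finset.mem_filter.1 hz).2
  · intro u _ _
    exact hF u

lemma card_box (R : ℕ) : ((box R).card : ℝ) = (2 * (R : ℝ) + 1) ^ 2 := by
  unfold box
  rw [Finset.card_product, Int.card_Icc]
  have : ((R : ℤ) + 1 - -(R : ℤ)).toNat = 2 * R + 1 := by omega
  rw [this]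
  push_cast
  ring

end

end

end Pool.Agent.NVec
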