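import Pool.Agent.H.MP_8be4c0_mp.Bc

/-!
From the conditional magnetisations around two sites to the two-point function.
-/

open MeasureTheory Set Filter Topology

namespace Pool.Agent.NVec

set_option linter.unusedSectionVars false

noncomputable section

variable {V : Type} [Fintype V] [DecidableEq V] {N : ℕ} [NeZero N]

lemma merge_idem (A : Finset V) (u u' τ : V → Spin N) :
    merge A u' (merge A u τ) = merge A u' τ := by
  funext i; unfold merge; split_ifs <;> rfl

lemma continuous_comp_spin (x : V) (r : Fin N) :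
    Continuous fun S : V → Spin N => (S x : EuclideanSpace ℝ (Fin N)) r :=
  (EuclideanSpace.proj r : (EuclideanSpace ℝ (Fin N)) →L[ℝ] ℝ).continuous.comp
    (continuous_subtype_val.comp (continuous_apply x))

lemma abs_comp_le (u : Spin N) (r : Fin N) : |(u : EuclideanSpace ℝ (Fin N)) r| ≤ 1 := by
  have h1 : ‖(u : EuclideanSpace ℝ (Fin N))‖ = 1 := by
    have := u.2
    rwa [mem_sphere_zero_iff_norm] at this
  have h2 := EuclideanSpace.norm_eq (u : EuclideanSpace ℝ (Fin N))
  have h3 : ‖(u : EuclideanSpace ℝ (Fin N)) r‖ ≤ ‖(u : EuclideanSpace ℝ (Fin N))‖ :=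
    PiLp.norm_apply_le _ r
  rw [h1, Real.norm_eq_abs] at h3
  exact h3

lemma continuous_bInt {F : (V → Spin N) → ℝ} (hF : Continuous F) (A : Finset V)
    {f : (V → Spin N) → ℝ} (hf : Continuous f) : Continuous fun τ => bInt F A τ f := by
  unfold bInt
  have := continuous_parametric_integral_of_continuous (μ := apriori V N)
    (f := fun (τ : V → Spin N) (u : V → Spin N) => f (merge A u τ) * Real.exp (F (merge A u τ)))
    (s := univ) ?_ isCompact_univ
  · simpa using this
  · have h2 : Continuous fun p : (V → Spin N) × (V → Spin N) => merge A p.2 p.1 :=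
      (continuous_merge_pair A).comp (continuous_snd.prodMk continuous_fst)
    exact (hf.comp h2).mul (Real.continuous_exp.comp (hF.comp h2))

lemma continuous_bZ {F : (V → Spin N) → ℝ} (hF : Continuous F) (A : Finset V) :
    Continuous fun τ => bZ F A τ := by
  have h := continuous_bInt hF A (f := fun _ => 1) continuous_const
  simpa only [bInt_one] using h

/-- the conditional mean of the spin at `x` -/
def cm (F : (V → Spin N) → ℝ) (A : Finset V) (x : V) (τ : V → Spin N) :
    EuclideanSpace ℝ (Fin N) :=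
  WithLp.toLp 2 fun r => bInt F A τ (fun S => (S x : EuclideanSpace ℝ (Fin N)) r) / bZ F A τ

lemma cm_apply (F : (V → Spin N) → ℝ) (A : Finset V) (x : V) (τ : V → Spin N) (r : Fin N) :
    cm F A x τ r = bInt F A τ (fun S => (S x : EuclideanSpace ℝ (Fin N)) r) / bZ F A τ := rfl

lemma continuous_cm {F : (V → Spin N) → ℝ} (hF : Continuous F) (A : Finset V) (x : V) :
    Continuous (cm F A x) := by
  unfold cm
  apply (PiLp.continuous_toLp 2 _).comp
  apply continuous_pi
  intro r
  exact (continuous_bInt hF A (continuous_comp_spin x r)).div (continuous_bZ hF A)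
    (fun τ => (bZ_pos hF A τ).ne')

lemma cm_merge (F : (V → Spin N) → ℝ) (A : Finset V) (x : V) (u τ : V → Spin N) :
    cm F A x (merge A u τ) = cm F A x τ := by
  unfold cm bInt bZ
  simp_rw [merge_idem]

lemma inner_cm {F : (V → Spin N) → ℝ} (hF : Continuous F) (A : Finset V) (x : V)
    (τ : V → Spin N) (e : EuclideanSpace ℝ (Fin N)) :
    inner ℝ e (cm F A x τ) * bZ F A τ
      = bInt F A τ (fun S => inner ℝ e (S x : EuclideanSpace ℝ (Fin N))) := by
  have hZ := (bZ_pos hF A τ).ne'
  have hc : ∀ r : Fin N, Continuous fun S : V → Spin N =>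
      e r * (S x : EuclideanSpace ℝ (Fin N)) r :=
    fun r => continuous_const.mul (continuous_comp_spin x r)
  rw [inner_eq]
  simp_rw [inner_eq]
  rw [bInt_finsum hF A τ Finset.univ (fun r _ => hc r), Finset.sum_mul]
  refine Finset.sum_congr rfl fun r _ => ?_
  rw [bInt_smul, cm_apply, mul_assoc, div_mul_cancel₀ _ hZ]

lemma norm_cm_le {F : (V → Spin N) → ℝ} (hF : Continuous F) (A : Finset V) (x : V) {m : ℝ}
    (hm0 : 0 ≤ m)
    (hm : ∀ (τ : V → Spin N) (e : EuclideanSpace ℝ (Fin N)),
      bInt F A τ (fun S => inner ℝ e (S x : EuclideanSpace ℝ (Fin N))) ≤ m * ‖e‖ * bZ F A τ)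
    (τ : V → Spin N) : ‖cm F A x τ‖ ≤ m := by
  have h1 := hm τ (cm F A x τ)
  rw [← inner_cm hF] at h1
  have h2 := le_of_mul_le_mul_right h1 (bZ_pos hF A τ)
  rw [real_inner_self_eq_norm_sq] at h2
  by_contra hc
  push Not at hc
  have h3 : 0 < ‖cm F A x τ‖ := by linarith
  nlinarith

/-- the spin at `x` may be replaced by its conditional mean -/
lemma replace_cm {F : (V → Spin N) → ℝ} (hF : Continuous F) {A : Finset V} {x y : V}
    (hy : y ∉ A) (τ : V → Spin N) :
    bInt F Finset.univ τ (fun S => inner ℝ (S x : EuclideanSpace ℝ (Fin N)) (S y))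
      = bInt F Finset.univ τ
        (fun S => inner ℝ (cm F A x S) (S y : EuclideanSpace ℝ (Fin N))) := by
  have hc1 : Continuous fun S : V → Spin N =>
      (inner ℝ (S x : EuclideanSpace ℝ (Fin N)) (S y : EuclideanSpace ℝ (Fin N)) : ℝ) :=
    (continuous_subtype_val.comp (continuous_apply x)).inner
      (continuous_subtype_val.comp (continuous_apply y))
  have hc2 : Continuous fun S : V → Spin N =>
      (inner ℝ (cm F A x S) (S y : EuclideanSpace ℝ (Fin N)) : ℝ) :=
    (continuous_cm hF A x).inner (continuous_subtype_val.comp (continuous_apply y))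
  have h1 := tower hF (Finset.subset_univ A) τ hc1
  have h2 := tower hF (Finset.subset_univ A) τ hc2
  have h3 : ∀ σ : V → Spin N,
      bInt F A σ (fun S => inner ℝ (S x : EuclideanSpace ℝ (Fin N)) (S y))
        = bInt F A σ (fun S => inner ℝ (cm F A x S) (S y : EuclideanSpace ℝ (Fin N))) := by
    intro σ
    have e1 : bInt F A σ (fun S => inner ℝ (S x : EuclideanSpace ℝ (Fin N)) (S y))
        = bInt F A σ (fun S => inner ℝ (σ y : EuclideanSpace ℝ (Fin N)) (S x)) := by
      unfold bInt
      refine integral_congr_ae (Eventually.of_forall fun u => ?_)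
      simp only
      rw [merge_out hy, real_inner_comm]
    have e2 : bInt F A σ (fun S => inner ℝ (cm F A x S) (S y : EuclideanSpace ℝ (Fin N)))
        = bInt F A σ (fun _ => inner ℝ (σ y : EuclideanSpace ℝ (Fin N)) (cm F A x σ)) := by
      unfold bInt
      refine integral_congr_ae (Eventually.of_forall fun u => ?_)
      simp only
      rw [merge_out hy, cm_merge, real_inner_comm]
    rw [e1, e2, bInt_const, inner_cm hF]
  simp_rw [h3] at h1
  rw [h1] at h2
  exact mul_left_cancel₀ (mass_pos (V := V) (N := N)).ne' h2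

/-- perturbation of the conditional expectation -/
lemma perturb {F : (V → Spin N) → ℝ} (hF : Continuous F) (A : Finset V) (σ σ' : V → Spin N)
    {K ω : ℝ} (hω : ∀ u, |F (merge A u σ) - F (merge A u σ') - K| ≤ ω) (hω1 : ω ≤ 1)
    {f : (V → Spin N) → ℝ} (hf : Continuous f) (hf1 : ∀ S, |f S| ≤ 1)
    (hff : ∀ u, f (merge A u σ) = f (merge A u σ')) :
    |bInt F A σ f / bZ F A σ - bInt F A σ' f / bZ F A σ'| ≤ 12 * ω := by
  have hω0 : 0 ≤ ω := (abs_nonneg _).trans (hω σ)
  have hexp : Real.exp ω - 1 ≤ 2 * ω := by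
    have h1 := Real.abs_exp_sub_one_sub_id_le (x := ω) (by rw [abs_of_nonneg hω0]; exact hω1)
    have h2 := (abs_le.1 h1).2
    nlinarith
  have hexp3 : Real.exp ω ≤ 3 := by linarith
  have hpt : ∀ u, |Real.exp (F (merge A u σ)) - Real.exp K * Real.exp (F (merge A u σ'))|
      ≤ Real.exp K * (Real.exp ω - 1) * Real.exp (F (merge A u σ')) := by
    intro u
    set a := F (merge A u σ)
    set b := F (merge A u σ')
    set d := a - b - K with hd
    have ha : a = K + b + d := by rw [hd]; ring
    have hdω := hω u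
    have e1 : Real.exp a - Real.exp K * Real.exp b
        = Real.exp K * Real.exp b * (Real.exp d - 1) := by
      rw [ha, Real.exp_add, Real.exp_add]; ring
    rw [e1, abs_mul, abs_of_pos (by positivity)]
    have h1 : |Real.exp d - 1| ≤ Real.exp ω - 1 := by
      rw [abs_le]
      have h2 := (abs_le.1 hdω)
      constructor
      · have h3 : Real.exp (-ω) ≤ Real.exp d := Real.exp_le_exp.2 h2.1
        have h4 : 2 ≤ Real.exp ω + Real.exp (-ω) := by
          have h5 := Real.one_le_cosh ω
          rw [Real.cosh_eq] at h5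
          linarith
        linarith
      · have h3 : Real.exp d ≤ Real.exp ω := Real.exp_le_exp.2 h2.2
        linarith
    calc Real.exp K * Real.exp b * |Real.exp d - 1|
        ≤ Real.exp K * Real.exp b * (Real.exp ω - 1) := by gcongr
      _ = _ := by ring
  have hg : ∀ g : (V → Spin N) → ℝ, Continuous g → (∀ S, |g S| ≤ 1) →
      (∀ u, g (merge A u σ) = g (merge A u σ')) →
      |bInt F A σ g - Real.exp K * bInt F A σ' g|
        ≤ Real.exp K * (Real.exp ω - 1) * bZ F A σ' := by
    intro g hgc hg1 hgg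
    have e : bInt F A σ g - Real.exp K * bInt F A σ' g
        = ∫ u, g (merge A u σ') * (Real.exp (F (merge A u σ))
          - Real.exp K * Real.exp (F (merge A u σ'))) ∂(apriori V N) := by
      unfold bInt
      rw [← integral_const_mul, ← integral_sub (bInt_integrable hF A σ hgc)
        ((bInt_integrable hF A σ' hgc).const_mul _)]
      refine integral_congr_ae (Eventually.of_forall fun u => ?_)
      simp only
      rw [hgg]
      ring
    rw [e]
    refine (abs_integral_le_integral_abs).trans ?_
    have hZ : Real.exp K * (Real.exp ω - 1) * bZ F A σ'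
        = ∫ u, Real.exp K * (Real.exp ω - 1) * Real.exp (F (merge A u σ')) ∂(apriori V N) := by
      unfold bZ
      rw [integral_const_mul]
    rw [hZ]
    apply integral_mono_of_nonneg (Eventually.of_forall fun u => abs_nonneg _)
      ((bZ_integrable hF A σ').const_mul _)
    refine Eventually.of_forall fun u => ?_
    simp only
    rw [abs_mul]
    calc |g (merge A u σ')| * |Real.exp (F (merge A u σ))
          - Real.exp K * Real.exp (F (merge A u σ'))|
        ≤ 1 * (Real.exp K * (Real.exp ω - 1) * Real.exp (F (merge A u σ'))) := by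
          apply mul_le_mul (hg1 _) (hpt u) (abs_nonneg _) zero_le_one
      _ = _ := one_mul _
  have h1 := hg f hf hf1 hff
  have h2 := hg (fun _ => 1) continuous_const (fun _ => by simp) (fun _ => rfl)
  rw [bInt_one, bInt_one] at h2
  set P := bInt F A σ f
  set P' := bInt F A σ' f
  set Q := bZ F A σ
  set Q' := bZ F A σ'
  have hQ : 0 < Q := bZ_pos hF A σ
  have hQ' : 0 < Q' := bZ_pos hF A σ'
  have hP' : |P'| ≤ Q' := by
    have := bInt_abs_le hF A σ' hf hf1
    rwa [one_mul] at this
  have hQQ : Real.exp K * Q' ≤ Real.exp ω * Q := by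
    have h3 : ∫ u, Real.exp K * Real.exp (F (merge A u σ')) ∂(apriori V N)
        ≤ ∫ u, Real.exp ω * Real.exp (F (merge A u σ)) ∂(apriori V N) := by
      apply integral_mono ((bZ_integrable hF A σ').const_mul _)
        ((bZ_integrable hF A σ).const_mul _)
      intro u
      simp only
      rw [← Real.exp_add, ← Real.exp_add]
      apply Real.exp_le_exp.2
      have := (abs_le.1 (hω u)).1
      linarith
    rw [integral_const_mul, integral_const_mul] at h3
    exact h3
  have e : P / Q - P' / Q' = ((P - Real.exp K * P') * Q' - P' * (Q - Real.exp K * Q'))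
      / (Q * Q') := by
    field_simp
    ring
  rw [e, abs_div, abs_of_pos (by positivity : 0 < Q * Q'), div_le_iff₀ (by positivity)]
  have h4 : |(P - Real.exp K * P') * Q' - P' * (Q - Real.exp K * Q')|
      ≤ |P - Real.exp K * P'| * Q' + |P'| * |Q - Real.exp K * Q'| := by
    refine (abs_sub _ _).trans ?_
    rw [abs_mul, abs_mul, abs_of_pos hQ']
  have h5 : |P - Real.exp K * P'| * Q' ≤ (Real.exp K * (Real.exp ω - 1) * Q') * Q' :=
    mul_le_mul_of_nonneg_right h1 hQ'.le
  have h6 : |P'| * |Q - Real.exp K * Q'| ≤ Q' * (Real.exp K * (Real.exp ω - 1) * Q') :=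
    mul_le_mul hP' h2 (abs_nonneg _) hQ'.le
  have hE : 0 ≤ Real.exp ω - 1 := by
    have := Real.one_le_exp hω0; linarith
  have h7 : 2 * ((Real.exp ω - 1) * (Real.exp K * Q')) * Q'
      ≤ 2 * ((2 * ω) * (3 * Q)) * Q' := by
    have h8 : Real.exp K * Q' ≤ 3 * Q := hQQ.trans (by gcongr)
    gcongr
  calc |(P - Real.exp K * P') * Q' - P' * (Q - Real.exp K * Q')|
      ≤ 2 * ((Real.exp ω - 1) * (Real.exp K * Q')) * Q' := by linarith
    _ ≤ 2 * ((2 * ω) * (3 * Q)) * Q' := h7
    _ = _ := by ring

/-- **the two-point function** -/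
theorem two_point_abs {F : (V → Spin N) → ℝ} (hF : Continuous F) {A B : Finset V} {x y : V}
    (hyA : y ∉ A) {m m' : ℝ} (hm0 : 0 ≤ m) (hm0' : 0 ≤ m')
    (hm : ∀ (τ : V → Spin N) (e : EuclideanSpace ℝ (Fin N)),
      bInt F A τ (fun S => inner ℝ e (S x : EuclideanSpace ℝ (Fin N))) ≤ m * ‖e‖ * bZ F A τ)
    (hm' : ∀ (τ : V → Spin N) (e : EuclideanSpace ℝ (Fin N)),
      bInt F B τ (fun S => inner ℝ e (S y : EuclideanSpace ℝ (Fin N))) ≤ m' * ‖e‖ * bZ F B τ)
    (s₀ : V → Spin N) {ε : ℝ}
    (hε : ∀ σ r, |cm F A x σ r - cm F A x (merge B s₀ σ) r| ≤ ε) (τ : V → Spin N) :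
    |bInt F Finset.univ τ (fun S => inner ℝ (S x : EuclideanSpace ℝ (Fin N)) (S y))|
      ≤ (m' * m + N * ε) * bZ F Finset.univ τ := by
  have hcm := continuous_cm hF A x
  set Z : (V → Spin N) → EuclideanSpace ℝ (Fin N) := fun σ => cm F A x (merge B s₀ σ) with hZ
  have hZc : Continuous Z := hcm.comp
    ((continuous_merge_pair B).comp (continuous_const.prodMk continuous_id))
  have hy : Continuous fun S : V → Spin N => (S y : EuclideanSpace ℝ (Fin N)) :=
    continuous_subtype_val.comp (continuous_apply y)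
  have hZB : ∀ u τ, Z (merge B u τ) = Z τ := fun u τ => by
    rw [hZ]; simp only; rw [merge_idem]
  have hZn : ∀ σ, ‖Z σ‖ ≤ m := fun σ => norm_cm_le hF A x hm0 hm _
  have hZpos := bZ_pos hF Finset.univ τ
  rw [replace_cm hF hyA]
  have hsplit : bInt F Finset.univ τ
      (fun S => inner ℝ (cm F A x S) (S y : EuclideanSpace ℝ (Fin N)))
      = bInt F Finset.univ τ (fun S => inner ℝ (Z S) (S y : EuclideanSpace ℝ (Fin N)))
        + bInt F Finset.univ τ
          (fun S => inner ℝ (cm F A x S - Z S) (S y : EuclideanSpace ℝ (Fin N))) := by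
    have hc1 : Continuous fun S : V → Spin N =>
        (inner ℝ (Z S) (S y : EuclideanSpace ℝ (Fin N)) : ℝ) := hZc.inner hy
    have hc2 : Continuous fun S : V → Spin N =>
        (inner ℝ (cm F A x S - Z S) (S y : EuclideanSpace ℝ (Fin N)) : ℝ) :=
      (hcm.sub hZc).inner hy
    rw [← bInt_add hF _ _ hc1 hc2]
    congr 1
    funext S
    rw [← inner_add_left, add_sub_cancel]
  rw [hsplit]
  have h1 : |bInt F Finset.univ τ (fun S => inner ℝ (Z S) (S y : EuclideanSpace ℝ (Fin N)))|
      ≤ m' * m * bZ F Finset.univ τ := by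
    have hn : bInt F Finset.univ τ (fun S => ‖Z S‖) ≤ m * bZ F Finset.univ τ := by
      rw [← bInt_const]
      exact bInt_mono hF _ _ hZc.norm continuous_const hZn
    have hn' := mul_le_mul_of_nonneg_left hn hm0'
    have h2 := duality hF (Finset.subset_univ B) hm' Z hZc hZB τ
    have h3 := duality hF (Finset.subset_univ B) hm' (fun S => -Z S) hZc.neg
      (fun u τ => by rw [hZB]) τ
    have e3 : (fun S : V → Spin N => (inner ℝ (-Z S) (S y : EuclideanSpace ℝ (Fin N)) : ℝ))
        = fun S => (-1) * inner ℝ (Z S) (S y : EuclideanSpace ℝ (Fin N)) := by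
      funext S; rw [inner_neg_left]; ring
    rw [e3, bInt_smul] at h3
    simp only [norm_neg] at h3
    rw [abs_le]
    constructor <;> linarith
  have h2 : |bInt F Finset.univ τ
      (fun S => inner ℝ (cm F A x S - Z S) (S y : EuclideanSpace ℝ (Fin N)))|
      ≤ (N * ε) * bZ F Finset.univ τ := by
    apply bInt_abs_le hF _ _ ((hcm.sub hZc).inner hy)
    intro S
    rw [inner_eq]
    refine (Finset.abs_sum_le_sum_abs _ _).trans ?_
    have h3 : ∀ r ∈ (Finset.univ : Finset (Fin N)),
        |(cm F A x S - Z S) r * (S y : EuclideanSpace ℝ (Fin N)) r| ≤ ε := by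
      intro r _
      rw [abs_mul]
      have h4 : |(cm F A x S - Z S) r| ≤ ε := hε S r
      have h5 := abs_comp_le (S y) r
      calc _ ≤ ε * 1 := mul_le_mul h4 h5 (abs_nonneg _) ((abs_nonneg _).trans h4)
        _ = ε := mul_one _
    refine (Finset.sum_le_sum h3).trans (le_of_eq ?_)
    rw [Finset.sum_const, Finset.card_univ, Fintype.card_fin, nsmul_eq_mul]
  refine (abs_add_le _ _).trans ?_
  linarith

end

end Pool.Agent.NVec
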