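import Pool.Agent.H.MP_8be4c0_mp.Bc

/-!
Local Ward identities with boundary conditions.
-/

open MeasureTheory Set Filter Topology

namespace Pool.Agent.NVec

set_option linter.unusedSectionVars false

noncomputable section

variable {n : ℕ} {V : Type} [Fintype V] [DecidableEq V]

/-- differentiation under the integral over the compact configuration space -/
lemma hasDerivAt_integral_cont (F F' : ℝ → (V → Spin (n + 2)) → ℝ)
    (hF : Continuous fun p : ℝ × (V → Spin (n + 2)) => F p.1 p.2)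
    (hF' : Continuous fun p : ℝ × (V → Spin (n + 2)) => F' p.1 p.2)
    (hd : ∀ t S, HasDerivAt (fun t => F t S) (F' t S) t) (t₀ : ℝ) :
    HasDerivAt (fun t => ∫ S, F t S ∂(apriori V (n + 2)))
      (∫ S, F' t₀ S ∂(apriori V (n + 2))) t₀ := by
  obtain ⟨C, hC⟩ := ((isCompact_closedBall t₀ 1).prod
    (isCompact_univ (X := V → Spin (n + 2)))).exists_bound_of_continuousOn hF'.continuousOn
  have h := hasDerivAt_integral_of_dominated_loc_of_deriv_le (μ := apriori V (n + 2))
    (F := F) (F' := F') (x₀ := t₀) (s := Metric.closedBall t₀ 1) (bound := fun _ => C)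
    (Metric.closedBall_mem_nhds t₀ one_pos)
    (Eventually.of_forall fun t =>
      (hF.comp (Continuous.prodMk_right t)).aestronglyMeasurable)
    (integrable_cont _ (hF.comp (Continuous.prodMk_right t₀)))
    ((hF'.comp (Continuous.prodMk_right t₀)).aestronglyMeasurable)
    (Eventually.of_forall fun S t ht => hC (t, S) ⟨ht, mem_univ _⟩)
    (integrable_const C)
    (Eventually.of_forall fun S t _ => hd t S)
  exact h.2

/-- product in the plane `(0,q)` -/
def P2 (q : Fin (n + 2)) (u v : EuclideanSpace ℝ (Fin (n + 2))) : ℝ := u 0 * v 0 + u q * v q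

/-- wedge in the plane `(0,q)` -/
def Q2 (q : Fin (n + 2)) (u v : EuclideanSpace ℝ (Fin (n + 2))) : ℝ := u 0 * v q - u q * v 0

lemma abs_Q2_le {q : Fin (n + 2)} (hq : (0 : Fin (n + 2)) ≠ q) (u v : Spin (n + 2)) :
    |Q2 q (u : EuclideanSpace ℝ (Fin (n + 2))) v| ≤ 1 := by
  have h1 := sq_add_sq_le hq u
  have h2 := sq_add_sq_le hq v
  unfold Q2
  set a := (u : EuclideanSpace ℝ (Fin (n + 2))) 0
  set b := (u : EuclideanSpace ℝ (Fin (n + 2))) q
  set c := (v : EuclideanSpace ℝ (Fin (n + 2))) 0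
  set d := (v : EuclideanSpace ℝ (Fin (n + 2))) q
  rw [abs_le]
  constructor
  · nlinarith [sq_nonneg (a + d), sq_nonneg (b - c)]
  · nlinarith [sq_nonneg (a - d), sq_nonneg (b + c)]

lemma continuous_P2 (q : Fin (n + 2)) (i k : V) : Continuous fun S : V → Spin (n + 2) =>
    P2 q (S i : EuclideanSpace ℝ (Fin (n + 2))) (S k) := by
  unfold P2
  exact ((continuous_coord i 0).mul (continuous_coord k 0)).add
    ((continuous_coord i q).mul (continuous_coord k q))

lemma continuous_Q2 (q : Fin (n + 2)) (i k : V) : Continuous fun S : V → Spin (n + 2) =>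
    Q2 q (S i : EuclideanSpace ℝ (Fin (n + 2))) (S k) := by
  unfold Q2
  exact ((continuous_coord i 0).mul (continuous_coord k q)).sub
    ((continuous_coord i q).mul (continuous_coord k 0))

/-- minus the energy along the flow -/
def Wf (c : V → V → ℝ) (ψ : V → ℝ) (q : Fin (n + 2)) (t : ℝ) (S : V → Spin (n + 2)) : ℝ :=
  W c 0 S + ∑ i, ∑ k, c i k * ((Real.cos (t * (ψ i - ψ k)) - 1) * P2 q (S i) (S k)
    + Real.sin (t * (ψ i - ψ k)) * Q2 q (S i) (S k))

/-- its first derivative -/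
def Wf1 (c : V → V → ℝ) (ψ : V → ℝ) (q : Fin (n + 2)) (t : ℝ) (S : V → Spin (n + 2)) : ℝ :=
  ∑ i, ∑ k, c i k * (-(ψ i - ψ k) * Real.sin (t * (ψ i - ψ k)) * P2 q (S i) (S k)
    + (ψ i - ψ k) * Real.cos (t * (ψ i - ψ k)) * Q2 q (S i) (S k))

/-- its second derivative -/
def Wf2 (c : V → V → ℝ) (ψ : V → ℝ) (q : Fin (n + 2)) (t : ℝ) (S : V → Spin (n + 2)) : ℝ :=
  ∑ i, ∑ k, c i k * (-(ψ i - ψ k) ^ 2 * Real.cos (t * (ψ i - ψ k)) * P2 q (S i) (S k)
    - (ψ i - ψ k) ^ 2 * Real.sin (t * (ψ i - ψ k)) * Q2 q (S i) (S k))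

/-- the current -/
def Yq (c : V → V → ℝ) (ψ : V → ℝ) (q : Fin (n + 2)) (S : V → Spin (n + 2)) : ℝ :=
  ∑ i, ∑ k, c i k * ((ψ i - ψ k) * Q2 q (S i) (S k))

lemma Wf1_zero (c : V → V → ℝ) (ψ : V → ℝ) (q : Fin (n + 2)) (S : V → Spin (n + 2)) :
    Wf1 c ψ q 0 S = Yq c ψ q S := by
  unfold Wf1 Yq; simp

lemma Wf_zero (c : V → V → ℝ) (ψ : V → ℝ) (q : Fin (n + 2)) (S : V → Spin (n + 2)) :
    Wf c ψ q 0 S = W c 0 S := by
  unfold Wf; simp

lemma Wf2_zero (c : V → V → ℝ) (ψ : V → ℝ) (q : Fin (n + 2)) (S : V → Spin (n + 2)) :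
    Wf2 c ψ q 0 S = -∑ i, ∑ k, c i k * ((ψ i - ψ k) ^ 2 * P2 q (S i) (S k)) := by
  unfold Wf2
  rw [← Finset.sum_neg_distrib]
  refine Finset.sum_congr rfl fun i _ => ?_
  rw [← Finset.sum_neg_distrib]
  refine Finset.sum_congr rfl fun k _ => ?_
  simp

lemma W_flow (c : V → V → ℝ) (ψ : V → ℝ) {q : Fin (n + 2)} (hq : (0 : Fin (n + 2)) ≠ q) (t : ℝ)
    (S : V → Spin (n + 2)) : W c 0 (rotP hq (fun i => t * ψ i) S) = Wf c ψ q t S := by
  unfold W Wf P2 Q2 W
  rw [← Finset.sum_add_distrib]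
  refine Finset.sum_congr rfl fun i _ => ?_
  rw [← Finset.sum_add_distrib]
  refine Finset.sum_congr rfl fun k _ => ?_
  rw [coe_rotP, coe_rotP, inner_rotFun hq, ← mul_sub]
  simp only [Pi.zero_apply, zero_mul, add_zero]
  ring

lemma Yq_flow (c : V → V → ℝ) (ψ : V → ℝ) {q : Fin (n + 2)} (hq : (0 : Fin (n + 2)) ≠ q) (t : ℝ)
    (S : V → Spin (n + 2)) : Yq c ψ q (rotP hq (fun i => t * ψ i) S) = Wf1 c ψ q t S := by
  unfold Yq Wf1 P2 Q2
  refine Finset.sum_congr rfl fun i _ => ?_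
  refine Finset.sum_congr rfl fun k _ => ?_
  rw [coe_rotP, coe_rotP, rotFun_p, rotFun_p, rotFun_q hq, rotFun_q hq, mul_sub t, Real.cos_sub,
    Real.sin_sub]
  ring

lemma hasDerivAt_Wf (c : V → V → ℝ) (ψ : V → ℝ) (q : Fin (n + 2)) (S : V → Spin (n + 2))
    (t : ℝ) : HasDerivAt (fun t => Wf c ψ q t S) (Wf1 c ψ q t S) t := by
  unfold Wf Wf1
  apply HasDerivAt.const_add
  apply HasDerivAt.fun_sum
  intro i _
  apply HasDerivAt.fun_sum
  intro k _
  apply HasDerivAt.const_mul
  have h1 : HasDerivAt (fun t : ℝ => t * (ψ i - ψ k)) (ψ i - ψ k) t := by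
    simpa using (hasDerivAt_id t).mul_const (ψ i - ψ k)
  have h2 := (h1.cos.sub_const 1).mul_const (P2 q (S i : EuclideanSpace ℝ (Fin (n + 2))) (S k))
  have h3 := h1.sin.mul_const (Q2 q (S i : EuclideanSpace ℝ (Fin (n + 2))) (S k))
  have h4 := h2.add h3
  refine h4.congr_deriv ?_
  ring

lemma hasDerivAt_Wf1 (c : V → V → ℝ) (ψ : V → ℝ) (q : Fin (n + 2)) (S : V → Spin (n + 2))
    (t : ℝ) : HasDerivAt (fun t => Wf1 c ψ q t S) (Wf2 c ψ q t S) t := by
  unfold Wf1 Wf2
  apply HasDerivAt.fun_sum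
  intro i _
  apply HasDerivAt.fun_sum
  intro k _
  apply HasDerivAt.const_mul
  have h1 : HasDerivAt (fun t : ℝ => t * (ψ i - ψ k)) (ψ i - ψ k) t := by
    simpa using (hasDerivAt_id t).mul_const (ψ i - ψ k)
  have h2 := (h1.sin.const_mul (-(ψ i - ψ k))).mul_const
    (P2 q (S i : EuclideanSpace ℝ (Fin (n + 2))) (S k))
  have h3 := (h1.cos.const_mul (ψ i - ψ k)).mul_const
    (Q2 q (S i : EuclideanSpace ℝ (Fin (n + 2))) (S k))
  have h4 := h2.add h3
  refine h4.congr_deriv ?_
  ring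

lemma continuous_Wf (c : V → V → ℝ) (ψ : V → ℝ) (q : Fin (n + 2)) :
    Continuous fun p : ℝ × (V → Spin (n + 2)) => Wf c ψ q p.1 p.2 := by
  unfold Wf
  refine ((continuous_W c 0).comp continuous_snd).add ?_
  refine continuous_finsetSum _ fun i _ => continuous_finsetSum _ fun k _ => ?_
  have h1 := (continuous_P2 (n := n) q i k).comp (continuous_snd (X := ℝ))
  have h2 := (continuous_Q2 (n := n) q i k).comp (continuous_snd (X := ℝ))
  have h3 : Continuous fun p : ℝ × (V → Spin (n + 2)) => p.1 * (ψ i - ψ k) :=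
    continuous_fst.mul continuous_const
  exact continuous_const.mul ((((Real.continuous_cos.comp h3).sub continuous_const).mul h1).add
    ((Real.continuous_sin.comp h3).mul h2))

lemma continuous_Wf1 (c : V → V → ℝ) (ψ : V → ℝ) (q : Fin (n + 2)) :
    Continuous fun p : ℝ × (V → Spin (n + 2)) => Wf1 c ψ q p.1 p.2 := by
  unfold Wf1
  refine continuous_finsetSum _ fun i _ => continuous_finsetSum _ fun k _ => ?_
  have h1 := (continuous_P2 (n := n) q i k).comp (continuous_snd (X := ℝ))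
  have h2 := (continuous_Q2 (n := n) q i k).comp (continuous_snd (X := ℝ))
  have h3 : Continuous fun p : ℝ × (V → Spin (n + 2)) => p.1 * (ψ i - ψ k) :=
    continuous_fst.mul continuous_const
  exact continuous_const.mul (((continuous_const.mul (Real.continuous_sin.comp h3)).mul h1).add
    ((continuous_const.mul (Real.continuous_cos.comp h3)).mul h2))

lemma continuous_Wf2 (c : V → V → ℝ) (ψ : V → ℝ) (q : Fin (n + 2)) :
    Continuous fun p : ℝ × (V → Spin (n + 2)) => Wf2 c ψ q p.1 p.2 := by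
  unfold Wf2
  refine continuous_finsetSum _ fun i _ => continuous_finsetSum _ fun k _ => ?_
  have h1 := (continuous_P2 (n := n) q i k).comp (continuous_snd (X := ℝ))
  have h2 := (continuous_Q2 (n := n) q i k).comp (continuous_snd (X := ℝ))
  have h3 : Continuous fun p : ℝ × (V → Spin (n + 2)) => p.1 * (ψ i - ψ k) :=
    continuous_fst.mul continuous_const
  exact continuous_const.mul (((continuous_const.mul (Real.continuous_cos.comp h3)).mul h1).sub
    ((continuous_const.mul (Real.continuous_sin.comp h3)).mul h2))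

lemma continuous_Yq (c : V → V → ℝ) (ψ : V → ℝ) (q : Fin (n + 2)) :
    Continuous (Yq c ψ q : (V → Spin (n + 2)) → ℝ) := by
  unfold Yq
  exact continuous_finsetSum _ fun i _ => continuous_finsetSum _ fun k _ =>
    continuous_const.mul (continuous_const.mul (continuous_Q2 q i k))

/-- the rotation commutes with merging -/
lemma rotP_merge {q : Fin (n + 2)} (hq : (0 : Fin (n + 2)) ≠ q) (A : Finset V) (φ : V → ℝ)
    (hφ : ∀ i, i ∉ A → φ i = 0) (u τ : V → Spin (n + 2)) :
    merge A (rotP hq φ u) τ = rotP hq φ (merge A u τ) := by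
  funext i
  by_cases hi : i ∈ A
  · rw [merge_in hi]
    unfold rotP
    rw [merge_in hi]
  · rw [merge_out hi]
    unfold rotP
    rw [merge_out hi, hφ i hi]
    apply Subtype.ext
    rw [coe_act, rot_apply]
    ext r
    unfold rotFun
    simp only [Real.cos_zero, Real.sin_zero]
    split_ifs with h1 h2
    · rw [h1]; ring
    · rw [h2]; ring
    · rfl

/-- the abstract Ward identity -/
lemma ward_abs {q : Fin (n + 2)} (hq : (0 : Fin (n + 2)) ≠ q) (A : Finset V) (ψ : V → ℝ)
    (hψ : ∀ i, i ∉ A → ψ i = 0) (τ : V → Spin (n + 2))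
    (G : (V → Spin (n + 2)) → ℝ) (hG : Continuous G) (F F' : ℝ → (V → Spin (n + 2)) → ℝ)
    (hF : Continuous fun p : ℝ × (V → Spin (n + 2)) => F p.1 p.2)
    (hF' : Continuous fun p : ℝ × (V → Spin (n + 2)) => F' p.1 p.2)
    (hd : ∀ t S, HasDerivAt (fun t => F t S) (F' t S) t)
    (hFG : ∀ t S, F t S = G (rotP hq (fun i => t * ψ i) S)) :
    ∫ u, F' 0 (merge A u τ) ∂(apriori V (n + 2)) = 0 := by
  have hm : Continuous fun p : ℝ × (V → Spin (n + 2)) => (p.1, merge A p.2 τ) :=
    continuous_fst.prodMk ((continuous_merge A τ).comp continuous_snd)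
  have h1 := hasDerivAt_integral_cont (fun t u => F t (merge A u τ))
    (fun t u => F' t (merge A u τ)) (hF.comp hm) (hF'.comp hm)
    (fun t u => hd t (merge A u τ)) 0
  have h2 : (fun t => ∫ u, F t (merge A u τ) ∂(apriori V (n + 2)))
      = fun _ => ∫ u, G (merge A u τ) ∂(apriori V (n + 2)) := by
    funext t
    rw [← integral_rotP hq (fun i => t * ψ i) (fun u => G (merge A u τ))
      (hG.comp (continuous_merge A τ))]
    refine integral_congr_ae (Eventually.of_forall fun u => ?_)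
    simp only
    rw [rotP_merge hq A (fun i => t * ψ i) (fun i hi => by rw [hψ i hi, mul_zero]), hFG]
  rw [h2] at h1
  exact h1.unique (hasDerivAt_const 0 _)

variable (c : V → V → ℝ) (A : Finset V) (ψ : V → ℝ)

/-- first Ward identity -/
lemma ward_one {q : Fin (n + 2)} (hq : (0 : Fin (n + 2)) ≠ q)
    (hψ : ∀ i, i ∉ A → ψ i = 0) (τ : V → Spin (n + 2)) :
    bInt (W c 0) A τ (Yq c ψ q) = 0 := by
  have h := ward_abs hq A ψ hψ τ (fun S => Real.exp (W c 0 S)) (continuous_expW c 0)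
    (fun t S => Real.exp (Wf c ψ q t S)) (fun t S => Real.exp (Wf c ψ q t S) * Wf1 c ψ q t S)
    (Real.continuous_exp.comp (continuous_Wf c ψ q))
    ((Real.continuous_exp.comp (continuous_Wf c ψ q)).mul (continuous_Wf1 c ψ q))
    (fun t S => (hasDerivAt_Wf c ψ q S t).exp)
    (fun t S => by rw [W_flow c ψ hq])
  unfold bInt
  rw [← h]
  refine integral_congr_ae (Eventually.of_forall fun u => ?_)
  simp only
  rw [Wf_zero, Wf1_zero]
  ring

/-- second Ward identity -/
lemma ward_spin {q : Fin (n + 2)} (hq : (0 : Fin (n + 2)) ≠ q)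
    (hψ : ∀ i, i ∉ A → ψ i = 0) {x : V} (hx : ψ x = 1) (τ : V → Spin (n + 2)) :
    bInt (W c 0) A τ (fun S => (S x : EuclideanSpace ℝ (Fin (n + 2))) q * Yq c ψ q S)
      = -bInt (W c 0) A τ (fun S => (S x : EuclideanSpace ℝ (Fin (n + 2))) 0) := by
  have c0 := (continuous_coord (n := n) x 0).comp (continuous_snd (X := ℝ))
  have cq := (continuous_coord (n := n) x q).comp (continuous_snd (X := ℝ))
  have cs : Continuous fun p : ℝ × (V → Spin (n + 2)) => Real.sin p.1 :=
    Real.continuous_sin.comp continuous_fst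
  have cc : Continuous fun p : ℝ × (V → Spin (n + 2)) => Real.cos p.1 :=
    Real.continuous_cos.comp continuous_fst
  have h := ward_abs hq A ψ hψ τ
    (fun S => (S x : EuclideanSpace ℝ (Fin (n + 2))) q * Real.exp (W c 0 S))
    ((continuous_coord x q).mul (continuous_expW c 0))
    (fun t S => (Real.sin t * (S x : EuclideanSpace ℝ (Fin (n + 2))) 0
      + Real.cos t * (S x : EuclideanSpace ℝ (Fin (n + 2))) q) * Real.exp (Wf c ψ q t S))
    (fun t S => (Real.cos t * (S x : EuclideanSpace ℝ (Fin (n + 2))) 0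
      + -Real.sin t * (S x : EuclideanSpace ℝ (Fin (n + 2))) q) * Real.exp (Wf c ψ q t S)
      + (Real.sin t * (S x : EuclideanSpace ℝ (Fin (n + 2))) 0
      + Real.cos t * (S x : EuclideanSpace ℝ (Fin (n + 2))) q)
        * (Real.exp (Wf c ψ q t S) * Wf1 c ψ q t S))
    (((cs.mul c0).add (cc.mul cq)).mul (Real.continuous_exp.comp (continuous_Wf c ψ q)))
    ((((cc.mul c0).add (cs.neg.mul cq)).mul
      (Real.continuous_exp.comp (continuous_Wf c ψ q))).add
      (((cs.mul c0).add (cc.mul cq)).mul ((Real.continuous_exp.comp (continuous_Wf c ψ q)).mul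
        (continuous_Wf1 c ψ q))))
    (fun t S => (((Real.hasDerivAt_sin t).mul_const _).add
      ((Real.hasDerivAt_cos t).mul_const _)).mul (hasDerivAt_Wf c ψ q S t).exp)
    (fun t S => by
      rw [W_flow c ψ hq, coe_rotP, rotFun_q hq, hx, mul_one])
  have e : ∀ u : V → Spin (n + 2), (Real.cos 0 * (merge A u τ x : EuclideanSpace ℝ (Fin (n + 2))) 0
      + -Real.sin 0 * (merge A u τ x : EuclideanSpace ℝ (Fin (n + 2))) q)
        * Real.exp (Wf c ψ q 0 (merge A u τ))
      + (Real.sin 0 * (merge A u τ x : EuclideanSpace ℝ (Fin (n + 2))) 0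
      + Real.cos 0 * (merge A u τ x : EuclideanSpace ℝ (Fin (n + 2))) q)
        * (Real.exp (Wf c ψ q 0 (merge A u τ)) * Wf1 c ψ q 0 (merge A u τ))
      = (merge A u τ x : EuclideanSpace ℝ (Fin (n + 2))) 0 * Real.exp (W c 0 (merge A u τ))
        + ((merge A u τ x : EuclideanSpace ℝ (Fin (n + 2))) q * Yq c ψ q (merge A u τ))
          * Real.exp (W c 0 (merge A u τ)) := by
    intro u
    rw [Wf_zero, Wf1_zero, Real.sin_zero, Real.cos_zero]
    ring
  simp_rw [e] at h
  have cY : Continuous fun S : V → Spin (n + 2) =>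
      (S x : EuclideanSpace ℝ (Fin (n + 2))) q * Yq c ψ q S :=
    (continuous_coord x q).mul (continuous_Yq c ψ q)
  rw [integral_add (bInt_integrable (continuous_W c 0) A τ (continuous_coord x 0))
    (bInt_integrable (continuous_W c 0) A τ cY)] at h
  unfold bInt
  linarith

/-- third Ward identity -/
lemma ward_current {q : Fin (n + 2)} (hq : (0 : Fin (n + 2)) ≠ q)
    (hψ : ∀ i, i ∉ A → ψ i = 0) (τ : V → Spin (n + 2)) :
    bInt (W c 0) A τ (fun S => Yq c ψ q S ^ 2)
      = bInt (W c 0) A τ (fun S => ∑ i, ∑ k, c i k * ((ψ i - ψ k) ^ 2 * P2 q (S i) (S k))) := by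
  have h := ward_abs hq A ψ hψ τ
    (fun S => Yq c ψ q S * Real.exp (W c 0 S))
    ((continuous_Yq c ψ q).mul (continuous_expW c 0))
    (fun t S => Wf1 c ψ q t S * Real.exp (Wf c ψ q t S))
    (fun t S => Wf2 c ψ q t S * Real.exp (Wf c ψ q t S)
      + Wf1 c ψ q t S * (Real.exp (Wf c ψ q t S) * Wf1 c ψ q t S))
    ((continuous_Wf1 c ψ q).mul (Real.continuous_exp.comp (continuous_Wf c ψ q)))
    (((continuous_Wf2 c ψ q).mul (Real.continuous_exp.comp (continuous_Wf c ψ q))).add
      ((continuous_Wf1 c ψ q).mul ((Real.continuous_exp.comp (continuous_Wf c ψ q)).mul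
        (continuous_Wf1 c ψ q))))
    (fun t S => (hasDerivAt_Wf1 c ψ q S t).mul (hasDerivAt_Wf c ψ q S t).exp)
    (fun t S => by rw [W_flow c ψ hq, Yq_flow c ψ hq])
  have e : ∀ u : V → Spin (n + 2), Wf2 c ψ q 0 (merge A u τ) * Real.exp (Wf c ψ q 0 (merge A u τ))
      + Wf1 c ψ q 0 (merge A u τ) * (Real.exp (Wf c ψ q 0 (merge A u τ))
        * Wf1 c ψ q 0 (merge A u τ))
      = (Yq c ψ q (merge A u τ)) ^ 2 * Real.exp (W c 0 (merge A u τ))
        - (∑ i, ∑ k, c i k * ((ψ i - ψ k) ^ 2 * P2 q (merge A u τ i) (merge A u τ k)))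
          * Real.exp (W c 0 (merge A u τ)) := by
    intro u
    rw [Wf_zero, Wf1_zero, Wf2_zero]
    ring
  have cY2 : Continuous fun S : V → Spin (n + 2) => Yq c ψ q S ^ 2 := (continuous_Yq c ψ q).pow 2
  have cP : Continuous fun S : V → Spin (n + 2) =>
      ∑ i, ∑ k, c i k * ((ψ i - ψ k) ^ 2 * P2 q (S i) (S k)) :=
    continuous_finsetSum _ fun i _ => continuous_finsetSum _ fun k _ =>
      continuous_const.mul (continuous_const.mul (continuous_P2 q i k))
  simp_rw [e] at h
  rw [integral_sub (bInt_integrable (continuous_W c 0) A τ cY2)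
    (bInt_integrable (continuous_W c 0) A τ cP)] at h
  unfold bInt
  linarith

end

end Pool.Agent.NVec
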